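import Pool.Agent.MDF.Defs

set_option autoImplicit false

open scoped Classical

namespace Pool.Agent.MDF

open Finset Pool.Agent.MD437

variable {n : ℕ}

/-- DET -/
theorem pow_bounds {p : ℝ} (hp0 : 0 ≤ p) (hp1 : p ≤ 1) (s : ℕ) :
    1 - (1 - p) ^ s ≤ p * s ∧ (p * s ≤ 1 → p * s / 2 ≤ 1 - (1 - p) ^ s) ∧
      0 ≤ 1 - (1 - p) ^ s ∧ 1 - (1 - p) ^ s ≤ 1 := by
  have h0 : 0 ≤ (1 - p) ^ s := pow_nonneg (by linarith) s
  have h1 : (1 - p) ^ s ≤ 1 := pow_le_one₀ (by linarith) (by linarith)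
  refine ⟨?_, ?_, by linarith, by linarith⟩
  · have h2 := one_add_mul_le_pow (show (-2 : ℝ) ≤ -p by linarith) s
    have h3 : (1 + -p) = 1 - p := by ring
    rw [h3] at h2
    linarith
  · intro hps
    have h2 : 1 + (s : ℝ) * p ≤ (1 + p) ^ s := one_add_mul_le_pow (by linarith) s
    have h3 : (1 - p) ^ s * (1 + p) ^ s ≤ 1 := by
      rw [← mul_pow]
      apply pow_le_one₀
      · have : (1 - p) * (1 + p) = 1 - p ^ 2 := by ring
        rw [this]
        nlinarith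
      · have : (1 - p) * (1 + p) = 1 - p ^ 2 := by ring
        rw [this]
        nlinarith
    have h4 : (1 - p) ^ s * (1 + (s : ℝ) * p) ≤ 1 :=
      (mul_le_mul_of_nonneg_left h2 h0).trans h3
    have hs0 : 0 ≤ p * s := by positivity
    have h5 : 1 ≤ (1 - p * s / 2) * (1 + (s : ℝ) * p) := by nlinarith
    have h6 : (1 - p) ^ s * (1 + (s : ℝ) * p) ≤ (1 - p * s / 2) * (1 + (s : ℝ) * p) :=
      h4.trans h5
    have h7 : 0 < 1 + (s : ℝ) * p := by nlinarith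
    have h8 := le_of_mul_le_mul_right h6 h7
    linarith

private theorem det_pow_sub {p : ℝ} (hp0 : 0 ≤ p) (hp1 : p ≤ 1) (b m : ℕ) :
    p * m * (1 - p) ^ (b + m) ≤ (1 - p) ^ b - (1 - p) ^ (b + m) := by
  induction m with
  | zero => simp
  | succ m ih =>
    have h0 : 0 ≤ (1 - p) ^ (b + m) := pow_nonneg (by linarith) _
    have h1 : (1 - p) ^ (b + (m + 1)) = (1 - p) ^ (b + m) * (1 - p) := by
      rw [← add_assoc, pow_succ]
    rw [h1]
    push_cast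
    have h2 : 0 ≤ p * (m + 1) * ((1 - p) ^ (b + m) * p) := by positivity
    nlinarith

private theorem det_abs {p ν : ℝ} (hp0 : 0 ≤ p) (hp1 : p ≤ 1) (a b : ℕ) (hab : b ≤ a)
    (ha : ν ≤ (1 - p) ^ a) : p * ν * |(a : ℝ) - b| ≤ |(1 - p) ^ b - (1 - p) ^ a| := by
  obtain ⟨m, rfl⟩ := Nat.exists_eq_add_of_le hab
  have h1 := det_pow_sub hp0 hp1 b m
  have h2 : |((b + m : ℕ) : ℝ) - b| = m := by
    push_cast
    rw [add_sub_cancel_left, abs_of_nonneg (by positivity)]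
  rw [h2]
  refine le_trans ?_ (le_abs_self _)
  refine le_trans ?_ h1
  have h3 : 0 ≤ p * m := by positivity
  nlinarith [mul_le_mul_of_nonneg_left ha h3]

/-- DET -/
theorem det_step {p ν t K A B a' b' : ℝ} {n a b : ℕ} (hp0 : 0 ≤ p) (hp1 : p ≤ 1)
    (ha : ν ≤ (1 - p) ^ a) (hb : ν ≤ (1 - p) ^ b) (hA : A ≤ n / 2) (hB : B ≤ n / 2)
    (h1 : |a' - (n - A) * (1 - (1 - p) ^ a)| ≤ t)
    (h2 : |b' - (n - B) * (1 - (1 - p) ^ b)| ≤ t) (h3 : |a' - b'| ≤ t) (h4 : |A - B| ≤ K) :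
    n * p * ν * |(a : ℝ) - b| ≤ 2 * (3 * t + K) := by
  have hn0 : (0 : ℝ) ≤ (n : ℝ) := by positivity
  have hbb := (pow_bounds hp0 hp1 b).2.2
  have hf : p * ν * |(a : ℝ) - b| ≤ |(1 - p) ^ b - (1 - p) ^ a| := by
    rcases le_total b a with h | h
    · exact det_abs hp0 hp1 a b h ha
    · have := det_abs hp0 hp1 b a h hb
      rwa [abs_sub_comm (b : ℝ) (a : ℝ), abs_sub_comm ((1 - p) ^ a) ((1 - p) ^ b)] at this
  have hD : |(n - A) * ((1 - p) ^ b - (1 - p) ^ a)| ≤ 3 * t + K := by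
    have e : (n - A) * ((1 - p) ^ b - (1 - p) ^ a) =
        (a' - b') - (a' - (n - A) * (1 - (1 - p) ^ a)) + (b' - (n - B) * (1 - (1 - p) ^ b))
          + (A - B) * (1 - (1 - p) ^ b) := by ring
    rw [e]
    have h5 : |(A - B) * (1 - (1 - p) ^ b)| ≤ K := by
      rw [abs_mul, abs_of_nonneg hbb.1]
      calc |A - B| * (1 - (1 - p) ^ b) ≤ |A - B| * 1 :=
            mul_le_mul_of_nonneg_left hbb.2 (abs_nonneg _)
        _ ≤ K := by rw [mul_one]; exact h4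
    have h6 := abs_le.1 h1
    have h7 := abs_le.1 h2
    have h8 := abs_le.1 h3
    have h9 := abs_le.1 h5
    rw [abs_le]
    constructor <;> linarith
  rw [abs_mul] at hD
  have hnA : (n : ℝ) / 2 ≤ |(n : ℝ) - A| := le_trans (by linarith) (le_abs_self _)
  have h10 : (n : ℝ) / 2 * |(1 - p) ^ b - (1 - p) ^ a| ≤ 3 * t + K :=
    (mul_le_mul_of_nonneg_right hnA (abs_nonneg _)).trans hD
  have h11 : (n : ℝ) / 2 * (p * ν * |(a : ℝ) - b|) ≤ 3 * t + K :=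
    (mul_le_mul_of_nonneg_left hf (by linarith)).trans h10
  have h12 : n * p * ν * |(a : ℝ) - b| = 2 * ((n : ℝ) / 2 * (p * ν * |(a : ℝ) - b|)) := by ring
  rw [h12]
  linarith

end Pool.Agent.MDF
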