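import Pool.Agent.MDF.Defs
import Pool.Agent.MDF.DET

set_option autoImplicit false

open scoped Classical

namespace Pool.Agent.MDF

open Finset Pool.Agent.MD437

variable {n : ℕ}

lemma asa_exp_le {p : ℝ} (h0 : 0 ≤ p) (h1 : p ≤ 1 / 2) : Real.exp (-(2 * p)) ≤ 1 - p := by
  have h2 : 1 + 2 * p ≤ Real.exp (2 * p) := by
    have := Real.add_one_le_exp (2 * p)
    linarith
  have h3 : (0 : ℝ) < 1 + 2 * p := by linarith
  have h4 : (1 - p) * (1 + 2 * p) ≥ 1 := by nlinarith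
  rw [Real.exp_neg]
  calc (Real.exp (2 * p))⁻¹ ≤ (1 + 2 * p)⁻¹ := inv_anti₀ h3 h2
    _ ≤ 1 - p := by
      rw [inv_le_iff_one_le_mul₀ h3]
      linarith

lemma asa_exp_half {y : ℝ} (h0 : 0 ≤ y) (h1 : y ≤ 1) : Real.exp (-y) ≤ 1 - y / 2 := by
  have h2 : 1 + y ≤ Real.exp y := by
    have := Real.add_one_le_exp y
    linarith
  have h3 : (0 : ℝ) < 1 + y := by linarith
  have h4 : (1 - y / 2) * (1 + y) ≥ 1 := by nlinarith
  rw [Real.exp_neg]
  calc (Real.exp y)⁻¹ ≤ (1 + y)⁻¹ := inv_anti₀ h3 h2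
    _ ≤ 1 - y / 2 := by
      rw [inv_le_iff_one_le_mul₀ h3]
      linarith

lemma asa_pow_ge {p : ℝ} (h0 : 0 ≤ p) (h1 : p ≤ 1 / 2) (s : ℕ) :
    Real.exp (-(2 * p * s)) ≤ (1 - p) ^ s := by
  have h2 : Real.exp (-(2 * p * s)) = Real.exp (-(2 * p)) ^ s := by
    rw [← Real.exp_nat_mul]
    congr 1
    ring
  rw [h2]
  exact pow_le_pow_left₀ (Real.exp_pos _).le (asa_exp_le h0 h1) s

lemma asa_bern {p : ℝ} (h1 : p ≤ 1) (s : ℕ) : 1 - (1 - p) ^ s ≤ p * s := by
  have h := one_add_mul_le_pow (a := -p) (by linarith) s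
  have e : (1 + -p) ^ s = (1 - p) ^ s := by ring
  rw [e] at h
  nlinarith

lemma asa_lower {p : ℝ} (h0 : 0 ≤ p) (h1 : p ≤ 1) (s : ℕ) (hs : p * s ≤ 1) :
    p * s / 2 ≤ 1 - (1 - p) ^ s := by
  have h2 : (1 - p) ^ s ≤ Real.exp (-p) ^ s := by
    refine pow_le_pow_left₀ (by linarith) ?_ s
    have := Real.add_one_le_exp (-p)
    linarith
  have h3 : Real.exp (-p) ^ s = Real.exp (-(p * s)) := by
    rw [← Real.exp_nat_mul]
    congr 1
    ring
  have h4 := asa_exp_half (y := p * s) (by positivity) hs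
  rw [h3] at h2
  linarith

lemma asa_floor {y : ℝ} (hy : 1 ≤ y) : y / 2 ≤ (⌊y⌋₊ : ℝ) := by
  have h1 : y < ⌊y⌋₊ + 1 := Nat.lt_floor_add_one y
  have h2 : (1 : ℝ) ≤ ⌊y⌋₊ := by
    have : 1 ≤ ⌊y⌋₊ := (Nat.one_le_floor_iff y).2 hy
    exact_mod_cast this
  by_cases h3 : 2 ≤ y
  · linarith
  · linarith

lemma asa_nu_pos (i : ℕ) : 0 < nuN i := Real.exp_pos _

lemma asa_nu_le (i : ℕ) : nuN i ≤ 1 := by
  unfold nuN
  rw [Real.exp_le_one_iff]
  have : (0 : ℝ) ≤ 8 * 5 ^ i := by positivity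
  linarith

lemma asa_dpow (x : ℝ) {n : ℕ} (k : ℕ) : dN x n ^ k = (n : ℝ) ^ (x * k) := by
  unfold dN
  rw [Real.rpow_mul (Nat.cast_nonneg n), Real.rpow_natCast]

theorem asa_mN (i n : ℕ) (x : ℝ) (hc : 1 ≤ cN i * dN x n) (k : ℕ) :
    (cN i * dN x n) ^ k / 2 ≤ (mN x i n k : ℝ) :=
  asa_floor (one_le_pow₀ hc)

theorem asa_hyp (i n : ℕ) (x ε : ℝ) (hi : 2 ≤ i) (hx0 : 0 < x) (hx1 : i * x ≤ 1)
    (hε : 0 < ε) (hεx : ε ≤ x / 2) (hn : 16 ≤ n) (hd5 : 4 * 5 ^ i ≤ dN x n)
    (hc : 1 ≤ cN i * dN x n) :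
    Hyp n i (pN x n) (dN x n) (nuN i) (tN x ε n) (LN x ε i n)
      (VN x n) (mN x i n) := by
  have hN16 : (16 : ℝ) ≤ (n : ℝ) := by exact_mod_cast hn
  have hN0 : (0 : ℝ) < (n : ℝ) := by linarith
  have hN1 : (1 : ℝ) ≤ (n : ℝ) := by linarith
  have h5i : (1 : ℝ) ≤ 5 ^ i := one_le_pow₀ (by norm_num)
  have hd1 : 1 ≤ dN x n := by linarith
  have hd0 : 0 < dN x n := by linarith
  have hν0 := asa_nu_pos i
  have hν1 := asa_nu_le i
  have hc0 : 0 < cN i := by unfold cN; positivity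
  have hc1 : cN i ≤ 1 / 128 := by unfold cN; linarith
  -- powers of d
  have hdk : ∀ k ≤ i, dN x n ^ k ≤ n := by
    intro k hk
    rw [asa_dpow]
    calc (n : ℝ) ^ (x * k) ≤ (n : ℝ) ^ (1 : ℝ) := by
          refine Real.rpow_le_rpow_of_exponent_le hN1 ?_
          have : (k : ℝ) ≤ i := by exact_mod_cast hk
          nlinarith
      _ = n := Real.rpow_one _
  have hdi1 : dN x n ^ (i - 1) * (4 * 5 ^ i) ≤ n := by
    calc dN x n ^ (i - 1) * (4 * 5 ^ i) ≤ dN x n ^ (i - 1) * dN x n :=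
          mul_le_mul_of_nonneg_left hd5 (by positivity)
      _ = dN x n ^ i := by
          rw [← pow_succ]
          congr 1
          omega
      _ ≤ n := hdk i le_rfl
  have hd100 : dN x n * 4 ≤ n := by
    have h1 := hdk 2 hi
    nlinarith
  -- the probability
  have hpd : pN x n = dN x n / ((n : ℝ) - 1) := rfl
  have hn1 : (0 : ℝ) < (n : ℝ) - 1 := by linarith
  have hp0 : 0 ≤ pN x n := by rw [hpd]; positivity
  have hp2 : pN x n * n ≤ 2 * dN x n := by
    rw [hpd, div_mul_eq_mul_div, div_le_iff₀ hn1]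
    nlinarith
  have hp3 : dN x n ≤ n * pN x n := by
    rw [hpd, mul_div_assoc', le_div_iff₀ hn1]
    nlinarith
  have hp12 : pN x n ≤ 1 / 2 := by
    rw [hpd, div_le_iff₀ hn1]
    linarith
  have hp1 : pN x n ≤ 1 := by linarith
  -- bounds with 1 + 4 d
  have h14 : 1 + 4 * dN x n ≤ 5 * dN x n := by linarith
  have h14k : ∀ k, (1 + 4 * dN x n) ^ k ≤ 5 ^ k * dN x n ^ k := by
    intro k
    rw [← mul_pow]
    exact pow_le_pow_left₀ (by linarith) h14 k
  have h5mono : ∀ k ≤ i, (5 : ℝ) ^ k ≤ 5 ^ i := fun k hk =>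
    pow_le_pow_right₀ (by norm_num) hk
  have hps : ∀ (k s : ℕ), (s : ℝ) ≤ (1 + 4 * dN x n) ^ k →
      n * (pN x n * s) ≤ 2 * 5 ^ k * dN x n ^ (k + 1) := by
    intro k s hs
    have h1 := hs.trans (h14k k)
    calc (n : ℝ) * (pN x n * s) = (pN x n * n) * s := by ring
      _ ≤ (2 * dN x n) * (5 ^ k * dN x n ^ k) :=
          mul_le_mul hp2 h1 (Nat.cast_nonneg s) (by positivity)
      _ = 2 * 5 ^ k * dN x n ^ (k + 1) := by ring
  refine
    { hp0 := hp0
      hp1 := hp1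
      hn := by omega
      hd := ?_
      hd1 := hd1
      hi := hi
      hν := hν0
      hν1 := hν1
      hroom := ?_
      hpow := ?_
      hhalf := ?_
      hL := ?_
      hL0 := ?_
      ht := ?_
      hV := ?_
      hm0 := ?_
      hm := ?_
      hmpos := ?_ }
  · have : ((n - 1 : ℕ) : ℝ) = (n : ℝ) - 1 := by
      rw [Nat.cast_sub (by omega)]
      simp
    rw [this, hpd]
    field_simp
  · have h1 := h14k (i - 1)
    have h2 : (5 : ℝ) ^ (i - 1) * dN x n ^ (i - 1) ≤ 5 ^ i * dN x n ^ (i - 1) :=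
      mul_le_mul_of_nonneg_right (h5mono _ (by omega)) (by positivity)
    nlinarith
  · intro s hs
    have h1 : (s : ℝ) ≤ 2 * (5 ^ (i - 1) * dN x n ^ (i - 1)) :=
      hs.trans (mul_le_mul_of_nonneg_left (h14k (i - 1)) (by norm_num))
    have h2 : pN x n * s * n ≤ 4 * 5 ^ i * n := by
      calc pN x n * s * n = (pN x n * n) * s := by ring
        _ ≤ (2 * dN x n) * (2 * (5 ^ (i - 1) * dN x n ^ (i - 1))) :=
            mul_le_mul hp2 h1 (Nat.cast_nonneg s) (by positivity)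
        _ = 4 * 5 ^ (i - 1) * (dN x n ^ (i - 1) * dN x n) := by ring
        _ = 4 * 5 ^ (i - 1) * dN x n ^ i := by
            rw [← pow_succ]
            congr 2
            omega
        _ ≤ 4 * 5 ^ i * n :=
            mul_le_mul (mul_le_mul_of_nonneg_left (h5mono _ (by omega)) (by norm_num))
              (hdk i le_rfl) (by positivity) (by positivity)
    have h3 : pN x n * s ≤ 4 * 5 ^ i := le_of_mul_le_mul_right h2 hN0
    refine le_trans ?_ (asa_pow_ge hp0 hp12 s)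
    unfold nuN
    rw [Real.exp_le_exp]
    linarith
  · intro s hs
    have h1 := asa_bern hp1 s
    have h2 := hps (i - 2) s hs
    have h3 : 2 * 5 ^ (i - 2) * dN x n ^ (i - 2 + 1) ≤ (n : ℝ) * (1 / 2) := by
      have e : i - 2 + 1 = i - 1 := by omega
      rw [e]
      have h4 : (5 : ℝ) ^ (i - 2) * dN x n ^ (i - 1) ≤ 5 ^ i * dN x n ^ (i - 1) :=
        mul_le_mul_of_nonneg_right (h5mono _ (by omega)) (by positivity)
      nlinarith
    have h5 : pN x n * s ≤ 1 / 2 := le_of_mul_le_mul_left (h2.trans h3) hN0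
    linarith
  · intro j hj1 hji
    have ht : ∀ k ≤ j, tN x ε n (k + 1) ≤ tN x ε n (j + 1) := by
      intro k hk
      unfold tN
      refine Real.rpow_le_rpow_of_exponent_le hN1 ?_
      have : ((k + 1 : ℕ) : ℝ) ≤ ((j + 1 : ℕ) : ℝ) := by exact_mod_cast Nat.succ_le_succ hk
      nlinarith
    have hsum : ∑ k ∈ Finset.range j, tN x ε n (k + 1) ≤ j * tN x ε n (j + 1) := by
      calc ∑ k ∈ Finset.range j, tN x ε n (k + 1)
          ≤ ∑ _k ∈ Finset.range j, tN x ε n (j + 1) :=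
            Finset.sum_le_sum fun k hk => ht k (Finset.mem_range.1 hk).le
        _ = j * tN x ε n (j + 1) := by
            rw [Finset.sum_const, Finset.card_range, nsmul_eq_mul]
    have htpos : 0 < tN x ε n (j + 1) := Real.rpow_pos_of_pos hN0 _
    have hji' : (j : ℝ) ≤ i := by exact_mod_cast hji.le
    have hL : nuN i * LN x ε i n j = 2 * (3 + i) * (n : ℝ) ^ (ε + x * ((j : ℝ) - 1) / 2) := by
      unfold LN
      field_simp
    have hpow : dN x n * (n : ℝ) ^ (ε + x * ((j : ℝ) - 1) / 2) = tN x ε n (j + 1) := by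
      unfold dN tN
      rw [← Real.rpow_add hN0]
      congr 1
      push_cast
      ring
    have hr0 : 0 < (n : ℝ) ^ (ε + x * ((j : ℝ) - 1) / 2) := Real.rpow_pos_of_pos hN0 _
    have hRHS : 2 * (3 + i) * tN x ε n (j + 1) ≤ n * pN x n * nuN i * LN x ε i n j := by
      rw [mul_assoc (n * pN x n), hL, ← hpow]
      calc 2 * (3 + (i : ℝ)) * (dN x n * (n : ℝ) ^ (ε + x * ((j : ℝ) - 1) / 2))
          = dN x n * (2 * (3 + i) * (n : ℝ) ^ (ε + x * ((j : ℝ) - 1) / 2)) := by ring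
        _ ≤ (n * pN x n) * (2 * (3 + i) * (n : ℝ) ^ (ε + x * ((j : ℝ) - 1) / 2)) :=
            mul_le_mul_of_nonneg_right hp3 (by positivity)
    refine le_trans ?_ hRHS
    have : (j : ℝ) * tN x ε n (j + 1) ≤ i * tN x ε n (j + 1) :=
      mul_le_mul_of_nonneg_right hji' htpos.le
    nlinarith
  · intro j
    unfold LN
    have : 0 < (n : ℝ) ^ (ε + x * ((j : ℝ) - 1) / 2) := Real.rpow_pos_of_pos hN0 _
    positivity
  · intro j _
    refine ⟨Real.rpow_pos_of_pos hN0 _, ?_⟩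
    unfold VN
    rw [asa_dpow]
    have h1 : tN x ε n (j + 1) ≤ (n : ℝ) ^ (x * ((j + 1 : ℕ) : ℝ)) := by
      unfold tN
      refine Real.rpow_le_rpow_of_exponent_le hN1 ?_
      have : (0 : ℝ) ≤ j := Nat.cast_nonneg j
      push_cast
      nlinarith
    have h2 : (1 : ℝ) ≤ 2 * 5 ^ j := by
      have : (1 : ℝ) ≤ 5 ^ j := one_le_pow₀ (by norm_num)
      linarith
    have h3 : 0 < (n : ℝ) ^ (x * ((j + 1 : ℕ) : ℝ)) := Real.rpow_pos_of_pos hN0 _
    nlinarith
  · intro j _ s hs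
    have h1 := asa_bern hp1 s
    have h2 := hps j s hs
    unfold VN
    calc (n : ℝ) * (1 - (1 - pN x n) ^ s) ≤ n * (pN x n * s) :=
          mul_le_mul_of_nonneg_left h1 hN0.le
      _ ≤ _ := h2
  · unfold mN
    simp
  · intro k hk
    have hk1 : k + 1 ≤ i := hk
    have hcd0 : 0 < cN i * dN x n := mul_pos hc0 hd0
    have hmk : (mN x i n k : ℝ) ≤ (cN i * dN x n) ^ k := Nat.floor_le (by positivity)
    have hmk1 : (mN x i n (k + 1) : ℝ) ≤ (cN i * dN x n) ^ (k + 1) := Nat.floor_le (by positivity)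
    have hmk2 := asa_mN i n x hc k
    have hpm : pN x n * (mN x i n k : ℝ) ≤ 1 := by
      rcases Nat.eq_zero_or_pos k with h0 | h0
      · subst h0
        have : mN x i n 0 = 1 := by unfold mN; simp
        rw [this]
        simpa using hp1
      · have h1 : n * (pN x n * (mN x i n k : ℝ)) ≤ n * 1 := by
          calc (n : ℝ) * (pN x n * (mN x i n k : ℝ)) = (pN x n * n) * (mN x i n k : ℝ) := by ring
            _ ≤ (2 * dN x n) * (cN i * dN x n) ^ k :=
                mul_le_mul hp2 hmk (Nat.cast_nonneg _) (by positivity)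
            _ = 2 * cN i ^ k * dN x n ^ (k + 1) := by ring
            _ ≤ 1 * n := by
                refine mul_le_mul ?_ (hdk (k + 1) hk1) (by positivity) (by norm_num)
                have h2 : cN i ^ k ≤ cN i ^ 1 :=
                  pow_le_pow_of_le_one hc0.le (by linarith) h0
                rw [pow_one] at h2
                linarith
            _ = n * 1 := by ring
        exact le_of_mul_le_mul_left h1 hN0
    have hlow := asa_lower hp0 hp1 (mN x i n k) hpm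
    calc (mN x i n (k + 1) : ℝ) ≤ (cN i * dN x n) ^ (k + 1) := hmk1
      _ = nuN i * dN x n * (cN i * dN x n) ^ k / 128 := by
          rw [pow_succ]
          unfold cN
          ring
      _ ≤ nuN i * dN x n * (cN i * dN x n) ^ k / 32 := by
          have : 0 ≤ nuN i * dN x n * (cN i * dN x n) ^ k := by positivity
          linarith
      _ = dN x n * ((cN i * dN x n) ^ k / 2) * (nuN i / 16) := by ring
      _ ≤ (n * pN x n) * (mN x i n k : ℝ) * (nuN i / 16) := by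
          refine mul_le_mul_of_nonneg_right ?_ (by positivity)
          exact mul_le_mul hp3 hmk2 (by positivity) (by positivity)
      _ = (pN x n * (mN x i n k : ℝ) / 2) * (nuN i * n / 4) / 2 := by ring
      _ ≤ (1 - (1 - pN x n) ^ (mN x i n k)) * (nuN i * n / 4) / 2 := by
          have h0 : 0 ≤ nuN i * n / 4 := by positivity
          have := mul_le_mul_of_nonneg_right hlow h0
          linarith
  · intro k _
    unfold mN
    exact (Nat.one_le_floor_iff _).2 (one_le_pow₀ hc)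

lemma asa_tendsto (x : ℝ) (hx0 : 0 < x) :
    Filter.Tendsto (fun n : ℕ => dN x n) Filter.atTop Filter.atTop :=
  (tendsto_rpow_atTop hx0).comp tendsto_natCast_atTop_atTop

lemma asa_large (i : ℕ) (x : ℝ) (hx0 : 0 < x) :
    ∀ᶠ n : ℕ in Filter.atTop, 1 ≤ cN i * dN x n := by
  have hc0 : 0 < cN i := by
    have := asa_nu_pos i
    unfold cN
    positivity
  filter_upwards [(asa_tendsto x hx0).eventually_ge_atTop (1 / cN i)] with n hn
  rw [div_le_iff₀ hc0] at hn
  linarith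

/-- ASA -/
theorem hyp_eventually (i : ℕ) (x ε : ℝ) (hi : 2 ≤ i) (hx0 : 0 < x) (hx1 : i * x ≤ 1)
    (hε : 0 < ε) (hεx : ε ≤ x / 2) :
    ∀ᶠ n : ℕ in Filter.atTop, Hyp n i (pN x n) (dN x n) (nuN i) (tN x ε n) (LN x ε i n)
      (VN x n) (mN x i n) := by
  filter_upwards [Filter.eventually_ge_atTop 16, asa_large i x hx0,
    (asa_tendsto x hx0).eventually_ge_atTop (4 * 5 ^ i)] with n h1 h2 h3
  exact asa_hyp i n x ε hi hx0 hx1 hε hεx h1 h3 h2

/-- ASA -/
theorem mN_ge (i : ℕ) (x : ℝ) (hi : 2 ≤ i) (hx0 : 0 < x) :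
    ∀ᶠ n : ℕ in Filter.atTop, ∀ k ≤ i, (cN i * dN x n) ^ k / 2 ≤ (mN x i n k : ℝ) := by
  filter_upwards [asa_large i x hx0] with n h k _
  exact asa_mN i n x h k

end Pool.Agent.MDF
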