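import Pool.Agent.MDF.Defs2
import Pool.Agent.MDF.ASA

set_option autoImplicit false

open scoped Classical

namespace Pool.Agent.MDF

open Finset Pool.Agent.MD437

variable {n : ℕ}

lemma ac1_p (x : ℝ) {n : ℕ} (hn : 2 ≤ n) : pN x n ≤ 2 * dN x n / n := by
  have h2 : (2 : ℝ) ≤ n := by exact_mod_cast hn
  have hd : 0 ≤ dN x n := Real.rpow_nonneg (Nat.cast_nonneg n) _
  unfold pN
  change dN x n / ((n : ℝ) - 1) ≤ 2 * dN x n / n
  rw [div_le_div_iff₀ (by linarith) (by linarith)]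
  nlinarith

lemma ac1_p0 (x : ℝ) {n : ℕ} (hn : 2 ≤ n) : 0 ≤ pN x n := by
  have h2 : (2 : ℝ) ≤ n := by exact_mod_cast hn
  unfold pN
  exact div_nonneg (Real.rpow_nonneg (Nat.cast_nonneg n) _) (by linarith)

/-- AC1 -/
theorem mu_ok (i : ℕ) (x : ℝ) (hi : 2 ≤ i) (hx0 : 0 < x) (hx1 : i * x ≤ 1) :
    ∀ᶠ n : ℕ in Filter.atTop, ∀ j < i,
      pN x n * ((1 + 4 * dN x n) ^ j * (1 + 4 * dN x n) ^ j) ≤ muN x n j ∧
      (n : ℝ) * (pN x n ^ 2 * ((1 + 4 * dN x n) ^ j * (1 + 4 * dN x n) ^ j)) ≤ muN x n j := by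
  filter_upwards [Filter.eventually_ge_atTop 2,
    (asa_tendsto x hx0).eventually_ge_atTop 1] with n hn hd j _
  have hn2 : (2 : ℝ) ≤ n := by exact_mod_cast hn
  have hn0 : (0 : ℝ) < n := by linarith
  have hp := ac1_p x hn
  have hp0 := ac1_p0 x hn
  have hd0 : 0 < dN x n := by linarith
  have h1 : (1 + 4 * dN x n) ^ j * (1 + 4 * dN x n) ^ j ≤ 25 ^ j * dN x n ^ (2 * j) := by
    rw [← mul_pow, pow_mul, ← mul_pow]
    refine pow_le_pow_left₀ (by positivity) ?_ j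
    nlinarith
  have h0 : 0 ≤ (1 + 4 * dN x n) ^ j * (1 + 4 * dN x n) ^ j := by positivity
  constructor
  · calc pN x n * ((1 + 4 * dN x n) ^ j * (1 + 4 * dN x n) ^ j)
        ≤ (2 * dN x n / n) * (25 ^ j * dN x n ^ (2 * j)) :=
          mul_le_mul hp h1 h0 (by positivity)
      _ = (2 * 25 ^ j * dN x n ^ (2 * j + 1) / n) * 1 := by ring
      _ ≤ (2 * 25 ^ j * dN x n ^ (2 * j + 1) / n) * (2 * dN x n) :=
          mul_le_mul_of_nonneg_left (by linarith) (by positivity)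
      _ = muN x n j := by
          unfold muN
          ring
  · calc (n : ℝ) * (pN x n ^ 2 * ((1 + 4 * dN x n) ^ j * (1 + 4 * dN x n) ^ j))
        ≤ (n : ℝ) * ((2 * dN x n / n) ^ 2 * (25 ^ j * dN x n ^ (2 * j))) := by
          refine mul_le_mul_of_nonneg_left ?_ hn0.le
          exact mul_le_mul (pow_le_pow_left₀ hp0 hp 2) h1 h0 (by positivity)
      _ = muN x n j := by
          unfold muN
          field_simp
          ring

lemma ac1_rec (x δ : ℝ) {n : ℕ} (hd : 1 ≤ dN x n) (k : ℕ) :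
    ccN x δ n (k + 1) ≤ 24 * 25 ^ (k + 1) *
      (dN x n ^ (2 * k + 2) / n + (n : ℝ) ^ δ * dN x n ^ k) := by
  have hd0 : 0 < dN x n := by linarith
  have he : 0 ≤ (n : ℝ) ^ δ := Real.rpow_nonneg (Nat.cast_nonneg n) _
  induction k with
  | zero =>
    have h1 : ccN x δ n (0 + 1) = (1 + 4 * dN x n) * 0 +
        3 * (2 * (4 * 25 ^ 0 * dN x n ^ (2 * 0 + 2) / n) + (n : ℝ) ^ δ) := rfl
    rw [h1]
    have h2 : 0 ≤ dN x n ^ (2 * 0 + 2) / (n : ℝ) := by positivity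
    have h3 : 4 * 25 ^ 0 * dN x n ^ (2 * 0 + 2) / (n : ℝ) = 4 * (dN x n ^ (2 * 0 + 2) / n) := by
      ring
    rw [h3]
    norm_num at h2 ⊢
    nlinarith
  | succ k ih =>
    have h1 : ccN x δ n (k + 1 + 1) = (1 + 4 * dN x n) * ccN x δ n (k + 1) +
        3 * (2 * (4 * 25 ^ (k + 1) * dN x n ^ (2 * (k + 1) + 2) / n) + (n : ℝ) ^ δ) := rfl
    rw [h1]
    have ha : 0 ≤ dN x n ^ (2 * (k + 1) + 2) / (n : ℝ) := by positivity
    have hb : 0 ≤ (n : ℝ) ^ δ * dN x n ^ (k + 1) := by positivity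
    have h25 : (1 : ℝ) ≤ 25 ^ (k + 1) := one_le_pow₀ (by norm_num)
    have h2 : (1 + 4 * dN x n) * ccN x δ n (k + 1) ≤ 120 * 25 ^ (k + 1) *
        (dN x n ^ (2 * (k + 1) + 2) / n + (n : ℝ) ^ δ * dN x n ^ (k + 1)) := by
      calc (1 + 4 * dN x n) * ccN x δ n (k + 1)
          ≤ (1 + 4 * dN x n) * (24 * 25 ^ (k + 1) *
            (dN x n ^ (2 * k + 2) / n + (n : ℝ) ^ δ * dN x n ^ k)) :=
            mul_le_mul_of_nonneg_left ih (by linarith)
        _ ≤ (5 * dN x n) * (24 * 25 ^ (k + 1) *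
            (dN x n ^ (2 * k + 2) / n + (n : ℝ) ^ δ * dN x n ^ k)) :=
            mul_le_mul_of_nonneg_right (by linarith) (by positivity)
        _ = 120 * 25 ^ (k + 1) * ((dN x n ^ (2 * k + 2) / n * dN x n) * 1
            + (n : ℝ) ^ δ * dN x n ^ (k + 1)) := by ring
        _ ≤ 120 * 25 ^ (k + 1) * ((dN x n ^ (2 * k + 2) / n * dN x n) * dN x n
            + (n : ℝ) ^ δ * dN x n ^ (k + 1)) := by
            refine mul_le_mul_of_nonneg_left ?_ (by positivity)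
            have h5 : 0 ≤ dN x n ^ (2 * k + 2) / (n : ℝ) * dN x n := by positivity
            have := mul_le_mul_of_nonneg_left hd h5
            linarith
        _ = _ := by
            congr 2
            have e : 2 * (k + 1) + 2 = (2 * k + 2) + 2 := by ring
            rw [e, pow_add (dN x n) (2 * k + 2) 2]
            ring
    have h3 : (n : ℝ) ^ δ ≤ (n : ℝ) ^ δ * dN x n ^ (k + 1) := by
      have := mul_le_mul_of_nonneg_left (one_le_pow₀ hd (n := k + 1)) he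
      linarith
    have h4 : 4 * 25 ^ (k + 1) * dN x n ^ (2 * (k + 1) + 2) / (n : ℝ) =
        4 * 25 ^ (k + 1) * (dN x n ^ (2 * (k + 1) + 2) / n) := by ring
    rw [h4]
    have h6 : (25 : ℝ) ^ (k + 1 + 1) = 25 * 25 ^ (k + 1) := by ring
    rw [h6]
    set a := dN x n ^ (2 * (k + 1) + 2) / (n : ℝ)
    set b := (n : ℝ) ^ δ * dN x n ^ (k + 1)
    set q := (25 : ℝ) ^ (k + 1)
    have h7 : 0 ≤ q * a := by positivity
    have h8 : b ≤ q * b := by nlinarith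
    nlinarith

lemma ac1_bd (x δ : ℝ) {n : ℕ} (hn : 2 ≤ n) (hd : 1 ≤ dN x n) (k : ℕ) (hk : 1 ≤ k) :
    ccN x δ n k ≤ 24 * 25 ^ k * dN x n ^ k * ((n : ℝ) ^ (x * k - 1) + (n : ℝ) ^ (δ - x)) := by
  obtain ⟨j, rfl⟩ : ∃ j, k = j + 1 := ⟨k - 1, by omega⟩
  have hn2 : (2 : ℝ) ≤ n := by exact_mod_cast hn
  have hn0 : (0 : ℝ) < n := by linarith
  have hd0 : 0 < dN x n := by linarith
  refine (ac1_rec x δ hd j).trans (le_of_eq ?_)
  have e1 : (n : ℝ) ^ (x * ((j + 1 : ℕ) : ℝ) - 1) = dN x n ^ (j + 1) / n := by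
    rw [asa_dpow, Real.rpow_sub hn0, Real.rpow_one]
  have e2 : (n : ℝ) ^ (δ - x) = (n : ℝ) ^ δ / dN x n := by
    rw [Real.rpow_sub hn0]
    rfl
  rw [e1, e2, mul_assoc (24 * 25 ^ (j + 1))]
  congr 1
  have e3 : dN x n ^ (2 * j + 2) = dN x n ^ (j + 1) * dN x n ^ (j + 1) := by ring
  have e4 : dN x n ^ (j + 1) = dN x n ^ j * dN x n := pow_succ _ _
  rw [mul_add, e3]
  congr 1
  · ring
  · rw [e4]
    field_simp

lemma ac1_c (i : ℕ) : 0 < cN i ∧ 1 ≤ 25 / cN i := by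
  have h1 := asa_nu_pos i
  have h2 := asa_nu_le i
  have hc0 : 0 < cN i := by
    unfold cN
    positivity
  refine ⟨hc0, ?_⟩
  rw [le_div_iff₀ hc0]
  unfold cN
  linarith

lemma ac1_ratio (i : ℕ) (x δ : ℝ) {n : ℕ} (hn : 2 ≤ n) (hd : 1 ≤ dN x n) (k : ℕ)
    (hk : 1 ≤ k) (hki : k ≤ i) (hx0 : 0 < x) :
    ccN x δ n k ≤ 24 * (25 / cN i) ^ i * ((n : ℝ) ^ (i * x - 1) + (n : ℝ) ^ (δ - x)) *
      (cN i * dN x n) ^ k := by
  obtain ⟨hc0, hc1⟩ := ac1_c i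
  have hn2 : (2 : ℝ) ≤ n := by exact_mod_cast hn
  have hn0 : (0 : ℝ) < n := by linarith
  have hd0 : 0 < dN x n := by linarith
  refine (ac1_bd x δ hn hd k hk).trans ?_
  have h1 : (n : ℝ) ^ (x * k - 1) ≤ (n : ℝ) ^ (i * x - 1) := by
    refine Real.rpow_le_rpow_of_exponent_le (by linarith) ?_
    have : (k : ℝ) ≤ i := by exact_mod_cast hki
    nlinarith
  have h2 : (25 : ℝ) ^ k * dN x n ^ k = (25 / cN i) ^ k * (cN i * dN x n) ^ k := by
    rw [← mul_pow, ← mul_pow]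
    congr 1
    field_simp
  have h3 : (25 / cN i) ^ k ≤ (25 / cN i) ^ i := pow_le_pow_right₀ hc1 hki
  have h4 : 0 < (n : ℝ) ^ (δ - x) := Real.rpow_pos_of_pos hn0 _
  have h5 : 0 < (n : ℝ) ^ (x * k - 1) := Real.rpow_pos_of_pos hn0 _
  calc 24 * 25 ^ k * dN x n ^ k * ((n : ℝ) ^ (x * k - 1) + (n : ℝ) ^ (δ - x))
      = 24 * (25 ^ k * dN x n ^ k) * ((n : ℝ) ^ (x * k - 1) + (n : ℝ) ^ (δ - x)) := by ring
    _ = (24 * ((25 / cN i) ^ k * ((n : ℝ) ^ (x * k - 1) + (n : ℝ) ^ (δ - x)))) *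
        (cN i * dN x n) ^ k := by
        rw [h2]
        ring
    _ ≤ (24 * ((25 / cN i) ^ i * ((n : ℝ) ^ (i * x - 1) + (n : ℝ) ^ (δ - x)))) *
        (cN i * dN x n) ^ k := by
        refine mul_le_mul_of_nonneg_right ?_ (by positivity)
        refine mul_le_mul_of_nonneg_left ?_ (by norm_num)
        exact mul_le_mul h3 (by linarith) (by positivity) (by positivity)
    _ = _ := by ring

lemma ac1_zero {y : ℝ} (hy : y < 0) :
    Filter.Tendsto (fun n : ℕ => (n : ℝ) ^ y) Filter.atTop (nhds 0) := by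
  have h := (tendsto_rpow_neg_atTop (y := -y) (by linarith)).comp
    (tendsto_natCast_atTop_atTop (R := ℝ))
  simp only [neg_neg] at h
  exact h

/-- AC1 -/
theorem cc_small (i : ℕ) (x δ : ℝ) (hi : 2 ≤ i) (hx0 : 0 < x) (hx1 : i * x < 1)
    (hδ : 0 < δ) (hδx : δ < x) :
    ∀ᶠ n : ℕ in Filter.atTop, ∀ k, 1 ≤ k → k ≤ i →
      (mhN x i n k : ℝ) + ccN x δ n k ≤ mN x i n k ∧ 0 < mhN x i n k ∧
        (cN i * dN x n) ^ k / 8 ≤ (mhN x i n k : ℝ) := by
  obtain ⟨hc0, hc1⟩ := ac1_c i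
  have ht : Filter.Tendsto (fun n : ℕ => 24 * (25 / cN i) ^ i *
      ((n : ℝ) ^ (i * x - 1) + (n : ℝ) ^ (δ - x))) Filter.atTop (nhds 0) := by
    have h1 := ((ac1_zero (y := i * x - 1) (by linarith)).add
      (ac1_zero (y := δ - x) (by linarith))).const_mul (24 * (25 / cN i) ^ i)
    simpa using h1
  have hsm := ht.eventually (gt_mem_nhds (show (0 : ℝ) < 1 / 4 by norm_num))
  filter_upwards [Filter.eventually_ge_atTop 2, (asa_tendsto x hx0).eventually_ge_atTop 1,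
    (asa_tendsto x hx0).eventually_ge_atTop (4 / cN i), asa_large i x hx0, hsm]
    with n hn hd hcd hc hs k hk1 hki
  rw [div_le_iff₀ hc0] at hcd
  have hcd4 : 4 ≤ cN i * dN x n := by linarith
  have h1 := ac1_ratio i x δ hn hd k hk1 hki hx0
  have h2 := asa_mN i n x hc k
  have h3 : 4 ≤ (cN i * dN x n) ^ k := by
    have : (cN i * dN x n) ^ 1 ≤ (cN i * dN x n) ^ k := pow_le_pow_right₀ hc hk1
    rw [pow_one] at this
    linarith
  have h4 : (2 : ℝ) ≤ mN x i n k := by linarith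
  have h4' : 2 ≤ mN x i n k := by exact_mod_cast h4
  have h5 : (mhN x i n k : ℝ) ≤ (mN x i n k : ℝ) / 2 := by
    unfold mhN
    exact Nat.cast_div_le
  have h6 : (mN x i n k : ℝ) ≤ 2 * (mhN x i n k : ℝ) + 1 := by
    unfold mhN
    have : mN x i n k ≤ 2 * (mN x i n k / 2) + 1 := by omega
    exact_mod_cast this
  refine ⟨?_, ?_, ?_⟩
  · have h7 : ccN x δ n k ≤ 1 / 4 * (cN i * dN x n) ^ k :=
      h1.trans (mul_le_mul_of_nonneg_right hs.le (by positivity))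
    linarith
  · unfold mhN
    omega
  · linarith

/-- AC1 -/
theorem cc_top (i : ℕ) (x δ : ℝ) (hi : 2 ≤ i) (hx0 : 0 < x) (hx1 : i * x < 1)
    (hδ : 0 < δ) (hδx : δ < (i + 1) * x - 1) :
    ∃ C : ℝ, 0 < C ∧ ∀ᶠ n : ℕ in Filter.atTop,
      2 * ccN x δ n i / mN x i n i ≤ C * (n : ℝ) ^ (i * x - 1) := by
  obtain ⟨hc0, hc1⟩ := ac1_c i
  refine ⟨192 * (25 / cN i) ^ i, by positivity, ?_⟩
  filter_upwards [Filter.eventually_ge_atTop 2, (asa_tendsto x hx0).eventually_ge_atTop 1,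
    asa_large i x hx0] with n hn hd hc
  have hn2 : (2 : ℝ) ≤ n := by exact_mod_cast hn
  have hn0 : (0 : ℝ) < n := by linarith
  have h1 := ac1_ratio i x δ hn hd i (by omega) le_rfl hx0
  have h2 := asa_mN i n x hc i
  have hcp : 0 < (cN i * dN x n) ^ i := by positivity
  have h3 : (0 : ℝ) < mN x i n i := by linarith
  have h4 : (n : ℝ) ^ (δ - x) ≤ (n : ℝ) ^ (i * x - 1) :=
    Real.rpow_le_rpow_of_exponent_le (by linarith) (by linarith)
  have h5 : 0 < (n : ℝ) ^ (i * x - 1) := Real.rpow_pos_of_pos hn0 _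
  rw [div_le_iff₀ h3]
  calc 2 * ccN x δ n i
      ≤ 2 * (24 * (25 / cN i) ^ i * ((n : ℝ) ^ (i * x - 1) + (n : ℝ) ^ (δ - x)) *
        (cN i * dN x n) ^ i) := by linarith
    _ ≤ 2 * (24 * (25 / cN i) ^ i * ((n : ℝ) ^ (i * x - 1) + (n : ℝ) ^ (i * x - 1)) *
        (cN i * dN x n) ^ i) := by
        refine mul_le_mul_of_nonneg_left ?_ (by norm_num)
        refine mul_le_mul_of_nonneg_right ?_ hcp.le
        exact mul_le_mul_of_nonneg_left (by linarith) (by positivity)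
    _ = 192 * (25 / cN i) ^ i * (n : ℝ) ^ (i * x - 1) * ((cN i * dN x n) ^ i / 2) := by ring
    _ ≤ 192 * (25 / cN i) ^ i * (n : ℝ) ^ (i * x - 1) * (mN x i n i : ℝ) :=
        mul_le_mul_of_nonneg_left h2 (by positivity)

end Pool.Agent.MDF
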