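import Pool.Agent.MDF.Defs2
import Pool.Agent.MDF.ASA
import Pool.Agent.MDF.AC1

set_option autoImplicit false

open scoped Classical

namespace Pool.Agent.MDF

open Finset Pool.Agent.MD437

variable {n : ℕ}

lemma ac2_nonneg (x δ : ℝ) (n : ℕ) (k : ℕ) : 0 ≤ ccN x δ n k := by
  unfold ccN
  have hd0 : 0 ≤ dN x n := Real.rpow_nonneg (Nat.cast_nonneg n) _
  have he : 0 ≤ (n : ℝ) ^ δ := Real.rpow_nonneg (Nat.cast_nonneg n) _
  induction k with
  | zero => exact le_rfl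
  | succ k ih =>
    have h1 : cc (4 * dN x n) (kaN x δ n) (k + 1) =
        (1 + 4 * dN x n) * cc (4 * dN x n) (kaN x δ n) k + 3 * kaN x δ n k := rfl
    rw [h1]
    have h2 : 0 ≤ kaN x δ n k := by
      unfold kaN muN
      positivity
    positivity

/-- AC2 -/
theorem top_ok (i K : ℕ) (x δ τ : ℝ) (hi : 2 ≤ i) (hx0 : 0 < x) (hx1 : i * x < 1)
    (hδ : 0 < δ) (hδx : δ < (i + 1) * x - 1) (hτ : 0 < τ) (hτx : τ < 1 - i * x)
    (hK : 1 < K * (1 - i * x - τ)) :
    ∀ᶠ n : ℕ in Filter.atTop, (n : ℝ) ^ τ * ccN x δ n i ≤ mN x i n i / 2 ∧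
      (n : ℝ) * ((n : ℝ) ^ τ * (2 * ccN x δ n i / mN x i n i)) ^ K < 1 := by
  obtain ⟨C, hC, hev⟩ := cc_top i x δ hi hx0 hx1 hδ hδx
  have ht1 : Filter.Tendsto (fun n : ℕ => C * (n : ℝ) ^ (τ + (i * x - 1))) Filter.atTop
      (nhds 0) := by
    have h := (ac1_zero (y := τ + (i * x - 1)) (by linarith)).const_mul C
    simpa using h
  have ht2 : Filter.Tendsto (fun n : ℕ => C ^ K * (n : ℝ) ^ (1 + (τ + (i * x - 1)) * K))
      Filter.atTop (nhds 0) := by
    have h := (ac1_zero (y := 1 + (τ + (i * x - 1)) * K) (by nlinarith)).const_mul (C ^ K)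
    simpa using h
  filter_upwards [hev, Filter.eventually_ge_atTop 2, asa_large i x hx0,
    ht1.eventually (gt_mem_nhds (show (0 : ℝ) < 1 by norm_num)),
    ht2.eventually (gt_mem_nhds (show (0 : ℝ) < 1 by norm_num))] with n h1 hn hc h2 h3
  have hn2 : (2 : ℝ) ≤ n := by exact_mod_cast hn
  have hn0 : (0 : ℝ) < n := by linarith
  have hm := asa_mN i n x hc i
  have hcp : 0 < (cN i * dN x n) ^ i := by
    have : 0 < cN i * dN x n := by linarith
    positivity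
  have hm0 : (0 : ℝ) < mN x i n i := by linarith
  have hcc := ac2_nonneg x δ n i
  have hR0 : 0 ≤ 2 * ccN x δ n i / mN x i n i := by positivity
  have hnt : 0 < (n : ℝ) ^ τ := Real.rpow_pos_of_pos hn0 _
  have h4 : (n : ℝ) ^ τ * (2 * ccN x δ n i / mN x i n i) ≤ C * (n : ℝ) ^ (τ + (i * x - 1)) := by
    rw [Real.rpow_add hn0]
    calc (n : ℝ) ^ τ * (2 * ccN x δ n i / mN x i n i)
        ≤ (n : ℝ) ^ τ * (C * (n : ℝ) ^ (i * x - 1)) :=
          mul_le_mul_of_nonneg_left h1 hnt.le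
      _ = C * ((n : ℝ) ^ τ * (n : ℝ) ^ (i * x - 1)) := by ring
  constructor
  · have h5 : (n : ℝ) ^ τ * (2 * ccN x δ n i / mN x i n i) ≤ 1 := by linarith
    have h6 : (n : ℝ) ^ τ * ccN x δ n i =
        ((n : ℝ) ^ τ * (2 * ccN x δ n i / mN x i n i)) * (mN x i n i / 2) := by
      field_simp
    rw [h6]
    calc ((n : ℝ) ^ τ * (2 * ccN x δ n i / mN x i n i)) * (mN x i n i / 2)
        ≤ 1 * (mN x i n i / 2) := mul_le_mul_of_nonneg_right h5 (by positivity)
      _ = _ := one_mul _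
  · calc (n : ℝ) * ((n : ℝ) ^ τ * (2 * ccN x δ n i / mN x i n i)) ^ K
        ≤ (n : ℝ) * (C * (n : ℝ) ^ (τ + (i * x - 1))) ^ K :=
          mul_le_mul_of_nonneg_left (pow_le_pow_left₀ (by positivity) h4 K) hn0.le
      _ = C ^ K * (n : ℝ) ^ (1 + (τ + (i * x - 1)) * K) := by
          have e : (n : ℝ) ^ (1 + (τ + (i * x - 1)) * K) =
              n * ((n : ℝ) ^ (τ + (i * x - 1))) ^ K := by
            rw [Real.rpow_add hn0 1, Real.rpow_one, Real.rpow_mul hn0.le, Real.rpow_natCast]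
          rw [mul_pow, e]
          ring
      _ < 1 := h3

end Pool.Agent.MDF
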