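import Pool.Agent.MDF.Defs

set_option autoImplicit false

open scoped Classical

namespace Pool.Agent.MDF

open Finset Pool.Agent.MD437

variable {n : ℕ}

/-- EXP -/
theorem tend_exp (a b : ℝ) (ha : 0 < a) (hb : 0 < b) :
    Filter.Tendsto (fun n : ℕ => (n : ℝ) ^ 2 * Real.exp (-(a * (n : ℝ) ^ b))) Filter.atTop
      (nhds 0) := by
  have h1 := tendsto_rpow_mul_exp_neg_mul_atTop_nhds_zero (2 / b) a ha
  have h2 : Filter.Tendsto (fun n : ℕ => (n : ℝ) ^ b) Filter.atTop Filter.atTop :=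
    (tendsto_rpow_atTop hb).comp tendsto_natCast_atTop_atTop
  refine (h1.comp h2).congr fun n => ?_
  have h3 : ((n : ℝ) ^ b) ^ (2 / b) = (n : ℝ) ^ 2 := by
    rw [← Real.rpow_mul (Nat.cast_nonneg n), mul_div_cancel₀ _ hb.ne', ← Real.rpow_natCast]
    norm_num
  show ((n : ℝ) ^ b) ^ (2 / b) * Real.exp (-a * (n : ℝ) ^ b) = _
  rw [h3, neg_mul]

end Pool.Agent.MDF
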