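import Pool.Agent.MDF.Defs
import Pool.Agent.MDF.ASA
import Pool.Agent.MDF.EXP

set_option autoImplicit false

open scoped Classical

namespace Pool.Agent.MDF

open Finset Pool.Agent.MD437

variable {n : ℕ}

lemma ASC_pow (N x : ℝ) (hN : 0 < N) (k : ℕ) : (N ^ x) ^ k = N ^ (x * k) := by
  rw [Real.rpow_mul hN.le, Real.rpow_natCast]

lemma ASC_sqrt (N c x : ℝ) (hN : 0 < N) (hc : 0 < c) (k : ℕ) :
    √((c * N ^ x) ^ k) = √(c ^ k) * N ^ (x * k / 2) := by
  rw [mul_pow, Real.sqrt_mul (by positivity), ASC_pow N x hN]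
  congr 1
  rw [Real.sqrt_eq_rpow, ← Real.rpow_mul hN.le]
  congr 1
  ring

lemma ASC_prod (N x : ℝ) (hN : 0 < N) (i : ℕ) :
    ∏ k ∈ range i, N ^ (-(x * ((k : ℝ) + 1) / 2)) = N ^ (-(x * (i * (i + 1) / 4))) := by
  induction i with
  | zero => simp
  | succ i ih =>
    rw [Finset.prod_range_succ, ih, ← Real.rpow_add hN]
    congr 1
    push_cast
    ring

lemma ASC_cpos (i : ℕ) : 0 < cN i := by
  unfold cN nuN
  positivity

lemma ASC_nupos (i : ℕ) : 0 < nuN i := by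
  unfold nuN
  positivity

lemma ASC_one (x ε : ℝ) (hε : 0 < ε) (hx0 : 0 < x) (j : ℕ) :
    Filter.Tendsto (fun n : ℕ => (n : ℝ) ^ 2 *
      (2 * Real.exp (-(tN x ε n (j + 1) ^ 2 / (16 * (1 + 4 * dN x n) ^ (j + 1))))))
      Filter.atTop (nhds 0) := by
  have ha : (0 : ℝ) < 1 / (16 * 5 ^ (j + 1)) := by positivity
  have hT := (tend_exp (1 / (16 * 5 ^ (j + 1))) (2 * ε) ha (by positivity)).const_mul 2
  rw [mul_zero] at hT
  refine squeeze_zero' (Filter.Eventually.of_forall fun n => by positivity) ?_ hT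
  filter_upwards [Filter.eventually_ge_atTop 1] with n hn
  have hN1 : (1 : ℝ) ≤ n := by exact_mod_cast hn
  have hN : (0 : ℝ) < n := by linarith
  have hd1 : 1 ≤ (n : ℝ) ^ x := Real.one_le_rpow hN1 hx0.le
  have ht : tN x ε n (j + 1) ^ 2 = (n : ℝ) ^ (2 * ε) * ((n : ℝ) ^ x) ^ (j + 1) := by
    unfold tN
    rw [ASC_pow _ _ hN, ASC_pow _ _ hN, ← Real.rpow_add hN]
    congr 1
    push_cast
    ring
  have hle : 1 / (16 * 5 ^ (j + 1)) * (n : ℝ) ^ (2 * ε) ≤
      tN x ε n (j + 1) ^ 2 / (16 * (1 + 4 * dN x n) ^ (j + 1)) := by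
    rw [ht]
    have h5 : (1 + 4 * dN x n) ^ (j + 1) ≤ 5 ^ (j + 1) * ((n : ℝ) ^ x) ^ (j + 1) := by
      rw [← mul_pow]
      apply pow_le_pow_left₀
      · unfold dN
        positivity
      · unfold dN
        linarith
    have hp : 0 < (1 + 4 * dN x n) ^ (j + 1) := by
      unfold dN
      positivity
    rw [le_div_iff₀ (by positivity)]
    have hq : 0 < (n : ℝ) ^ (2 * ε) := Real.rpow_pos_of_pos hN _
    calc 1 / (16 * 5 ^ (j + 1)) * (n : ℝ) ^ (2 * ε) * (16 * (1 + 4 * dN x n) ^ (j + 1))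
        ≤ 1 / (16 * 5 ^ (j + 1)) * (n : ℝ) ^ (2 * ε) *
          (16 * (5 ^ (j + 1) * ((n : ℝ) ^ x) ^ (j + 1))) := by gcongr
      _ = (n : ℝ) ^ (2 * ε) * ((n : ℝ) ^ x) ^ (j + 1) := by
        field_simp
  calc (n : ℝ) ^ 2 *
      (2 * Real.exp (-(tN x ε n (j + 1) ^ 2 / (16 * (1 + 4 * dN x n) ^ (j + 1)))))
      = 2 * ((n : ℝ) ^ 2 *
        Real.exp (-(tN x ε n (j + 1) ^ 2 / (16 * (1 + 4 * dN x n) ^ (j + 1))))) := by ring
    _ ≤ 2 * ((n : ℝ) ^ 2 * Real.exp (-(1 / (16 * 5 ^ (j + 1)) * (n : ℝ) ^ (2 * ε)))) := by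
      gcongr

lemma ASC_f1 (i : ℕ) (x ε : ℝ) (hx0 : 0 < x) (hε : 0 < ε) (n k : ℕ) (hn : 1 ≤ n)
    (hS : (cN i * dN x n) ^ (k + 1) ≤ (1 - (1 - pN x n) ^ (mN x i n k)) * (nuN i * n / 4)) :
    4 * (2 * LN x ε i n (k + 1) + 1) /
      √((1 - (1 - pN x n) ^ (mN x i n k)) * (nuN i * n / 4)) ≤
    4 * (2 * (2 * (3 + i) / nuN i) + 1) / √(cN i ^ (k + 1)) * (n : ℝ) ^ (ε - x / 2) := by
  have hN1 : (1 : ℝ) ≤ n := by exact_mod_cast hn
  have hN : (0 : ℝ) < n := by linarith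
  have hc := ASC_cpos i
  have hν := ASC_nupos i
  have hq : 1 ≤ (n : ℝ) ^ (ε + x * k / 2) := Real.one_le_rpow hN1 (by positivity)
  have hL : LN x ε i n (k + 1) = 2 * (3 + i) / nuN i * (n : ℝ) ^ (ε + x * k / 2) := by
    unfold LN
    push_cast
    rw [add_sub_cancel_right]
  have hnum : 4 * (2 * LN x ε i n (k + 1) + 1) ≤
      4 * (2 * (2 * (3 + i) / nuN i) + 1) * (n : ℝ) ^ (ε + x * k / 2) := by
    rw [hL]
    nlinarith
  have hsq : √((cN i * dN x n) ^ (k + 1)) = √(cN i ^ (k + 1)) * (n : ℝ) ^ (x * (k + 1) / 2) := by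
    unfold dN
    rw [ASC_sqrt _ _ _ hN hc]
    push_cast
    rfl
  have hden : √(cN i ^ (k + 1)) * (n : ℝ) ^ (x * (k + 1) / 2) ≤
      √((1 - (1 - pN x n) ^ (mN x i n k)) * (nuN i * n / 4)) := by
    rw [← hsq]
    exact Real.sqrt_le_sqrt hS
  have hdpos : 0 < √(cN i ^ (k + 1)) * (n : ℝ) ^ (x * (k + 1) / 2) := by
    have := Real.rpow_pos_of_pos hN (x * (k + 1) / 2)
    positivity
  have hq0 : 0 < (n : ℝ) ^ (ε + x * k / 2) := by linarith
  calc 4 * (2 * LN x ε i n (k + 1) + 1) /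
      √((1 - (1 - pN x n) ^ (mN x i n k)) * (nuN i * n / 4))
      ≤ (4 * (2 * (2 * (3 + i) / nuN i) + 1) * (n : ℝ) ^ (ε + x * k / 2)) /
        (√(cN i ^ (k + 1)) * (n : ℝ) ^ (x * (k + 1) / 2)) := by
        apply div_le_div₀ _ hnum hdpos hden
        positivity
    _ = 4 * (2 * (2 * (3 + i) / nuN i) + 1) / √(cN i ^ (k + 1)) *
        ((n : ℝ) ^ (ε + x * k / 2) / (n : ℝ) ^ (x * (k + 1) / 2)) := by
        rw [mul_div_mul_comm]
    _ = _ := by
        rw [← Real.rpow_sub hN]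
        congr 2
        ring

lemma ASC_f2 (i : ℕ) (x : ℝ) (n k : ℕ) (hn : 1 ≤ n)
    (hS : (cN i * dN x n) ^ (k + 1) / 2 ≤ (mN x i n (k + 1) : ℝ)) :
    1 / √(mN x i n (k + 1) : ℝ) ≤
    √2 / √(cN i ^ (k + 1)) * (n : ℝ) ^ (-(x * ((k : ℝ) + 1) / 2)) := by
  have hN1 : (1 : ℝ) ≤ n := by exact_mod_cast hn
  have hN : (0 : ℝ) < n := by linarith
  have hc := ASC_cpos i
  have hsq : √((cN i * dN x n) ^ (k + 1)) = √(cN i ^ (k + 1)) * (n : ℝ) ^ (x * (k + 1) / 2) := by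
    unfold dN
    rw [ASC_sqrt _ _ _ hN hc]
    push_cast
    rfl
  have hr := Real.rpow_pos_of_pos hN (x * (k + 1) / 2)
  have hden : √(cN i ^ (k + 1)) * (n : ℝ) ^ (x * (k + 1) / 2) / √2 ≤
      √(mN x i n (k + 1) : ℝ) := by
    rw [← hsq, ← Real.sqrt_div' _ (by norm_num)]
    exact Real.sqrt_le_sqrt hS
  have hdpos : 0 < √(cN i ^ (k + 1)) * (n : ℝ) ^ (x * (k + 1) / 2) / √2 := by
    positivity
  calc 1 / √(mN x i n (k + 1) : ℝ)
      ≤ 1 / (√(cN i ^ (k + 1)) * (n : ℝ) ^ (x * (k + 1) / 2) / √2) :=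
        one_div_le_one_div_of_le hdpos hden
    _ = _ := by
        rw [Real.rpow_neg hN.le]
        field_simp

/-- ASC -/
theorem pb_tendsto (i : ℕ) (x ε : ℝ) (hi : 2 ≤ i) (hx0 : 0 < x) (hx1 : i * x ≤ 1)
    (hε : 0 < ε) (hεx : ε ≤ x / 2)
    (hs : 2 + (i - 1) * ε < x * (i * (i + 1) / 4 + (i - 1) / 2)) :
    Filter.Tendsto (fun n : ℕ => (n : ℝ) ^ 2 * pb n i (pN x n) (dN x n) (nuN i) (tN x ε n)
      (LN x ε i n) (mN x i n)) Filter.atTop (nhds 0) := by
  have hc := ASC_cpos i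
  have hν := ASC_nupos i
  have h1 : Filter.Tendsto (fun n : ℕ => (n : ℝ) ^ 2 * ∑ j ∈ range i,
      2 * Real.exp (-(tN x ε n (j + 1) ^ 2 / (16 * (1 + 4 * dN x n) ^ (j + 1)))))
      Filter.atTop (nhds 0) := by
    have h := tendsto_finsetSum (range i) fun j _ => ASC_one x ε hε hx0 j
    rw [Finset.sum_const_zero] at h
    refine h.congr fun n => ?_
    rw [Finset.mul_sum]
  set C : ℝ := (∏ k ∈ range (i - 1), (4 * (2 * (2 * (3 + i) / nuN i) + 1) / √(cN i ^ (k + 1)))) *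
    ∏ k ∈ range i, (√2 / √(cN i ^ (k + 1))) with hC
  set δ : ℝ := x * (i * (i + 1) / 4 + (i - 1) / 2) - (2 + (i - 1) * ε) with hδ
  have hδ0 : 0 < δ := by rw [hδ]; linarith
  have h2 : Filter.Tendsto (fun n : ℕ => (n : ℝ) ^ 2 *
      ((∏ k ∈ range (i - 1), (4 * (2 * LN x ε i n (k + 1) + 1) /
      √((1 - (1 - pN x n) ^ (mN x i n k)) * (nuN i * n / 4)))) *
      ∏ k ∈ range i, (1 / √(mN x i n (k + 1) : ℝ)))) Filter.atTop (nhds 0) := by
    have hT : Filter.Tendsto (fun n : ℕ => C * (n : ℝ) ^ (-δ)) Filter.atTop (nhds 0) := by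
      have := ((tendsto_rpow_neg_atTop hδ0).comp tendsto_natCast_atTop_atTop).const_mul C
      rw [mul_zero] at this
      exact this
    refine squeeze_zero' ?_ ?_ hT
    · refine Filter.Eventually.of_forall fun n => ?_
      apply mul_nonneg (by positivity)
      apply mul_nonneg
      · apply Finset.prod_nonneg
        intro k _
        apply div_nonneg _ (Real.sqrt_nonneg _)
        unfold LN
        have := Real.rpow_nonneg (Nat.cast_nonneg n : (0 : ℝ) ≤ n) (ε + x * (((k + 1 : ℕ) : ℝ) - 1) / 2)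
        positivity
      · apply Finset.prod_nonneg
        intro k _
        positivity
    · filter_upwards [hyp_eventually i x ε hi hx0 hx1 hε hεx, mN_ge i x hi hx0,
        Filter.eventually_ge_atTop 1] with n H hm hn
      have hN1 : (1 : ℝ) ≤ n := by exact_mod_cast hn
      have hN : (0 : ℝ) < n := by linarith
      have e1 : ∏ k ∈ range (i - 1), (4 * (2 * LN x ε i n (k + 1) + 1) /
          √((1 - (1 - pN x n) ^ (mN x i n k)) * (nuN i * n / 4))) ≤
          ∏ k ∈ range (i - 1), (4 * (2 * (2 * (3 + i) / nuN i) + 1) / √(cN i ^ (k + 1)) *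
            (n : ℝ) ^ (ε - x / 2)) := by
        apply Finset.prod_le_prod
        · intro k _
          apply div_nonneg _ (Real.sqrt_nonneg _)
          unfold LN
          have := Real.rpow_nonneg hN.le (ε + x * (((k + 1 : ℕ) : ℝ) - 1) / 2)
          positivity
        · intro k hk
          have hk' : k < i := by
            have := Finset.mem_range.1 hk
            omega
          apply ASC_f1 i x ε hx0 hε n k hn
          have a1 := H.hm k hk'
          have a2 := hm (k + 1) (by omega)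
          linarith
      have e2 : ∏ k ∈ range i, (1 / √(mN x i n (k + 1) : ℝ)) ≤
          ∏ k ∈ range i, (√2 / √(cN i ^ (k + 1)) * (n : ℝ) ^ (-(x * ((k : ℝ) + 1) / 2))) := by
        apply Finset.prod_le_prod
        · intro k _
          positivity
        · intro k hk
          exact ASC_f2 i x n k hn (hm (k + 1) (by have := Finset.mem_range.1 hk; omega))
      rw [Finset.prod_mul_distrib, Finset.prod_const, Finset.card_range, ASC_pow _ _ hN] at e1
      rw [Finset.prod_mul_distrib, ASC_prod _ _ hN] at e2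
      have hi1 : ((i - 1 : ℕ) : ℝ) = (i : ℝ) - 1 := by
        rw [Nat.cast_sub (by omega)]
        norm_num
      rw [hi1] at e1
      have r1 := Real.rpow_pos_of_pos hN ((ε - x / 2) * ((i : ℝ) - 1))
      have p0 : 0 ≤ ∏ k ∈ range i, (1 / √(mN x i n (k + 1) : ℝ)) := by
        apply Finset.prod_nonneg
        intro k _
        positivity
      have q0 : 0 ≤ ∏ k ∈ range (i - 1), (4 * (2 * (2 * (3 + (i : ℝ)) / nuN i) + 1) /
          √(cN i ^ (k + 1))) := by
        apply Finset.prod_nonneg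
        intro k _
        positivity
      have e3 := mul_le_mul e1 e2 p0 (mul_nonneg q0 r1.le)
      have e4 := mul_le_mul_of_nonneg_left e3 (by positivity : (0 : ℝ) ≤ (n : ℝ) ^ 2)
      refine e4.trans (le_of_eq ?_)
      have e5 : (n : ℝ) ^ (-δ) = (n : ℝ) ^ 2 * ((n : ℝ) ^ ((ε - x / 2) * ((i : ℝ) - 1)) *
          (n : ℝ) ^ (-(x * (i * (i + 1) / 4)))) := by
        rw [← Real.rpow_natCast (n : ℝ) 2, ← Real.rpow_add hN, ← Real.rpow_add hN]
        congr 1
        rw [hδ]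
        push_cast
        ring
      rw [e5, hC]
      ring
  have h3 := h1.add h2
  rw [add_zero] at h3
  refine h3.congr fun n => ?_
  unfold pb
  rw [mul_add]

end Pool.Agent.MDF
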