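import Pool.Agent.MDF.Defs2
import Pool.Agent.MDF.EXP

set_option autoImplicit false

open scoped Classical

namespace Pool.Agent.MDF

open Finset Pool.Agent.MD437

variable {n : ℕ}

/-- AC5 -/
theorem ka_tendsto (i : ℕ) (x δ : ℝ) (hδ : 0 < δ) :
    Filter.Tendsto (fun n : ℕ => (n : ℝ) ^ 2 * ∑ j ∈ Finset.range i,
      2 * Real.exp (2 * muN x n j - kaN x δ n j)) Filter.atTop (nhds 0) := by
  have h1 := (tend_exp 1 δ one_pos hδ).const_mul (2 * (i : ℝ))
  rw [mul_zero] at h1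
  refine h1.congr fun n => ?_
  have h2 : ∀ j ∈ Finset.range i, 2 * Real.exp (2 * muN x n j - kaN x δ n j) =
      2 * Real.exp (-(1 * (n : ℝ) ^ δ)) := by
    intro j _
    congr 2
    unfold kaN
    ring
  rw [Finset.sum_congr rfl h2, Finset.sum_const, Finset.card_range, nsmul_eq_mul]
  ring

/-- AC5 -/
theorem tN_ge (i B : ℕ) (x ε : ℝ) (hx0 : 0 < x) (hε : 0 < ε) :
    ∀ᶠ n : ℕ in Filter.atTop, ∀ j, 1 ≤ j → j ≤ i → 4 * (B : ℝ) ≤ tN x ε n j := by
  have h1 : Filter.Tendsto (fun n : ℕ => (n : ℝ) ^ ε) Filter.atTop Filter.atTop :=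
    (tendsto_rpow_atTop hε).comp tendsto_natCast_atTop_atTop
  filter_upwards [h1.eventually_ge_atTop (4 * (B : ℝ)), Filter.eventually_ge_atTop 1]
    with n hn hn1 j _ _
  refine hn.trans ?_
  unfold tN
  have hn2 : (1 : ℝ) ≤ n := by exact_mod_cast hn1
  refine Real.rpow_le_rpow_of_exponent_le hn2 ?_
  have : 0 ≤ x * (j : ℝ) / 2 := by positivity
  linarith

end Pool.Agent.MDF
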