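import Pool.Agent.MDF.Defs

set_option autoImplicit false

open scoped Classical

namespace Pool.Agent.MDF

open Finset Pool.Agent.MD437

variable {n : ℕ}

private theorem CEN_even (r : ℕ) : r.centralBinom ^ 2 * (2 * r + 1) ≤ 16 ^ r := by
  induction r with
  | zero => simp
  | succ r ih =>
    have h := Nat.succ_mul_centralBinom_succ r
    have h1 : (r + 1) ^ 2 * ((r + 1).centralBinom ^ 2 * (2 * (r + 1) + 1)) =
        4 * (2 * r + 1) * (2 * r + 3) * (r.centralBinom ^ 2 * (2 * r + 1)) := by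
      calc _ = ((r + 1) * (r + 1).centralBinom) ^ 2 * (2 * r + 3) := by ring
        _ = (2 * (2 * r + 1) * r.centralBinom) ^ 2 * (2 * r + 3) := by rw [h]
        _ = _ := by ring
    have h2 : 4 * (2 * r + 1) * (2 * r + 3) * (r.centralBinom ^ 2 * (2 * r + 1)) ≤
        4 * (2 * r + 1) * (2 * r + 3) * 16 ^ r := Nat.mul_le_mul_left _ ih
    have h3 : 4 * (2 * r + 1) * (2 * r + 3) * 16 ^ r ≤ (r + 1) ^ 2 * 16 ^ (r + 1) := by
      have h5 : (2 * r + 1) * (2 * r + 3) ≤ 4 * (r + 1) ^ 2 := by nlinarith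
      calc 4 * (2 * r + 1) * (2 * r + 3) * 16 ^ r
          = ((2 * r + 1) * (2 * r + 3)) * (4 * 16 ^ r) := by ring
        _ ≤ (4 * (r + 1) ^ 2) * (4 * 16 ^ r) := Nat.mul_le_mul_right _ h5
        _ = _ := by ring
    exact Nat.le_of_mul_le_mul_left (h1.le.trans (h2.trans h3)) (by positivity)

private theorem CEN_mid (m : ℕ) : (m.choose (m / 2)) ^ 2 * m ≤ 4 ^ m := by
  obtain ⟨r, hr | hr⟩ := Nat.even_or_odd' m
  · have h0 : m / 2 = r := by omega
    rw [h0]
    subst hr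
    have h := CEN_even r
    unfold Nat.centralBinom at h
    calc ((2 * r).choose r) ^ 2 * (2 * r) ≤ ((2 * r).choose r) ^ 2 * (2 * r + 1) :=
          Nat.mul_le_mul_left _ (by omega)
      _ ≤ 16 ^ r := h
      _ = 4 ^ (2 * r) := by rw [pow_mul]; norm_num
  · have h0 : m / 2 = r := by omega
    rw [h0]
    subst hr
    have h := CEN_even (r + 1)
    have e : (r + 1).centralBinom = 2 * (2 * r + 1).choose r := by
      unfold Nat.centralBinom
      rw [show 2 * (r + 1) = (2 * r + 1) + 1 by ring, Nat.choose_succ_succ,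
        Nat.choose_symm_half]
      ring
    rw [e] at h
    have h1 : 4 * (((2 * r + 1).choose r) ^ 2 * (2 * r + 1)) ≤ 4 * 4 ^ (2 * r + 1) := by
      calc 4 * (((2 * r + 1).choose r) ^ 2 * (2 * r + 1))
          = (2 * (2 * r + 1).choose r) ^ 2 * (2 * r + 1) := by ring
        _ ≤ (2 * (2 * r + 1).choose r) ^ 2 * (2 * (r + 1) + 1) :=
            Nat.mul_le_mul_left _ (by omega)
        _ ≤ 16 ^ (r + 1) := h
        _ = 4 * 4 ^ (2 * r + 1) := by
            rw [← pow_succ', show 2 * r + 1 + 1 = 2 * (r + 1) by ring, pow_mul]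
            norm_num
    omega

/-- CEN -/
theorem choose_sqrt (m k : ℕ) : (m.choose k : ℝ) * √(m : ℝ) ≤ 2 ^ m := by
  have h1 : (m.choose k) ^ 2 * m ≤ 4 ^ m :=
    (Nat.mul_le_mul_right m (Nat.pow_le_pow_left (Nat.choose_le_middle k m) 2)).trans (CEN_mid m)
  have h2 : ((m.choose k : ℝ) * √(m : ℝ)) ^ 2 ≤ ((2 : ℝ) ^ m) ^ 2 := by
    rw [mul_pow, Real.sq_sqrt (Nat.cast_nonneg m), ← pow_mul, mul_comm m 2, pow_mul]
    norm_num
    exact_mod_cast h1
  exact (sq_le_sq₀ (by positivity) (by positivity)).1 h2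

end Pool.Agent.MDF
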