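import Pool.Agent.MDF.Defs
import Pool.Agent.MDF.CEN

set_option autoImplicit false

open scoped Classical

namespace Pool.Agent.MDF

open Finset Pool.Agent.MD437

variable {n : ℕ}

private theorem bin_thin {ι : Type} [DecidableEq ι] (r : ℝ) (A : Finset ι) :
    ∀ g : Finset ι → ℝ, ex r A g = ex (2 * r) A (fun Z => ex (1 / 2) Z g) := by
  induction A using Finset.induction_on with
  | empty => intro g; simp [ex_empty]
  | insert a A ha ih =>
    intro g
    rw [ex_insert r ha, ex_insert (2 * r) ha]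
    have h1 : ex (2 * r) A (fun S => ex (1 / 2) (insert a S) g)
        = ex (2 * r) A (fun S => (1 / 2) * ex (1 / 2) S g
          + (1 / 2) * ex (1 / 2) S (fun T => g (insert a T))) := by
      apply ex_congr
      intro S hS
      rw [ex_insert (1 / 2) (fun h => ha (hS h))]
      norm_num
    rw [h1, ex_add, ex_mul_left, ex_mul_left, ← ih, ← ih (fun T => g (insert a T))]
    ring

private theorem bin_var {ι : Type} [DecidableEq ι] (p : ℝ) (A : Finset ι) :
    ∀ c : ℝ, ex p A (fun S => ((S.card : ℝ) - c) ^ 2)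
      = p * (1 - p) * A.card + (p * A.card - c) ^ 2 := by
  induction A using Finset.induction_on with
  | empty => intro c; simp [ex_empty]
  | insert a A ha ih =>
    intro c
    rw [ex_insert p ha]
    have h1 : ex p A (fun S => (((insert a S).card : ℝ) - c) ^ 2)
        = ex p A (fun S => ((S.card : ℝ) - (c - 1)) ^ 2) := by
      apply ex_congr
      intro S hS
      rw [Finset.card_insert_of_notMem (fun h => ha (hS h))]
      push_cast
      ring
    rw [h1, ih c, ih (c - 1), Finset.card_insert_of_notMem ha]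
    push_cast
    ring

private theorem bin_half {ι : Type} [DecidableEq ι] (Z : Finset ι) (k : ℕ) :
    ex (1 / 2) Z (fun S => if S.card = k then (1 : ℝ) else 0) = (Z.card.choose k : ℝ) / 2 ^ Z.card := by
  unfold ex
  have h1 : ∀ S ∈ Z.powerset, (1 / 2 : ℝ) ^ S.card * (1 - 1 / 2) ^ (Z.card - S.card)
      * (if S.card = k then (1 : ℝ) else 0) = if S.card = k then (1 / 2 : ℝ) ^ Z.card else 0 := by
    intro S hS
    have hS' : S.card ≤ Z.card := Finset.card_le_card (Finset.mem_powerset.mp hS)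
    split_ifs
    · have : (1 - 1 / 2 : ℝ) = 1 / 2 := by norm_num
      rw [this, ← pow_add, mul_one]
      congr 1
      omega
    · rw [mul_zero]
  rw [Finset.sum_congr rfl h1, ← Finset.sum_filter, Finset.sum_const, nsmul_eq_mul,
    ← Finset.powersetCard_eq_filter, Finset.card_powersetCard, one_div, inv_pow]
  rfl

private theorem bin_h {ι : Type} [DecidableEq ι] (Z : Finset ι) (k : ℕ) (s : ℝ) (hs : 1 ≤ s) :
    (Z.card.choose k : ℝ) / 2 ^ Z.card * s ≤ 1 + ((Z.card : ℝ) - 2 * s ^ 2) ^ 2 / s ^ 3 := by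
  have h2 : (0 : ℝ) < 2 ^ Z.card := by positivity
  have hs0 : 0 < s := by linarith
  have hs3 : 0 < s ^ 3 := by positivity
  have hq : 0 ≤ ((Z.card : ℝ) - 2 * s ^ 2) ^ 2 / s ^ 3 := by positivity
  rcases le_or_gt (s ^ 2) (Z.card : ℝ) with h | h
  · have h3 : s ≤ √(Z.card : ℝ) := Real.le_sqrt_of_sq_le h
    have h4 := choose_sqrt Z.card k
    have h5 : (Z.card.choose k : ℝ) * s ≤ 2 ^ Z.card :=
      (mul_le_mul_of_nonneg_left h3 (Nat.cast_nonneg _)).trans h4
    have h6 : (Z.card.choose k : ℝ) / 2 ^ Z.card * s ≤ 1 := by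
      rw [div_mul_eq_mul_div, div_le_one h2]
      exact h5
    linarith
  · have h3 : (Z.card.choose k : ℝ) ≤ 2 ^ Z.card := by
      exact_mod_cast Nat.choose_le_two_pow Z.card k
    have h4 : (Z.card.choose k : ℝ) / 2 ^ Z.card ≤ 1 := by
      rw [div_le_one h2]
      exact h3
    have h5 : (Z.card.choose k : ℝ) / 2 ^ Z.card * s ≤ s := by
      nlinarith
    have h6 : s ≤ ((Z.card : ℝ) - 2 * s ^ 2) ^ 2 / s ^ 3 := by
      rw [le_div_iff₀ hs3]
      have h7 : s ^ 2 ≤ 2 * s ^ 2 - (Z.card : ℝ) := by linarith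
      have h8 : 0 ≤ s ^ 2 := by positivity
      have h9 : (s ^ 2) ^ 2 ≤ (2 * s ^ 2 - (Z.card : ℝ)) ^ 2 := by
        exact pow_le_pow_left₀ h8 h7 2
      nlinarith
    linarith

/-- BIN -/
theorem bin_point {ι : Type} [DecidableEq ι] (r : ℝ) (h0 : 0 ≤ r) (h1 : r ≤ 1 / 2)
    (A : Finset ι) (k : ℕ) : pr r A (fun Y => Y.card = k) * √(r * A.card) ≤ 4 := by
  have hA : 0 ≤ r * (A.card : ℝ) := by positivity
  set s := √(r * A.card) with hs
  have hs0 : 0 ≤ s := Real.sqrt_nonneg _
  have hs2 : s ^ 2 = r * A.card := Real.sq_sqrt hA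
  have hp0 : 0 ≤ pr r A (fun Y => Y.card = k) := pr_nonneg h0 (by linarith) A _
  have hp1 : pr r A (fun Y => Y.card = k) ≤ 1 := by
    rw [pr_def]
    calc _ ≤ ex r A (fun _ => (1 : ℝ)) := by
          apply ex_mono h0 (by linarith)
          intro S _
          split_ifs <;> norm_num
      _ = 1 := ex_const r A 1
  rcases le_or_gt 1 s with h | h
  · have e1 : pr r A (fun Y => Y.card = k) * s
        = ex (2 * r) A (fun Z => (Z.card.choose k : ℝ) / 2 ^ Z.card * s) := by
      rw [pr_def, bin_thin, mul_comm, ← ex_mul_left]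
      apply ex_congr
      intro Z _
      rw [bin_half, mul_comm]
    have e2 : ex (2 * r) A (fun Z => (Z.card.choose k : ℝ) / 2 ^ Z.card * s)
        ≤ ex (2 * r) A (fun Z => 1 + (1 / s ^ 3) * ((Z.card : ℝ) - 2 * s ^ 2) ^ 2) := by
      apply ex_mono (by linarith) (by linarith)
      intro Z _
      have := bin_h Z k s h
      rw [one_div, inv_mul_eq_div]
      exact this
    rw [e1]
    refine e2.trans ?_
    rw [ex_add, ex_const, ex_mul_left, bin_var]
    have e3 : 2 * r * (A.card : ℝ) - 2 * s ^ 2 = 0 := by rw [hs2]; ring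
    rw [e3]
    have e4 : 2 * r * (1 - 2 * r) * (A.card : ℝ) ≤ 2 * s ^ 2 := by
      rw [hs2]
      nlinarith
    have hs3 : 0 < s ^ 3 := by positivity
    have e5 : 1 / s ^ 3 * (2 * r * (1 - 2 * r) * (A.card : ℝ) + 0 ^ 2) ≤ 2 := by
      rw [one_div, inv_mul_eq_div, div_le_iff₀ hs3]
      nlinarith [sq_nonneg s]
    linarith
  · nlinarith

private theorem bin_count (N : ℕ) (c L : ℝ) (hL : 0 ≤ L) :
    (((range N).filter (fun k : ℕ => |c + (k : ℝ)| ≤ L)).card : ℝ) ≤ 2 * L + 1 := by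
  have h1 : ((range N).filter (fun k : ℕ => |c + (k : ℝ)| ≤ L)).image (fun k : ℕ => (k : ℤ))
      ⊆ Finset.Icc ⌈-L - c⌉ ⌊L - c⌋ := by
    intro z hz
    rw [Finset.mem_image] at hz
    obtain ⟨k, hk, rfl⟩ := hz
    rw [Finset.mem_filter] at hk
    have h2 := abs_le.mp hk.2
    rw [Finset.mem_Icc]
    constructor
    · rw [Int.ceil_le]
      push_cast
      linarith [h2.1]
    · rw [Int.le_floor]
      push_cast
      linarith [h2.2]
  have h3 := Finset.card_le_card h1
  rw [Finset.card_image_of_injective _ Nat.cast_injective, Int.card_Icc] at h3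
  have h4 : (((⌊L - c⌋ + 1 - ⌈-L - c⌉).toNat : ℕ) : ℝ) ≤ 2 * L + 1 := by
    rcases le_or_gt 0 (⌊L - c⌋ + 1 - ⌈-L - c⌉) with h | h
    · have h5 : (((⌊L - c⌋ + 1 - ⌈-L - c⌉).toNat : ℕ) : ℝ)
          = ((⌊L - c⌋ + 1 - ⌈-L - c⌉ : ℤ) : ℝ) := by
        have := Int.toNat_of_nonneg h
        exact_mod_cast congrArg (fun z : ℤ => (z : ℝ)) this
      rw [h5]
      push_cast
      have h6 := Int.floor_le (L - c)
      have h7 := Int.le_ceil (-L - c)
      linarith
    · rw [Int.toNat_of_nonpos h.le]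
      push_cast
      linarith
  exact (by exact_mod_cast h3 : ((_ : ℕ) : ℝ) ≤ ((_ : ℕ) : ℝ)).trans h4

/-- BIN -/
theorem bin_window {ι : Type} [DecidableEq ι] (r : ℝ) (h0 : 0 ≤ r) (h1 : r ≤ 1 / 2)
    (A : Finset ι) (c L : ℝ) (hL : 0 ≤ L) :
    pr r A (fun Y => |c + Y.card| ≤ L) * √(r * A.card) ≤ 4 * (2 * L + 1) := by
  set s := (range (A.card + 1)).filter (fun k : ℕ => |c + (k : ℝ)| ≤ L) with hs
  have e1 : pr r A (fun Y => |c + Y.card| ≤ L) ≤ ∑ k ∈ s, pr r A (fun Y => Y.card = k) := by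
    refine le_trans ?_ (pr_union h0 (by linarith) A s (fun k Y => Y.card = k))
    apply pr_mono h0 (by linarith)
    intro S hS hc
    refine ⟨S.card, ?_, rfl⟩
    rw [hs, Finset.mem_filter, Finset.mem_range]
    exact ⟨Nat.lt_succ_of_le (Finset.card_le_card hS), hc⟩
  have h2 : 0 ≤ √(r * A.card) := Real.sqrt_nonneg _
  calc pr r A (fun Y => |c + Y.card| ≤ L) * √(r * A.card)
      ≤ (∑ k ∈ s, pr r A (fun Y => Y.card = k)) * √(r * A.card) :=
        mul_le_mul_of_nonneg_right e1 h2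
    _ = ∑ k ∈ s, pr r A (fun Y => Y.card = k) * √(r * A.card) := by rw [Finset.sum_mul]
    _ ≤ ∑ _k ∈ s, (4 : ℝ) := Finset.sum_le_sum fun k _ => bin_point r h0 h1 A k
    _ = 4 * (s.card : ℝ) := by rw [Finset.sum_const, nsmul_eq_mul, mul_comm]
    _ ≤ 4 * (2 * L + 1) := by
        have := bin_count (A.card + 1) c L hL
        rw [← hs] at this
        linarith

end Pool.Agent.MDF
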