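import Pool.Agent.MDF.Defs

set_option autoImplicit false

open scoped Classical

namespace Pool.Agent.MDF

open Finset Pool.Agent.MD437

variable {n : ℕ}

private lemma PSH_one {α β : Type} [DecidableEq α] [DecidableEq β] (p : ℝ) (w : α)
    (M : Finset β) (a b : ℝ) :
    ex p (({w} : Finset α) ×ˢ M) (fun T => if ∃ z ∈ M, (w, z) ∈ T then a else b) =
      (1 - (1 - p) ^ M.card) * a + (1 - p) ^ M.card * b := by
  have h1 : ∀ T ⊆ ({w} : Finset α) ×ˢ M, (if ∃ z ∈ M, (w, z) ∈ T then a else b) =
      a + (b - a) * (if Disjoint T (({w} : Finset α) ×ˢ M) then (1 : ℝ) else 0) := by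
    intro T hT
    by_cases h : ∃ z ∈ M, (w, z) ∈ T
    · rw [if_pos h, if_neg]
      · ring
      · obtain ⟨z, hz, hT'⟩ := h
        rw [Finset.disjoint_left]
        intro hd
        exact hd hT' (Finset.mem_product.2 ⟨Finset.mem_singleton_self w, hz⟩)
    · rw [if_neg h, if_pos]
      · ring
      · rw [Finset.disjoint_left]
        rintro ⟨x, z⟩ hT' hp
        obtain ⟨h2, h3⟩ := Finset.mem_product.1 hp
        have h4 : x = w := Finset.mem_singleton.1 h2
        subst h4
        exact h ⟨z, h3, hT'⟩
  rw [ex_congr p h1, ex_add, ex_const, ex_mul_left, ex_miss p (Finset.Subset.refl _),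
    Finset.card_product, Finset.card_singleton, one_mul]
  ring

/-- PSH -/
theorem push {α β : Type} [DecidableEq α] [DecidableEq β] (p : ℝ) (R : Finset α)
    (M : Finset β) (g : Finset α → ℝ) :
    ex p (R ×ˢ M) (fun T => g (R.filter fun w => ∃ z ∈ M, (w, z) ∈ T)) =
      ex (1 - (1 - p) ^ M.card) R g := by
  induction R using Finset.induction_on generalizing g with
  | empty => simp [ex_empty]
  | insert w R hw ih =>
    have hd : Disjoint (({w} : Finset α) ×ˢ M) (R ×ˢ M) := by
      rw [Finset.disjoint_left]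
      rintro ⟨x, z⟩ h1 h2
      have h3 : x = w := Finset.mem_singleton.1 (Finset.mem_product.1 h1).1
      subst h3
      exact hw (Finset.mem_product.1 h2).1
    have hu : (insert w R) ×ˢ M = (({w} : Finset α) ×ˢ M) ∪ (R ×ˢ M) := by
      rw [← Finset.union_product, Finset.insert_eq]
    rw [hu, ex_union p hd, ex_insert _ hw]
    have h1 : ∀ T1 ⊆ ({w} : Finset α) ×ˢ M,
        ex p (R ×ˢ M) (fun T2 => g ((insert w R).filter fun x => ∃ z ∈ M, (x, z) ∈ T1 ∪ T2)) =
        if ∃ z ∈ M, (w, z) ∈ T1 then ex (1 - (1 - p) ^ M.card) R (fun S => g (insert w S))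
          else ex (1 - (1 - p) ^ M.card) R g := by
      intro T1 hT1
      rw [← ih g, ← ih (fun S => g (insert w S))]
      have h2 : ∀ T2 ⊆ R ×ˢ M, ((insert w R).filter fun x => ∃ z ∈ M, (x, z) ∈ T1 ∪ T2) =
          if ∃ z ∈ M, (w, z) ∈ T1 then insert w (R.filter fun x => ∃ z ∈ M, (x, z) ∈ T2)
            else R.filter fun x => ∃ z ∈ M, (x, z) ∈ T2 := by
        intro T2 hT2
        have h3 : (R.filter fun x => ∃ z ∈ M, (x, z) ∈ T1 ∪ T2) =
            R.filter fun x => ∃ z ∈ M, (x, z) ∈ T2 := by
          apply Finset.filter_congr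
          intro x hx
          constructor
          · rintro ⟨z, hz, h⟩
            rw [Finset.mem_union] at h
            rcases h with h | h
            · have h4 : x = w := Finset.mem_singleton.1 (Finset.mem_product.1 (hT1 h)).1
              subst h4
              exact absurd hx hw
            · exact ⟨z, hz, h⟩
          · rintro ⟨z, hz, h⟩
            exact ⟨z, hz, Finset.mem_union_right _ h⟩
        have h4 : (∃ z ∈ M, (w, z) ∈ T1 ∪ T2) ↔ ∃ z ∈ M, (w, z) ∈ T1 := by
          constructor
          · rintro ⟨z, hz, h⟩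
            rw [Finset.mem_union] at h
            rcases h with h | h
            · exact ⟨z, hz, h⟩
            · exact absurd (Finset.mem_product.1 (hT2 h)).1 hw
          · rintro ⟨z, hz, h⟩
            exact ⟨z, hz, Finset.mem_union_left _ h⟩
        by_cases h5 : ∃ z ∈ M, (w, z) ∈ T1
        · rw [if_pos h5, Finset.filter_insert, if_pos (h4.2 h5), h3]
        · rw [if_neg h5, Finset.filter_insert, if_neg (fun h => h5 (h4.1 h)), h3]
      by_cases h5 : ∃ z ∈ M, (w, z) ∈ T1
      · rw [if_pos h5]
        apply ex_congr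
        intro T2 hT2
        rw [h2 T2 hT2, if_pos h5]
      · rw [if_neg h5]
        apply ex_congr
        intro T2 hT2
        rw [h2 T2 hT2, if_neg h5]
    rw [ex_congr p h1, PSH_one]
    ring

end Pool.Agent.MDF
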