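import Pool.Agent.MDF.Defs
import Pool.Agent.MDF.PSH
import Pool.Agent.MDF.BIN

set_option autoImplicit false

open scoped Classical

namespace Pool.Agent.MDF

open Finset Pool.Agent.MD437

variable {n : ℕ}

private lemma ACB_inner {α : Type} [DecidableEq α] {p : ℝ} (hp0 : 0 ≤ p) (hp1 : p ≤ 1)
    (R FU FV : Finset α) (c L N0 : ℝ) (hL : 0 ≤ L)
    (hr : 1 - (1 - p) ^ (FU \ FV).card ≤ 1 / 2) (T1 : Finset (α × α)) (hT1 : T1 ⊆ R ×ˢ FV) :
    pr p (R ×ˢ (FU \ FV)) (fun T2 =>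
      |c + (R.filter fun w => ∃ z ∈ FU, (w, z) ∈ T1 ∪ T2).card -
        (R.filter fun w => ∃ z ∈ FV, (w, z) ∈ T1 ∪ T2).card| ≤ L ∧
      N0 ≤ ((R.filter fun w => ∀ z ∈ FU ∪ FV, (w, z) ∉ T1 ∪ T2).card : ℝ)) *
      √((1 - (1 - p) ^ (FU \ FV).card) * N0) ≤ 4 * (2 * L + 1) := by
  have hq0 : 0 ≤ 1 - p := by linarith
  have hq1 : 1 - p ≤ 1 := by linarith
  have hr0 : 0 ≤ 1 - (1 - p) ^ (FU \ FV).card := by
    have := pow_le_one₀ (n := (FU \ FV).card) hq0 hq1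
    linarith
  set M := FU \ FV with hM
  set r := 1 - (1 - p) ^ M.card with hrdef
  set R' := R.filter (fun w => ∀ z ∈ FU ∩ FV, (w, z) ∉ T1) with hR'
  have hR'sub : R' ⊆ R := Finset.filter_subset _ _
  -- the three counts
  have h1 : ∀ T2 ⊆ R ×ˢ M, (R.filter fun w => ∃ z ∈ FU, (w, z) ∈ T1 ∪ T2).card =
      (R \ R').card + (R'.filter fun w => ∃ z ∈ M, (w, z) ∈ T2).card := by
    intro T2 hT2
    have e : (R.filter fun w => ∃ z ∈ FU, (w, z) ∈ T1 ∪ T2) =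
        (R \ R') ∪ (R'.filter fun w => ∃ z ∈ M, (w, z) ∈ T2) := by
      ext w
      simp only [Finset.mem_filter, Finset.mem_union, Finset.mem_sdiff, hR']
      constructor
      · rintro ⟨hw, z, hz, h | h⟩
        · left
          refine ⟨hw, fun h2 => ?_⟩
          have hz2 : z ∈ FV := (Finset.mem_product.1 (hT1 h)).2
          exact h2.2 z (Finset.mem_inter.2 ⟨hz, hz2⟩) h
        · by_cases h2 : ∀ z ∈ FU ∩ FV, (w, z) ∉ T1
          · right
            exact ⟨⟨hw, h2⟩, z, (Finset.mem_product.1 (hT2 h)).2, h⟩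
          · left
            exact ⟨hw, fun h3 => h2 h3.2⟩
      · rintro (⟨hw, h2⟩ | ⟨⟨hw, h2⟩, z, hz, h⟩)
        · have h3 : ¬ ∀ z ∈ FU ∩ FV, (w, z) ∉ T1 := fun h3 => h2 ⟨hw, h3⟩
          push Not at h3
          obtain ⟨z, hz, hz2⟩ := h3
          exact ⟨hw, z, (Finset.mem_inter.1 hz).1, Or.inl hz2⟩
        · exact ⟨hw, z, (Finset.mem_sdiff.1 hz).1, Or.inr h⟩
    rw [e, Finset.card_union_of_disjoint]
    rw [Finset.disjoint_left]
    intro w hw hw2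
    exact (Finset.mem_sdiff.1 hw).2 (Finset.mem_filter.1 hw2).1
  have h2 : ∀ T2 ⊆ R ×ˢ M, (R.filter fun w => ∃ z ∈ FV, (w, z) ∈ T1 ∪ T2) =
      (R.filter fun w => ∃ z ∈ FV, (w, z) ∈ T1) := by
    intro T2 hT2
    ext w
    simp only [Finset.mem_filter, Finset.mem_union]
    constructor
    · rintro ⟨hw, z, hz, h | h⟩
      · exact ⟨hw, z, hz, h⟩
      · exact absurd hz (Finset.mem_sdiff.1 (Finset.mem_product.1 (hT2 h)).2).2
    · rintro ⟨hw, z, hz, h⟩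
      exact ⟨hw, z, hz, Or.inl h⟩
  have h3 : ∀ T2 ⊆ R ×ˢ M, (R.filter fun w => ∀ z ∈ FU ∪ FV, (w, z) ∉ T1 ∪ T2) ⊆ R' := by
    intro T2 hT2 w hw
    rw [Finset.mem_filter] at hw
    rw [hR', Finset.mem_filter]
    refine ⟨hw.1, fun z hz h => ?_⟩
    exact hw.2 z (Finset.mem_union_left _ (Finset.mem_inter.1 hz).1) (Finset.mem_union_left _ h)
  by_cases hN : N0 ≤ (R'.card : ℝ)
  · -- main case
    set c' : ℝ := c + (R \ R').card - (R.filter fun w => ∃ z ∈ FV, (w, z) ∈ T1).card with hc'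
    have step1 : pr p (R ×ˢ M) (fun T2 =>
        |c + (R.filter fun w => ∃ z ∈ FU, (w, z) ∈ T1 ∪ T2).card -
          (R.filter fun w => ∃ z ∈ FV, (w, z) ∈ T1 ∪ T2).card| ≤ L ∧
        N0 ≤ ((R.filter fun w => ∀ z ∈ FU ∪ FV, (w, z) ∉ T1 ∪ T2).card : ℝ)) ≤
        pr p (R ×ˢ M) (fun T2 =>
          |c' + (R'.filter fun w => ∃ z ∈ M, (w, z) ∈ T2).card| ≤ L) := by
      refine pr_mono hp0 hp1 fun T2 hT2 h => ?_
      have h4 := h.1
      rw [h1 T2 hT2, h2 T2 hT2] at h4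
      push_cast at h4
      have e : c' + ((R'.filter fun w => ∃ z ∈ M, (w, z) ∈ T2).card : ℝ) =
          c + (((R \ R').card : ℝ) + (R'.filter fun w => ∃ z ∈ M, (w, z) ∈ T2).card) -
            (R.filter fun w => ∃ z ∈ FV, (w, z) ∈ T1).card := by
        rw [hc']; ring
      rw [e]
      exact h4
    have hdis : Disjoint (R' ×ˢ M) ((R \ R') ×ˢ M) := by
      rw [Finset.disjoint_left]
      intro q hq hq2
      exact (Finset.mem_sdiff.1 (Finset.mem_product.1 hq2).1).2 (Finset.mem_product.1 hq).1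
    have hun : R ×ˢ M = R' ×ˢ M ∪ (R \ R') ×ˢ M := by
      rw [← Finset.union_product, Finset.union_sdiff_of_subset hR'sub]
    have step2 : pr p (R ×ˢ M) (fun T2 =>
          |c' + (R'.filter fun w => ∃ z ∈ M, (w, z) ∈ T2).card| ≤ L) =
        pr r R' (fun Y => |c' + Y.card| ≤ L) := by
      rw [pr_def, pr_def, hun, ex_union p hdis]
      rw [← push p R' M (fun Y => if |c' + (Y.card : ℝ)| ≤ L then (1 : ℝ) else 0)]
      refine ex_congr p fun S hS => ?_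
      refine (ex_congr p fun T hT => ?_).trans (ex_const p ((R \ R') ×ˢ M) _)
      have e : (R'.filter fun w => ∃ z ∈ M, (w, z) ∈ S ∪ T) =
          (R'.filter fun w => ∃ z ∈ M, (w, z) ∈ S) := by
        ext w
        simp only [Finset.mem_filter, Finset.mem_union]
        constructor
        · rintro ⟨hw, z, hz, h | h⟩
          · exact ⟨hw, z, hz, h⟩
          · exact absurd hw (Finset.mem_sdiff.1 (Finset.mem_product.1 (hT h)).1).2
        · rintro ⟨hw, z, hz, h⟩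
          exact ⟨hw, z, hz, Or.inl h⟩
      rw [e]
    have hb := bin_window r hr0 hr R' c' L hL
    have hs : √(r * N0) ≤ √(r * R'.card) :=
      Real.sqrt_le_sqrt (mul_le_mul_of_nonneg_left hN hr0)
    have hpn : 0 ≤ pr r R' (fun Y => |c' + Y.card| ≤ L) :=
      pr_nonneg hr0 (by linarith) _ _
    calc _ ≤ pr r R' (fun Y => |c' + Y.card| ≤ L) * √(r * N0) :=
          mul_le_mul_of_nonneg_right (step1.trans step2.le) (Real.sqrt_nonneg _)
      _ ≤ pr r R' (fun Y => |c' + Y.card| ≤ L) * √(r * R'.card) :=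
          mul_le_mul_of_nonneg_left hs hpn
      _ ≤ _ := hb
  · have hz : pr p (R ×ˢ M) (fun T2 =>
        |c + (R.filter fun w => ∃ z ∈ FU, (w, z) ∈ T1 ∪ T2).card -
          (R.filter fun w => ∃ z ∈ FV, (w, z) ∈ T1 ∪ T2).card| ≤ L ∧
        N0 ≤ ((R.filter fun w => ∀ z ∈ FU ∪ FV, (w, z) ∉ T1 ∪ T2).card : ℝ)) = 0 := by
      rw [pr_def]
      refine (ex_congr p fun T2 hT2 => ?_).trans (ex_const p (R ×ˢ M) 0)
      rw [if_neg]
      rintro ⟨-, h5⟩
      have h6 : ((R.filter fun w => ∀ z ∈ FU ∪ FV, (w, z) ∉ T1 ∪ T2).card : ℝ) ≤ R'.card := by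
        exact_mod_cast Finset.card_le_card (h3 T2 hT2)
      exact hN (h5.trans h6)
    rw [hz, zero_mul]
    linarith

/-- ACB -/
theorem ac_block {α : Type} [DecidableEq α] {p : ℝ} (hp0 : 0 ≤ p) (hp1 : p ≤ 1)
    (R FU FV : Finset α) (c L N0 : ℝ) (hL : 0 ≤ L) (hN0 : 0 ≤ N0)
    (hr : 1 - (1 - p) ^ (FU \ FV).card ≤ 1 / 2) :
    pr p (R ×ˢ (FU ∪ FV)) (fun T =>
      |c + (R.filter fun w => ∃ z ∈ FU, (w, z) ∈ T).card -
        (R.filter fun w => ∃ z ∈ FV, (w, z) ∈ T).card| ≤ L ∧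
      N0 ≤ ((R.filter fun w => ∀ z ∈ FU ∪ FV, (w, z) ∉ T).card : ℝ)) *
      √((1 - (1 - p) ^ (FU \ FV).card) * N0) ≤ 4 * (2 * L + 1) := by
  have hdis : Disjoint (R ×ˢ FV) (R ×ˢ (FU \ FV)) := by
    rw [Finset.disjoint_left]
    intro q hq hq2
    exact (Finset.mem_sdiff.1 (Finset.mem_product.1 hq2).2).2 (Finset.mem_product.1 hq).2
  have hun : R ×ˢ (FU ∪ FV) = R ×ˢ FV ∪ R ×ˢ (FU \ FV) := by
    rw [← Finset.product_union, Finset.union_sdiff_self_eq_union, Finset.union_comm]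
  rw [pr_def, hun, ex_union p hdis, mul_comm, ← ex_mul_left]
  refine (ex_mono hp0 hp1 fun T1 hT1 => ?_).trans (ex_const p (R ×ˢ FV) _).le
  have h := ACB_inner hp0 hp1 R FU FV c L N0 hL hr T1 hT1
  rw [pr_def, mul_comm] at h
  exact h

end Pool.Agent.MDF
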