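import Pool.Agent.MDF.Defs2

set_option autoImplicit false

open scoped Classical

namespace Pool.Agent.MDF

open Finset Pool.Agent.MD437

variable {n : ℕ}

private theorem ALT_card (W Z X : Finset (Fin n)) :
    (symmDiff W Z ∩ X).card + 2 * (W ∩ X ∩ (Z ∩ X)).card = (W ∩ X).card + (Z ∩ X).card := by
  have h1 : symmDiff W Z ∩ X = ((W ∩ X) \ (Z ∩ X)) ∪ ((Z ∩ X) \ (W ∩ X)) := by
    ext w
    simp only [Finset.mem_inter, Finset.mem_symmDiff, Finset.mem_union, Finset.mem_sdiff]
    tauto
  have h2 : Disjoint ((W ∩ X) \ (Z ∩ X)) ((Z ∩ X) \ (W ∩ X)) := by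
    rw [Finset.disjoint_left]
    intro w hw hw2
    simp only [Finset.mem_inter, Finset.mem_sdiff] at hw hw2
    tauto
  have h3 := Finset.card_sdiff_add_card_inter (W ∩ X) (Z ∩ X)
  have h4 := Finset.card_sdiff_add_card_inter (Z ∩ X) (W ∩ X)
  rw [Finset.inter_comm (Z ∩ X) (W ∩ X)] at h4
  rw [h1, Finset.card_union_of_disjoint h2]
  omega

private theorem ALT_symm {S : Finset (Sym2 (Fin n))} {W : Finset (Fin n)} {i B : ℕ}
    {u v : Fin n} (h : Nr S W i B u v) : Nr S W i B v u := by
  intro j h1 h2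
  rw [abs_sub_comm]
  exact h j h1 h2

private theorem ALT_mono {S : Finset (Sym2 (Fin n))} {W : Finset (Fin n)} {i B : ℕ}
    {u v : Fin n} (h : Nr S W i 0 u v) : Nr S W i B u v := by
  intro j h1 h2
  exact le_trans (h j h1 h2) (by exact_mod_cast Nat.zero_le B)

/-- ALT -/
theorem alter (S : Finset (Sym2 (Fin n))) (W : Finset (Fin n)) (i K : ℕ) (hi : 1 ≤ i)
    (h3 : ∀ u v v', u ≠ v → u ≠ v' → v ≠ v' →
      ¬ (Nr S W i (2 * K + 1) u v ∧ Nr S W i (2 * K + 1) u v'))
    (z : Fin n → Fin n)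
    (hz1 : ∀ u v, u ≠ v → Nr S W i 0 u v → z u ∈ sp S u i)
    (hz2 : ∀ u v, u ≠ v → Nr S W i 0 u v → ∀ w w', w ≠ w' → Nr S W i (2 * K + 1) w w' →
      w ≠ u → z u ∉ bl S w i)
    (hz3 : ∀ w, (Finset.univ.filter fun u => (∃ v, u ≠ v ∧ Nr S W i 0 u v) ∧ u ≠ w ∧
      z u ∈ bl S w i).card < K) :
    ∃ W' : Finset (Fin n), ∀ u v, u ≠ v → ∃ j, (W' ∩ sp S u j).card ≠ (W' ∩ sp S v j).card := by
  set U : Finset (Fin n) := Finset.univ.filter fun u => ∃ v, u < v ∧ Nr S W i 0 u v with hU
  have hUm : ∀ u, u ∈ U ↔ ∃ v, u < v ∧ Nr S W i 0 u v := by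
    intro u
    rw [hU, Finset.mem_filter]
    simp
  set Z : Finset (Fin n) := U.image z with hZ
  have hsub : ∀ (w : Fin n) (j : ℕ), j ≤ i → sp S w j ⊆ bl S w i :=
    fun w j hj => sp_subset.trans (bl_mono hj)
  -- the change is at most `K`
  have hK : ∀ (w : Fin n) (j : ℕ), j ≤ i → (Z ∩ sp S w j).card ≤ K := by
    intro w j hj
    have h1 : Z ∩ sp S w j ⊆ insert (z w) ((Finset.univ.filter fun u =>
        (∃ v, u ≠ v ∧ Nr S W i 0 u v) ∧ u ≠ w ∧ z u ∈ bl S w i).image z) := by
      intro x hx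
      rw [Finset.mem_inter, hZ, Finset.mem_image] at hx
      obtain ⟨⟨u, hu, rfl⟩, hx⟩ := hx
      by_cases huw : u = w
      · rw [huw]
        exact Finset.mem_insert_self _ _
      · refine Finset.mem_insert_of_mem (Finset.mem_image.2 ⟨u, ?_, rfl⟩)
        rw [Finset.mem_filter]
        obtain ⟨v, hv, hv2⟩ := (hUm u).1 hu
        exact ⟨Finset.mem_univ _, ⟨v, hv.ne, hv2⟩, huw, hsub w j hj hx⟩
    have h2 := Finset.card_le_card h1
    have h4 := Finset.card_insert_le (z w) ((Finset.univ.filter fun u =>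
        (∃ v, u ≠ v ∧ Nr S W i 0 u v) ∧ u ≠ w ∧ z u ∈ bl S w i).image z)
    have h5 := Finset.card_image_le (f := z) (s := Finset.univ.filter fun u =>
        (∃ v, u ≠ v ∧ Nr S W i 0 u v) ∧ u ≠ w ∧ z u ∈ bl S w i)
    have h6 := hz3 w
    omega
  -- a vertex with a near partner only sees its own change
  have hnear : ∀ w w', w ≠ w' → Nr S W i (2 * K + 1) w w' → ∀ x ∈ Z, x ∈ bl S w i →
      w ∈ U ∧ x = z w := by
    intro w w' hw hn x hx hx2
    rw [hZ, Finset.mem_image] at hx
    obtain ⟨u, hu, rfl⟩ := hx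
    by_cases huw : u = w
    · rw [huw] at hu
      exact ⟨hu, by rw [huw]⟩
    · obtain ⟨v, hv, hv2⟩ := (hUm u).1 hu
      exact absurd hx2 (hz2 u v hv.ne hv2 w w' hw hn (Ne.symm huw))
  have hstay : ∀ w w', w ≠ w' → Nr S W i (2 * K + 1) w w' → w ∉ U → ∀ j ≤ i,
      (symmDiff W Z ∩ sp S w j).card = (W ∩ sp S w j).card := by
    intro w w' hw hn hwU j hj
    have h1 : Z ∩ sp S w j = ∅ := by
      rw [Finset.eq_empty_iff_forall_notMem]
      intro x hx
      rw [Finset.mem_inter] at hx
      exact hwU (hnear w w' hw hn x hx.1 (hsub w j hj hx.2)).1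
    have h2 := ALT_card W Z (sp S w j)
    rw [h1, Finset.inter_empty, Finset.card_empty] at h2
    omega
  have main : ∀ u v, u < v → ∃ j, (symmDiff W Z ∩ sp S u j).card ≠
      (symmDiff W Z ∩ sp S v j).card := by
    intro u v huv
    by_cases hN : Nr S W i (2 * K + 1) u v
    · by_cases h0 : Nr S W i 0 u v
      · -- colliding
        refine ⟨i, ?_⟩
        have huU : u ∈ U := (hUm u).2 ⟨v, huv, h0⟩
        have hvU : v ∉ U := by
          intro hv
          obtain ⟨v', hv', hv2⟩ := (hUm v).1 hv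
          exact h3 v u v' huv.ne' hv'.ne (huv.trans hv').ne
            ⟨ALT_symm hN, ALT_mono hv2⟩
        have h1 := hstay v u huv.ne' (ALT_symm hN) hvU i le_rfl
        have h2 : Z ∩ sp S u i = {z u} := by
          ext x
          rw [Finset.mem_inter, Finset.mem_singleton]
          constructor
          · intro hx
            exact (hnear u v huv.ne hN x hx.1 (hsub u i le_rfl hx.2)).2
          · rintro rfl
            exact ⟨Finset.mem_image.2 ⟨u, huU, rfl⟩, hz1 u v huv.ne h0⟩
        have h4 := ALT_card W Z (sp S u i)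
        rw [h2, Finset.card_singleton] at h4
        have h5 := h0 i hi le_rfl
        have h6 : ((W ∩ sp S u i).card : ℤ) = (W ∩ sp S v i).card := by
          have h7 : |((W ∩ sp S u i).card : ℤ) - ((W ∩ sp S v i).card : ℤ)| ≤ 0 := by
            simpa using h5
          have h8 := abs_nonpos_iff.1 h7
          linarith
        have h9 : (W ∩ sp S u i).card = (W ∩ sp S v i).card := by exact_mod_cast h6
        rw [h1, ← h9]
        omega
      · -- near, not colliding
        have huU : u ∉ U := by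
          intro hu
          obtain ⟨v', hv', hv2⟩ := (hUm u).1 hu
          have hne : v ≠ v' := by
            rintro rfl
            exact h0 hv2
          exact h3 u v v' huv.ne hv'.ne hne ⟨hN, ALT_mono hv2⟩
        have hvU : v ∉ U := by
          intro hv
          obtain ⟨v', hv', hv2⟩ := (hUm v).1 hv
          exact h3 v u v' huv.ne' hv'.ne (huv.trans hv').ne ⟨ALT_symm hN, ALT_mono hv2⟩
        unfold Nr at h0
        push Not at h0
        obtain ⟨j, hj1, hj2, hj3⟩ := h0
        refine ⟨j, ?_⟩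
        rw [hstay u v huv.ne hN huU j hj2, hstay v u huv.ne' (ALT_symm hN) hvU j hj2]
        intro he
        rw [he, sub_self, abs_zero] at hj3
        simp at hj3
    · have hN' := hN
      unfold Nr at hN'
      push Not at hN'
      obtain ⟨j, hj1, hj2, hj3⟩ := hN'
      refine ⟨j, ?_⟩
      have h1 := ALT_card W Z (sp S u j)
      have h2 := ALT_card W Z (sp S v j)
      have h4 := hK u j hj2
      have h5 := hK v j hj2
      have h6 : (W ∩ sp S u j ∩ (Z ∩ sp S u j)).card ≤ (Z ∩ sp S u j).card :=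
        Finset.card_le_card Finset.inter_subset_right
      have h7 : (W ∩ sp S v j ∩ (Z ∩ sp S v j)).card ≤ (Z ∩ sp S v j).card :=
        Finset.card_le_card Finset.inter_subset_right
      intro he
      rcases abs_cases (((W ∩ sp S u j).card : ℤ) - ((W ∩ sp S v j).card : ℤ)) with h8 | h8
      · rw [h8.1] at hj3
        push_cast at hj3
        omega
      · rw [h8.1] at hj3
        push_cast at hj3
        omega
  refine ⟨symmDiff W Z, fun u v huv => ?_⟩
  rcases lt_or_gt_of_ne huv with h | h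
  · exact main u v h
  · obtain ⟨j, hj⟩ := main v u h
    exact ⟨j, hj.symm⟩

end Pool.Agent.MDF
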