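import Pool.Agent.MDF.Defs2

set_option autoImplicit false

open scoped Classical

namespace Pool.Agent.MDF

open Finset Pool.Agent.MD437

variable {n : ℕ}

private theorem SEL_prod (T : Finset (Fin n)) (q : ℝ) :
    ∏ u : Fin n, (if u ∈ T then q else 1) = q ^ T.card := by
  rw [Finset.prod_ite_mem, Finset.univ_inter, Finset.prod_const]

private theorem SEL_one (U : Finset (Fin n)) (P Q : Fin n → Finset (Fin n)) (q : ℝ)
    (hq0 : 0 ≤ q)
    (hq : ∀ u ∈ U, ∀ w, w ≠ u → ((P u ∩ Q w).card : ℝ) ≤ q * (P u).card)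
    (T : Finset (Fin n)) (w : Fin n) (hT : T ⊆ U.erase w) :
    ((Fintype.piFinset fun u => if u ∈ T then P u ∩ Q w else P u).card : ℝ) ≤
      q ^ T.card * (Fintype.piFinset P).card := by
  rw [Fintype.card_piFinset, Fintype.card_piFinset, Nat.cast_prod, Nat.cast_prod, ← SEL_prod,
    ← Finset.prod_mul_distrib]
  refine Finset.prod_le_prod (fun u _ => Nat.cast_nonneg _) fun u _ => ?_
  by_cases h : u ∈ T
  · rw [if_pos h, if_pos h]
    have h1 := Finset.mem_erase.1 (hT h)
    exact hq u h1.2 w (Ne.symm h1.1)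
  · rw [if_neg h, if_neg h, one_mul]

private theorem SEL_aux (U : Finset (Fin n)) (P Q : Fin n → Finset (Fin n)) (q : ℝ) (K : ℕ)
    (hq0 : 0 ≤ q) (hP : ∀ u, (P u).Nonempty)
    (hq : ∀ u ∈ U, ∀ w, w ≠ u → ((P u ∩ Q w).card : ℝ) ≤ q * (P u).card)
    (hK : (n : ℝ) * ((U.card : ℝ) * q) ^ K < 1) :
    ∃ z : Fin n → Fin n, (∀ u, z u ∈ P u) ∧
      ∀ w, (U.filter fun u => u ≠ w ∧ z u ∈ Q w).card < K := by
  by_contra hcon
  push Not at hcon
  have hsub : Fintype.piFinset P ⊆ (Finset.univ : Finset (Fin n)).biUnion fun w =>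
      (Finset.powersetCard K (U.erase w)).biUnion fun T =>
        Fintype.piFinset fun u => if u ∈ T then P u ∩ Q w else P u := by
    intro z hz
    obtain ⟨w, hw⟩ := hcon z (Fintype.mem_piFinset.1 hz)
    obtain ⟨T, hT, hTc⟩ := Finset.exists_subset_card_eq hw
    refine Finset.mem_biUnion.2 ⟨w, Finset.mem_univ w, Finset.mem_biUnion.2 ⟨T, ?_, ?_⟩⟩
    · refine Finset.mem_powersetCard.2 ⟨fun u hu => ?_, hTc⟩
      have h1 := Finset.mem_filter.1 (hT hu)
      exact Finset.mem_erase.2 ⟨h1.2.1, h1.1⟩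
    · refine Fintype.mem_piFinset.2 fun u => ?_
      by_cases h : u ∈ T
      · rw [if_pos h]
        exact Finset.mem_inter.2 ⟨Fintype.mem_piFinset.1 hz u,
          (Finset.mem_filter.1 (hT h)).2.2⟩
      · rw [if_neg h]
        exact Fintype.mem_piFinset.1 hz u
  have hcard : ((Fintype.piFinset P).card : ℝ) ≤
      ∑ w : Fin n, ∑ T ∈ Finset.powersetCard K (U.erase w),
        ((Fintype.piFinset fun u => if u ∈ T then P u ∩ Q w else P u).card : ℝ) := by
    have h1 := (Finset.card_le_card hsub).trans (Finset.card_biUnion_le)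
    have h2 : ∀ w ∈ (Finset.univ : Finset (Fin n)),
        ((Finset.powersetCard K (U.erase w)).biUnion fun T =>
          Fintype.piFinset fun u => if u ∈ T then P u ∩ Q w else P u).card ≤
        ∑ T ∈ Finset.powersetCard K (U.erase w),
          (Fintype.piFinset fun u => if u ∈ T then P u ∩ Q w else P u).card :=
      fun w _ => Finset.card_biUnion_le
    exact_mod_cast h1.trans (Finset.sum_le_sum h2)
  have hpos : (0 : ℝ) < (Fintype.piFinset P).card := by
    rw [Fintype.card_piFinset]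
    exact_mod_cast Finset.prod_pos fun u _ => Finset.card_pos.2 (hP u)
  have hbound : ∀ w ∈ (Finset.univ : Finset (Fin n)),
      ∑ T ∈ Finset.powersetCard K (U.erase w),
        ((Fintype.piFinset fun u => if u ∈ T then P u ∩ Q w else P u).card : ℝ) ≤
      ((U.card : ℝ) * q) ^ K * (Fintype.piFinset P).card := by
    intro w _
    have h1 : ∀ T ∈ Finset.powersetCard K (U.erase w),
        ((Fintype.piFinset fun u => if u ∈ T then P u ∩ Q w else P u).card : ℝ) ≤
          q ^ K * (Fintype.piFinset P).card := by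
      intro T hT
      have h2 := Finset.mem_powersetCard.1 hT
      have h3 := SEL_one U P Q q hq0 hq T w h2.1
      rwa [h2.2] at h3
    refine (Finset.sum_le_sum h1).trans ?_
    rw [Finset.sum_const, Finset.card_powersetCard, nsmul_eq_mul, mul_pow, ← mul_assoc]
    have h4 : ((U.erase w).card.choose K : ℝ) ≤ (U.card : ℝ) ^ K := by
      have h5 : (U.erase w).card.choose K ≤ U.card ^ K :=
        (Nat.choose_le_pow _ _).trans (Nat.pow_le_pow_left (Finset.card_erase_le) K)
      exact_mod_cast h5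
    exact mul_le_mul_of_nonneg_right (mul_le_mul_of_nonneg_right h4 (pow_nonneg hq0 K))
      hpos.le
  have h6 := hcard.trans (Finset.sum_le_sum hbound)
  rw [Finset.sum_const, Finset.card_univ, Fintype.card_fin, nsmul_eq_mul, ← mul_assoc] at h6
  nlinarith [mul_lt_mul_of_pos_right hK hpos]

/-- SEL -/
theorem select (U : Finset (Fin n)) (P Q : Fin n → Finset (Fin n)) (q : ℝ) (K : ℕ)
    (hq0 : 0 ≤ q) (hP : ∀ u ∈ U, (P u).Nonempty)
    (hq : ∀ u ∈ U, ∀ w, w ≠ u → ((P u ∩ Q w).card : ℝ) ≤ q * (P u).card)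
    (hK : (n : ℝ) * ((U.card : ℝ) * q) ^ K < 1) :
    ∃ z : Fin n → Fin n, (∀ u ∈ U, z u ∈ P u) ∧
      ∀ w, (U.filter fun u => u ≠ w ∧ z u ∈ Q w).card < K := by
  obtain ⟨z, h1, h2⟩ := SEL_aux U (fun u => if u ∈ U then P u else {u}) Q q K hq0
    (fun u => by
      by_cases h : u ∈ U
      · rw [if_pos h]
        exact hP u h
      · rw [if_neg h]
        exact Finset.singleton_nonempty u)
    (fun u hu w hw => by
      simp only [if_pos hu]
      exact hq u hu w hw) hK
  refine ⟨z, fun u hu => ?_, h2⟩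
  have h3 := h1 u
  simp only [if_pos hu] at h3
  exact h3

end Pool.Agent.MDF
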