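import Pool.Agent.MDF.Defs2
import Pool.Agent.MDF.SEL
import Pool.Agent.MDF.ALT

set_option autoImplicit false

open scoped Classical

namespace Pool.Agent.MDF

open Finset Pool.Agent.MD437

variable {n : ℕ}

private theorem als_sub (S : Finset (Sym2 (Fin n))) (u : Fin n) (i : ℕ) (hi : 1 ≤ i) :
    sp S u i ⊆ bl S u i := by
  obtain ⟨j, rfl⟩ : ∃ j, i = j + 1 := ⟨i - 1, by omega⟩
  show bl S u (j + 1) \ bl S u j ⊆ bl S u (j + 1)
  exact Finset.sdiff_subset

private theorem als_mono {S : Finset (Sym2 (Fin n))} {W : Finset (Fin n)} {i B : ℕ} {u v : Fin n}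
    (h : Nr S W i 0 u v) : Nr S W i B u v := by
  intro j h1 h2
  refine (h j h1 h2).trans ?_
  exact_mod_cast Nat.zero_le B

/-- ALS -/
theorem alter_exists (S : Finset (Sym2 (Fin n))) (W : Finset (Fin n)) (i K M : ℕ) (hi : 1 ≤ i)
    (c T0 : ℝ) (hM : 0 < M) (hc0 : 0 ≤ c) (hT0 : 0 ≤ T0)
    (hm : ∀ u, M ≤ (sp S u i).card)
    (hcm : ∀ u v, u ≠ v → ((cm S u v i).card : ℝ) ≤ c)
    (hT : ((Finset.univ.filter fun q : Fin n × Fin n =>
      q.1 ≠ q.2 ∧ Nr S W i (2 * K + 1) q.1 q.2).card : ℝ) ≤ T0)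
    (h1 : T0 * c ≤ M / 2) (h2 : (n : ℝ) * (T0 * (2 * c / M)) ^ K < 1)
    (h3 : ∀ u v v', u ≠ v → u ≠ v' → v ≠ v' →
      ¬ (Nr S W i (2 * K + 1) u v ∧ Nr S W i (2 * K + 1) u v')) :
    ∃ W' : Finset (Fin n), ∀ u v, u ≠ v → ∃ j, (W' ∩ sp S u j).card ≠ (W' ∩ sp S v j).card := by
  have hM' : (0 : ℝ) < M := by exact_mod_cast hM
  set U : Finset (Fin n) := Finset.univ.filter fun u => ∃ v, u ≠ v ∧ Nr S W i 0 u v with hU
  set X : Finset (Fin n) := Finset.univ.filter fun u => ∃ v, u ≠ v ∧ Nr S W i (2 * K + 1) u v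
    with hX
  have hUX : U ⊆ X := by
    intro u hu
    rw [hU, Finset.mem_filter] at hu
    obtain ⟨-, v, h4, h5⟩ := hu
    rw [hX, Finset.mem_filter]
    exact ⟨Finset.mem_univ _, v, h4, als_mono h5⟩
  have hXc : (X.card : ℝ) ≤ T0 := by
    refine le_trans ?_ hT
    have h4 : X ⊆ (Finset.univ.filter fun q : Fin n × Fin n =>
        q.1 ≠ q.2 ∧ Nr S W i (2 * K + 1) q.1 q.2).image Prod.fst := by
      intro u hu
      rw [hX, Finset.mem_filter] at hu
      obtain ⟨-, v, h4, h5⟩ := hu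
      rw [Finset.mem_image]
      exact ⟨(u, v), Finset.mem_filter.mpr ⟨Finset.mem_univ _, h4, h5⟩, rfl⟩
    exact_mod_cast (Finset.card_le_card h4).trans Finset.card_image_le
  have hUc : (U.card : ℝ) ≤ T0 := by
    refine le_trans ?_ hXc
    exact_mod_cast Finset.card_le_card hUX
  set P : Fin n → Finset (Fin n) := fun u => sp S u i \ (X.erase u).biUnion fun w => bl S w i
    with hP
  have hsub : ∀ u w, sp S u i ∩ bl S w i ⊆ cm S u w i := by
    intro u w x hx
    rw [Finset.mem_inter] at hx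
    show x ∈ bl S u i ∩ bl S w i
    exact Finset.mem_inter.mpr ⟨als_sub S u i hi hx.1, hx.2⟩
  have hPc : ∀ u, (M : ℝ) / 2 ≤ ((P u).card : ℝ) := by
    intro u
    have h4 : (sp S u i).card ≤ (P u).card +
        (sp S u i ∩ (X.erase u).biUnion fun w => bl S w i).card := by
      rw [hP]
      exact le_of_eq (Finset.card_sdiff_add_card_inter _ _).symm
    have h5 : ((sp S u i ∩ (X.erase u).biUnion fun w => bl S w i).card : ℝ) ≤ T0 * c := by
      have h6 : (sp S u i ∩ (X.erase u).biUnion fun w => bl S w i) ⊆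
          (X.erase u).biUnion fun w => cm S u w i := by
        intro x hx
        rw [Finset.mem_inter, Finset.mem_biUnion] at hx
        obtain ⟨hx1, w, hw, hx2⟩ := hx
        rw [Finset.mem_biUnion]
        exact ⟨w, hw, hsub u w (Finset.mem_inter.mpr ⟨hx1, hx2⟩)⟩
      have h7 : ((sp S u i ∩ (X.erase u).biUnion fun w => bl S w i).card : ℝ) ≤
          ∑ w ∈ X.erase u, ((cm S u w i).card : ℝ) := by
        exact_mod_cast (Finset.card_le_card h6).trans Finset.card_biUnion_le
      refine h7.trans ?_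
      calc ∑ w ∈ X.erase u, ((cm S u w i).card : ℝ) ≤ ∑ w ∈ X.erase u, c :=
            Finset.sum_le_sum fun w hw => hcm u w (Finset.ne_of_mem_erase hw).symm
        _ = ((X.erase u).card : ℝ) * c := by rw [Finset.sum_const, nsmul_eq_mul]
        _ ≤ T0 * c := by
          refine mul_le_mul_of_nonneg_right (le_trans ?_ hXc) hc0
          exact_mod_cast Finset.card_le_card (Finset.erase_subset _ _)
    have h8 : (M : ℝ) ≤ ((sp S u i).card : ℝ) := by exact_mod_cast hm u
    have h9 : ((sp S u i).card : ℝ) ≤ ((P u).card : ℝ) +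
        ((sp S u i ∩ (X.erase u).biUnion fun w => bl S w i).card : ℝ) := by exact_mod_cast h4
    linarith
  have hq0 : 0 ≤ 2 * c / M := by positivity
  obtain ⟨z, hz1, hz2⟩ := select U P (fun w => bl S w i) (2 * c / M) K hq0
    (fun u _ => by
      have h4 := hPc u
      rw [← Finset.card_pos]
      have h5 : (0 : ℝ) < ((P u).card : ℝ) := lt_of_lt_of_le (by positivity) h4
      exact_mod_cast h5)
    (fun u _ w hw => by
      have h4 : ((P u ∩ bl S w i).card : ℝ) ≤ c := by
        refine le_trans ?_ (hcm u w hw.symm)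
        have h5 : P u ∩ bl S w i ⊆ cm S u w i := by
          intro x hx
          rw [Finset.mem_inter] at hx
          exact hsub u w (Finset.mem_inter.mpr ⟨(Finset.mem_sdiff.mp hx.1).1, hx.2⟩)
        exact_mod_cast Finset.card_le_card h5
      refine h4.trans ?_
      have h6 : c = 2 * c / M * (M / 2) := by field_simp
      calc c = 2 * c / M * (M / 2) := h6
        _ ≤ 2 * c / M * (P u).card := mul_le_mul_of_nonneg_left (hPc u) hq0)
    (by
      refine lt_of_le_of_lt ?_ h2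
      refine mul_le_mul_of_nonneg_left ?_ (Nat.cast_nonneg n)
      exact pow_le_pow_left₀ (by positivity) (mul_le_mul_of_nonneg_right hUc hq0) K)
  refine alter S W i K hi h3 z ?_ ?_ ?_
  · intro u v h4 h5
    have hu : u ∈ U := by
      rw [hU, Finset.mem_filter]
      exact ⟨Finset.mem_univ _, v, h4, h5⟩
    exact (Finset.mem_sdiff.mp (hz1 u hu)).1
  · intro u v h4 h5 w w' h6 h7 h8 h9
    have hu : u ∈ U := by
      rw [hU, Finset.mem_filter]
      exact ⟨Finset.mem_univ _, v, h4, h5⟩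
    refine (Finset.mem_sdiff.mp (hz1 u hu)).2 ?_
    rw [Finset.mem_biUnion]
    refine ⟨w, Finset.mem_erase.mpr ⟨h8, ?_⟩, h9⟩
    rw [hX, Finset.mem_filter]
    exact ⟨Finset.mem_univ _, w', h6, h7⟩
  · intro w
    refine lt_of_le_of_lt (Finset.card_le_card ?_) (hz2 w)
    intro u hu
    rw [Finset.mem_filter] at hu ⊢
    refine ⟨?_, hu.2.2⟩
    rw [hU, Finset.mem_filter]
    exact ⟨Finset.mem_univ _, hu.2.1⟩

end Pool.Agent.MDF
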