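import Pool.Agent.MDF.Defs
import Pool.Agent.MDF.ASA
import Pool.Agent.MDF.EXP

set_option autoImplicit false

open scoped Classical

namespace Pool.Agent.MDF

open Finset Pool.Agent.MD437

variable {n : ℕ}

private lemma ASB_sq (f : ℕ → ℝ) (C a b : ℝ) (ha : 0 < a) (hb : 0 < b)
    (h0 : ∀ᶠ n : ℕ in Filter.atTop, 0 ≤ f n)
    (h : ∀ᶠ n : ℕ in Filter.atTop, f n ≤ C * ((n : ℝ) ^ 2 * Real.exp (-(a * (n : ℝ) ^ b)))) :
    Filter.Tendsto f Filter.atTop (nhds 0) := by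
  refine squeeze_zero' h0 h ?_
  have := (tend_exp a b ha hb).const_mul C
  rwa [mul_zero] at this

private lemma ASB_one (x : ℝ) (hx0 : 0 < x) :
    Filter.Tendsto (fun n : ℕ => (n : ℝ) * Real.exp (-(2 * dN x n))) Filter.atTop (nhds 0) := by
  refine ASB_sq _ 1 2 x (by norm_num) hx0 (Filter.Eventually.of_forall fun n => by positivity) ?_
  filter_upwards [Filter.eventually_ge_atTop 1] with n hn
  have hn1 : (1 : ℝ) ≤ n := by exact_mod_cast hn
  rw [one_mul]
  unfold dN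
  refine mul_le_mul_of_nonneg_right ?_ (Real.exp_pos _).le
  nlinarith

private lemma ASB_two (i : ℕ) (x ε : ℝ) (hε : 0 < ε) :
    Filter.Tendsto (fun n : ℕ => (n : ℝ) * ∑ j ∈ Finset.range i,
      2 * Real.exp (-(tN x ε n (j + 1) ^ 2 / (4 * VN x n j)))) Filter.atTop (nhds 0) := by
  refine ASB_sq _ (2 * i) (1 / (8 * 5 ^ i)) (2 * ε) (by positivity) (by positivity)
    (Filter.Eventually.of_forall fun n => by positivity) ?_
  filter_upwards [Filter.eventually_ge_atTop 1] with n hn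
  have hn1 : (1 : ℝ) ≤ n := by exact_mod_cast hn
  have hn0 : (0 : ℝ) < n := by linarith
  have key : ∀ j ∈ Finset.range i, 2 * Real.exp (-(tN x ε n (j + 1) ^ 2 / (4 * VN x n j))) ≤
      2 * Real.exp (-(1 / (8 * 5 ^ i) * (n : ℝ) ^ (2 * ε))) := by
    intro j hj
    have hji : j < i := Finset.mem_range.1 hj
    have hD : 0 < dN x n ^ (j + 1) := by
      unfold dN
      positivity
    have hT : (tN x ε n (j + 1)) ^ 2 = (n : ℝ) ^ (2 * ε) * dN x n ^ (j + 1) := by
      unfold tN dN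
      rw [← Real.rpow_natCast, ← Real.rpow_mul hn0.le, ← Real.rpow_natCast ((n : ℝ) ^ x),
        ← Real.rpow_mul hn0.le, ← Real.rpow_add hn0]
      congr 1
      push_cast
      ring
    have h5 : (5 : ℝ) ^ j ≤ 5 ^ i := pow_le_pow_right₀ (by norm_num) hji.le
    have h5j : (0 : ℝ) < 5 ^ j := by positivity
    have hr : 0 ≤ (n : ℝ) ^ (2 * ε) := by positivity
    have hq : tN x ε n (j + 1) ^ 2 / (4 * VN x n j) = 1 / (8 * 5 ^ j) * (n : ℝ) ^ (2 * ε) := by
      rw [hT]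
      unfold VN
      field_simp
      ring
    rw [hq]
    refine mul_le_mul_of_nonneg_left (Real.exp_le_exp.2 (neg_le_neg ?_)) (by norm_num)
    refine mul_le_mul_of_nonneg_right ?_ hr
    exact one_div_le_one_div_of_le (by positivity) (by linarith)
  have hs := Finset.sum_le_sum key
  rw [Finset.sum_const, Finset.card_range, nsmul_eq_mul] at hs
  have hE : 0 ≤ Real.exp (-(1 / (8 * 5 ^ i) * (n : ℝ) ^ (2 * ε))) := (Real.exp_pos _).le
  calc (n : ℝ) * ∑ j ∈ Finset.range i,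
        2 * Real.exp (-(tN x ε n (j + 1) ^ 2 / (4 * VN x n j)))
      ≤ n * (i * (2 * Real.exp (-(1 / (8 * 5 ^ i) * (n : ℝ) ^ (2 * ε))))) :=
        mul_le_mul_of_nonneg_left hs hn0.le
    _ ≤ (n : ℝ) ^ 2 * (i * (2 * Real.exp (-(1 / (8 * 5 ^ i) * (n : ℝ) ^ (2 * ε))))) := by
        refine mul_le_mul_of_nonneg_right (by nlinarith) (by positivity)
    _ = _ := by ring

private lemma ASB_three (ν : ℝ) (hν : 0 < ν) :
    Filter.Tendsto (fun n : ℕ => (n : ℝ) ^ 2 * (2 * Real.exp (-(ν ^ 2 * n / 32))))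
      Filter.atTop (nhds 0) := by
  refine ASB_sq _ 2 (ν ^ 2 / 32) 1 (by positivity) (by norm_num)
    (Filter.Eventually.of_forall fun n => by positivity) ?_
  refine Filter.Eventually.of_forall fun n => le_of_eq ?_
  rw [Real.rpow_one]
  have h : ν ^ 2 * (n : ℝ) / 32 = ν ^ 2 / 32 * n := by ring
  rw [h]
  ring

private lemma ASB_nu (i : ℕ) : 0 < nuN i := Real.exp_pos _

private lemma ASB_c0 (i : ℕ) : 0 < cN i := by
  unfold cN
  have := ASB_nu i
  positivity

private lemma ASB_c1 (i : ℕ) : cN i ≤ 1 := by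
  unfold cN nuN
  have h : Real.exp (-(8 * 5 ^ i)) ≤ 1 := by
    rw [Real.exp_le_one_iff]
    have : (0 : ℝ) < 8 * 5 ^ i := by positivity
    linarith
  linarith

private lemma ASB_four (i : ℕ) (x ε : ℝ) (hi : 2 ≤ i) (hx0 : 0 < x) (hx1 : i * x ≤ 1)
    (hε : 0 < ε) (hεx : ε ≤ x / 2) :
    Filter.Tendsto (fun n : ℕ => (n : ℝ) ^ 2 * ∑ k ∈ Finset.range i,
      2 * Real.exp (-((1 - (1 - pN x n) ^ (mN x i n k)) * (nuN i * n / 4) / 16)))
      Filter.atTop (nhds 0) := by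
  have hc0 := ASB_c0 i
  have hc1 := ASB_c1 i
  refine ASB_sq _ (2 * i) (cN i ^ i / 16) x (by positivity) hx0
    (Filter.Eventually.of_forall fun n => by positivity) ?_
  filter_upwards [Filter.eventually_ge_atTop 1, hyp_eventually i x ε hi hx0 hx1 hε hεx,
    mN_ge i x hi hx0] with n hn hH hm
  have hn1 : (1 : ℝ) ≤ n := by exact_mod_cast hn
  have hn0 : (0 : ℝ) < n := by linarith
  have key : ∀ k ∈ Finset.range i,
      2 * Real.exp (-((1 - (1 - pN x n) ^ (mN x i n k)) * (nuN i * n / 4) / 16)) ≤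
      2 * Real.exp (-(cN i ^ i / 16 * (n : ℝ) ^ x)) := by
    intro k hk
    have hki : k < i := Finset.mem_range.1 hk
    have h1 := hH.hm k hki
    have h2 := hm (k + 1) hki
    refine mul_le_mul_of_nonneg_left (Real.exp_le_exp.2 (neg_le_neg ?_)) (by norm_num)
    have hd1 : (1 : ℝ) ≤ dN x n := hH.hd1
    have h3 : cN i ^ i * (n : ℝ) ^ x ≤ (cN i * dN x n) ^ (k + 1) := by
      rw [mul_pow]
      have h4 : cN i ^ i ≤ cN i ^ (k + 1) := pow_le_pow_of_le_one hc0.le hc1 hki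
      have h5 : dN x n ≤ dN x n ^ (k + 1) := le_self_pow₀ hd1 (Nat.succ_ne_zero k)
      have h6 : (n : ℝ) ^ x = dN x n := rfl
      rw [h6]
      exact mul_le_mul h4 h5 (by linarith) (by positivity)
    linarith
  have hs := Finset.sum_le_sum key
  rw [Finset.sum_const, Finset.card_range, nsmul_eq_mul] at hs
  calc (n : ℝ) ^ 2 * ∑ k ∈ Finset.range i,
        2 * Real.exp (-((1 - (1 - pN x n) ^ (mN x i n k)) * (nuN i * n / 4) / 16))
      ≤ (n : ℝ) ^ 2 * (i * (2 * Real.exp (-(cN i ^ i / 16 * (n : ℝ) ^ x)))) :=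
        mul_le_mul_of_nonneg_left hs (by positivity)
    _ = _ := by ring

private lemma ASB_five (i : ℕ) (x ε : ℝ) (hi : 2 ≤ i) (hx0 : 0 < x) (hx1 : i * x ≤ 1)
    (hx2 : 1 < (i + 1) * x) (hε : 0 < ε) (hεx : ε ≤ x / 2) :
    Filter.Tendsto (fun n : ℕ => (n : ℝ) * (n * (1 - pN x n) ^ (mN x i n i)))
      Filter.atTop (nhds 0) := by
  have hc0 := ASB_c0 i
  refine ASB_sq _ 1 (cN i ^ i / 2) ((i + 1) * x - 1) (by positivity) (by linarith) ?_ ?_
  · filter_upwards [hyp_eventually i x ε hi hx0 hx1 hε hεx] with n hH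
    have h1 := hH.hp1
    have h2 : 0 ≤ 1 - pN x n := by linarith
    positivity
  filter_upwards [Filter.eventually_ge_atTop 2, hyp_eventually i x ε hi hx0 hx1 hε hεx,
    mN_ge i x hi hx0] with n hn hH hm
  have hn2 : (2 : ℝ) ≤ n := by exact_mod_cast hn
  have hn0 : (0 : ℝ) < n := by linarith
  have hp1 := hH.hp1
  have hp0 := hH.hp0
  have h2 : 0 ≤ 1 - pN x n := by linarith
  have h3 : (1 - pN x n) ^ (mN x i n i) ≤ Real.exp (-(pN x n * (mN x i n i : ℝ))) := by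
    have h4 : 1 - pN x n ≤ Real.exp (-(pN x n)) := Real.one_sub_le_exp_neg _
    calc (1 - pN x n) ^ (mN x i n i) ≤ Real.exp (-(pN x n)) ^ (mN x i n i) :=
          pow_le_pow_left₀ h2 h4 _
      _ = Real.exp (-(pN x n * (mN x i n i : ℝ))) := by
          rw [← Real.exp_nat_mul]
          congr 1
          ring
  have h5 : cN i ^ i / 2 * (n : ℝ) ^ ((i + 1) * x - 1) ≤ pN x n * (mN x i n i : ℝ) := by
    have h6 := hm i le_rfl
    have h7 : (n : ℝ) ^ x / n ≤ pN x n := by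
      unfold pN
      exact div_le_div_of_nonneg_left (by positivity) (by linarith) (by linarith)
    have h8 : cN i ^ i / 2 * (n : ℝ) ^ ((i + 1) * x - 1) =
        (n : ℝ) ^ x / n * ((cN i * dN x n) ^ i / 2) := by
      have h9 : (n : ℝ) ^ ((i + 1) * x - 1) = (n : ℝ) ^ x / n * ((n : ℝ) ^ x) ^ i := by
        rw [Real.rpow_sub hn0, Real.rpow_one, add_mul, one_mul, Real.rpow_add hn0,
          ← Real.rpow_natCast ((n : ℝ) ^ x), ← Real.rpow_mul hn0.le, mul_comm x (i : ℝ)]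
        ring
      rw [h9, mul_pow]
      unfold dN
      ring
    rw [h8]
    exact mul_le_mul h7 h6 (by unfold dN; positivity) hp0
  have h10 : (1 - pN x n) ^ (mN x i n i) ≤
      Real.exp (-(cN i ^ i / 2 * (n : ℝ) ^ ((i + 1) * x - 1))) :=
    h3.trans (Real.exp_le_exp.2 (neg_le_neg h5))
  calc (n : ℝ) * (n * (1 - pN x n) ^ (mN x i n i))
      = (n : ℝ) ^ 2 * (1 - pN x n) ^ (mN x i n i) := by ring
    _ ≤ (n : ℝ) ^ 2 * Real.exp (-(cN i ^ i / 2 * (n : ℝ) ^ ((i + 1) * x - 1))) :=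
        mul_le_mul_of_nonneg_left h10 (by positivity)
    _ = _ := by rw [one_mul]

/-- ASB -/
theorem gb_tendsto (i : ℕ) (x ε : ℝ) (hi : 2 ≤ i) (hx0 : 0 < x) (hx1 : i * x ≤ 1)
    (hx2 : 1 < (i + 1) * x) (hε : 0 < ε) (hεx : ε ≤ x / 2) :
    Filter.Tendsto (fun n : ℕ => gb n i (pN x n) (dN x n) (nuN i) (tN x ε n) (VN x n)
      (mN x i n)) Filter.atTop (nhds 0) := by
  have h := ((((ASB_one x hx0).add (ASB_two i x ε hε)).add
    (ASB_three (nuN i) (ASB_nu i))).add (ASB_four i x ε hi hx0 hx1 hε hεx)).add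
    (ASB_five i x ε hi hx0 hx1 hx2 hε hεx)
  simp only [add_zero] at h
  exact h

end Pool.Agent.MDF
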