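import Pool.Agent.MDF.Defs

set_option autoImplicit false

open scoped Classical

namespace Pool.Agent.MDF

open Finset Pool.Agent.MD437

variable {n : ℕ}

private lemma che_mean {ι : Type} [DecidableEq ι] (r : ℝ) (A : Finset ι) :
    ex r A (fun Y => (Y.card : ℝ)) = r * A.card := by
  have h : ex r A (fun Y => (Y.card : ℝ))
      = ex r A (fun Y => ∑ i ∈ A, if i ∈ Y then (1 : ℝ) else 0) := by
    refine ex_congr r fun S hS => ?_
    rw [← Finset.sum_filter, Finset.sum_const, nsmul_eq_mul, mul_one,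
      Finset.filter_mem_eq_inter, Finset.inter_eq_right.2 hS]
  rw [h, ex_sum, Finset.sum_congr rfl fun i hi => ex_mem r hi, Finset.sum_const, nsmul_eq_mul]
  ring

private lemma che_one {ι : Type} [DecidableEq ι] (r : ℝ) (h0 : 0 ≤ r) (h1 : r ≤ 1)
    (A : Finset ι) (V t : ℝ) (hV : r * A.card ≤ V) (ht : 0 < t) (htV : t ≤ V) (s : ℝ)
    (hs : |s| = 1) :
    pr r A (fun Y => t ≤ s * ((Y.card : ℝ) - r * A.card)) ≤ Real.exp (-(t ^ 2 / (4 * V))) := by
  have hV0 : 0 < V := ht.trans_le htV
  have hs2 : s ^ 2 = 1 := by rw [← sq_abs, hs]; norm_num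
  have hl0 : 0 < t / (2 * V) := by positivity
  have hl1 : t / (2 * V) ≤ 1 := by
    rw [div_le_one (by positivity)]
    linarith
  have hlabs : |s * (t / (2 * V))| ≤ 1 := by
    rw [abs_mul, hs, one_mul, abs_of_pos hl0]
    exact hl1
  have hm := mgf h0 h1 A (fun _ => (1 : ℝ)) (s * (t / (2 * V)))
    (fun i _ => by rw [mul_one]; exact hlabs) (fun Y => (Y.card : ℝ))
    (fun i _ S => by
      by_cases hi : i ∈ S
      · rw [Finset.insert_eq_of_mem hi]
        simp
      · rw [Finset.card_insert_of_notMem hi]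
        push_cast
        rw [add_sub_cancel_left, abs_one])
  rw [che_mean] at hm
  have hpr : pr r A (fun Y => t ≤ s * ((Y.card : ℝ) - r * A.card)) ≤
      pr r A (fun Y => t / (2 * V) * t ≤ t / (2 * V) * (s * ((Y.card : ℝ) - r * A.card))) :=
    pr_mono h0 h1 fun S _ h => mul_le_mul_of_nonneg_left h hl0.le
  refine hpr.trans ((pr_exp h0 h1 A
    (fun Y => t / (2 * V) * (s * ((Y.card : ℝ) - r * A.card))) (t / (2 * V) * t)).trans ?_)
  have he : ex r A (fun Y => Real.exp (t / (2 * V) * (s * ((Y.card : ℝ) - r * A.card)))) =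
      Real.exp (-(s * (t / (2 * V)) * (r * A.card))) *
        ex r A (fun Y => Real.exp (s * (t / (2 * V)) * (Y.card : ℝ))) := by
    rw [← ex_mul_left]
    refine ex_congr r fun S _ => ?_
    rw [← Real.exp_add]
    congr 1
    ring
  rw [he]
  calc Real.exp (-(t / (2 * V) * t)) * (Real.exp (-(s * (t / (2 * V)) * (r * A.card))) *
        ex r A (fun Y => Real.exp (s * (t / (2 * V)) * (Y.card : ℝ))))
      ≤ Real.exp (-(t / (2 * V) * t)) * (Real.exp (-(s * (t / (2 * V)) * (r * A.card))) *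
        Real.exp (s * (t / (2 * V)) * (r * A.card) +
          (s * (t / (2 * V))) ^ 2 * r * ∑ i ∈ A, (1 : ℝ) ^ 2)) := by
        refine mul_le_mul_of_nonneg_left (mul_le_mul_of_nonneg_left hm (Real.exp_pos _).le)
          (Real.exp_pos _).le
    _ = Real.exp (-(t / (2 * V) * t) + (t / (2 * V)) ^ 2 * (r * A.card)) := by
        rw [← Real.exp_add, ← Real.exp_add]
        congr 1
        rw [mul_pow, hs2, one_pow, Finset.sum_const, nsmul_eq_mul]
        ring
    _ ≤ Real.exp (-(t ^ 2 / (4 * V))) := by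
        apply Real.exp_le_exp.mpr
        have h2 : (t / (2 * V)) ^ 2 * (r * A.card) ≤ (t / (2 * V)) ^ 2 * V :=
          mul_le_mul_of_nonneg_left hV (sq_nonneg _)
        have h3 : (t / (2 * V)) ^ 2 * V = t ^ 2 / (4 * V) := by
          field_simp
          ring
        have h4 : t / (2 * V) * t = 2 * (t ^ 2 / (4 * V)) := by
          field_simp
          ring
        rw [h3] at h2
        rw [h4]
        linarith

/-- CHE -/
theorem bin_tail {ι : Type} [DecidableEq ι] (r : ℝ) (h0 : 0 ≤ r) (h1 : r ≤ 1) (A : Finset ι)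
    (V t : ℝ) (hV : r * A.card ≤ V) (ht : 0 ≤ t) (htV : t ≤ V) :
    pr r A (fun Y => t ≤ |(Y.card : ℝ) - r * A.card|) ≤ 2 * Real.exp (-(t ^ 2 / (4 * V))) := by
  rcases ht.eq_or_lt with h | h
  · rw [← h]
    have h2 : pr r A (fun Y => (0 : ℝ) ≤ |(Y.card : ℝ) - r * A.card|) ≤ 1 := by
      rw [pr_def]
      refine (ex_mono h0 h1 (g := fun _ => (1 : ℝ)) fun S _ => ?_).trans_eq (ex_const r A 1)
      split_ifs <;> norm_num
    refine h2.trans ?_
    simp
  · have e1 := che_one r h0 h1 A V t hV h htV 1 (by simp)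
    have e2 := che_one r h0 h1 A V t hV h htV (-1) (by simp)
    have e3 : pr r A (fun Y => t ≤ |(Y.card : ℝ) - r * A.card|) ≤
        pr r A (fun Y => t ≤ 1 * ((Y.card : ℝ) - r * A.card) ∨
          t ≤ -1 * ((Y.card : ℝ) - r * A.card)) := by
      refine pr_mono h0 h1 fun S _ hS => ?_
      rcases le_abs.1 hS with h' | h'
      · left; linarith
      · right; linarith
    have e4 := pr_or h0 h1 A (fun Y => t ≤ 1 * ((Y.card : ℝ) - r * A.card))
      (fun Y => t ≤ -1 * ((Y.card : ℝ) - r * A.card))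
    linarith

end Pool.Agent.MDF
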