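import Pool.Agent.MDF.Defs

set_option autoImplicit false

open scoped Classical

namespace Pool.Agent.MDF

open Finset Pool.Agent.MD437

variable {n : ℕ}

private theorem INV_mem {S : Finset (Sym2 (Fin n))} {u v : Fin n} {j : ℕ} {z w : Fin n} :
    s(z, w) ∈ act S u v j ↔ (z ∈ rr S u v j ∧ w ∈ fu S u v j ∪ fv S u v j) ∨
      (w ∈ rr S u v j ∧ z ∈ fu S u v j ∪ fv S u v j) := by
  unfold act
  rw [Finset.mem_image]
  constructor
  · rintro ⟨⟨a, b⟩, hab, he⟩
    rw [Finset.mem_product] at hab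
    change s(a, b) = s(z, w) at he
    rw [Sym2.eq_iff] at he
    rcases he with ⟨h1, h2⟩ | ⟨h1, h2⟩
    · left; rw [← h1, ← h2]; exact hab
    · right; rw [← h1, ← h2]; exact hab
  · rintro (⟨h1, h2⟩ | ⟨h1, h2⟩)
    · exact ⟨(z, w), Finset.mem_product.2 ⟨h1, h2⟩, rfl⟩
    · exact ⟨(w, z), Finset.mem_product.2 ⟨h1, h2⟩, Sym2.eq_swap⟩

/-- INV -/
theorem act_sub (S : Finset (Sym2 (Fin n))) (u v : Fin n) (j : ℕ) : act S u v j ⊆ E n := by
  intro e he
  unfold act at he
  rw [Finset.mem_image] at he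
  obtain ⟨⟨a, b⟩, hab, rfl⟩ := he
  rw [Finset.mem_product] at hab
  change s(a, b) ∈ E n
  rw [mk_mem_E]
  intro h
  have h1 : a ∈ rr S u v j := hab.1
  have h2 : b ∈ fu S u v j ∪ fv S u v j := hab.2
  rw [h] at h1
  exact Finset.disjoint_left.1 (rr_disj S u v j) h1 h2

/-- INV -/
theorem mk_injOn (S : Finset (Sym2 (Fin n))) (u v : Fin n) (j : ℕ) :
    Set.InjOn mk ((rr S u v j ×ˢ (fu S u v j ∪ fv S u v j) : Finset (Fin n × Fin n)) :
      Set (Fin n × Fin n)) := by
  rintro ⟨a, b⟩ hab ⟨a', b'⟩ hab' he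
  rw [Finset.mem_coe, Finset.mem_product] at hab hab'
  change s(a, b) = s(a', b') at he
  rw [Sym2.eq_iff] at he
  rcases he with ⟨h1, h2⟩ | ⟨h1, h2⟩
  · rw [h1, h2]
  · exfalso
    have h3 : a ∈ rr S u v j := hab.1
    have h4 : b' ∈ fu S u v j ∪ fv S u v j := hab'.2
    rw [h1] at h3
    exact Finset.disjoint_left.1 (rr_disj S u v j) h3 h4

private theorem INV_dd {S : Finset (Sym2 (Fin n))} {u v : Fin n} {j : ℕ} {z w : Fin n}
    (hz : z ∈ dd S u v j) : s(z, w) ∉ act S u v j := by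
  intro h
  have hdu : dd S u v j ⊆ uu S u v j := by
    cases j with
    | zero => exact Finset.empty_subset _
    | succ j => exact uu_mono (Nat.le_succ j)
  rw [INV_mem] at h
  rcases h with ⟨h1, _⟩ | ⟨_, h2⟩
  · exact (Finset.mem_sdiff.1 h1).2 (hdu hz)
  · rw [Finset.mem_union] at h2
    rcases h2 with h2 | h2
    · exact (Finset.mem_sdiff.1 h2).2 hz
    · exact (Finset.mem_sdiff.1 h2).2 hz

private theorem INV_ad {S : Finset (Sym2 (Fin n))} {u v : Fin n} {j : ℕ}
    {T : Finset (Sym2 (Fin n))} (hT : T ⊆ act S u v j) {z w : Fin n}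
    (hz : z ∈ dd S u v j) : ad (S \ act S u v j ∪ T) z w ↔ ad S z w := by
  have h := INV_dd (w := w) hz
  unfold ad
  rw [Finset.mem_union, Finset.mem_sdiff]
  constructor
  · rintro ⟨h1, h2 | h2⟩
    · exact ⟨h1, h2.1⟩
    · exact absurd (hT h2) h
  · rintro ⟨h1, h2⟩
    exact ⟨h1, Or.inl ⟨h2, h⟩⟩

/-- INV -/
theorem inv_bl (S : Finset (Sym2 (Fin n))) (u v : Fin n) (j : ℕ) (T : Finset (Sym2 (Fin n)))
    (hT : T ⊆ act S u v j) (k : ℕ) (hk : k ≤ j) :
    bl (S \ act S u v j ∪ T) u k = bl S u k ∧ bl (S \ act S u v j ∪ T) v k = bl S v k := by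
  induction k with
  | zero => exact ⟨rfl, rfl⟩
  | succ k ih =>
    obtain ⟨ih1, ih2⟩ := ih (by omega)
    have hsub : uu S u v k ⊆ dd S u v j := by
      obtain ⟨i, rfl⟩ : ∃ i, j = i + 1 := ⟨j - 1, by omega⟩
      exact uu_mono (by omega)
    constructor
    · ext w
      rw [mem_bl_succ, mem_bl_succ, ih1]
      apply or_congr Iff.rfl
      apply exists_congr
      intro z
      apply and_congr_right
      intro hz
      exact INV_ad hT (hsub (Finset.mem_union_left _ hz))
    · ext w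
      rw [mem_bl_succ, mem_bl_succ, ih2]
      apply or_congr Iff.rfl
      apply exists_congr
      intro z
      apply and_congr_right
      intro hz
      exact INV_ad hT (hsub (Finset.mem_union_right _ hz))

/-- INV -/
theorem inv_act (S : Finset (Sym2 (Fin n))) (u v : Fin n) (j : ℕ) (T : Finset (Sym2 (Fin n)))
    (hT : T ⊆ act S u v j) : act (S \ act S u v j ∪ T) u v j = act S u v j := by
  have h1 := inv_bl S u v j T hT j le_rfl
  have h2 : uu (S \ act S u v j ∪ T) u v j = uu S u v j := by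
    change bl (S \ act S u v j ∪ T) u j ∪ bl (S \ act S u v j ∪ T) v j = _
    rw [h1.1, h1.2]
    rfl
  have h3 : dd (S \ act S u v j ∪ T) u v j = dd S u v j := by
    cases j with
    | zero => rfl
    | succ j =>
      have h4 := inv_bl S u v (j + 1) T hT j (Nat.le_succ j)
      change bl (S \ act S u v (j + 1) ∪ T) u j ∪ bl (S \ act S u v (j + 1) ∪ T) v j = _
      rw [h4.1, h4.2]
      rfl
  have h5 : rr (S \ act S u v j ∪ T) u v j = rr S u v j := by
    change Finset.univ \ uu (S \ act S u v j ∪ T) u v j = _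
    rw [h2]
    rfl
  have h6 : fu (S \ act S u v j ∪ T) u v j = fu S u v j := by
    change bl (S \ act S u v j ∪ T) u j \ dd (S \ act S u v j ∪ T) u v j = _
    rw [h3, h1.1]
    rfl
  have h7 : fv (S \ act S u v j ∪ T) u v j = fv S u v j := by
    change bl (S \ act S u v j ∪ T) v j \ dd (S \ act S u v j ∪ T) u v j = _
    rw [h3, h1.2]
    rfl
  change (rr (S \ act S u v j ∪ T) u v j ×ˢ (fu (S \ act S u v j ∪ T) u v j ∪
    fv (S \ act S u v j ∪ T) u v j)).image mk = _
  rw [h5, h6, h7]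
  rfl

end Pool.Agent.MDF
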