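import Pool.Agent.MDF.Defs

set_option autoImplicit false

open scoped Classical

namespace Pool.Agent.MDF

open Finset Pool.Agent.MD437

variable {n : ℕ}

private lemma res_aux {ι : Type} [DecidableEq ι] {S T B : Finset ι} (hT : T ⊆ B) :
    (S \ B ∪ T) \ B ∪ S ∩ B = S ∧ (S \ B ∪ T) ∩ B = T ∧
      (S \ B ∪ T).card + (S ∩ B).card = S.card + T.card := by
  refine ⟨?_, ?_, ?_⟩
  · ext x
    have h := @hT x
    simp only [Finset.mem_union, Finset.mem_sdiff, Finset.mem_inter]
    tauto
  · ext x
    have h := @hT x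
    simp only [Finset.mem_union, Finset.mem_sdiff, Finset.mem_inter]
    tauto
  · have h1 : Disjoint (S \ B) T := by
      rw [Finset.disjoint_left]
      intro x hx hx2
      exact (Finset.mem_sdiff.mp hx).2 (hT hx2)
    rw [Finset.card_union_of_disjoint h1]
    have h2 : (S \ B).card + (S ∩ B).card = S.card := Finset.card_sdiff_add_card_inter S B
    omega

/-- RES -/
theorem resample {ι : Type} [DecidableEq ι] (p : ℝ) (A : Finset ι) (a : Finset ι → Finset ι)
    (ha : ∀ S ⊆ A, a S ⊆ A) (hinv : ∀ S ⊆ A, ∀ T ⊆ a S, a (S \ a S ∪ T) = a S)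
    (g : Finset ι → ℝ) :
    ex p A (fun S => ex p (a S) (fun T => g (S \ a S ∪ T))) = ex p A g := by
  have e1 : ex p A g = ex p A (fun S => ex p (a S) (fun _ => g S)) :=
    ex_congr p fun S _ => (ex_const p (a S) (g S)).symm
  rw [e1]
  unfold ex
  simp only [Finset.mul_sum]
  rw [Finset.sum_sigma', Finset.sum_sigma']
  refine Finset.sum_nbij' (fun x => ⟨x.1 \ a x.1 ∪ x.2, x.1 ∩ a x.1⟩)
    (fun x => ⟨x.1 \ a x.1 ∪ x.2, x.1 ∩ a x.1⟩) ?_ ?_ ?_ ?_ ?_
  · rintro ⟨S, T⟩ h
    simp only [Finset.mem_sigma, Finset.mem_powerset] at h ⊢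
    rw [hinv S h.1 T h.2]
    exact ⟨Finset.union_subset (Finset.sdiff_subset.trans h.1) (h.2.trans (ha S h.1)),
      Finset.inter_subset_right⟩
  · rintro ⟨S, T⟩ h
    simp only [Finset.mem_sigma, Finset.mem_powerset] at h ⊢
    rw [hinv S h.1 T h.2]
    exact ⟨Finset.union_subset (Finset.sdiff_subset.trans h.1) (h.2.trans (ha S h.1)),
      Finset.inter_subset_right⟩
  · rintro ⟨S, T⟩ h
    simp only [Finset.mem_sigma, Finset.mem_powerset] at h
    dsimp only
    obtain ⟨h1, h2, _⟩ := res_aux (S := S) h.2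
    rw [hinv S h.1 T h.2, h1, h2]
  · rintro ⟨S, T⟩ h
    simp only [Finset.mem_sigma, Finset.mem_powerset] at h
    dsimp only
    obtain ⟨h1, h2, _⟩ := res_aux (S := S) h.2
    rw [hinv S h.1 T h.2, h1, h2]
  · rintro ⟨S, T⟩ h
    simp only [Finset.mem_sigma, Finset.mem_powerset] at h
    dsimp only
    obtain ⟨_, _, h3⟩ := res_aux (S := S) h.2
    rw [hinv S h.1 T h.2]
    have c1 : S.card ≤ A.card := Finset.card_le_card h.1
    have c2 : T.card ≤ (a S).card := Finset.card_le_card h.2
    have c3 : (S \ a S ∪ T).card ≤ A.card := Finset.card_le_card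
      (Finset.union_subset (Finset.sdiff_subset.trans h.1) (h.2.trans (ha S h.1)))
    have c4 : (S ∩ a S).card ≤ (a S).card := Finset.card_le_card Finset.inter_subset_right
    have c5 : (A.card - S.card) + ((a S).card - T.card)
        = (A.card - (S \ a S ∪ T).card) + ((a S).card - (S ∩ a S).card) := by omega
    have e2 : p ^ S.card * (1 - p) ^ (A.card - S.card) *
          (p ^ T.card * (1 - p) ^ ((a S).card - T.card) * g (S \ a S ∪ T))
        = p ^ (S.card + T.card) * (1 - p) ^ ((A.card - S.card) + ((a S).card - T.card)) *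
          g (S \ a S ∪ T) := by
      rw [pow_add, pow_add]; ring
    rw [e2, c5, ← h3, pow_add, pow_add]
    ring

/-- RES -/
theorem ex_image {ι κ : Type} [DecidableEq ι] [DecidableEq κ] (p : ℝ) (A : Finset ι)
    (φ : ι → κ) (hφ : Set.InjOn φ (A : Set ι)) (g : Finset κ → ℝ) :
    ex p (A.image φ) g = ex p A (fun T => g (T.image φ)) := by
  induction A using Finset.induction_on generalizing g with
  | empty => simp [ex_empty]
  | insert a A ha ih =>
    have hA : Set.InjOn φ (A : Set ι) := hφ.mono (by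
      intro x hx
      exact Finset.mem_coe.mpr (Finset.mem_insert_of_mem (Finset.mem_coe.mp hx)))
    have hna : φ a ∉ A.image φ := by
      intro h
      obtain ⟨b, hb, hab⟩ := Finset.mem_image.mp h
      have h1 : b = a := hφ (Finset.mem_coe.mpr (Finset.mem_insert_of_mem hb))
        (Finset.mem_coe.mpr (Finset.mem_insert_self a A)) hab
      exact ha (h1 ▸ hb)
    rw [Finset.image_insert, ex_insert p hna, ex_insert p ha, ih hA, ih hA]
    simp only [Finset.image_insert]

end Pool.Agent.MDF
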