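import Pool.Agent.MDF.Defs
import Pool.Agent.MDF.RES
import Pool.Agent.MDF.INV

set_option autoImplicit false

open scoped Classical

namespace Pool.Agent.MDF

open Finset Pool.Agent.MD437

variable {n : ℕ}

/-- CND -/
theorem cond_step {p : ℝ} (hp0 : 0 ≤ p) (hp1 : p ≤ 1) (u v : Fin n) (j : ℕ)
    (H Q : Finset (Sym2 (Fin n)) → Prop) (β : ℝ) (hβ : 0 ≤ β)
    (hH : ∀ S S' : Finset (Sym2 (Fin n)),
      (∀ k ≤ j, bl S' u k = bl S u k ∧ bl S' v k = bl S v k) → H S → H S')
    (hQ : ∀ S ⊆ E n, H S → pr p (rr S u v j ×ˢ (fu S u v j ∪ fv S u v j))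
      (fun T => Q (nw S u v j T)) ≤ β) :
    pr p (E n) (fun S => H S ∧ Q S) ≤ β * pr p (E n) H := by
  rw [pr_def p (E n) (fun S => H S ∧ Q S),
    ← resample p (E n) (fun S => act S u v j) (fun S _ => act_sub S u v j)
      (fun S _ T hT => inv_act S u v j T hT), pr_def p (E n) H, ← ex_mul_left]
  refine ex_mono hp0 hp1 fun S hS => ?_
  have e1 := ex_image p (rr S u v j ×ˢ (fu S u v j ∪ fv S u v j)) mk (mk_injOn S u v j)
    (fun T => if H (S \ act S u v j ∪ T) ∧ Q (S \ act S u v j ∪ T) then (1 : ℝ) else 0)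
  refine le_trans (le_of_eq e1) ?_
  by_cases h : H S
  · rw [if_pos h, mul_one]
    refine le_trans ?_ (hQ S hS h)
    rw [pr_def]
    refine ex_mono hp0 hp1 fun T _ => ?_
    by_cases h1 : Q (nw S u v j T)
    · rw [if_pos h1]
      split_ifs <;> norm_num
    · rw [if_neg h1, if_neg]
      exact fun h2 => h1 h2.2
  · rw [if_neg h, mul_zero]
    refine le_of_eq ((ex_congr p fun T hT => ?_).trans (ex_const p _ 0))
    rw [if_neg]
    rintro ⟨h1, -⟩
    apply h
    refine hH _ S (fun k hk => ?_) h1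
    obtain ⟨a, b⟩ := inv_bl S u v j (T.image mk) (Finset.image_subset_image hT) k hk
    exact ⟨a.symm, b.symm⟩

end Pool.Agent.MDF
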