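import Pool.Agent.MDF.Defs
import Pool.Agent.MDF.INV

set_option autoImplicit false

open scoped Classical

namespace Pool.Agent.MDF

open Finset Pool.Agent.MD437

variable {n : ℕ}

private lemma NXT_mk {T : Finset (Fin n × Fin n)} {x y : Fin n} :
    s(x, y) ∈ T.image mk ↔ (x, y) ∈ T ∨ (y, x) ∈ T := by
  rw [Finset.mem_image]
  constructor
  · rintro ⟨⟨a, b⟩, hab, h⟩
    have h' : s(a, b) = s(x, y) := h
    rw [Sym2.eq_iff] at h'
    rcases h' with ⟨rfl, rfl⟩ | ⟨rfl, rfl⟩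
    · exact Or.inl hab
    · exact Or.inr hab
  · rintro (h | h)
    · exact ⟨(x, y), h, rfl⟩
    · exact ⟨(y, x), h, Sym2.eq_swap⟩

private lemma NXT_ad (S : Finset (Sym2 (Fin n))) (u v : Fin n) (j : ℕ)
    (T : Finset (Fin n × Fin n)) (z w : Fin n) :
    ad (nw S u v j T) z w ↔ z ≠ w ∧ ((s(z, w) ∈ S ∧ s(z, w) ∉ act S u v j) ∨
      (z, w) ∈ T ∨ (w, z) ∈ T) := by
  unfold ad nw
  rw [Finset.mem_union, Finset.mem_sdiff, NXT_mk]

private lemma NXT_act (S : Finset (Sym2 (Fin n))) (u v : Fin n) (j : ℕ) (x y : Fin n) :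
    s(x, y) ∈ act S u v j ↔ (x ∈ rr S u v j ∧ y ∈ fu S u v j ∪ fv S u v j) ∨
      (y ∈ rr S u v j ∧ x ∈ fu S u v j ∪ fv S u v j) := by
  unfold act
  rw [NXT_mk, Finset.mem_product, Finset.mem_product]

/-- NXT -/
theorem nw_bl (S : Finset (Sym2 (Fin n))) (u v : Fin n) (j : ℕ) (T : Finset (Fin n × Fin n))
    (hT : T ⊆ rr S u v j ×ˢ (fu S u v j ∪ fv S u v j)) (k : ℕ) (hk : k ≤ j) :
    bl (nw S u v j T) u k = bl S u k ∧ bl (nw S u v j T) v k = bl S v k :=
  inv_bl S u v j (T.image mk) (Finset.image_subset_image hT) k hk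

private lemma NXT_bl (S : Finset (Sym2 (Fin n))) (u v : Fin n) (j : ℕ)
    (T : Finset (Fin n × Fin n)) (hT : T ⊆ rr S u v j ×ˢ (fu S u v j ∪ fv S u v j)) (x : Fin n)
    (hx : x = u ∨ x = v) : bl (nw S u v j T) x j = bl S x j := by
  rcases hx with rfl | rfl
  · exact (nw_bl S x v j T hT j le_rfl).1
  · exact (nw_bl S u x j T hT j le_rfl).2

private lemma NXT_uu (S : Finset (Sym2 (Fin n))) (u v : Fin n) (j : ℕ) (x : Fin n)
    (hx : x = u ∨ x = v) : bl S x j ⊆ uu S u v j := by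
  rcases hx with rfl | rfl
  · exact Finset.subset_union_left
  · exact Finset.subset_union_right

private lemma NXT_rr {S : Finset (Sym2 (Fin n))} {u v : Fin n} {j : ℕ} {w : Fin n} :
    w ∈ rr S u v j ↔ w ∉ uu S u v j := by
  simp [rr]

private lemma NXT_gen (S : Finset (Sym2 (Fin n))) (u v : Fin n) (j : ℕ)
    (T : Finset (Fin n × Fin n)) (hT : T ⊆ rr S u v j ×ˢ (fu S u v j ∪ fv S u v j)) (x : Fin n)
    (hx : x = u ∨ x = v) (w : Fin n) :
    w ∈ bl (nw S u v j T) x (j + 1) ↔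
      (w ∈ rr S u v j ∧ ∃ z ∈ bl S x j \ dd S u v j, (w, z) ∈ T) ∨
        (w ∈ uu S u v j ∧ w ∈ bl S x (j + 1)) := by
  have hsub := NXT_uu S u v j x hx
  rw [mem_bl_succ, NXT_bl S u v j T hT x hx]
  constructor
  · rintro (h | ⟨z, hz, had⟩)
    · exact Or.inr ⟨hsub h, bl_mono (Nat.le_succ j) h⟩
    · rw [NXT_ad] at had
      obtain ⟨hne, had⟩ := had
      have hzr : z ∉ rr S u v j := fun h => (NXT_rr.1 h) (hsub hz)
      have hzT : (z, w) ∉ T := fun h => hzr (Finset.mem_product.1 (hT h)).1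
      by_cases hw : w ∈ uu S u v j
      · right
        refine ⟨hw, ?_⟩
        have hwT : (w, z) ∉ T := fun h => (NXT_rr.1 (Finset.mem_product.1 (hT h)).1) hw
        rcases had with h | h | h
        · exact mem_bl_succ.2 (Or.inr ⟨z, hz, hne, h.1⟩)
        · exact absurd h hzT
        · exact absurd h hwT
      · left
        have hwr : w ∈ rr S u v j := NXT_rr.2 hw
        refine ⟨hwr, z, ?_, ?_⟩
        · rw [Finset.mem_sdiff]
          refine ⟨hz, fun hd => ?_⟩
          rcases had with h | h | h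
          · cases j with
            | zero => simp [dd] at hd
            | succ j =>
              apply hw
              have hd' : z ∈ uu S u v j := hd
              unfold uu at hd' ⊢
              rw [Finset.mem_union] at hd' ⊢
              rcases hd' with hd' | hd'
              · exact Or.inl (mem_bl_succ.2 (Or.inr ⟨z, hd', hne, h.1⟩))
              · exact Or.inr (mem_bl_succ.2 (Or.inr ⟨z, hd', hne, h.1⟩))
          · exact hzT h
          · have h1 := (Finset.mem_product.1 (hT h)).2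
            have h2 : z ∈ fu S u v j ∪ fv S u v j := h1
            unfold fu fv at h2
            rw [Finset.mem_union, Finset.mem_sdiff, Finset.mem_sdiff] at h2
            rcases h2 with h2 | h2
            · exact h2.2 hd
            · exact h2.2 hd
        · rcases had with h | h | h
          · exfalso
            apply h.2
            rw [NXT_act]
            right
            refine ⟨hwr, ?_⟩
            have hzd : z ∉ dd S u v j := by
              intro hd
              cases j with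
              | zero => simp [dd] at hd
              | succ j =>
                apply hw
                have hd' : z ∈ uu S u v j := hd
                unfold uu at hd' ⊢
                rw [Finset.mem_union] at hd' ⊢
                rcases hd' with hd' | hd'
                · exact Or.inl (mem_bl_succ.2 (Or.inr ⟨z, hd', hne, h.1⟩))
                · exact Or.inr (mem_bl_succ.2 (Or.inr ⟨z, hd', hne, h.1⟩))
            rw [Finset.mem_union]
            rcases hx with rfl | rfl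
            · exact Or.inl (Finset.mem_sdiff.2 ⟨hz, hzd⟩)
            · exact Or.inr (Finset.mem_sdiff.2 ⟨hz, hzd⟩)
          · exact absurd h hzT
          · exact h
  · rintro (⟨hw, z, hz, h⟩ | ⟨hw, h⟩)
    · right
      have hz' := (Finset.mem_sdiff.1 hz).1
      refine ⟨z, hz', ?_⟩
      rw [NXT_ad]
      refine ⟨?_, Or.inr (Or.inr h)⟩
      rintro rfl
      exact NXT_rr.1 hw (hsub hz')
    · rw [mem_bl_succ] at h
      rcases h with h | ⟨z, hz, hne, h⟩
      · exact Or.inl h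
      · right
        refine ⟨z, hz, ?_⟩
        rw [NXT_ad]
        refine ⟨hne, Or.inl ⟨h, fun hact => ?_⟩⟩
        rw [NXT_act] at hact
        rcases hact with ⟨h1, _⟩ | ⟨h1, _⟩
        · exact NXT_rr.1 h1 (hsub hz)
        · exact NXT_rr.1 h1 hw

/-- NXT -/
theorem nw_mem_u (S : Finset (Sym2 (Fin n))) (u v : Fin n) (j : ℕ) (T : Finset (Fin n × Fin n))
    (hT : T ⊆ rr S u v j ×ˢ (fu S u v j ∪ fv S u v j)) (w : Fin n) :
    w ∈ bl (nw S u v j T) u (j + 1) ↔
      (w ∈ rr S u v j ∧ ∃ z ∈ fu S u v j, (w, z) ∈ T) ∨ (w ∈ uu S u v j ∧ w ∈ bl S u (j + 1)) :=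
  NXT_gen S u v j T hT u (Or.inl rfl) w

/-- NXT -/
theorem nw_mem_v (S : Finset (Sym2 (Fin n))) (u v : Fin n) (j : ℕ) (T : Finset (Fin n × Fin n))
    (hT : T ⊆ rr S u v j ×ˢ (fu S u v j ∪ fv S u v j)) (w : Fin n) :
    w ∈ bl (nw S u v j T) v (j + 1) ↔
      (w ∈ rr S u v j ∧ ∃ z ∈ fv S u v j, (w, z) ∈ T) ∨ (w ∈ uu S u v j ∧ w ∈ bl S v (j + 1)) :=
  NXT_gen S u v j T hT v (Or.inr rfl) w

private lemma NXT_card (S : Finset (Sym2 (Fin n))) (u v : Fin n) (j : ℕ)
    (T : Finset (Fin n × Fin n)) (hT : T ⊆ rr S u v j ×ˢ (fu S u v j ∪ fv S u v j)) (x : Fin n)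
    (hx : x = u ∨ x = v) :
    (sp (nw S u v j T) x (j + 1)).card = (uu S u v j ∩ sp S x (j + 1)).card +
      ((rr S u v j).filter fun w => ∃ z ∈ bl S x j \ dd S u v j, (w, z) ∈ T).card := by
  have hsub := NXT_uu S u v j x hx
  rw [← Finset.card_union_of_disjoint]
  · congr 1
    ext w
    have h1 : w ∈ sp (nw S u v j T) x (j + 1) ↔
        w ∈ bl (nw S u v j T) x (j + 1) ∧ w ∉ bl (nw S u v j T) x j := Finset.mem_sdiff
    have h2 : w ∈ sp S x (j + 1) ↔ w ∈ bl S x (j + 1) ∧ w ∉ bl S x j := Finset.mem_sdiff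
    rw [h1, NXT_gen S u v j T hT x hx, NXT_bl S u v j T hT x hx, Finset.mem_union,
      Finset.mem_inter, h2, Finset.mem_filter]
    constructor
    · rintro ⟨h | h, h3⟩
      · exact Or.inr h
      · exact Or.inl ⟨h.1, h.2, h3⟩
    · rintro (h | h)
      · exact ⟨Or.inr ⟨h.1, h.2.1⟩, h.2.2⟩
      · exact ⟨Or.inl h, fun h3 => NXT_rr.1 h.1 (hsub h3)⟩
  · rw [Finset.disjoint_left]
    intro w hw hw2
    exact NXT_rr.1 (Finset.mem_filter.1 hw2).1 (Finset.mem_inter.1 hw).1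

/-- NXT -/
theorem nw_card_u (S : Finset (Sym2 (Fin n))) (u v : Fin n) (j : ℕ) (T : Finset (Fin n × Fin n))
    (hT : T ⊆ rr S u v j ×ˢ (fu S u v j ∪ fv S u v j)) :
    (sp (nw S u v j T) u (j + 1)).card = (uu S u v j ∩ sp S u (j + 1)).card +
      ((rr S u v j).filter fun w => ∃ z ∈ fu S u v j, (w, z) ∈ T).card :=
  NXT_card S u v j T hT u (Or.inl rfl)

/-- NXT -/
theorem nw_card_v (S : Finset (Sym2 (Fin n))) (u v : Fin n) (j : ℕ) (T : Finset (Fin n × Fin n))
    (hT : T ⊆ rr S u v j ×ˢ (fu S u v j ∪ fv S u v j)) :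
    (sp (nw S u v j T) v (j + 1)).card = (uu S u v j ∩ sp S v (j + 1)).card +
      ((rr S u v j).filter fun w => ∃ z ∈ fv S u v j, (w, z) ∈ T).card :=
  NXT_card S u v j T hT v (Or.inr rfl)

/-- NXT -/
theorem nw_out (S : Finset (Sym2 (Fin n))) (u v : Fin n) (j : ℕ) (T : Finset (Fin n × Fin n))
    (hT : T ⊆ rr S u v j ×ˢ (fu S u v j ∪ fv S u v j)) :
    Finset.univ \ uu (nw S u v j T) u v (j + 1) =
      (rr S u v j).filter fun w => ∀ z ∈ fu S u v j ∪ fv S u v j, (w, z) ∉ T := by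
  ext w
  have h1 : w ∈ Finset.univ \ uu (nw S u v j T) u v (j + 1) ↔
      ¬ (w ∈ bl (nw S u v j T) u (j + 1) ∨ w ∈ bl (nw S u v j T) v (j + 1)) := by
    simp [uu]
  rw [h1, nw_mem_u S u v j T hT, nw_mem_v S u v j T hT, Finset.mem_filter]
  constructor
  · intro h
    have hw : w ∉ uu S u v j := by
      intro hw
      apply h
      have hw' := hw
      unfold uu at hw'
      rw [Finset.mem_union] at hw'
      rcases hw' with h2 | h2
      · exact Or.inl (Or.inr ⟨hw, bl_mono (Nat.le_succ j) h2⟩)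
      · exact Or.inr (Or.inr ⟨hw, bl_mono (Nat.le_succ j) h2⟩)
    refine ⟨NXT_rr.2 hw, fun z hz hT' => ?_⟩
    rw [Finset.mem_union] at hz
    apply h
    rcases hz with hz | hz
    · exact Or.inl (Or.inl ⟨NXT_rr.2 hw, z, hz, hT'⟩)
    · exact Or.inr (Or.inl ⟨NXT_rr.2 hw, z, hz, hT'⟩)
  · rintro ⟨hw, h⟩ h2
    rcases h2 with (⟨_, z, hz, h3⟩ | ⟨h3, _⟩) | (⟨_, z, hz, h3⟩ | ⟨h3, _⟩)
    · exact h z (Finset.mem_union_left _ hz) h3
    · exact NXT_rr.1 hw h3
    · exact h z (Finset.mem_union_right _ hz) h3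
    · exact NXT_rr.1 hw h3

/-- NXT -/
theorem nw_only_u (S : Finset (Sym2 (Fin n))) (u v : Fin n) (j : ℕ) (T : Finset (Fin n × Fin n))
    (hT : T ⊆ rr S u v j ×ˢ (fu S u v j ∪ fv S u v j)) :
    ((rr S u v j).filter fun w => (∃ z ∈ fu S u v j, (w, z) ∈ T) ∧ ∀ z ∈ fv S u v j, (w, z) ∉ T) ⊆
      sp (nw S u v j T) u (j + 1) \ bl (nw S u v j T) v (j + 1) := by
  intro w hw
  rw [Finset.mem_filter] at hw
  obtain ⟨hwr, hex, hall⟩ := hw
  rw [Finset.mem_sdiff]
  have h1 : w ∈ sp (nw S u v j T) u (j + 1) ↔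
      w ∈ bl (nw S u v j T) u (j + 1) ∧ w ∉ bl (nw S u v j T) u j := Finset.mem_sdiff
  refine ⟨h1.2 ⟨(nw_mem_u S u v j T hT w).2 (Or.inl ⟨hwr, hex⟩), fun h => ?_⟩, fun h => ?_⟩
  · rw [(nw_bl S u v j T hT j le_rfl).1] at h
    exact NXT_rr.1 hwr (Finset.mem_union_left _ h)
  · rw [nw_mem_v S u v j T hT] at h
    rcases h with ⟨_, z, hz, h3⟩ | ⟨h3, _⟩
    · exact hall z hz h3
    · exact NXT_rr.1 hwr h3

end Pool.Agent.MDF
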