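import Pool.Agent.MDF.Defs
import Pool.Agent.MDF.CND
import Pool.Agent.MDF.NXT
import Pool.Agent.MDF.ACB

set_option autoImplicit false

open scoped Classical

namespace Pool.Agent.MDF

open Finset Pool.Agent.MD437

variable {n : ℕ}

private lemma STP_can {β : Type} (s : Finset β) (P : β → Prop) (i : DecidablePred P) :
    @Finset.filter β P i s =
      @Finset.filter β P (fun x => Classical.propDecidable (P x)) s := by
  have h : i = fun x => Classical.propDecidable (P x) := Subsingleton.elim _ _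
  rw [h]

/-- STP -/
theorem anti_step {p : ℝ} (hp0 : 0 ≤ p) (hp1 : p ≤ 1) (u v : Fin n) (j m : ℕ) (N0 L : ℝ)
    (hN0 : 0 ≤ N0) (hL : 0 ≤ L) (H : Finset (Sym2 (Fin n)) → Prop)
    (hH : ∀ S S' : Finset (Sym2 (Fin n)),
      (∀ k ≤ j, bl S' u k = bl S u k ∧ bl S' v k = bl S v k) → H S → H S')
    (hm : ∀ S ⊆ E n, H S → m ≤ (sp S u j \ bl S v j).card ∧
      1 - (1 - p) ^ (sp S u j).card ≤ 1 / 2) :
    pr p (E n) (fun S => H S ∧ (|((sp S u (j + 1)).card : ℝ) - (sp S v (j + 1)).card| ≤ L ∧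
      N0 ≤ ((Finset.univ \ uu S u v (j + 1)).card : ℝ))) *
      √((1 - (1 - p) ^ m) * N0) ≤ 4 * (2 * L + 1) * pr p (E n) H := by
  have hq0 : 0 ≤ 1 - p := by linarith
  have hq1 : 1 - p ≤ 1 := by linarith
  have hpH : 0 ≤ pr p (E n) H := pr_nonneg hp0 hp1 _ _
  have hc : 0 ≤ 4 * (2 * L + 1) := by linarith
  rcases (Real.sqrt_nonneg ((1 - (1 - p) ^ m) * N0)).eq_or_lt with hs | hs
  · rw [← hs, mul_zero]
    exact mul_nonneg hc hpH
  · have key := cond_step hp0 hp1 u v j H
      (fun S => |((sp S u (j + 1)).card : ℝ) - (sp S v (j + 1)).card| ≤ L ∧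
        N0 ≤ ((Finset.univ \ uu S u v (j + 1)).card : ℝ))
      (4 * (2 * L + 1) / √((1 - (1 - p) ^ m) * N0)) (div_nonneg hc hs.le) hH ?_
    · calc _ ≤ 4 * (2 * L + 1) / √((1 - (1 - p) ^ m) * N0) * pr p (E n) H *
            √((1 - (1 - p) ^ m) * N0) := mul_le_mul_of_nonneg_right key hs.le
        _ = 4 * (2 * L + 1) * pr p (E n) H := by
            field_simp
    · intro S hS hHS
      rw [le_div_iff₀ hs]
      obtain ⟨hm1, hm2⟩ := hm S hS hHS
      have e1 : fu S u v j \ fv S u v j = sp S u j \ bl S v j := fu_sdiff_fv S u v j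
      have hcard : (sp S u j \ bl S v j).card ≤ (sp S u j).card :=
        Finset.card_le_card Finset.sdiff_subset
      have hr : 1 - (1 - p) ^ (fu S u v j \ fv S u v j).card ≤ 1 / 2 := by
        rw [e1]
        have := pow_le_pow_of_le_one hq0 hq1 hcard
        linarith
      have hr2 : 1 - (1 - p) ^ m ≤ 1 - (1 - p) ^ (fu S u v j \ fv S u v j).card := by
        rw [e1]
        have := pow_le_pow_of_le_one hq0 hq1 hm1
        linarith
      have hb := ac_block hp0 hp1 (rr S u v j) (fu S u v j) (fv S u v j)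
        (((uu S u v j ∩ sp S u (j + 1)).card : ℝ) - (uu S u v j ∩ sp S v (j + 1)).card) L N0
        hL hN0 hr
      refine le_trans ?_ hb
      refine mul_le_mul ?_ (Real.sqrt_le_sqrt (mul_le_mul_of_nonneg_right hr2 hN0))
        (Real.sqrt_nonneg _) (pr_nonneg hp0 hp1 _ _)
      refine pr_mono hp0 hp1 fun T hT h => ?_
      obtain ⟨h1, h2⟩ := h
      rw [nw_card_u S u v j T hT, nw_card_v S u v j T hT] at h1
      rw [nw_out S u v j T hT] at h2
      push_cast at h1
      have e : ∀ a b x y : ℝ, a - b + x - y = a + x - (b + y) := fun a b x y => by ring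
      rw [e]
      rw [STP_can (rr S u v j) (fun w => ∃ z ∈ fu S u v j, (w, z) ∈ T),
        STP_can (rr S u v j) (fun w => ∃ z ∈ fv S u v j, (w, z) ∈ T)] at h1 ⊢
      rw [STP_can (rr S u v j) (fun w => ∀ z ∈ fu S u v j ∪ fv S u v j, (w, z) ∉ T)] at h2 ⊢
      exact ⟨h1, h2⟩

end Pool.Agent.MDF
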