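import Pool.Agent.MDF.Defs
import Pool.Agent.MDF.STP

set_option autoImplicit false

open scoped Classical

namespace Pool.Agent.MDF

open Finset Pool.Agent.MD437

variable {n : ℕ}

private lemma CHN_sp {S S' : Finset (Sym2 (Fin n))} {u : Fin n} {j k : ℕ} (hk : k ≤ j)
    (h : ∀ k ≤ j, bl S' u k = bl S u k) : sp S' u k = sp S u k := by
  cases k with
  | zero => rfl
  | succ k =>
    change bl S' u (k + 1) \ bl S' u k = bl S u (k + 1) \ bl S u k
    rw [h (k + 1) hk, h k (by omega)]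

/-- CHN -/
theorem chain {p : ℝ} (hp0 : 0 ≤ p) (hp1 : p ≤ 1) (u v : Fin n) (L : ℕ → ℝ) (m : ℕ → ℕ)
    (N0 : ℝ) (hN0 : 0 ≤ N0) (hL : ∀ k, 0 ≤ L k) (J : ℕ) :
    pr p (E n) (fun S => HE L m p N0 S u v J) *
      ∏ k ∈ Finset.range J, √((1 - (1 - p) ^ (m k)) * N0) ≤
      ∏ k ∈ Finset.range J, (4 * (2 * L (k + 1) + 1)) := by
  induction J with
  | zero =>
    rw [Finset.prod_range_zero, Finset.prod_range_zero, mul_one, pr_def]
    calc _ ≤ ex p (E n) (fun _ => (1 : ℝ)) :=
          ex_mono hp0 hp1 fun S _ => by split_ifs <;> norm_num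
      _ = 1 := ex_const p _ 1
  | succ J ih =>
    rw [Finset.prod_range_succ, Finset.prod_range_succ]
    have hstep := anti_step hp0 hp1 u v J (m J) N0 (L (J + 1)) hN0 (hL (J + 1))
      (fun S => HE L m p N0 S u v J ∧ 1 - (1 - p) ^ (sp S u J).card ≤ 1 / 2) (by
        rintro S S' h ⟨⟨h1, h2, h3⟩, h4⟩
        have hu : ∀ k ≤ J, bl S' u k = bl S u k := fun k hk => (h k hk).1
        have hv : ∀ k ≤ J, bl S' v k = bl S v k := fun k hk => (h k hk).2
        refine ⟨⟨fun k hk1 hk2 => ?_, fun k hk => ?_, fun k hk => ?_⟩, ?_⟩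
        · rw [CHN_sp hk2 hu, CHN_sp hk2 hv]
          exact h1 k hk1 hk2
        · have h5 := h2 k hk
          unfold uu at h5 ⊢
          rw [CHN_sp hk hu, hu k hk, hv k hk]
          exact h5
        · rw [CHN_sp hk.le hu]
          exact h3 k hk
        · rw [CHN_sp le_rfl hu]
          exact h4) (by
        rintro S - ⟨⟨-, h2, -⟩, h4⟩
        exact ⟨(h2 J le_rfl).1, h4⟩)
    have hmono : pr p (E n) (fun S => HE L m p N0 S u v (J + 1)) ≤
        pr p (E n) (fun S => (HE L m p N0 S u v J ∧ 1 - (1 - p) ^ (sp S u J).card ≤ 1 / 2) ∧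
          (|((sp S u (J + 1)).card : ℝ) - (sp S v (J + 1)).card| ≤ L (J + 1) ∧
          N0 ≤ ((Finset.univ \ uu S u v (J + 1)).card : ℝ))) := by
      refine pr_mono hp0 hp1 ?_
      rintro S - ⟨h1, h2, h3⟩
      exact ⟨⟨⟨fun k hk1 hk2 => h1 k hk1 (by omega), fun k hk => h2 k (by omega),
        fun k hk => h3 k (by omega)⟩, h3 J (by omega)⟩, h1 (J + 1) (by omega) le_rfl,
        (h2 (J + 1) le_rfl).2⟩
    have hmono2 : pr p (E n) (fun S => HE L m p N0 S u v J ∧
        1 - (1 - p) ^ (sp S u J).card ≤ 1 / 2) ≤ pr p (E n) (fun S => HE L m p N0 S u v J) :=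
      pr_mono hp0 hp1 fun S _ h => h.1
    set r := √((1 - (1 - p) ^ (m J)) * N0) with hr
    have hr0 : 0 ≤ r := Real.sqrt_nonneg _
    set P := ∏ k ∈ Finset.range J, √((1 - (1 - p) ^ (m k)) * N0) with hP
    have hP0 : 0 ≤ P := Finset.prod_nonneg fun k _ => Real.sqrt_nonneg _
    have hc : 0 ≤ 4 * (2 * L (J + 1) + 1) := by
      have := hL (J + 1)
      linarith
    calc pr p (E n) (fun S => HE L m p N0 S u v (J + 1)) * (P * r)
        = (pr p (E n) (fun S => HE L m p N0 S u v (J + 1)) * r) * P := by ring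
      _ ≤ (4 * (2 * L (J + 1) + 1) * pr p (E n) (fun S => HE L m p N0 S u v J)) * P := by
          refine mul_le_mul_of_nonneg_right ?_ hP0
          exact (mul_le_mul_of_nonneg_right hmono hr0).trans
            (hstep.trans (mul_le_mul_of_nonneg_left hmono2 hc))
      _ = (pr p (E n) (fun S => HE L m p N0 S u v J) * P) * (4 * (2 * L (J + 1) + 1)) := by ring
      _ ≤ _ := mul_le_mul_of_nonneg_right ih hc

end Pool.Agent.MDF
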