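import Pool.Agent.MDF.Defs2

set_option autoImplicit false

open scoped Classical

namespace Pool.Agent.MDF

open Finset Pool.Agent.MD437

variable {n : ℕ}

/-- CMD -/
theorem cm_zero (S : Finset (Sym2 (Fin n))) {u v : Fin n} (huv : u ≠ v) : cm S u v 0 = ∅ := by
  ext w
  simp only [cm, Finset.mem_inter, mem_bl_zero, Finset.notMem_empty, iff_false]
  rintro ⟨h1, h2⟩
  exact huv (h1.symm.trans h2)

private lemma CMD_nd {S : Finset (Sym2 (Fin n))} {u v y : Fin n} {j : ℕ}
    (h1 : ∀ k, j = k + 1 → y ∉ bl S u k) (h2 : ∀ k, j = k + 1 → y ∉ bl S v k) :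
    y ∉ dd S u v j := by
  cases j with
  | zero => simp [dd]
  | succ j =>
    simp only [dd, uu, Finset.mem_union, not_or]
    exact ⟨h1 j rfl, h2 j rfl⟩

private lemma CMD_up {S : Finset (Sym2 (Fin n))} {u x y : Fin n} {j k : ℕ} (hjk : j = k + 1)
    (hxy : ad S y x) (hx : x ∉ bl S u j) : y ∉ bl S u k := by
  intro h
  apply hx
  rw [hjk]
  exact mem_bl_succ.2 (Or.inr ⟨y, h, hxy⟩)

private lemma CMD_mono {S : Finset (Sym2 (Fin n))} {u y : Fin n} {j k : ℕ} (hjk : j = k + 1)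
    (hy : y ∉ bl S u j) : y ∉ bl S u k :=
  fun h => hy (bl_mono (by omega) h)

/-- an active vertex of `u` which is not active for `v` -/
private lemma CMD_fu {S : Finset (Sym2 (Fin n))} {u v y : Fin n} {j : ℕ} (h1 : y ∈ bl S u j)
    (h2 : y ∉ bl S v j) (h3 : ∀ k, j = k + 1 → y ∉ bl S u k) :
    y ∈ fu S u v j \ fv S u v j := by
  have h4 : y ∉ dd S u v j := CMD_nd h3 fun k hk => CMD_mono hk h2
  simp only [fu, fv, Finset.mem_sdiff, not_and, not_not]
  exact ⟨⟨h1, h4⟩, fun h => absurd h h2⟩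

private lemma CMD_fv {S : Finset (Sym2 (Fin n))} {u v y : Fin n} {j : ℕ} (h1 : y ∈ bl S v j)
    (h2 : y ∉ bl S u j) (h3 : ∀ k, j = k + 1 → y ∉ bl S v k) :
    y ∈ fv S u v j \ fu S u v j := by
  have h4 : y ∉ dd S u v j := CMD_nd (fun k hk => CMD_mono hk h2) h3
  simp only [fu, fv, Finset.mem_sdiff, not_and, not_not]
  exact ⟨⟨h1, h4⟩, fun h => absurd h h2⟩

private lemma CMD_cover (S : Finset (Sym2 (Fin n))) (u v : Fin n) (j : ℕ) :
    cm S u v (j + 1) ⊆ cm S u v j ∪ (cm S u v j).biUnion (nb S) ∪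
      ((((fu S u v j \ fv S u v j) ×ˢ (fv S u v j \ fu S u v j)).filter
        fun q => ad S q.1 q.2).image Prod.fst ∪
      (((fu S u v j \ fv S u v j) ×ˢ (fv S u v j \ fu S u v j)).filter
        fun q => ad S q.1 q.2).image Prod.snd) ∪
      ((rr S u v j).filter fun x => (∃ z ∈ fu S u v j \ fv S u v j, ad S x z) ∧
        ∃ z ∈ fv S u v j \ fu S u v j, ad S x z) := by
  intro x hx
  by_cases h0 : x ∈ cm S u v j
  · exact mem_union_left _ (mem_union_left _ (mem_union_left _ h0))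
  by_cases h1 : x ∈ (cm S u v j).biUnion (nb S)
  · exact mem_union_left _ (mem_union_left _ (mem_union_right _ h1))
  have h1' : ∀ z ∈ cm S u v j, ¬ ad S z x := by
    intro z hz hzx
    exact h1 (mem_biUnion.2 ⟨z, hz, mem_nb.2 hzx⟩)
  obtain ⟨hxu, hxv⟩ := mem_inter.1 hx
  have hu := mem_bl_succ.1 hxu
  have hv := mem_bl_succ.1 hxv
  by_cases hu0 : x ∈ bl S u j
  · -- then `x` is not in the ball of `v`
    have hv0 : x ∉ bl S v j := fun h => h0 (mem_inter.2 ⟨hu0, h⟩)
    obtain ⟨z, hz, hzx⟩ := hv.resolve_left hv0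
    have hzu : z ∉ bl S u j := fun h => h1' z (mem_inter.2 ⟨h, hz⟩) hzx
    refine mem_union_left _ (mem_union_right _ (mem_union_left _ (mem_image.2 ⟨(x, z), ?_, rfl⟩)))
    refine mem_filter.2 ⟨mem_product.2 ⟨?_, ?_⟩, ad_symm hzx⟩
    · exact CMD_fu hu0 hv0 fun k hk => CMD_up hk (ad_symm hzx) hzu
    · exact CMD_fv hz hzu fun k hk => CMD_up hk hzx hv0
  · obtain ⟨z, hz, hzx⟩ := hu.resolve_left hu0
    have hzv : z ∉ bl S v j := fun h => h1' z (mem_inter.2 ⟨hz, h⟩) hzx
    by_cases hv0 : x ∈ bl S v j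
    · refine mem_union_left _ (mem_union_right _ (mem_union_right _
        (mem_image.2 ⟨(z, x), ?_, rfl⟩)))
      refine mem_filter.2 ⟨mem_product.2 ⟨?_, ?_⟩, hzx⟩
      · exact CMD_fu hz hzv fun k hk => CMD_up hk hzx hu0
      · exact CMD_fv hv0 hu0 fun k hk => CMD_up hk (ad_symm hzx) hzv
    · obtain ⟨w, hw, hwx⟩ := hv.resolve_left hv0
      have hwu : w ∉ bl S u j := fun h => h1' w (mem_inter.2 ⟨h, hw⟩) hwx
      refine mem_union_right _ (mem_filter.2 ⟨?_, ⟨z, ?_, ad_symm hzx⟩, ⟨w, ?_, ad_symm hwx⟩⟩)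
      · simp only [rr, uu, Finset.mem_sdiff, Finset.mem_union, Finset.mem_univ, true_and, not_or]
        exact ⟨hu0, hv0⟩
      · exact CMD_fu hz hzv fun k hk => CMD_up hk hzx hu0
      · exact CMD_fv hw hwu fun k hk => CMD_up hk hwx hv0

/-- CMD -/
theorem cm_step (S : Finset (Sym2 (Fin n))) (D : ℝ) (hD : ∀ u, ((nb S u).card : ℝ) ≤ D)
    (u v : Fin n) (j : ℕ) :
    ((cm S u v (j + 1)).card : ℝ) ≤
      (1 + D) * (cm S u v j).card + 2 * eb S u v j + qb S u v j := by
  have h1 := card_le_card (CMD_cover S u v j)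
  have h2 := card_union_le (cm S u v j ∪ (cm S u v j).biUnion (nb S) ∪
      ((((fu S u v j \ fv S u v j) ×ˢ (fv S u v j \ fu S u v j)).filter
        fun q => ad S q.1 q.2).image Prod.fst ∪
      (((fu S u v j \ fv S u v j) ×ˢ (fv S u v j \ fu S u v j)).filter
        fun q => ad S q.1 q.2).image Prod.snd))
      ((rr S u v j).filter fun x => (∃ z ∈ fu S u v j \ fv S u v j, ad S x z) ∧
        ∃ z ∈ fv S u v j \ fu S u v j, ad S x z)
  have h3 := card_union_le (cm S u v j ∪ (cm S u v j).biUnion (nb S))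
      ((((fu S u v j \ fv S u v j) ×ˢ (fv S u v j \ fu S u v j)).filter
        fun q => ad S q.1 q.2).image Prod.fst ∪
      (((fu S u v j \ fv S u v j) ×ˢ (fv S u v j \ fu S u v j)).filter
        fun q => ad S q.1 q.2).image Prod.snd)
  have h4 := card_union_le (cm S u v j) ((cm S u v j).biUnion (nb S))
  have h5 := card_union_le ((((fu S u v j \ fv S u v j) ×ˢ (fv S u v j \ fu S u v j)).filter
        fun q => ad S q.1 q.2).image Prod.fst)
      ((((fu S u v j \ fv S u v j) ×ˢ (fv S u v j \ fu S u v j)).filter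
        fun q => ad S q.1 q.2).image Prod.snd)
  have h6 : ((((fu S u v j \ fv S u v j) ×ˢ (fv S u v j \ fu S u v j)).filter
        fun q => ad S q.1 q.2).image Prod.fst).card ≤ eb S u v j := card_image_le
  have h7 : ((((fu S u v j \ fv S u v j) ×ˢ (fv S u v j \ fu S u v j)).filter
        fun q => ad S q.1 q.2).image Prod.snd).card ≤ eb S u v j := card_image_le
  have h8 : ((rr S u v j).filter fun x => (∃ z ∈ fu S u v j \ fv S u v j, ad S x z) ∧
        ∃ z ∈ fv S u v j \ fu S u v j, ad S x z).card = qb S u v j := rfl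
  have h9 : (((cm S u v j).biUnion (nb S)).card : ℝ) ≤ D * (cm S u v j).card := by
    have h10 : ((cm S u v j).biUnion (nb S)).card ≤ ∑ z ∈ cm S u v j, (nb S z).card :=
      card_biUnion_le
    have h11 : (((cm S u v j).biUnion (nb S)).card : ℝ) ≤
        ∑ z ∈ cm S u v j, ((nb S z).card : ℝ) := by exact_mod_cast h10
    refine h11.trans ((sum_le_sum fun z _ => hD z).trans (le_of_eq ?_))
    rw [sum_const, nsmul_eq_mul, mul_comm]
  have h12 : (cm S u v (j + 1)).card ≤
      (cm S u v j).card + ((cm S u v j).biUnion (nb S)).card + (eb S u v j + eb S u v j) +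
        qb S u v j := by omega
  have h13 : ((cm S u v (j + 1)).card : ℝ) ≤
      (cm S u v j).card + ((cm S u v j).biUnion (nb S)).card + (eb S u v j + eb S u v j) +
        qb S u v j := by exact_mod_cast h12
  linarith

end Pool.Agent.MDF
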