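import Pool.Agent.MDF.Defs

set_option autoImplicit false

open scoped Classical

namespace Pool.Agent.MDF

open Finset Pool.Agent.MD437

variable {n : ℕ}

/-- DEG -/
theorem bl_card_le (S : Finset (Sym2 (Fin n))) (D : ℝ) (hD0 : 0 ≤ D)
    (hD : ∀ u, ((nb S u).card : ℝ) ≤ D) (u : Fin n) (k : ℕ) :
    ((bl S u k).card : ℝ) ≤ (1 + D) ^ k := by
  induction k with
  | zero => simp [bl]
  | succ k ih =>
    have hsub : bl S u (k + 1) ⊆ bl S u k ∪ (bl S u k).biUnion (nb S) := by
      intro w hw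
      rcases mem_bl_succ.1 hw with h | ⟨z, hz, hzw⟩
      · exact Finset.mem_union_left _ h
      · exact Finset.mem_union_right _ (Finset.mem_biUnion.2 ⟨z, hz, mem_nb.2 hzw⟩)
    have h1 : (bl S u (k + 1)).card ≤ (bl S u k).card + ∑ z ∈ bl S u k, (nb S z).card :=
      (Finset.card_le_card hsub).trans ((Finset.card_union_le _ _).trans
        (Nat.add_le_add_left Finset.card_biUnion_le _))
    have h2 : ((bl S u (k + 1)).card : ℝ)
        ≤ ((bl S u k).card : ℝ) + ∑ z ∈ bl S u k, ((nb S z).card : ℝ) := by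
      exact_mod_cast h1
    have h3 : ∑ z ∈ bl S u k, ((nb S z).card : ℝ) ≤ ((bl S u k).card : ℝ) * D := by
      refine (Finset.sum_le_sum fun z _ => hD z).trans ?_
      rw [Finset.sum_const, nsmul_eq_mul]
    have h4 : ((bl S u k).card : ℝ) * (1 + D) ≤ (1 + D) ^ k * (1 + D) :=
      mul_le_mul_of_nonneg_right ih (by linarith)
    rw [pow_succ]
    linarith

/-- DEG -/
theorem uu_card_le (S : Finset (Sym2 (Fin n))) (D : ℝ) (hD0 : 0 ≤ D)
    (hD : ∀ u, ((nb S u).card : ℝ) ≤ D) (u v : Fin n) (k : ℕ) :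
    ((uu S u v k).card : ℝ) ≤ 2 * (1 + D) ^ k := by
  have h1 : (uu S u v k).card ≤ (bl S u k).card + (bl S v k).card := Finset.card_union_le _ _
  have h2 : ((uu S u v k).card : ℝ) ≤ ((bl S u k).card : ℝ) + ((bl S v k).card : ℝ) := by
    exact_mod_cast h1
  have h3 := bl_card_le S D hD0 hD u k
  have h4 := bl_card_le S D hD0 hD v k
  linarith

end Pool.Agent.MDF
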