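import Pool.Agent.MDF.Defs2

set_option autoImplicit false

open scoped Classical

namespace Pool.Agent.MDF

open Finset Pool.Agent.MD437

variable {n : ℕ}

private theorem IVG_ad {S : Finset (Sym2 (Fin n))} {u v : Fin n} {j : ℕ}
    {a T : Finset (Sym2 (Fin n))} (ha : ∀ x y, s(x, y) ∈ a → x ∉ dd S u v j) (hT : T ⊆ a)
    {z w : Fin n} (hz : z ∈ dd S u v j) : ad (S \ a ∪ T) z w ↔ ad S z w := by
  have h : s(z, w) ∉ a := fun h => ha z w h hz
  unfold ad
  rw [Finset.mem_union, Finset.mem_sdiff]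
  constructor
  · rintro ⟨h1, h2 | h2⟩
    · exact ⟨h1, h2.1⟩
    · exact absurd (hT h2) h
  · rintro ⟨h1, h2⟩
    exact ⟨h1, Or.inl ⟨h2, h⟩⟩

/-- IVG -/
theorem inv_gen (S : Finset (Sym2 (Fin n))) (u v : Fin n) (j : ℕ) (a T : Finset (Sym2 (Fin n)))
    (ha : ∀ x y, s(x, y) ∈ a → x ∉ dd S u v j) (hT : T ⊆ a) (k : ℕ) (hk : k ≤ j) :
    bl (S \ a ∪ T) u k = bl S u k ∧ bl (S \ a ∪ T) v k = bl S v k := by
  induction k with
  | zero => exact ⟨rfl, rfl⟩
  | succ k ih =>
    obtain ⟨ih1, ih2⟩ := ih (by omega)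
    have hsub : uu S u v k ⊆ dd S u v j := by
      obtain ⟨i, rfl⟩ : ∃ i, j = i + 1 := ⟨j - 1, by omega⟩
      exact uu_mono (by omega)
    constructor
    · ext w
      rw [mem_bl_succ, mem_bl_succ, ih1]
      apply or_congr Iff.rfl
      apply exists_congr
      intro z
      apply and_congr_right
      intro hz
      exact IVG_ad ha hT (hsub (Finset.mem_union_left _ hz))
    · ext w
      rw [mem_bl_succ, mem_bl_succ, ih2]
      apply or_congr Iff.rfl
      apply exists_congr
      intro z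
      apply and_congr_right
      intro hz
      exact IVG_ad ha hT (hsub (Finset.mem_union_right _ hz))

end Pool.Agent.MDF
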