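import Pool.Agent.MDF.Defs2
import Pool.Agent.MDF.IVG
import Pool.Agent.MDF.RES

set_option autoImplicit false

open scoped Classical

namespace Pool.Agent.MDF

open Finset Pool.Agent.MD437

variable {n : ℕ}

private noncomputable def EBP_pr (S : Finset (Sym2 (Fin n))) (u v : Fin n) (j : ℕ) :
    Finset (Fin n × Fin n) :=
  (fu S u v j \ fv S u v j) ×ˢ (fv S u v j \ fu S u v j)

private theorem EBP_mgf {ι : Type} {p : ℝ} (hp0 : 0 ≤ p) (hp1 : p ≤ 1) (A : Finset ι) :
    ex p A (fun T => Real.exp (T.card : ℝ)) ≤ Real.exp (2 * (p * A.card)) := by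
  have he : Real.exp 1 ≤ 3 := by
    have := Real.exp_one_lt_d9
    linarith
  induction A using Finset.induction_on with
  | empty => simp [ex_empty]
  | insert a A ha ih =>
    rw [ex_insert p ha]
    have h1 : ex p A (fun T => Real.exp ((insert a T).card : ℝ)) =
        Real.exp 1 * ex p A (fun T => Real.exp (T.card : ℝ)) := by
      rw [← ex_mul_left]
      refine ex_congr p fun T hT => ?_
      rw [Finset.card_insert_of_notMem (fun h => ha (hT h)), ← Real.exp_add]
      congr 1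
      push_cast
      ring
    rw [h1, Finset.card_insert_of_notMem ha]
    have h0 : 0 ≤ ex p A (fun T => Real.exp (T.card : ℝ)) :=
      ex_nonneg hp0 hp1 fun T _ => (Real.exp_pos _).le
    have h2 : (1 - p) * ex p A (fun T => Real.exp (T.card : ℝ)) +
        p * (Real.exp 1 * ex p A (fun T => Real.exp (T.card : ℝ))) ≤
        Real.exp (2 * p) * ex p A (fun T => Real.exp (T.card : ℝ)) := by
      have h3 : (1 - p) + p * Real.exp 1 ≤ Real.exp (2 * p) := by
        have h4 := Real.add_one_le_exp (2 * p)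
        have h5 : p * Real.exp 1 ≤ p * 3 := mul_le_mul_of_nonneg_left he hp0
        linarith
      calc (1 - p) * ex p A (fun T => Real.exp (T.card : ℝ)) +
          p * (Real.exp 1 * ex p A (fun T => Real.exp (T.card : ℝ)))
          = ((1 - p) + p * Real.exp 1) * ex p A (fun T => Real.exp (T.card : ℝ)) := by ring
        _ ≤ _ := mul_le_mul_of_nonneg_right h3 h0
    refine h2.trans ((mul_le_mul_of_nonneg_left ih (Real.exp_pos _).le).trans (le_of_eq ?_))
    rw [← Real.exp_add]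
    congr 1
    push_cast
    ring

private theorem EBP_congr {S S' : Finset (Sym2 (Fin n))} {u v : Fin n} {j : ℕ}
    (h : ∀ k ≤ j, bl S' u k = bl S u k ∧ bl S' v k = bl S v k) :
    fu S' u v j = fu S u v j ∧ fv S' u v j = fv S u v j := by
  have hd : dd S' u v j = dd S u v j := by
    cases j with
    | zero => rfl
    | succ j =>
      change bl S' u j ∪ bl S' v j = bl S u j ∪ bl S v j
      rw [(h j (Nat.le_succ j)).1, (h j (Nat.le_succ j)).2]
  unfold fu fv
  rw [hd, (h j le_rfl).1, (h j le_rfl).2]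
  exact ⟨rfl, rfl⟩

private theorem EBP_dd {S : Finset (Sym2 (Fin n))} {u v : Fin n} {j : ℕ} (x y : Fin n)
    (h : s(x, y) ∈ (EBP_pr S u v j).image mk) : x ∉ dd S u v j := by
  rw [Finset.mem_image] at h
  obtain ⟨⟨a, b⟩, hab, he⟩ := h
  unfold EBP_pr at hab
  rw [Finset.mem_product] at hab
  have h1 := (Finset.mem_sdiff.1 hab.1).1
  have h2 := (Finset.mem_sdiff.1 hab.2).1
  unfold fu at h1
  unfold fv at h2
  change s(a, b) = s(x, y) at he
  rw [Sym2.eq_iff] at he
  rcases he with ⟨h3, _⟩ | ⟨_, h3⟩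
  · rw [← h3]
    exact (Finset.mem_sdiff.1 h1).2
  · rw [← h3]
    exact (Finset.mem_sdiff.1 h2).2

private theorem EBP_ne {S : Finset (Sym2 (Fin n))} {u v : Fin n} {j : ℕ} {q r : Fin n × Fin n}
    (hq : q ∈ EBP_pr S u v j) (hr : r ∈ EBP_pr S u v j) : q.1 ≠ r.2 := by
  unfold EBP_pr at hq hr
  rw [Finset.mem_product] at hq hr
  intro h
  have h1 := (Finset.mem_sdiff.1 hq.1).1
  rw [h] at h1
  exact (Finset.mem_sdiff.1 hr.2).2 h1

private theorem EBP_inj (S : Finset (Sym2 (Fin n))) (u v : Fin n) (j : ℕ) :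
    Set.InjOn mk (EBP_pr S u v j : Set (Fin n × Fin n)) := by
  rintro ⟨a, b⟩ h1 ⟨c, d⟩ h2 he
  have h1' := Finset.mem_coe.1 h1
  have h2' := Finset.mem_coe.1 h2
  change s(a, b) = s(c, d) at he
  rw [Sym2.eq_iff] at he
  rcases he with ⟨h3, h4⟩ | ⟨h3, _⟩
  · rw [h3, h4]
  · exact absurd h3 (EBP_ne h1' h2')

private theorem EBP_sub (S : Finset (Sym2 (Fin n))) (u v : Fin n) (j : ℕ) :
    (EBP_pr S u v j).image mk ⊆ E n := by
  intro e he
  obtain ⟨⟨a, b⟩, hab, rfl⟩ := Finset.mem_image.1 he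
  change s(a, b) ∈ E n
  rw [mk_mem_E]
  exact EBP_ne hab hab

private theorem EBP_bl (S : Finset (Sym2 (Fin n))) (u v : Fin n) (j : ℕ)
    (T : Finset (Sym2 (Fin n))) (hT : T ⊆ (EBP_pr S u v j).image mk) :
    fu (S \ (EBP_pr S u v j).image mk ∪ T) u v j = fu S u v j ∧
      fv (S \ (EBP_pr S u v j).image mk ∪ T) u v j = fv S u v j :=
  EBP_congr fun k hk => inv_gen S u v j _ T (fun x y h => EBP_dd x y h) hT k hk

private theorem EBP_inv (S : Finset (Sym2 (Fin n))) (u v : Fin n) (j : ℕ)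
    (T : Finset (Sym2 (Fin n))) (hT : T ⊆ (EBP_pr S u v j).image mk) :
    EBP_pr (S \ (EBP_pr S u v j).image mk ∪ T) u v j = EBP_pr S u v j := by
  obtain ⟨h1, h2⟩ := EBP_bl S u v j T hT
  unfold EBP_pr at h1 h2 ⊢
  rw [h1, h2]

private theorem EBP_card (S : Finset (Sym2 (Fin n))) (u v : Fin n) (j : ℕ)
    (T : Finset (Fin n × Fin n)) (hT : T ⊆ EBP_pr S u v j) :
    eb (S \ (EBP_pr S u v j).image mk ∪ T.image mk) u v j = T.card := by
  have h0 := EBP_inv S u v j (T.image mk) (Finset.image_subset_image hT)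
  have h1 : eb (S \ (EBP_pr S u v j).image mk ∪ T.image mk) u v j =
      ((EBP_pr (S \ (EBP_pr S u v j).image mk ∪ T.image mk) u v j).filter
        fun q => ad (S \ (EBP_pr S u v j).image mk ∪ T.image mk) q.1 q.2).card := rfl
  rw [h1, h0]
  congr 1
  ext q
  rw [Finset.mem_filter]
  constructor
  · rintro ⟨hq, _, h2⟩
    rcases Finset.mem_union.1 h2 with h2 | h2
    · exact absurd (Finset.mem_image_of_mem mk hq) (Finset.mem_sdiff.1 h2).2
    · obtain ⟨r, hr, he⟩ := Finset.mem_image.1 h2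
      have : r = q := EBP_inj S u v j (Finset.mem_coe.2 (hT hr)) (Finset.mem_coe.2 hq) he
      rw [← this]
      exact hr
  · intro hq
    refine ⟨hT hq, EBP_ne (hT hq) (hT hq), Finset.mem_union_right _ ?_⟩
    exact Finset.mem_image.2 ⟨q, hq, rfl⟩

/-- EBP -/
theorem eb_prob {p : ℝ} (hp0 : 0 ≤ p) (hp1 : p ≤ 1) (u v : Fin n) (j : ℕ) (μ κ : ℝ) :
    pr p (E n) (fun S => p * (((fu S u v j).card : ℝ) * (fv S u v j).card) ≤ μ ∧
      κ ≤ (eb S u v j : ℝ)) ≤ Real.exp (2 * μ - κ) := by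
  rw [pr_def, ← resample p (E n) (fun S => (EBP_pr S u v j).image mk)
      (fun S _ => EBP_sub S u v j)
      (fun S _ T hT => congrArg (Finset.image mk) (EBP_inv S u v j T hT))]
  have hc : ex p (E n) (fun _ => Real.exp (2 * μ - κ)) = Real.exp (2 * μ - κ) := ex_const p _ _
  rw [← hc]
  refine ex_mono hp0 hp1 fun S _ => ?_
  rw [ex_image p (EBP_pr S u v j) mk (EBP_inj S u v j)]
  by_cases h : p * (((fu S u v j).card : ℝ) * (fv S u v j).card) ≤ μ
  · have h1 : ex p (EBP_pr S u v j) (fun T =>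
        if p * (((fu (S \ (EBP_pr S u v j).image mk ∪ T.image mk) u v j).card : ℝ) *
          (fv (S \ (EBP_pr S u v j).image mk ∪ T.image mk) u v j).card) ≤ μ ∧
          κ ≤ (eb (S \ (EBP_pr S u v j).image mk ∪ T.image mk) u v j : ℝ) then (1 : ℝ) else 0) ≤
        pr p (EBP_pr S u v j) (fun T => κ ≤ (T.card : ℝ)) := by
      rw [pr_def]
      refine ex_mono hp0 hp1 fun T hT => ?_
      rw [EBP_card S u v j T hT]
      by_cases h2 : κ ≤ (T.card : ℝ)
      · rw [if_pos h2]
        split_ifs <;> norm_num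
      · rw [if_neg h2, if_neg (fun h3 => h2 h3.2)]
    refine h1.trans ((pr_exp hp0 hp1 _ (fun T => (T.card : ℝ)) κ).trans ?_)
    refine (mul_le_mul_of_nonneg_left (EBP_mgf hp0 hp1 _) (Real.exp_pos _).le).trans ?_
    rw [← Real.exp_add]
    apply Real.exp_le_exp.2
    have h3 : ((EBP_pr S u v j).card : ℝ) ≤ ((fu S u v j).card : ℝ) * (fv S u v j).card := by
      unfold EBP_pr
      rw [Finset.card_product]
      exact_mod_cast Nat.mul_le_mul (Finset.card_le_card Finset.sdiff_subset)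
        (Finset.card_le_card Finset.sdiff_subset)
    have h4 := mul_le_mul_of_nonneg_left h3 hp0
    linarith
  · refine le_trans (le_of_eq ((ex_congr p fun T hT => ?_).trans (ex_const p _ 0)))
      (Real.exp_pos _).le
    obtain ⟨h1, h2⟩ := EBP_bl S u v j (T.image mk) (Finset.image_subset_image hT)
    rw [h1, h2, if_neg (fun h3 => h h3.1)]

end Pool.Agent.MDF
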