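import Pool.Agent.MDF.Defs2
import Pool.Agent.MDF.PSH

set_option autoImplicit false

open scoped Classical

namespace Pool.Agent.MDF

open Finset Pool.Agent.MD437

variable {n : ℕ}

private lemma QMG_two {ι : Type} [DecidableEq ι] (p : ℝ) {A : Finset ι} {e e' : ι}
    (he : e ∈ A) (he' : e' ∈ A) (hne : e ≠ e') :
    ex p A (fun S => if e ∈ S ∧ e' ∈ S then (1 : ℝ) else 0) = p ^ 2 := by
  have hA : A = insert e (A.erase e) := (Finset.insert_erase he).symm
  rw [hA, ex_insert p (Finset.notMem_erase e A)]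
  have h1 : ex p (A.erase e) (fun S => if e ∈ S ∧ e' ∈ S then (1 : ℝ) else 0) = 0 := by
    refine (ex_congr p fun S hS => ?_).trans (ex_const p (A.erase e) 0)
    rw [if_neg (fun h => Finset.notMem_erase e A (hS h.1))]
  have h2 : ex p (A.erase e) (fun S => if e ∈ insert e S ∧ e' ∈ insert e S then (1 : ℝ) else 0)
      = p := by
    refine (ex_congr p fun S _ => ?_).trans
      (ex_mem p (A := A.erase e) (e := e') (Finset.mem_erase.2 ⟨hne.symm, he'⟩))
    have h3 : (e ∈ insert e S ∧ e' ∈ insert e S) ↔ e' ∈ S := by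
      rw [Finset.mem_insert, Finset.mem_insert]
      constructor
      · rintro ⟨_, h | h⟩
        · exact absurd h.symm hne
        · exact h
      · exact fun h => ⟨Or.inl rfl, Or.inr h⟩
    by_cases h4 : e' ∈ S
    · rw [if_pos (h3.2 h4), if_pos h4]
    · rw [if_neg (fun h => h4 (h3.1 h)), if_neg h4]
  rw [h1, h2]
  ring

private lemma QMG_row {α : Type} [DecidableEq α] {p : ℝ} (hp0 : 0 ≤ p) (hp1 : p ≤ 1)
    (w : α) (M A B : Finset α) (hA : A ⊆ M) (hB : B ⊆ M) (hAB : Disjoint A B) (a : ℝ)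
    (ha : 1 ≤ a) :
    ex p (({w} : Finset α) ×ˢ M) (fun T =>
      if (∃ z ∈ A, (w, z) ∈ T) ∧ ∃ z ∈ B, (w, z) ∈ T then a else 1) ≤
      1 + (a - 1) * (p ^ 2 * ((A.card : ℝ) * B.card)) := by
  have h1 : ∀ T ⊆ ({w} : Finset α) ×ˢ M,
      (if (∃ z ∈ A, (w, z) ∈ T) ∧ ∃ z ∈ B, (w, z) ∈ T then a else 1) ≤
      1 + (a - 1) * ∑ z ∈ A, ∑ z' ∈ B, (if (w, z) ∈ T ∧ (w, z') ∈ T then (1 : ℝ) else 0) := by
    intro T _
    have h0 : ∀ z ∈ A, 0 ≤ ∑ z' ∈ B, (if (w, z) ∈ T ∧ (w, z') ∈ T then (1 : ℝ) else 0) :=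
      fun z _ => Finset.sum_nonneg fun z' _ => by split_ifs <;> norm_num
    by_cases h : (∃ z ∈ A, (w, z) ∈ T) ∧ ∃ z ∈ B, (w, z) ∈ T
    · rw [if_pos h]
      obtain ⟨⟨z, hz, hzT⟩, z', hz', hzT'⟩ := h
      have h2 : (1 : ℝ) ≤ ∑ z ∈ A, ∑ z' ∈ B,
          (if (w, z) ∈ T ∧ (w, z') ∈ T then (1 : ℝ) else 0) := by
        calc (1 : ℝ) = (if (w, z) ∈ T ∧ (w, z') ∈ T then (1 : ℝ) else 0) := by
              rw [if_pos ⟨hzT, hzT'⟩]
          _ ≤ ∑ z' ∈ B, (if (w, z) ∈ T ∧ (w, z') ∈ T then (1 : ℝ) else 0) :=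
              Finset.single_le_sum
                (f := fun z' => (if (w, z) ∈ T ∧ (w, z') ∈ T then (1 : ℝ) else 0))
                (fun z' _ => by split_ifs <;> norm_num) hz'
          _ ≤ _ := Finset.single_le_sum
                (f := fun z => ∑ z' ∈ B, (if (w, z) ∈ T ∧ (w, z') ∈ T then (1 : ℝ) else 0))
                h0 hz
      nlinarith
    · rw [if_neg h]
      have h3 := Finset.sum_nonneg h0
      nlinarith
  refine (ex_mono hp0 hp1 h1).trans (le_of_eq ?_)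
  rw [ex_add, ex_const, ex_mul_left, ex_sum]
  have h2 : ∀ z ∈ A, ex p (({w} : Finset α) ×ˢ M) (fun T => ∑ z' ∈ B,
      (if (w, z) ∈ T ∧ (w, z') ∈ T then (1 : ℝ) else 0)) = (B.card : ℝ) * p ^ 2 := by
    intro z hz
    rw [ex_sum]
    have h3 : ∀ z' ∈ B, ex p (({w} : Finset α) ×ˢ M) (fun T =>
        (if (w, z) ∈ T ∧ (w, z') ∈ T then (1 : ℝ) else 0)) = p ^ 2 := by
      intro z' hz'
      refine QMG_two p (Finset.mem_product.2 ⟨Finset.mem_singleton_self w, hA hz⟩)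
        (Finset.mem_product.2 ⟨Finset.mem_singleton_self w, hB hz'⟩) ?_
      intro h
      have h4 : z = z' := congrArg Prod.snd h
      subst h4
      exact Finset.disjoint_left.1 hAB hz hz'
    rw [Finset.sum_congr rfl h3, Finset.sum_const, nsmul_eq_mul]
  rw [Finset.sum_congr rfl h2, Finset.sum_const, nsmul_eq_mul]
  ring

private lemma QMG_ind {α : Type} [DecidableEq α] {p : ℝ} (hp0 : 0 ≤ p) (hp1 : p ≤ 1)
    (M A B : Finset α) (hA : A ⊆ M) (hB : B ⊆ M) (hAB : Disjoint A B) (R : Finset α) :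
    ex p (R ×ˢ M) (fun T => Real.exp
      ((R.filter fun x => (∃ z ∈ A, (x, z) ∈ T) ∧ ∃ z ∈ B, (x, z) ∈ T).card : ℝ)) ≤
      (1 + (Real.exp 1 - 1) * (p ^ 2 * ((A.card : ℝ) * B.card))) ^ R.card := by
  have he1 : (1 : ℝ) ≤ Real.exp 1 := Real.one_le_exp (by norm_num)
  have hq0 : 0 ≤ p ^ 2 * ((A.card : ℝ) * B.card) := by positivity
  have hb0 : 0 ≤ 1 + (Real.exp 1 - 1) * (p ^ 2 * ((A.card : ℝ) * B.card)) := by
    have := mul_nonneg (sub_nonneg.2 he1) hq0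
    linarith
  induction R using Finset.induction_on with
  | empty => simp [ex_empty]
  | insert w R hw ih =>
    have hd : Disjoint (({w} : Finset α) ×ˢ M) (R ×ˢ M) := by
      rw [Finset.disjoint_left]
      rintro ⟨x, z⟩ h1 h2
      have h3 : x = w := Finset.mem_singleton.1 (Finset.mem_product.1 h1).1
      subst h3
      exact hw (Finset.mem_product.1 h2).1
    have hu : (insert w R) ×ˢ M = (({w} : Finset α) ×ˢ M) ∪ (R ×ˢ M) := by
      rw [← Finset.union_product, Finset.insert_eq]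
    rw [hu, ex_union p hd]
    have h1 : ∀ T1 ⊆ ({w} : Finset α) ×ˢ M,
        ex p (R ×ˢ M) (fun T2 => Real.exp (((insert w R).filter fun x =>
          (∃ z ∈ A, (x, z) ∈ T1 ∪ T2) ∧ ∃ z ∈ B, (x, z) ∈ T1 ∪ T2).card : ℝ)) =
        ex p (R ×ˢ M) (fun T => Real.exp
          ((R.filter fun x => (∃ z ∈ A, (x, z) ∈ T) ∧ ∃ z ∈ B, (x, z) ∈ T).card : ℝ)) *
        (if (∃ z ∈ A, (w, z) ∈ T1) ∧ ∃ z ∈ B, (w, z) ∈ T1 then Real.exp 1 else 1) := by
      intro T1 hT1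
      rw [mul_comm, ← ex_mul_left]
      apply ex_congr
      intro T2 hT2
      have k1 : ∀ C : Finset α, ∀ x ∈ R, (∃ z ∈ C, (x, z) ∈ T1 ∪ T2) ↔ ∃ z ∈ C, (x, z) ∈ T2 := by
        intro C x hx
        constructor
        · rintro ⟨z, hz, h⟩
          rcases Finset.mem_union.1 h with h | h
          · have h4 : x = w := Finset.mem_singleton.1 (Finset.mem_product.1 (hT1 h)).1
            subst h4
            exact absurd hx hw
          · exact ⟨z, hz, h⟩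
        · rintro ⟨z, hz, h⟩
          exact ⟨z, hz, Finset.mem_union_right _ h⟩
      have k2 : ∀ C : Finset α, (∃ z ∈ C, (w, z) ∈ T1 ∪ T2) ↔ ∃ z ∈ C, (w, z) ∈ T1 := by
        intro C
        constructor
        · rintro ⟨z, hz, h⟩
          rcases Finset.mem_union.1 h with h | h
          · exact ⟨z, hz, h⟩
          · exact absurd (Finset.mem_product.1 (hT2 h)).1 hw
        · rintro ⟨z, hz, h⟩
          exact ⟨z, hz, Finset.mem_union_left _ h⟩
      have h3 : (R.filter fun x => (∃ z ∈ A, (x, z) ∈ T1 ∪ T2) ∧ ∃ z ∈ B, (x, z) ∈ T1 ∪ T2) =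
          R.filter fun x => (∃ z ∈ A, (x, z) ∈ T2) ∧ ∃ z ∈ B, (x, z) ∈ T2 := by
        apply Finset.filter_congr
        intro x hx
        rw [k1 A x hx, k1 B x hx]
      have h4 : ((∃ z ∈ A, (w, z) ∈ T1 ∪ T2) ∧ ∃ z ∈ B, (w, z) ∈ T1 ∪ T2) ↔
          ((∃ z ∈ A, (w, z) ∈ T1) ∧ ∃ z ∈ B, (w, z) ∈ T1) := by
        rw [k2 A, k2 B]
      by_cases h5 : (∃ z ∈ A, (w, z) ∈ T1) ∧ ∃ z ∈ B, (w, z) ∈ T1
      · rw [if_pos h5, Finset.filter_insert, if_pos (h4.2 h5), h3,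
          Finset.card_insert_of_notMem (fun h => hw (Finset.mem_filter.1 h).1)]
        push_cast
        rw [Real.exp_add, mul_comm]
      · rw [if_neg h5, Finset.filter_insert, if_neg (fun h => h5 (h4.1 h)), h3, one_mul]
    rw [ex_congr p h1, ex_mul_left, Finset.card_insert_of_notMem hw, pow_succ]
    have h0 : 0 ≤ ex p (({w} : Finset α) ×ˢ M) (fun T =>
      if (∃ z ∈ A, (w, z) ∈ T) ∧ ∃ z ∈ B, (w, z) ∈ T then Real.exp 1 else 1) :=
      ex_nonneg hp0 hp1 fun T _ => by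
        split_ifs
        · exact (Real.exp_pos _).le
        · exact zero_le_one
    exact mul_le_mul ih (QMG_row hp0 hp1 w M A B hA hB hAB (Real.exp 1) he1) h0
      (pow_nonneg hb0 _)

/-- QMG -/
theorem q_mgf {α : Type} [DecidableEq α] {p : ℝ} (hp0 : 0 ≤ p) (hp1 : p ≤ 1)
    (R FU FV : Finset α) :
    ex p (R ×ˢ (FU ∪ FV)) (fun T => Real.exp
      ((R.filter fun x => (∃ z ∈ FU \ FV, (x, z) ∈ T) ∧ ∃ z ∈ FV \ FU, (x, z) ∈ T).card : ℝ)) ≤
      Real.exp (2 * ((R.card : ℝ) * (p ^ 2 * ((FU.card : ℝ) * FV.card)))) := by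
  have hAB : Disjoint (FU \ FV) (FV \ FU) := by
    rw [Finset.disjoint_left]
    intro x h1 h2
    exact (Finset.mem_sdiff.1 h1).2 (Finset.mem_sdiff.1 h2).1
  refine (QMG_ind hp0 hp1 (FU ∪ FV) (FU \ FV) (FV \ FU)
    (Finset.sdiff_subset.trans Finset.subset_union_left)
    (Finset.sdiff_subset.trans Finset.subset_union_right) hAB R).trans ?_
  have he2 : Real.exp 1 - 1 ≤ 2 := by
    have := Real.exp_one_lt_d9
    linarith
  have he1 : (1 : ℝ) ≤ Real.exp 1 := Real.one_le_exp (by norm_num)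
  have hA : ((FU \ FV).card : ℝ) ≤ FU.card := by
    exact_mod_cast Finset.card_le_card Finset.sdiff_subset
  have hB : ((FV \ FU).card : ℝ) ≤ FV.card := by
    exact_mod_cast Finset.card_le_card Finset.sdiff_subset
  have hq : p ^ 2 * (((FU \ FV).card : ℝ) * (FV \ FU).card)
      ≤ p ^ 2 * ((FU.card : ℝ) * FV.card) :=
    mul_le_mul_of_nonneg_left (mul_le_mul hA hB (Nat.cast_nonneg _) (Nat.cast_nonneg _))
      (sq_nonneg p)
  have hq0 : 0 ≤ p ^ 2 * (((FU \ FV).card : ℝ) * (FV \ FU).card) := by positivity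
  have h1 : (Real.exp 1 - 1) * (p ^ 2 * (((FU \ FV).card : ℝ) * (FV \ FU).card))
      ≤ 2 * (p ^ 2 * ((FU.card : ℝ) * FV.card)) :=
    mul_le_mul he2 hq hq0 (by norm_num)
  have h2 : 1 + (Real.exp 1 - 1) * (p ^ 2 * (((FU \ FV).card : ℝ) * (FV \ FU).card))
      ≤ Real.exp (2 * (p ^ 2 * ((FU.card : ℝ) * FV.card))) := by
    have := Real.add_one_le_exp (2 * (p ^ 2 * ((FU.card : ℝ) * FV.card)))
    linarith
  have h3 : 0 ≤ 1 + (Real.exp 1 - 1) * (p ^ 2 * (((FU \ FV).card : ℝ) * (FV \ FU).card)) := by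
    have := mul_nonneg (sub_nonneg.2 he1) hq0
    linarith
  calc (1 + (Real.exp 1 - 1) * (p ^ 2 * (((FU \ FV).card : ℝ) * (FV \ FU).card))) ^ R.card
      ≤ Real.exp (2 * (p ^ 2 * ((FU.card : ℝ) * FV.card))) ^ R.card :=
        pow_le_pow_left₀ h3 h2 _
    _ = Real.exp (2 * ((R.card : ℝ) * (p ^ 2 * ((FU.card : ℝ) * FV.card)))) := by
        rw [← Real.exp_nat_mul]
        congr 1
        ring

end Pool.Agent.MDF
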