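import Pool.Agent.MDF.Defs2
import Pool.Agent.MDF.QMG
import Pool.Agent.MDF.CND
import Pool.Agent.MDF.NXT

set_option autoImplicit false

open scoped Classical

namespace Pool.Agent.MDF

open Finset Pool.Agent.MD437

variable {n : ℕ}

private lemma QBP_mk {T : Finset (Fin n × Fin n)} {x y : Fin n} :
    s(x, y) ∈ T.image mk ↔ (x, y) ∈ T ∨ (y, x) ∈ T := by
  rw [Finset.mem_image]
  constructor
  · rintro ⟨⟨a, b⟩, hab, h⟩
    have h' : s(a, b) = s(x, y) := h
    rw [Sym2.eq_iff] at h'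
    rcases h' with ⟨rfl, rfl⟩ | ⟨rfl, rfl⟩
    · exact Or.inl hab
    · exact Or.inr hab
  · rintro (h | h)
    · exact ⟨(x, y), h, rfl⟩
    · exact ⟨(y, x), h, Sym2.eq_swap⟩

private lemma QBP_ad (S : Finset (Sym2 (Fin n))) (u v : Fin n) (j : ℕ)
    (T : Finset (Fin n × Fin n)) (hT : T ⊆ rr S u v j ×ˢ (fu S u v j ∪ fv S u v j))
    {x z : Fin n} (hx : x ∈ rr S u v j) (hz : z ∈ fu S u v j ∪ fv S u v j) :
    ad (nw S u v j T) x z ↔ (x, z) ∈ T := by
  have hzr : z ∉ rr S u v j := fun h => Finset.disjoint_left.1 (rr_disj S u v j) h hz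
  have hne : x ≠ z := fun h => hzr (h ▸ hx)
  have hact : s(x, z) ∈ act S u v j := by
    unfold act
    rw [QBP_mk]
    exact Or.inl (Finset.mem_product.2 ⟨hx, hz⟩)
  unfold ad nw
  rw [Finset.mem_union, Finset.mem_sdiff, QBP_mk]
  constructor
  · rintro ⟨_, h | h | h⟩
    · exact absurd hact h.2
    · exact h
    · exact absurd (Finset.mem_product.1 (hT h)).1 hzr
  · intro h
    exact ⟨hne, Or.inr (Or.inl h)⟩

private lemma QBP_dd {S S' : Finset (Sym2 (Fin n))} {u v : Fin n} {j : ℕ}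
    (h : ∀ k ≤ j, bl S' u k = bl S u k ∧ bl S' v k = bl S v k) :
    dd S' u v j = dd S u v j := by
  cases j with
  | zero => rfl
  | succ j =>
    change uu S' u v j = uu S u v j
    unfold uu
    rw [(h j (Nat.le_succ j)).1, (h j (Nat.le_succ j)).2]

private lemma QBP_fu {S S' : Finset (Sym2 (Fin n))} {u v : Fin n} {j : ℕ}
    (h : ∀ k ≤ j, bl S' u k = bl S u k ∧ bl S' v k = bl S v k) :
    fu S' u v j = fu S u v j ∧ fv S' u v j = fv S u v j ∧ rr S' u v j = rr S u v j := by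
  unfold fu fv rr uu
  rw [QBP_dd h, (h j le_rfl).1, (h j le_rfl).2]
  exact ⟨rfl, rfl, rfl⟩

private lemma QBP_qb (S : Finset (Sym2 (Fin n))) (u v : Fin n) (j : ℕ)
    (T : Finset (Fin n × Fin n)) (hT : T ⊆ rr S u v j ×ˢ (fu S u v j ∪ fv S u v j)) :
    qb (nw S u v j T) u v j = ((rr S u v j).filter fun x =>
      (∃ z ∈ fu S u v j \ fv S u v j, (x, z) ∈ T) ∧
        ∃ z ∈ fv S u v j \ fu S u v j, (x, z) ∈ T).card := by
  obtain ⟨e1, e2, e3⟩ := QBP_fu (S := S) (S' := nw S u v j T) (u := u) (v := v) (j := j)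
    (fun k hk => nw_bl S u v j T hT k hk)
  unfold qb
  rw [e1, e2, e3]
  congr 1
  apply Finset.filter_congr
  intro x hx
  have a1 : ∀ z ∈ fu S u v j \ fv S u v j, (ad (nw S u v j T) x z ↔ (x, z) ∈ T) :=
    fun z hz => QBP_ad S u v j T hT hx (Finset.mem_union_left _ (Finset.mem_sdiff.1 hz).1)
  have a2 : ∀ z ∈ fv S u v j \ fu S u v j, (ad (nw S u v j T) x z ↔ (x, z) ∈ T) :=
    fun z hz => QBP_ad S u v j T hT hx (Finset.mem_union_right _ (Finset.mem_sdiff.1 hz).1)
  constructor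
  · rintro ⟨⟨z, hz, h⟩, w, hw, h'⟩
    exact ⟨⟨z, hz, (a1 z hz).1 h⟩, w, hw, (a2 w hw).1 h'⟩
  · rintro ⟨⟨z, hz, h⟩, w, hw, h'⟩
    exact ⟨⟨z, hz, (a1 z hz).2 h⟩, w, hw, (a2 w hw).2 h'⟩

/-- QBP -/
theorem qb_prob {p : ℝ} (hp0 : 0 ≤ p) (hp1 : p ≤ 1) (u v : Fin n) (j : ℕ) (μ κ : ℝ) :
    pr p (E n) (fun S => (n : ℝ) * (p ^ 2 * (((fu S u v j).card : ℝ) * (fv S u v j).card)) ≤ μ ∧
      κ ≤ (qb S u v j : ℝ)) ≤ Real.exp (2 * μ - κ) := by
  have h1 := cond_step hp0 hp1 u v j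
    (fun S => (n : ℝ) * (p ^ 2 * (((fu S u v j).card : ℝ) * (fv S u v j).card)) ≤ μ)
    (fun S => κ ≤ (qb S u v j : ℝ)) (Real.exp (2 * μ - κ)) (Real.exp_nonneg _)
    (by
      intro S S' h hS
      obtain ⟨e1, e2, _⟩ := QBP_fu h
      change (n : ℝ) * (p ^ 2 * (((fu S' u v j).card : ℝ) * (fv S' u v j).card)) ≤ μ
      rw [e1, e2]
      exact hS)
    (by
      intro S _ hS
      have hS' : (n : ℝ) * (p ^ 2 * (((fu S u v j).card : ℝ) * (fv S u v j).card)) ≤ μ := hS
      refine (pr_mono hp0 hp1 (R := fun T => κ ≤ ((((rr S u v j).filter fun x =>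
        (∃ z ∈ fu S u v j \ fv S u v j, (x, z) ∈ T) ∧
          ∃ z ∈ fv S u v j \ fu S u v j, (x, z) ∈ T).card : ℕ) : ℝ)) ?_).trans ?_
      · intro T hT h
        rw [QBP_qb S u v j T hT] at h
        exact h
      · refine (pr_exp hp0 hp1 _ _ _).trans ?_
        have h2 : ex p (rr S u v j ×ˢ (fu S u v j ∪ fv S u v j)) (fun T => Real.exp
              ((((rr S u v j).filter fun x => (∃ z ∈ fu S u v j \ fv S u v j, (x, z) ∈ T) ∧
                ∃ z ∈ fv S u v j \ fu S u v j, (x, z) ∈ T).card : ℕ) : ℝ)) ≤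
            Real.exp (2 * (((rr S u v j).card : ℝ) *
                (p ^ 2 * (((fu S u v j).card : ℝ) * (fv S u v j).card)))) := by
          refine le_trans (le_of_eq ?_) (q_mgf hp0 hp1 (rr S u v j) (fu S u v j) (fv S u v j))
          refine ex_congr p fun T _ => ?_
          refine congrArg (fun m : ℕ => Real.exp (m : ℝ)) ?_
          refine congrArg Finset.card ?_
          ext x
          simp only [Finset.mem_filter]
        have h3 : ((rr S u v j).card : ℝ) ≤ n := by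
          have h4 := Finset.card_le_univ (rr S u v j)
          rw [Fintype.card_fin] at h4
          exact_mod_cast h4
        have h5 : (0 : ℝ) ≤ p ^ 2 * (((fu S u v j).card : ℝ) * (fv S u v j).card) := by
          positivity
        have h6 := mul_le_mul_of_nonneg_right h3 h5
        calc Real.exp (-κ) * ex p (rr S u v j ×ˢ (fu S u v j ∪ fv S u v j)) (fun T => Real.exp
              ((((rr S u v j).filter fun x => (∃ z ∈ fu S u v j \ fv S u v j, (x, z) ∈ T) ∧
                ∃ z ∈ fv S u v j \ fu S u v j, (x, z) ∈ T).card : ℕ) : ℝ))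
            ≤ Real.exp (-κ) * Real.exp (2 * (((rr S u v j).card : ℝ) *
                (p ^ 2 * (((fu S u v j).card : ℝ) * (fv S u v j).card)))) :=
              mul_le_mul_of_nonneg_left h2 (Real.exp_nonneg _)
          _ ≤ Real.exp (2 * μ - κ) := by
              rw [← Real.exp_add]
              apply Real.exp_le_exp.2
              linarith)
  refine h1.trans ?_
  have h7 : pr p (E n)
      (fun S => (n : ℝ) * (p ^ 2 * (((fu S u v j).card : ℝ) * (fv S u v j).card)) ≤ μ) ≤ 1 := by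
    rw [pr_def]
    refine (ex_mono hp0 hp1 (g := fun _ => (1 : ℝ)) fun S _ => ?_).trans_eq (ex_const p _ 1)
    split_ifs
    · exact le_rfl
    · exact zero_le_one
  exact (mul_le_mul_of_nonneg_left h7 (Real.exp_nonneg _)).trans_eq (mul_one _)

end Pool.Agent.MDF
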