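import Pool.Agent.MDF.Defs2
import Pool.Agent.MDF.EBP
import Pool.Agent.MDF.QBP
import Pool.Agent.MDF.CMD
import Pool.Agent.MDF.DEG

set_option autoImplicit false

open scoped Classical

namespace Pool.Agent.MDF

open Finset Pool.Agent.MD437

variable {n : ℕ}

private lemma CMP_size (S : Finset (Sym2 (Fin n))) (D : ℝ) (hD : 0 ≤ D)
    (hdeg : ∀ u, ((nb S u).card : ℝ) ≤ D) (u v : Fin n) (j : ℕ) :
    ((fu S u v j).card : ℝ) * (fv S u v j).card ≤ (1 + D) ^ j * (1 + D) ^ j := by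
  have h1 : ((fu S u v j).card : ℝ) ≤ (1 + D) ^ j := by
    refine le_trans ?_ (bl_card_le S D hD hdeg u j)
    have : (fu S u v j).card ≤ (bl S u j).card := Finset.card_le_card Finset.sdiff_subset
    exact_mod_cast this
  have h2 : ((fv S u v j).card : ℝ) ≤ (1 + D) ^ j := by
    refine le_trans ?_ (bl_card_le S D hD hdeg v j)
    have : (fv S u v j).card ≤ (bl S v j).card := Finset.card_le_card Finset.sdiff_subset
    exact_mod_cast this
  exact mul_le_mul h1 h2 (Nat.cast_nonneg _) (by positivity)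

private lemma CMP_ind (S : Finset (Sym2 (Fin n))) (D : ℝ) (hD : 0 ≤ D) (κ : ℕ → ℝ) (i : ℕ)
    (hdeg : ∀ u, ((nb S u).card : ℝ) ≤ D) (u v : Fin n) (huv : u ≠ v)
    (he : ∀ j < i, (eb S u v j : ℝ) ≤ κ j) (hq : ∀ j < i, (qb S u v j : ℝ) ≤ κ j) (j : ℕ) :
    j ≤ i → ((cm S u v j).card : ℝ) ≤ cc D κ j := by
  induction j with
  | zero =>
    intro _
    rw [cm_zero S huv, Finset.card_empty, Nat.cast_zero]
    exact le_refl _
  | succ j ih =>
    intro hj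
    have h1 := cm_step S D hdeg u v j
    have h2 := ih (by omega)
    have h3 := he j (by omega)
    have h4 := hq j (by omega)
    have h5 : (1 + D) * ((cm S u v j).card : ℝ) ≤ (1 + D) * cc D κ j :=
      mul_le_mul_of_nonneg_left h2 (by linarith)
    have h6 : cc D κ (j + 1) = (1 + D) * cc D κ j + 3 * κ j := rfl
    rw [h6]
    linarith

/-- CMP -/
theorem cm_prob {p D : ℝ} (hp0 : 0 ≤ p) (hp1 : p ≤ 1) (hD : 0 ≤ D) (μ κ : ℕ → ℝ) (i : ℕ)
    (h1 : ∀ j < i, p * ((1 + D) ^ j * (1 + D) ^ j) ≤ μ j)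
    (h2 : ∀ j < i, (n : ℝ) * (p ^ 2 * ((1 + D) ^ j * (1 + D) ^ j)) ≤ μ j) :
    pr p (E n) (fun S => (∀ u, ((nb S u).card : ℝ) ≤ D) ∧ ¬ Gc (cc D κ) i S) ≤
      (n : ℝ) ^ 2 * ∑ j ∈ Finset.range i, 2 * Real.exp (2 * μ j - κ j) := by
  have hsub : ∀ S ⊆ E n, ((∀ u, ((nb S u).card : ℝ) ≤ D) ∧ ¬ Gc (cc D κ) i S) →
      ∃ k ∈ (Finset.univ : Finset (Fin n × Fin n)) ×ˢ Finset.range i,
        (p * (((fu S k.1.1 k.1.2 k.2).card : ℝ) * (fv S k.1.1 k.1.2 k.2).card) ≤ μ k.2 ∧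
          κ k.2 ≤ (eb S k.1.1 k.1.2 k.2 : ℝ)) ∨
        ((n : ℝ) * (p ^ 2 * (((fu S k.1.1 k.1.2 k.2).card : ℝ) *
          (fv S k.1.1 k.1.2 k.2).card)) ≤ μ k.2 ∧ κ k.2 ≤ (qb S k.1.1 k.1.2 k.2 : ℝ)) := by
    rintro S - ⟨hdeg, hG⟩
    by_contra hcon
    push Not at hcon
    apply hG
    intro u v huv
    have hsz := CMP_size S D hD hdeg u v
    have hk : ∀ j < i, (eb S u v j : ℝ) ≤ κ j ∧ (qb S u v j : ℝ) ≤ κ j := by
      intro j hj
      have h3 := hcon ((u, v), j) (Finset.mem_product.2 ⟨Finset.mem_univ _, Finset.mem_range.2 hj⟩)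
      refine ⟨(h3.1 ?_).le, (h3.2 ?_).le⟩
      · exact (mul_le_mul_of_nonneg_left (hsz j) hp0).trans (h1 j hj)
      · exact (mul_le_mul_of_nonneg_left (mul_le_mul_of_nonneg_left (hsz j) (by positivity))
          (Nat.cast_nonneg _)).trans (h2 j hj)
    intro j hj
    exact CMP_ind S D hD κ i hdeg u v huv (fun j hj => (hk j hj).1) (fun j hj => (hk j hj).2) j hj
  refine (pr_mono hp0 hp1 hsub).trans ((pr_union hp0 hp1 _ _ _).trans ?_)
  have h4 : ∀ k ∈ (Finset.univ : Finset (Fin n × Fin n)) ×ˢ Finset.range i,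
      pr p (E n) (fun S =>
        (p * (((fu S k.1.1 k.1.2 k.2).card : ℝ) * (fv S k.1.1 k.1.2 k.2).card) ≤ μ k.2 ∧
          κ k.2 ≤ (eb S k.1.1 k.1.2 k.2 : ℝ)) ∨
        ((n : ℝ) * (p ^ 2 * (((fu S k.1.1 k.1.2 k.2).card : ℝ) *
          (fv S k.1.1 k.1.2 k.2).card)) ≤ μ k.2 ∧ κ k.2 ≤ (qb S k.1.1 k.1.2 k.2 : ℝ))) ≤
      2 * Real.exp (2 * μ k.2 - κ k.2) := by
    intro k _
    refine (pr_or hp0 hp1 _ _ _).trans ?_
    have h5 := eb_prob hp0 hp1 k.1.1 k.1.2 k.2 (μ k.2) (κ k.2)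
    have h6 := qb_prob hp0 hp1 k.1.1 k.1.2 k.2 (μ k.2) (κ k.2)
    linarith
  refine (Finset.sum_le_sum h4).trans (le_of_eq ?_)
  rw [Finset.sum_product]
  dsimp only
  rw [Finset.sum_const, Finset.card_univ, Fintype.card_prod, Fintype.card_fin, nsmul_eq_mul]
  push_cast
  ring

end Pool.Agent.MDF
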