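import Pool.Agent.MDF.Defs
import Pool.Agent.MDF.CND
import Pool.Agent.MDF.NXT
import Pool.Agent.MDF.PSH

set_option autoImplicit false

open scoped Classical

namespace Pool.Agent.MDF

open Finset Pool.Agent.MD437

variable {n : ℕ}

lemma cnc_fu (S : Finset (Sym2 (Fin n))) (u : Fin n) (j : ℕ) : fu S u u j = sp S u j := by
  cases j with
  | zero => simp [fu, dd, bl, sp]
  | succ j => simp [fu, dd, uu, sp]

lemma cnc_fv (S : Finset (Sym2 (Fin n))) (u : Fin n) (j : ℕ) : fv S u u j = sp S u j := by
  cases j with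
  | zero => simp [fv, dd, bl, sp]
  | succ j => simp [fv, dd, uu, sp]

lemma cnc_sp {S S' : Finset (Sym2 (Fin n))} {u : Fin n} {j : ℕ}
    (h : ∀ k ≤ j, bl S' u k = bl S u k) : sp S' u j = sp S u j := by
  cases j with
  | zero => rfl
  | succ j =>
    change bl S' u (j + 1) \ bl S' u j = bl S u (j + 1) \ bl S u j
    rw [h (j + 1) le_rfl, h j (Nat.le_succ j)]

/-- CNC -/
theorem conn_one {p : ℝ} (hp0 : 0 ≤ p) (hp1 : p ≤ 1) (u : Fin n) (j m : ℕ) :
    pr p (E n) (fun S => m ≤ (sp S u j).card ∧ bl S u (j + 1) ≠ Finset.univ) ≤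
      n * (1 - p) ^ m := by
  have hq : 0 ≤ 1 - p := by linarith
  have hβ : 0 ≤ (n : ℝ) * (1 - p) ^ m := mul_nonneg (Nat.cast_nonneg _) (pow_nonneg hq _)
  have key := cond_step hp0 hp1 u u j (fun S => m ≤ (sp S u j).card)
    (fun S => bl S u (j + 1) ≠ Finset.univ) (n * (1 - p) ^ m) hβ ?_ ?_
  · refine key.trans ?_
    have h1 : pr p (E n) (fun S => m ≤ (sp S u j).card) ≤ 1 := by
      refine (pr_mono hp0 hp1 (R := fun _ => True) fun S _ _ => trivial).trans ?_
      rw [pr_def]
      simp only [if_true]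
      rw [ex_const]
    calc (n : ℝ) * (1 - p) ^ m * pr p (E n) (fun S => m ≤ (sp S u j).card)
        ≤ n * (1 - p) ^ m * 1 := mul_le_mul_of_nonneg_left h1 hβ
      _ = n * (1 - p) ^ m := mul_one _
  · intro S S' h hS
    rw [cnc_sp fun k hk => (h k hk).1]
    exact hS
  · intro S _ hm
    have hF : fu S u u j ∪ fv S u u j = sp S u j := by
      rw [cnc_fu, cnc_fv, Finset.union_self]
    have h1 : pr p (rr S u u j ×ˢ (fu S u u j ∪ fv S u u j))
        (fun T => bl (nw S u u j T) u (j + 1) ≠ Finset.univ) ≤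
        pr p (rr S u u j ×ˢ (fu S u u j ∪ fv S u u j))
          (fun T => ∃ w ∈ rr S u u j, Disjoint T ({w} ×ˢ (fu S u u j ∪ fv S u u j))) := by
      refine pr_mono hp0 hp1 fun T hT hne => ?_
      have h2 := nw_out S u u j T hT
      have h3 : (Finset.univ \ uu (nw S u u j T) u u (j + 1)).Nonempty := by
        rw [Finset.nonempty_iff_ne_empty]
        intro h
        apply hne
        rw [Finset.sdiff_eq_empty_iff_subset] at h
        unfold uu at h
        rw [Finset.union_self] at h
        exact Finset.univ_subset_iff.1 h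
      rw [h2] at h3
      obtain ⟨w, hw⟩ := h3
      rw [Finset.mem_filter] at hw
      refine ⟨w, hw.1, ?_⟩
      rw [Finset.disjoint_left]
      rintro ⟨a, b⟩ hab hab2
      rw [Finset.mem_product, Finset.mem_singleton] at hab2
      obtain ⟨ha, hb⟩ := hab2
      simp only at ha hb
      subst ha
      exact hw.2 b hb hab
    refine h1.trans ((pr_union hp0 hp1 _ _ _).trans ?_)
    have h4 : ∀ w ∈ rr S u u j, pr p (rr S u u j ×ˢ (fu S u u j ∪ fv S u u j))
        (fun T => Disjoint T ({w} ×ˢ (fu S u u j ∪ fv S u u j))) ≤ (1 - p) ^ m := by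
      intro w hw
      rw [pr_def, ex_miss p (Finset.product_subset_product_left
        (Finset.singleton_subset_iff.2 hw))]
      rw [Finset.card_product, Finset.card_singleton, one_mul, hF]
      exact pow_le_pow_of_le_one hq (by linarith) hm
    refine (Finset.sum_le_sum h4).trans ?_
    rw [Finset.sum_const, nsmul_eq_mul]
    refine mul_le_mul_of_nonneg_right ?_ (pow_nonneg hq _)
    have h5 : (rr S u u j).card ≤ n := by
      have := Finset.card_le_univ (rr S u u j)
      rwa [Fintype.card_fin] at this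
    exact_mod_cast h5

end Pool.Agent.MDF
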