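import Pool.Agent.MDF.Defs

set_option autoImplicit false

open scoped Classical

namespace Pool.Agent.MDF

open Finset Pool.Agent.MD437

variable {n : ℕ}

private theorem DST_adj {S : Finset (Sym2 (Fin n))} {u w : Fin n} :
    (gr S).Adj u w ↔ ad S u w := by
  unfold gr ad
  rw [SimpleGraph.fromEdgeSet_adj]
  exact and_comm

private theorem DST_shift {S : Finset (Sym2 (Fin n))} {u v : Fin n} (h : ad S u v) (j : ℕ) :
    bl S v j ⊆ bl S u (j + 1) := by
  induction j with
  | zero =>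
    intro w hw
    rw [mem_bl_zero.1 hw]
    exact mem_bl_succ.2 (Or.inr ⟨u, mem_bl_zero.2 rfl, h⟩)
  | succ j ih =>
    intro w hw
    rcases mem_bl_succ.1 hw with h1 | ⟨z, h1, h2⟩
    · exact mem_bl_succ.2 (Or.inl (ih h1))
    · exact mem_bl_succ.2 (Or.inr ⟨z, ih h1, h2⟩)

private theorem DST_walk {S : Finset (Sym2 (Fin n))} {u w : Fin n} (p : (gr S).Walk u w) :
    w ∈ bl S u p.length := by
  induction p with
  | nil => exact mem_bl_zero.2 rfl
  | cons h q ih => exact DST_shift (DST_adj.1 h) _ ih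

private theorem DST_bl {S : Finset (Sym2 (Fin n))} {u w : Fin n} {j : ℕ} :
    w ∈ bl S u j ↔ (gr S).Reachable u w ∧ (gr S).dist u w ≤ j := by
  constructor
  · intro h
    have key : ∀ j (w : Fin n), w ∈ bl S u j → ∃ p : (gr S).Walk u w, p.length ≤ j := by
      intro j
      induction j with
      | zero =>
        intro w hw
        rw [mem_bl_zero] at hw
        subst hw
        exact ⟨SimpleGraph.Walk.nil, le_rfl⟩
      | succ j ih =>
        intro w hw
        rcases mem_bl_succ.1 hw with h1 | ⟨z, h1, h2⟩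
        · obtain ⟨p, hp⟩ := ih w h1
          exact ⟨p, by omega⟩
        · obtain ⟨p, hp⟩ := ih z h1
          refine ⟨p.concat (DST_adj.2 h2), ?_⟩
          rw [SimpleGraph.Walk.length_concat]
          omega
    obtain ⟨p, hp⟩ := key j w h
    exact ⟨⟨p⟩, (SimpleGraph.dist_le p).trans hp⟩
  · rintro ⟨h1, h2⟩
    obtain ⟨p, hp⟩ := h1.exists_walk_length_eq_dist
    exact bl_mono (by omega) (DST_walk p)

/-- DST -/
theorem mem_sp_dist (S : Finset (Sym2 (Fin n))) (u w : Fin n) (j : ℕ) :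
    w ∈ sp S u j ↔ (gr S).Reachable u w ∧ (gr S).dist u w = j := by
  cases j with
  | zero =>
    have h : w ∈ sp S u 0 ↔ w ∈ bl S u 0 := Iff.rfl
    rw [h, DST_bl, Nat.le_zero]
  | succ j =>
    have h : w ∈ sp S u (j + 1) ↔ w ∈ bl S u (j + 1) ∧ w ∉ bl S u j := Finset.mem_sdiff
    rw [h, DST_bl, DST_bl]
    constructor
    · rintro ⟨⟨h1, h2⟩, h3⟩
      refine ⟨h1, ?_⟩
      by_contra h4
      exact h3 ⟨h1, by omega⟩
    · rintro ⟨h1, h2⟩
      exact ⟨⟨h1, h2.le⟩, fun h3 => by have := h3.2; omega⟩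

/-- DST -/
theorem gr_connected (hn : 0 < n) (S : Finset (Sym2 (Fin n))) (i : ℕ)
    (h : ∀ u, bl S u i = Finset.univ) : (gr S).Connected := by
  haveI : Nonempty (Fin n) := ⟨⟨0, hn⟩⟩
  refine ⟨fun u w => ?_⟩
  have hw : w ∈ bl S u i := by rw [h u]; exact Finset.mem_univ w
  exact (DST_bl.1 hw).1

/-- DST -/
theorem filter_dist (S : Finset (Sym2 (Fin n))) (hc : (gr S).Connected) (W : Finset (Fin n))
    (u : Fin n) (j : ℕ) : (W.filter fun w => (gr S).dist u w = j) = W ∩ sp S u j := by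
  ext w
  rw [Finset.mem_filter, Finset.mem_inter, mem_sp_dist]
  exact ⟨fun h => ⟨h.1, hc.preconnected u w, h.2⟩, fun h => ⟨h.1, h.2.2⟩⟩

end Pool.Agent.MDF
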