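import Pool.Agent.MD437.Uni

/-!
The multiset dimension of sparse random graphs is finite (MP_437110_pr): definitions.
-/

set_option autoImplicit false

open scoped Classical

namespace Pool.Agent.MDF

open Finset Pool.Agent.MD437

variable {n : ℕ}

/-- the ball of radius `j` around `u` in the graph with the edge set `S` -/
noncomputable def bl (S : Finset (Sym2 (Fin n))) (u : Fin n) : ℕ → Finset (Fin n)
  | 0 => {u}
  | j + 1 => Finset.univ.filter fun w => w ∈ bl S u j ∨ ∃ z ∈ bl S u j, ad S z w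

/-- the sphere of radius `j` around `u` -/
noncomputable def sp (S : Finset (Sym2 (Fin n))) (u : Fin n) : ℕ → Finset (Fin n)
  | 0 => {u}
  | j + 1 => bl S u (j + 1) \ bl S u j

/-- the union of the two balls of radius `j` -/
noncomputable def uu (S : Finset (Sym2 (Fin n))) (u v : Fin n) (j : ℕ) : Finset (Fin n) :=
  bl S u j ∪ bl S v j

/-- the explored vertices: all their edges have been looked at -/
noncomputable def dd (S : Finset (Sym2 (Fin n))) (u v : Fin n) : ℕ → Finset (Fin n)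
  | 0 => ∅
  | j + 1 => uu S u v j

/-- the vertices not reached -/
noncomputable def rr (S : Finset (Sym2 (Fin n))) (u v : Fin n) (j : ℕ) : Finset (Fin n) :=
  Finset.univ \ uu S u v j

/-- the active vertices of `u` -/
noncomputable def fu (S : Finset (Sym2 (Fin n))) (u v : Fin n) (j : ℕ) : Finset (Fin n) :=
  bl S u j \ dd S u v j

/-- the active vertices of `v` -/
noncomputable def fv (S : Finset (Sym2 (Fin n))) (u v : Fin n) (j : ℕ) : Finset (Fin n) :=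
  bl S v j \ dd S u v j

/-- the pair as an edge -/
def mk (q : Fin n × Fin n) : Sym2 (Fin n) := s(q.1, q.2)

/-- the edges between the vertices not reached and the active vertices -/
noncomputable def act (S : Finset (Sym2 (Fin n))) (u v : Fin n) (j : ℕ) :
    Finset (Sym2 (Fin n)) :=
  (rr S u v j ×ˢ (fu S u v j ∪ fv S u v j)).image mk

/-- the graph after the resampling of the edges of `act` -/
noncomputable def nw (S : Finset (Sym2 (Fin n))) (u v : Fin n) (j : ℕ)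
    (T : Finset (Fin n × Fin n)) : Finset (Sym2 (Fin n)) :=
  S \ act S u v j ∪ T.image mk

/-- the fraction of the sets `W` which do not separate `u` and `v` at the distances `1, …, i` -/
noncomputable def wf (S : Finset (Sym2 (Fin n))) (u v : Fin n) (i : ℕ) : ℝ :=
  pr (1 / 2) (Finset.univ : Finset (Fin n))
    fun W => ∀ j, 1 ≤ j → j ≤ i → (W ∩ sp S u j).card = (W ∩ sp S v j).card

/-- history event: sizes of the spheres up to level `J` -/
def HE (L : ℕ → ℝ) (m : ℕ → ℕ) (p N0 : ℝ) (S : Finset (Sym2 (Fin n))) (u v : Fin n)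
    (J : ℕ) : Prop :=
  (∀ k, 1 ≤ k → k ≤ J → |((sp S u k).card : ℝ) - (sp S v k).card| ≤ L k) ∧
    (∀ k ≤ J, m k ≤ (sp S u k \ bl S v k).card ∧ N0 ≤ ((Finset.univ \ uu S u v k).card : ℝ)) ∧
    ∀ k < J, 1 - (1 - p) ^ (sp S u k).card ≤ 1 / 2

/-- good graphs -/
def Gd (p D N0 : ℝ) (t : ℕ → ℝ) (m : ℕ → ℕ) (i : ℕ) (S : Finset (Sym2 (Fin n))) : Prop :=
  (∀ u, ((nb S u).card : ℝ) ≤ D) ∧
  (∀ u, ∀ j < i, |((sp S u (j + 1)).card : ℝ) -
    ((n : ℝ) - (bl S u j).card) * (1 - (1 - p) ^ (sp S u j).card)| ≤ t (j + 1)) ∧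
  (∀ u v, N0 ≤ ((Finset.univ \ uu S u v i).card : ℝ)) ∧
  (∀ u v, u ≠ v → ∀ k ≤ i, m k ≤ (sp S u k \ bl S v k).card) ∧
  ∀ u, bl S u (i + 1) = Finset.univ

/-- the numerical hypotheses -/
structure Hyp (n i : ℕ) (p d ν : ℝ) (t L V : ℕ → ℝ) (m : ℕ → ℕ) : Prop where
  hp0 : 0 ≤ p
  hp1 : p ≤ 1
  hn : 2 ≤ n
  hd : d = p * ((n - 1 : ℕ) : ℝ)
  hd1 : 1 ≤ d
  hi : 2 ≤ i
  hν : 0 < ν
  hν1 : ν ≤ 1
  hroom : 2 * (1 + 4 * d) ^ (i - 1) ≤ (n : ℝ) / 2
  hpow : ∀ s : ℕ, (s : ℝ) ≤ 2 * (1 + 4 * d) ^ (i - 1) → ν ≤ (1 - p) ^ s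
  hhalf : ∀ s : ℕ, (s : ℝ) ≤ (1 + 4 * d) ^ (i - 2) → 1 - (1 - p) ^ s ≤ 1 / 2
  hL : ∀ j, 1 ≤ j → j < i →
    2 * (3 * t (j + 1) + ∑ k ∈ Finset.range j, t (k + 1)) ≤ n * p * ν * L j
  hL0 : ∀ j, 0 ≤ L j
  ht : ∀ j < i, 0 < t (j + 1) ∧ t (j + 1) ≤ V j
  hV : ∀ j < i, ∀ s : ℕ, (s : ℝ) ≤ (1 + 4 * d) ^ j → (n : ℝ) * (1 - (1 - p) ^ s) ≤ V j
  hm0 : m 0 = 1
  hm : ∀ k < i, (m (k + 1) : ℝ) ≤ (1 - (1 - p) ^ (m k)) * (ν * n / 4) / 2
  hmpos : ∀ k ≤ i, 0 < m k

/-- the bound for one pair of vertices -/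
noncomputable def pb (n i : ℕ) (p d ν : ℝ) (t L : ℕ → ℝ) (m : ℕ → ℕ) : ℝ :=
  ∑ j ∈ Finset.range i, 2 * Real.exp (-(t (j + 1) ^ 2 / (16 * (1 + 4 * d) ^ (j + 1)))) +
    (∏ k ∈ Finset.range (i - 1), (4 * (2 * L (k + 1) + 1) /
      √((1 - (1 - p) ^ (m k)) * (ν * n / 4)))) *
      ∏ k ∈ Finset.range i, (1 / √(m (k + 1) : ℝ))

/-- the bound for the graphs which are not good -/
noncomputable def gb (n i : ℕ) (p d ν : ℝ) (t V : ℕ → ℝ) (m : ℕ → ℕ) : ℝ :=
  n * Real.exp (-(2 * d)) +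
    n * ∑ j ∈ Finset.range i, 2 * Real.exp (-(t (j + 1) ^ 2 / (4 * V j))) +
    (n : ℝ) ^ 2 * (2 * Real.exp (-(ν ^ 2 * n / 32))) +
    (n : ℝ) ^ 2 * ∑ k ∈ Finset.range i,
      2 * Real.exp (-((1 - (1 - p) ^ (m k)) * (ν * n / 4) / 16)) +
    n * (n * (1 - p) ^ (m i))

/-- `(n - 1) p` -/
noncomputable def dN (x : ℝ) (n : ℕ) : ℝ := (n : ℝ) ^ x

/-- the edge probability -/
noncomputable def pN (x : ℝ) (n : ℕ) : ℝ := (n : ℝ) ^ x / ((n : ℝ) - 1)

/-- a constant -/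
noncomputable def nuN (i : ℕ) : ℝ := Real.exp (-(8 * 5 ^ i))

/-- a constant -/
noncomputable def cN (i : ℕ) : ℝ := nuN i / 128

/-- the deviations of the sizes of the spheres -/
noncomputable def tN (x ε : ℝ) (n j : ℕ) : ℝ := (n : ℝ) ^ (ε + x * j / 2)

/-- the smaller deviations -/
noncomputable def LN (x ε : ℝ) (i n j : ℕ) : ℝ :=
  2 * (3 + i) / nuN i * (n : ℝ) ^ (ε + x * ((j : ℝ) - 1) / 2)

/-- the variances -/
noncomputable def VN (x : ℝ) (n j : ℕ) : ℝ := 2 * 5 ^ j * dN x n ^ (j + 1)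

/-- lower bounds for the sizes of the spheres -/
noncomputable def mN (x : ℝ) (i n k : ℕ) : ℕ := ⌊(cN i * dN x n) ^ k⌋₊

/-- graph of an edge set -/
def gr (S : Finset (Sym2 (Fin n))) : SimpleGraph (Fin n) :=
  SimpleGraph.fromEdgeSet (S : Set (Sym2 (Fin n)))

/-! ### basic facts -/

lemma mem_bl_zero {S : Finset (Sym2 (Fin n))} {u w : Fin n} : w ∈ bl S u 0 ↔ w = u := by
  simp [bl]

lemma mem_bl_succ {S : Finset (Sym2 (Fin n))} {u w : Fin n} {j : ℕ} :
    w ∈ bl S u (j + 1) ↔ w ∈ bl S u j ∨ ∃ z ∈ bl S u j, ad S z w := by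
  simp [bl]

lemma bl_mono {S : Finset (Sym2 (Fin n))} {u : Fin n} {j k : ℕ} (h : j ≤ k) :
    bl S u j ⊆ bl S u k := by
  induction h with
  | refl => exact Finset.Subset.refl _
  | step _ ih => exact ih.trans fun w hw => mem_bl_succ.2 (Or.inl hw)

lemma self_mem_bl (S : Finset (Sym2 (Fin n))) (u : Fin n) (j : ℕ) : u ∈ bl S u j :=
  bl_mono (Nat.zero_le j) (mem_bl_zero.2 rfl)

lemma uu_mono {S : Finset (Sym2 (Fin n))} {u v : Fin n} {j k : ℕ} (h : j ≤ k) :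
    uu S u v j ⊆ uu S u v k :=
  Finset.union_subset_union (bl_mono h) (bl_mono h)

lemma sp_subset {S : Finset (Sym2 (Fin n))} {u : Fin n} {j : ℕ} : sp S u j ⊆ bl S u j := by
  cases j with
  | zero => exact Finset.Subset.refl _
  | succ j => exact Finset.sdiff_subset

lemma sp_disj_bl {S : Finset (Sym2 (Fin n))} {u : Fin n} {j k : ℕ} (h : j < k) :
    Disjoint (sp S u k) (bl S u j) := by
  cases k with
  | zero => omega
  | succ k =>
    rw [Finset.disjoint_left]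
    intro w hw hw2
    exact (Finset.mem_sdiff.1 hw).2 (bl_mono (by omega) hw2)

lemma sp_disj {S : Finset (Sym2 (Fin n))} {u : Fin n} {j k : ℕ} (h : j ≠ k) :
    Disjoint (sp S u j) (sp S u k) := by
  rcases Nat.lt_or_gt_of_ne h with h | h
  · exact ((sp_disj_bl h).mono_right sp_subset).symm
  · exact (sp_disj_bl h).mono_right sp_subset

lemma mem_bl_iff {S : Finset (Sym2 (Fin n))} {u w : Fin n} {j : ℕ} :
    w ∈ bl S u j ↔ ∃ k ≤ j, w ∈ sp S u k := by
  induction j with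
  | zero => simp [bl, sp]
  | succ j ih =>
    constructor
    · intro h
      by_cases h2 : w ∈ bl S u j
      · obtain ⟨k, hk, hw⟩ := ih.1 h2
        exact ⟨k, by omega, hw⟩
      · exact ⟨j + 1, le_rfl, Finset.mem_sdiff.2 ⟨h, h2⟩⟩
    · rintro ⟨k, hk, hw⟩
      exact bl_mono hk (sp_subset hw)

lemma card_bl (S : Finset (Sym2 (Fin n))) (u : Fin n) (j : ℕ) :
    (bl S u j).card = ∑ k ∈ Finset.range (j + 1), (sp S u k).card := by
  induction j with
  | zero => simp [bl, sp]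
  | succ j ih =>
    rw [Finset.sum_range_succ, ← ih]
    have h : bl S u j ⊆ bl S u (j + 1) := bl_mono (Nat.le_succ j)
    have h2 : (sp S u (j + 1)).card = (bl S u (j + 1)).card - (bl S u j).card :=
      Finset.card_sdiff_of_subset h
    have h3 := Finset.card_le_card h
    omega

lemma fu_sdiff_fv (S : Finset (Sym2 (Fin n))) (u v : Fin n) (j : ℕ) :
    fu S u v j \ fv S u v j = sp S u j \ bl S v j := by
  ext w
  cases j with
  | zero => simp [fu, fv, dd, bl, sp]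
  | succ j =>
    have h1 : w ∈ bl S v j → w ∈ bl S v (j + 1) := fun h => bl_mono (Nat.le_succ j) h
    simp only [fu, fv, dd, uu, sp, Finset.mem_sdiff, Finset.mem_union]
    tauto

lemma rr_disj (S : Finset (Sym2 (Fin n))) (u v : Fin n) (j : ℕ) :
    Disjoint (rr S u v j) (fu S u v j ∪ fv S u v j) := by
  rw [Finset.disjoint_left]
  intro w hw hw2
  simp only [rr, uu, fu, fv, Finset.mem_sdiff, Finset.mem_union, Finset.mem_univ, true_and]
    at hw hw2
  tauto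

end Pool.Agent.MDF
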