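import Pool.Agent.MDF.Defs

/-!
The multiset dimension of sparse random graphs is finite (MP_437110_pr): definitions for the
alteration.
-/

set_option autoImplicit false

open scoped Classical

namespace Pool.Agent.MDF

open Finset Pool.Agent.MD437

variable {n : ℕ}

/-- near: the numbers of elements of `W` at distance `j` differ by at most `B`, `1 ≤ j ≤ i` -/
def Nr (S : Finset (Sym2 (Fin n))) (W : Finset (Fin n)) (i B : ℕ) (u v : Fin n) : Prop :=
  ∀ j, 1 ≤ j → j ≤ i → |((W ∩ sp S u j).card : ℤ) - ((W ∩ sp S v j).card : ℤ)| ≤ (B : ℤ)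

/-- the fraction of the sets `W` for which `u, v` are near -/
noncomputable def wn (S : Finset (Sym2 (Fin n))) (u v : Fin n) (i B : ℕ) : ℝ :=
  pr (1 / 2) (Finset.univ : Finset (Fin n)) fun W => Nr S W i B u v

/-- the fraction of the sets `W` for which `u, v` and `u, v'` are near -/
noncomputable def wt (S : Finset (Sym2 (Fin n))) (u v v' : Fin n) (i B : ℕ) : ℝ :=
  pr (1 / 2) (Finset.univ : Finset (Fin n)) fun W => Nr S W i B u v ∧ Nr S W i B u v'

/-- the common part of two balls -/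
noncomputable def cm (S : Finset (Sym2 (Fin n))) (u v : Fin n) (j : ℕ) : Finset (Fin n) :=
  bl S u j ∩ bl S v j

/-- the number of edges between the private active sets -/
noncomputable def eb (S : Finset (Sym2 (Fin n))) (u v : Fin n) (j : ℕ) : ℕ :=
  (((fu S u v j \ fv S u v j) ×ˢ (fv S u v j \ fu S u v j)).filter
    fun q => ad S q.1 q.2).card

/-- the number of vertices not reached which are joined to both private active sets -/
noncomputable def qb (S : Finset (Sym2 (Fin n))) (u v : Fin n) (j : ℕ) : ℕ :=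
  ((rr S u v j).filter fun x => (∃ z ∈ fu S u v j \ fv S u v j, ad S x z) ∧
    ∃ z ∈ fv S u v j \ fu S u v j, ad S x z).card

/-- the common parts are small -/
def Gc (c : ℕ → ℝ) (i : ℕ) (S : Finset (Sym2 (Fin n))) : Prop :=
  ∀ u v, u ≠ v → ∀ j ≤ i, ((cm S u v j).card : ℝ) ≤ c j

/-- the bound for the expected fraction of near pairs -/
noncomputable def pb2 (n i B : ℕ) (p d ν : ℝ) (t L : ℕ → ℝ) (m : ℕ → ℕ) : ℝ :=
  ∑ j ∈ Finset.range i, 2 * Real.exp (-(t (j + 1) ^ 2 / (64 * (1 + 4 * d) ^ (j + 1)))) +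
    (∏ k ∈ Finset.range (i - 1), (4 * (2 * L (k + 1) + 1) /
      √((1 - (1 - p) ^ (m k)) * (ν * n / 4)))) *
      ((2 * B + 1) ^ i * ∏ k ∈ Finset.range i, (1 / √(m (k + 1) : ℝ)))

/-- the bound for the expected fraction of near triples -/
noncomputable def pb3 (n i B : ℕ) (p d ν : ℝ) (t L : ℕ → ℝ) (m m' : ℕ → ℕ) : ℝ :=
  ∑ j ∈ Finset.range i, 2 * Real.exp (-(t (j + 1) ^ 2 / (64 * (1 + 4 * d) ^ (j + 1)))) +
    (∏ k ∈ Finset.range (i - 1), (4 * (2 * L (k + 1) + 1) /
      √((1 - (1 - p) ^ (m k)) * (ν * n / 4)))) *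
      ((2 * B + 1) ^ (2 * i) * ∏ k ∈ Finset.range i, (1 / (m' (k + 1) : ℝ)))

/-- bounds for the common parts of the balls -/
noncomputable def cc (D : ℝ) (κ : ℕ → ℝ) : ℕ → ℝ
  | 0 => 0
  | j + 1 => (1 + D) * cc D κ j + 3 * κ j

/-- the means -/
noncomputable def muN (x : ℝ) (n j : ℕ) : ℝ := 4 * 25 ^ j * dN x n ^ (2 * j + 2) / n

/-- the bounds for the new common vertices -/
noncomputable def kaN (x δ : ℝ) (n j : ℕ) : ℝ := 2 * muN x n j + (n : ℝ) ^ δ

/-- bounds for the common parts of the balls -/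
noncomputable def ccN (x δ : ℝ) (n j : ℕ) : ℝ := cc (4 * dN x n) (kaN x δ n) j

/-- half of `mN` -/
noncomputable def mhN (x : ℝ) (i n k : ℕ) : ℕ := mN x i n k / 2

end Pool.Agent.MDF
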