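import Pool.Agent.MDF.Defs2

set_option autoImplicit false

open scoped Classical

namespace Pool.Agent.MDF

open Finset Pool.Agent.MD437

variable {n : ℕ}

/-- EXW -/
theorem exists_W (S : Finset (Sym2 (Fin n))) (i B : ℕ) (T0 : ℝ) (hT0 : 0 < T0)
    (h1 : ∑ u : Fin n, ∑ v : Fin n, (if u ≠ v then wn S u v i B else 0) ≤ T0 / 3)
    (h2 : ∑ u : Fin n, ∑ v : Fin n, ∑ v' : Fin n,
      (if u ≠ v ∧ u ≠ v' ∧ v ≠ v' then wt S u v v' i B else 0) ≤ 1 / 3) :
    ∃ W : Finset (Fin n),
      ((Finset.univ.filter fun q : Fin n × Fin n => q.1 ≠ q.2 ∧ Nr S W i B q.1 q.2).card : ℝ) ≤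
        T0 ∧ ∀ u v v', u ≠ v → u ≠ v' → v ≠ v' → ¬ (Nr S W i B u v ∧ Nr S W i B u v') := by
  by_contra hne
  push Not at hne
  let f : Finset (Fin n) → ℝ := fun W =>
    ∑ u : Fin n, ∑ v : Fin n, (if u ≠ v then (if Nr S W i B u v then (1 : ℝ) else 0) else 0)
  let g : Finset (Fin n) → ℝ := fun W =>
    ∑ u : Fin n, ∑ v : Fin n, ∑ v' : Fin n, (if u ≠ v ∧ u ≠ v' ∧ v ≠ v' then
      (if Nr S W i B u v ∧ Nr S W i B u v' then (1 : ℝ) else 0) else 0)
  have hf0 : ∀ W, 0 ≤ f W := fun W => Finset.sum_nonneg fun u _ => Finset.sum_nonneg fun v _ => by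
    split_ifs <;> norm_num
  have hg0 : ∀ W, 0 ≤ g W := fun W => Finset.sum_nonneg fun u _ => Finset.sum_nonneg fun v _ =>
    Finset.sum_nonneg fun v' _ => by split_ifs <;> norm_num
  have hfc : ∀ W, f W = ((Finset.univ.filter fun q : Fin n × Fin n =>
      q.1 ≠ q.2 ∧ Nr S W i B q.1 q.2).card : ℝ) := by
    intro W
    show ∑ u : Fin n, ∑ v : Fin n, (if u ≠ v then (if Nr S W i B u v then (1 : ℝ) else 0) else 0) = _
    rw [← Finset.sum_product', Finset.univ_product_univ, Finset.card_filter]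
    push_cast
    refine Finset.sum_congr rfl fun q _ => ?_
    by_cases hq : q.1 ≠ q.2
    · by_cases hN : Nr S W i B q.1 q.2
      · rw [if_pos hq, if_pos hN, if_pos ⟨hq, hN⟩]
      · rw [if_pos hq, if_neg hN, if_neg fun h => hN h.2]
    · rw [if_neg hq, if_neg fun h => hq h.1]
  have hpt : ∀ W, (1 : ℝ) ≤ (1 / T0) * f W + g W := by
    intro W
    by_cases hle : f W ≤ T0
    · rw [hfc W] at hle
      obtain ⟨u, v, v', huv, huv', hvv', hN⟩ := hne W hle
      have hg1 : 1 ≤ g W := by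
        have e1 : ∀ a b c : Fin n, (0 : ℝ) ≤ (if a ≠ b ∧ a ≠ c ∧ b ≠ c then
            (if Nr S W i B a b ∧ Nr S W i B a c then (1 : ℝ) else 0) else 0) := by
          intro a b c
          split_ifs <;> norm_num
        have e2 : (1 : ℝ) ≤ ∑ c : Fin n, (if u ≠ v ∧ u ≠ c ∧ v ≠ c then
            (if Nr S W i B u v ∧ Nr S W i B u c then (1 : ℝ) else 0) else 0) := by
          refine le_trans ?_ (Finset.single_le_sum (fun c _ => e1 u v c) (Finset.mem_univ v'))
          rw [if_pos ⟨huv, huv', hvv'⟩, if_pos hN]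
        have e3 : (1 : ℝ) ≤ ∑ b : Fin n, ∑ c : Fin n, (if u ≠ b ∧ u ≠ c ∧ b ≠ c then
            (if Nr S W i B u b ∧ Nr S W i B u c then (1 : ℝ) else 0) else 0) :=
          le_trans e2 (Finset.single_le_sum (f := fun b => ∑ c : Fin n,
            (if u ≠ b ∧ u ≠ c ∧ b ≠ c then
            (if Nr S W i B u b ∧ Nr S W i B u c then (1 : ℝ) else 0) else 0))
            (fun b _ => Finset.sum_nonneg fun c _ => e1 u b c) (Finset.mem_univ v))
        exact le_trans e3 (Finset.single_le_sum (f := fun a => ∑ b : Fin n, ∑ c : Fin n,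
            (if a ≠ b ∧ a ≠ c ∧ b ≠ c then
            (if Nr S W i B a b ∧ Nr S W i B a c then (1 : ℝ) else 0) else 0))
            (fun a _ => Finset.sum_nonneg fun b _ => Finset.sum_nonneg fun c _ => e1 a b c)
            (Finset.mem_univ u))
      have := mul_nonneg (by positivity : (0 : ℝ) ≤ 1 / T0) (hf0 W)
      linarith
    · push Not at hle
      have e1 : 1 ≤ (1 / T0) * f W := by
        rw [one_div, inv_mul_eq_div, le_div_iff₀ hT0, one_mul]
        exact hle.le
      linarith [hg0 W]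
  have hex : (1 : ℝ) ≤ ex (1 / 2) (Finset.univ : Finset (Fin n)) (fun W => (1 / T0) * f W + g W) := by
    have e0 : ex (1 / 2) (Finset.univ : Finset (Fin n)) (fun _ => (1 : ℝ)) = 1 :=
      ex_const (1 / 2) (Finset.univ : Finset (Fin n)) (1 : ℝ)
    have e1 : ex (1 / 2) (Finset.univ : Finset (Fin n)) (fun _ => (1 : ℝ)) ≤
        ex (1 / 2) (Finset.univ : Finset (Fin n)) (fun W => (1 / T0) * f W + g W) :=
      ex_mono (by norm_num) (by norm_num) fun W _ => hpt W
    rwa [e0] at e1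
  rw [ex_add, ex_mul_left] at hex
  have hF : ex (1 / 2) (Finset.univ : Finset (Fin n)) f =
      ∑ u : Fin n, ∑ v : Fin n, (if u ≠ v then wn S u v i B else 0) := by
    show ex (1 / 2) (Finset.univ : Finset (Fin n)) (fun W => ∑ u : Fin n, ∑ v : Fin n,
      (if u ≠ v then (if Nr S W i B u v then (1 : ℝ) else 0) else 0)) = _
    rw [ex_sum]
    refine Finset.sum_congr rfl fun u _ => ?_
    rw [ex_sum]
    refine Finset.sum_congr rfl fun v _ => ?_
    by_cases huv : u ≠ v
    · simp only [if_pos huv]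
      unfold wn
      rw [pr_def]
    · simp only [if_neg huv]
      exact ex_const _ _ _
  have hG : ex (1 / 2) (Finset.univ : Finset (Fin n)) g =
      ∑ u : Fin n, ∑ v : Fin n, ∑ v' : Fin n,
      (if u ≠ v ∧ u ≠ v' ∧ v ≠ v' then wt S u v v' i B else 0) := by
    show ex (1 / 2) (Finset.univ : Finset (Fin n)) (fun W => ∑ u : Fin n, ∑ v : Fin n,
      ∑ v' : Fin n, (if u ≠ v ∧ u ≠ v' ∧ v ≠ v' then
      (if Nr S W i B u v ∧ Nr S W i B u v' then (1 : ℝ) else 0) else 0)) = _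
    rw [ex_sum]
    refine Finset.sum_congr rfl fun u _ => ?_
    rw [ex_sum]
    refine Finset.sum_congr rfl fun v _ => ?_
    rw [ex_sum]
    refine Finset.sum_congr rfl fun v' _ => ?_
    by_cases huv : u ≠ v ∧ u ≠ v' ∧ v ≠ v'
    · simp only [if_pos huv]
      unfold wt
      rw [pr_def]
    · simp only [if_neg huv]
      exact ex_const _ _ _
  rw [hF, hG] at hex
  have h4 : (1 / T0) * ∑ u : Fin n, ∑ v : Fin n, (if u ≠ v then wn S u v i B else 0) ≤
      (1 / T0) * (T0 / 3) := mul_le_mul_of_nonneg_left h1 (by positivity)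
  have h5 : (1 / T0) * (T0 / 3) = 1 / 3 := by field_simp
  linarith

end Pool.Agent.MDF
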