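import Pool.Agent.MDF.Defs
import Pool.Agent.MDF.PSH
import Pool.Agent.MDF.CHE

set_option autoImplicit false

open scoped Classical

namespace Pool.Agent.MDF

open Finset Pool.Agent.MD437

variable {n : ℕ}

private lemma LBB_inner {α : Type} [DecidableEq α] {p : ℝ} (hp0 : 0 ≤ p) (hp1 : p ≤ 1)
    (R FU FV : Finset α) (N0 : ℝ) (T1 : Finset (α × α)) (hT1 : T1 ⊆ R ×ˢ FV) :
    pr p (R ×ˢ (FU \ FV)) (fun T2 =>
      ((R.filter fun w => (∃ z ∈ FU, (w, z) ∈ T1 ∪ T2) ∧ ∀ z ∈ FV, (w, z) ∉ T1 ∪ T2).card : ℝ) <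
        (1 - (1 - p) ^ (FU \ FV).card) * N0 / 2 ∧
      N0 ≤ ((R.filter fun w => ∀ z ∈ FU ∪ FV, (w, z) ∉ T1 ∪ T2).card : ℝ)) ≤
      2 * Real.exp (-((1 - (1 - p) ^ (FU \ FV).card) * N0 / 16)) := by
  have hq0 : 0 ≤ 1 - p := by linarith
  have hq1 : 1 - p ≤ 1 := by linarith
  have hr0 : 0 ≤ 1 - (1 - p) ^ (FU \ FV).card := by
    have := pow_le_one₀ (n := (FU \ FV).card) hq0 hq1
    linarith
  have hr1 : 1 - (1 - p) ^ (FU \ FV).card ≤ 1 := by
    have := pow_nonneg hq0 (FU \ FV).card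
    linarith
  set M := FU \ FV with hM
  set r := 1 - (1 - p) ^ M.card with hrdef
  set R' := R.filter (fun w => ∀ z ∈ FV, (w, z) ∉ T1) with hR'
  have hR'sub : R' ⊆ R := Finset.filter_subset _ _
  have h1 : ∀ T2 ⊆ R ×ˢ M,
      (R.filter fun w => (∃ z ∈ FU, (w, z) ∈ T1 ∪ T2) ∧ ∀ z ∈ FV, (w, z) ∉ T1 ∪ T2) =
      (R'.filter fun w => ∃ z ∈ M, (w, z) ∈ T2) := by
    intro T2 hT2
    ext w
    simp only [Finset.mem_filter, Finset.mem_union, hR']
    constructor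
    · rintro ⟨hw, ⟨z, hz, h⟩, h2⟩
      refine ⟨⟨hw, fun z hz h => h2 z hz (Or.inl h)⟩, ?_⟩
      rcases h with h | h
      · exact absurd (Or.inl h) (h2 z (Finset.mem_product.1 (hT1 h)).2)
      · exact ⟨z, (Finset.mem_product.1 (hT2 h)).2, h⟩
    · rintro ⟨⟨hw, h2⟩, z, hz, h⟩
      refine ⟨hw, ⟨z, (Finset.mem_sdiff.1 hz).1, Or.inr h⟩, fun y hy h3 => ?_⟩
      rcases h3 with h3 | h3
      · exact h2 y hy h3
      · exact (Finset.mem_sdiff.1 (Finset.mem_product.1 (hT2 h3)).2).2 hy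
  have h3 : ∀ T2 ⊆ R ×ˢ M, (R.filter fun w => ∀ z ∈ FU ∪ FV, (w, z) ∉ T1 ∪ T2) ⊆ R' := by
    intro T2 hT2 w hw
    rw [Finset.mem_filter] at hw
    rw [hR', Finset.mem_filter]
    refine ⟨hw.1, fun z hz h => ?_⟩
    exact hw.2 z (Finset.mem_union_right _ hz) (Finset.mem_union_left _ h)
  by_cases hN : N0 ≤ (R'.card : ℝ)
  · have hrN : r * N0 ≤ r * R'.card := mul_le_mul_of_nonneg_left hN hr0
    have hrR : 0 ≤ r * (R'.card : ℝ) := mul_nonneg hr0 (Nat.cast_nonneg _)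
    have step1 : pr p (R ×ˢ M) (fun T2 =>
        ((R.filter fun w => (∃ z ∈ FU, (w, z) ∈ T1 ∪ T2) ∧
          ∀ z ∈ FV, (w, z) ∉ T1 ∪ T2).card : ℝ) < r * N0 / 2 ∧
        N0 ≤ ((R.filter fun w => ∀ z ∈ FU ∪ FV, (w, z) ∉ T1 ∪ T2).card : ℝ)) ≤
        pr p (R ×ˢ M) (fun T2 => r * R'.card / 2 ≤
          |((R'.filter fun w => ∃ z ∈ M, (w, z) ∈ T2).card : ℝ) - r * R'.card|) := by
      refine pr_mono hp0 hp1 fun T2 hT2 h => ?_
      have h4 := h.1
      rw [h1 T2 hT2] at h4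
      rw [abs_sub_comm]
      refine le_trans ?_ (le_abs_self _)
      linarith
    have hdis : Disjoint (R' ×ˢ M) ((R \ R') ×ˢ M) := by
      rw [Finset.disjoint_left]
      intro q hq hq2
      exact (Finset.mem_sdiff.1 (Finset.mem_product.1 hq2).1).2 (Finset.mem_product.1 hq).1
    have hun : R ×ˢ M = R' ×ˢ M ∪ (R \ R') ×ˢ M := by
      rw [← Finset.union_product, Finset.union_sdiff_of_subset hR'sub]
    have step2 : pr p (R ×ˢ M) (fun T2 => r * R'.card / 2 ≤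
          |((R'.filter fun w => ∃ z ∈ M, (w, z) ∈ T2).card : ℝ) - r * R'.card|) =
        pr r R' (fun Y => r * R'.card / 2 ≤ |(Y.card : ℝ) - r * R'.card|) := by
      rw [pr_def, pr_def, hun, ex_union p hdis]
      rw [← push p R' M (fun Y =>
        if r * R'.card / 2 ≤ |(Y.card : ℝ) - r * R'.card| then (1 : ℝ) else 0)]
      refine ex_congr p fun S hS => ?_
      refine (ex_congr p fun T hT => ?_).trans (ex_const p ((R \ R') ×ˢ M) _)
      have e : (R'.filter fun w => ∃ z ∈ M, (w, z) ∈ S ∪ T) =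
          (R'.filter fun w => ∃ z ∈ M, (w, z) ∈ S) := by
        ext w
        simp only [Finset.mem_filter, Finset.mem_union]
        constructor
        · rintro ⟨hw, z, hz, h | h⟩
          · exact ⟨hw, z, hz, h⟩
          · exact absurd hw (Finset.mem_sdiff.1 (Finset.mem_product.1 (hT h)).1).2
        · rintro ⟨hw, z, hz, h⟩
          exact ⟨hw, z, hz, Or.inl h⟩
      rw [e]
    have hb := bin_tail r hr0 hr1 R' (r * R'.card) (r * R'.card / 2) le_rfl (by linarith)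
      (by linarith)
    refine ((step1.trans step2.le).trans hb).trans ?_
    have he : (r * (R'.card : ℝ) / 2) ^ 2 / (4 * (r * R'.card)) = r * R'.card / 16 := by
      rcases hrR.eq_or_lt with h0 | h0
      · rw [← h0]; norm_num
      · field_simp; ring
    rw [he]
    refine mul_le_mul_of_nonneg_left (Real.exp_le_exp.2 ?_) (by norm_num)
    linarith
  · have hz : pr p (R ×ˢ M) (fun T2 =>
        ((R.filter fun w => (∃ z ∈ FU, (w, z) ∈ T1 ∪ T2) ∧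
          ∀ z ∈ FV, (w, z) ∉ T1 ∪ T2).card : ℝ) < r * N0 / 2 ∧
        N0 ≤ ((R.filter fun w => ∀ z ∈ FU ∪ FV, (w, z) ∉ T1 ∪ T2).card : ℝ)) = 0 := by
      rw [pr_def]
      refine (ex_congr p fun T2 hT2 => ?_).trans (ex_const p (R ×ˢ M) 0)
      rw [if_neg]
      rintro ⟨-, h5⟩
      have h6 : ((R.filter fun w => ∀ z ∈ FU ∪ FV, (w, z) ∉ T1 ∪ T2).card : ℝ) ≤ R'.card := by
        exact_mod_cast Finset.card_le_card (h3 T2 hT2)
      exact hN (h5.trans h6)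
    rw [hz]
    positivity

/-- LBB -/
theorem lb_block {α : Type} [DecidableEq α] {p : ℝ} (hp0 : 0 ≤ p) (hp1 : p ≤ 1)
    (R FU FV : Finset α) (N0 : ℝ) (hN0 : 0 ≤ N0) :
    pr p (R ×ˢ (FU ∪ FV)) (fun T =>
      ((R.filter fun w => (∃ z ∈ FU, (w, z) ∈ T) ∧ ∀ z ∈ FV, (w, z) ∉ T).card : ℝ) <
        (1 - (1 - p) ^ (FU \ FV).card) * N0 / 2 ∧
      N0 ≤ ((R.filter fun w => ∀ z ∈ FU ∪ FV, (w, z) ∉ T).card : ℝ)) ≤
      2 * Real.exp (-((1 - (1 - p) ^ (FU \ FV).card) * N0 / 16)) := by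
  have hdis : Disjoint (R ×ˢ FV) (R ×ˢ (FU \ FV)) := by
    rw [Finset.disjoint_left]
    intro q hq hq2
    exact (Finset.mem_sdiff.1 (Finset.mem_product.1 hq2).2).2 (Finset.mem_product.1 hq).2
  have hun : R ×ˢ (FU ∪ FV) = R ×ˢ FV ∪ R ×ˢ (FU \ FV) := by
    rw [← Finset.product_union, Finset.union_sdiff_self_eq_union, Finset.union_comm]
  rw [pr_def, hun, ex_union p hdis]
  refine (ex_mono hp0 hp1 fun T1 hT1 => ?_).trans (ex_const p (R ×ˢ FV) _).le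
  have h := LBB_inner hp0 hp1 R FU FV N0 T1 hT1
  rw [pr_def] at h
  exact h

end Pool.Agent.MDF
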