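import Pool.Agent.MDF.Defs
import Pool.Agent.MDF.CND
import Pool.Agent.MDF.NXT
import Pool.Agent.MDF.LBB

set_option autoImplicit false

open scoped Classical

namespace Pool.Agent.MDF

open Finset Pool.Agent.MD437

variable {n : ℕ}

private lemma LOW_sp {S S' : Finset (Sym2 (Fin n))} {u : Fin n} {j : ℕ}
    (h : ∀ k ≤ j, bl S' u k = bl S u k) : sp S' u j = sp S u j := by
  cases j with
  | zero => rfl
  | succ j =>
    show bl S' u (j + 1) \ bl S' u j = bl S u (j + 1) \ bl S u j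
    rw [h (j + 1) le_rfl, h j (Nat.le_succ j)]

private lemma LOW_pr_le_one {ι : Type} [DecidableEq ι] {p : ℝ} (hp0 : 0 ≤ p) (hp1 : p ≤ 1)
    (A : Finset ι) (Q : Finset ι → Prop) : pr p A Q ≤ 1 := by
  have h1 : pr p A Q ≤ pr p A (fun _ => True) := pr_mono hp0 hp1 (fun _ _ _ => trivial)
  have h2 : pr p A (fun _ => True) = 1 := by
    rw [pr_def]
    simp only [if_true]
    exact ex_const p A 1
  rw [h2] at h1
  exact h1

/-- LOW -/
theorem lower_two {p : ℝ} (hp0 : 0 ≤ p) (hp1 : p ≤ 1) (u v : Fin n) (j m : ℕ) (N0 : ℝ)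
    (hN0 : 0 ≤ N0) :
    pr p (E n) (fun S => m ≤ (sp S u j \ bl S v j).card ∧
      N0 ≤ ((Finset.univ \ uu S u v (j + 1)).card : ℝ) ∧
      ((sp S u (j + 1) \ bl S v (j + 1)).card : ℝ) < (1 - (1 - p) ^ m) * N0 / 2) ≤
      2 * Real.exp (-((1 - (1 - p) ^ m) * N0 / 16)) := by
  have hβ : 0 ≤ 2 * Real.exp (-((1 - (1 - p) ^ m) * N0 / 16)) := by positivity
  have key := cond_step hp0 hp1 u v j (fun S => m ≤ (sp S u j \ bl S v j).card)
    (fun S => N0 ≤ ((Finset.univ \ uu S u v (j + 1)).card : ℝ) ∧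
      ((sp S u (j + 1) \ bl S v (j + 1)).card : ℝ) < (1 - (1 - p) ^ m) * N0 / 2)
    (2 * Real.exp (-((1 - (1 - p) ^ m) * N0 / 16))) hβ ?_ ?_
  · have h1 := LOW_pr_le_one hp0 hp1 (E n) (fun S => m ≤ (sp S u j \ bl S v j).card)
    calc _ ≤ _ := key
      _ ≤ 2 * Real.exp (-((1 - (1 - p) ^ m) * N0 / 16)) * 1 := mul_le_mul_of_nonneg_left h1 hβ
      _ = _ := mul_one _
  · intro S S' h hS
    have e1 : sp S' u j = sp S u j := LOW_sp (fun k hk => (h k hk).1)
    have e2 : bl S' v j = bl S v j := (h j le_rfl).2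
    show m ≤ (sp S' u j \ bl S' v j).card
    rw [e1, e2]
    exact hS
  · intro S hSE hS
    have hM : m ≤ (fu S u v j \ fv S u v j).card := by
      rw [fu_sdiff_fv]
      exact hS
    have hq0 : 0 ≤ 1 - p := by linarith
    have hq1 : 1 - p ≤ 1 := by linarith
    have hpow : (1 - p) ^ (fu S u v j \ fv S u v j).card ≤ (1 - p) ^ m :=
      pow_le_pow_of_le_one hq0 hq1 hM
    have hmul : (1 - (1 - p) ^ m) * N0 ≤ (1 - (1 - p) ^ (fu S u v j \ fv S u v j).card) * N0 :=
      mul_le_mul_of_nonneg_right (by linarith) hN0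
    refine le_trans (pr_mono hp0 hp1 ?_) (le_trans (lb_block hp0 hp1 (rr S u v j) (fu S u v j)
      (fv S u v j) N0 hN0) ?_)
    · rintro T hT ⟨h1, h2⟩
      rw [nw_out S u v j T hT] at h1
      have h3 := Finset.card_le_card (nw_only_u S u v j T hT)
      have h4 : ((((rr S u v j).filter fun w => (∃ z ∈ fu S u v j, (w, z) ∈ T) ∧
          ∀ z ∈ fv S u v j, (w, z) ∉ T).card : ℕ) : ℝ) ≤
          ((sp (nw S u v j T) u (j + 1) \ bl (nw S u v j T) v (j + 1)).card : ℝ) := by
        exact_mod_cast h3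
      constructor
      · refine lt_of_le_of_lt (le_of_eq ?_) (lt_of_le_of_lt h4 (lt_of_lt_of_le h2 ?_))
        · refine congrArg (fun F : Finset (Fin n) => (F.card : ℝ)) ?_
          ext w
          simp only [Finset.mem_filter]
        · linarith
      · refine le_trans h1 (le_of_eq ?_)
        refine congrArg (fun F : Finset (Fin n) => (F.card : ℝ)) ?_
        ext w
        simp only [Finset.mem_filter]
    · have h5 : Real.exp (-((1 - (1 - p) ^ (fu S u v j \ fv S u v j).card) * N0 / 16)) ≤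
          Real.exp (-((1 - (1 - p) ^ m) * N0 / 16)) := by
        apply Real.exp_le_exp.2
        linarith
      linarith

end Pool.Agent.MDF
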