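import Pool.Agent.MDF.Defs
import Pool.Agent.MDF.CND
import Pool.Agent.MDF.NXT
import Pool.Agent.MDF.PSH
import Pool.Agent.MDF.CHE

set_option autoImplicit false

open scoped Classical

namespace Pool.Agent.MDF

open Finset Pool.Agent.MD437

variable {n : ℕ}

lemma ONE_sp {S S' : Finset (Sym2 (Fin n))} {u : Fin n} {j : ℕ}
    (h : ∀ k ≤ j, bl S' u k = bl S u k) : sp S' u j = sp S u j := by
  cases j with
  | zero => rfl
  | succ j =>
    show bl S' u (j + 1) \ bl S' u j = bl S u (j + 1) \ bl S u j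
    rw [h (j + 1) le_rfl, h j (Nat.le_succ j)]

lemma ONE_fu (S : Finset (Sym2 (Fin n))) (u : Fin n) (j : ℕ) : fu S u u j = sp S u j := by
  cases j with
  | zero =>
    show bl S u 0 \ ∅ = _
    rw [Finset.sdiff_empty]
    rfl
  | succ j =>
    show bl S u (j + 1) \ (bl S u j ∪ bl S u j) = bl S u (j + 1) \ bl S u j
    rw [Finset.union_self]

lemma ONE_fv (S : Finset (Sym2 (Fin n))) (u : Fin n) (j : ℕ) : fv S u u j = sp S u j :=
  ONE_fu S u j

lemma ONE_uu (S : Finset (Sym2 (Fin n))) (u : Fin n) (j : ℕ) : uu S u u j = bl S u j :=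
  Finset.union_self _

/-- ONE -/
theorem conc_one {p : ℝ} (hp0 : 0 ≤ p) (hp1 : p ≤ 1) (u : Fin n) (j : ℕ) (V t : ℝ)
    (ht : 0 ≤ t) (htV : t ≤ V) :
    pr p (E n) (fun S => (n : ℝ) * (1 - (1 - p) ^ (sp S u j).card) ≤ V ∧
      t ≤ |((sp S u (j + 1)).card : ℝ) -
        ((n : ℝ) - (bl S u j).card) * (1 - (1 - p) ^ (sp S u j).card)|) ≤
      2 * Real.exp (-(t ^ 2 / (4 * V))) := by
  have hβ : 0 ≤ 2 * Real.exp (-(t ^ 2 / (4 * V))) := by positivity
  have h := cond_step hp0 hp1 u u j
    (fun S => (n : ℝ) * (1 - (1 - p) ^ (sp S u j).card) ≤ V)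
    (fun S => t ≤ |((sp S u (j + 1)).card : ℝ) -
        ((n : ℝ) - (bl S u j).card) * (1 - (1 - p) ^ (sp S u j).card)|)
    (2 * Real.exp (-(t ^ 2 / (4 * V)))) hβ ?_ ?_
  · refine h.trans ?_
    have h1 : pr p (E n) (fun S => (n : ℝ) * (1 - (1 - p) ^ (sp S u j).card) ≤ V) ≤ 1 := by
      rw [pr_def]
      refine (ex_mono hp0 hp1 (g := fun _ => (1 : ℝ)) fun S _ => ?_).trans
        (le_of_eq (ex_const _ _ _))
      split_ifs <;> norm_num
    exact mul_le_of_le_one_right hβ h1
  · intro S S' hb hS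
    have e : sp S' u j = sp S u j := ONE_sp fun k hk => (hb k hk).1
    show (n : ℝ) * (1 - (1 - p) ^ (sp S' u j).card) ≤ V
    rw [e]
    exact hS
  · intro S hSE hS
    set r : ℝ := 1 - (1 - p) ^ (sp S u j).card with hr
    have hM : fu S u u j ∪ fv S u u j = sp S u j := by
      rw [ONE_fu, ONE_fv, Finset.union_self]
    have hq0 : 0 ≤ 1 - p := by linarith
    have hq1 : 1 - p ≤ 1 := by linarith
    have hr0 : 0 ≤ r := by
      rw [hr]
      have := pow_le_one₀ (n := (sp S u j).card) hq0 hq1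
      linarith
    have hr1 : r ≤ 1 := by
      rw [hr]
      have := pow_nonneg hq0 (sp S u j).card
      linarith
    have hRc : ((rr S u u j).card : ℝ) = (n : ℝ) - (bl S u j).card := by
      have h1 : (rr S u u j).card = n - (bl S u j).card := by
        show (Finset.univ \ uu S u u j).card = _
        rw [ONE_uu, Finset.card_sdiff_of_subset (Finset.subset_univ _), Finset.card_univ,
          Fintype.card_fin]
      have h2 : (bl S u j).card ≤ n := by
        have := Finset.card_le_univ (bl S u j)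
        rwa [Fintype.card_fin] at this
      rw [h1, Nat.cast_sub h2]
    have hVR : r * (rr S u u j).card ≤ V := by
      refine le_trans ?_ hS
      show r * (rr S u u j).card ≤ (n : ℝ) * r
      rw [hRc, mul_comm]
      refine mul_le_mul_of_nonneg_right ?_ hr0
      have : (0 : ℝ) ≤ (bl S u j).card := Nat.cast_nonneg _
      linarith
    have hbin := bin_tail r hr0 hr1 (rr S u u j) V t hVR ht htV
    refine le_trans (le_of_eq ?_) hbin
    rw [pr_def, pr_def]
    have hpush := push p (rr S u u j) (sp S u j)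
      (fun Y => if t ≤ |(Y.card : ℝ) - r * (rr S u u j).card| then (1 : ℝ) else 0)
    rw [← hr] at hpush
    rw [← hpush, hM]
    refine ex_congr p fun T hT => ?_
    have hT' : T ⊆ rr S u u j ×ˢ (fu S u u j ∪ fv S u u j) := by rw [hM]; exact hT
    have hb := nw_bl S u u j T hT'
    have e1 : sp (nw S u u j T) u j = sp S u j := ONE_sp fun k hk => (hb k hk).1
    have e2 : bl (nw S u u j T) u j = bl S u j := (hb j le_rfl).1
    have e3 := nw_card_u S u u j T hT'
    have e4 : uu S u u j ∩ sp S u (j + 1) = ∅ := by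
      rw [ONE_uu, ← Finset.disjoint_iff_inter_eq_empty]
      exact (sp_disj_bl (Nat.lt_succ_self j)).symm
    rw [e4, Finset.card_empty, zero_add, ONE_fu] at e3
    rw [e1, e2, e3, ← hRc]
    have e5 : ((rr S u u j).card : ℝ) * (1 - (1 - p) ^ (sp S u j).card) =
        r * (rr S u u j).card := by rw [hr]; ring
    rw [e5]
    have key : ∀ d1 d2 : DecidablePred (fun w : Fin n => ∃ z ∈ sp S u j, (w, z) ∈ T),
        (@Finset.filter _ _ d1 (rr S u u j)).card = (@Finset.filter _ _ d2 (rr S u u j)).card := by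
      intro d1 d2
      have hd : d1 = d2 := Subsingleton.elim _ _
      rw [hd]
    exact if_congr (iff_of_eq (congrArg
      (fun c : ℕ => t ≤ |(c : ℝ) - r * (rr S u u j).card|) (key _ _))) rfl rfl

end Pool.Agent.MDF
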