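import Pool.Agent.MDF.Defs
import Pool.Agent.MDF.CND
import Pool.Agent.MDF.NXT
import Pool.Agent.MDF.PSH
import Pool.Agent.MDF.CHE

set_option autoImplicit false

open scoped Classical

namespace Pool.Agent.MDF

open Finset Pool.Agent.MD437

variable {n : ℕ}

private theorem ROM_block {p : ℝ} (hp0 : 0 ≤ p) (hp1 : p ≤ 1) (u v : Fin n) (j : ℕ) (ν : ℝ)
    (hν : 0 ≤ ν) (S : Finset (Sym2 (Fin n)))
    (h1 : (n : ℝ) / 2 ≤ ((Finset.univ \ uu S u v j).card : ℝ))
    (h2 : ν ≤ (1 - p) ^ (uu S u v j).card) :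
    pr p (rr S u v j ×ˢ (fu S u v j ∪ fv S u v j)) (fun T =>
      ((Finset.univ \ uu (nw S u v j T) u v (j + 1)).card : ℝ) < ν * n / 4) ≤
      2 * Real.exp (-(ν ^ 2 * n / 32)) := by
  set R := rr S u v j with hR
  set M := fu S u v j ∪ fv S u v j with hM
  have hRu : Finset.univ \ uu S u v j = R := rfl
  rw [hRu] at h1
  have hMu : M ⊆ uu S u v j := by
    intro w hw
    rw [hM, Finset.mem_union] at hw
    rcases hw with h | h
    · exact Finset.mem_union_left _ (Finset.mem_sdiff.1 h).1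
    · exact Finset.mem_union_right _ (Finset.mem_sdiff.1 h).1
  have hq0 : 0 ≤ 1 - p := by linarith
  have hq1 : 1 - p ≤ 1 := by linarith
  have hpow : ν ≤ (1 - p) ^ M.card :=
    h2.trans (pow_le_pow_of_le_one hq0 hq1 (Finset.card_le_card hMu))
  have hpow1 : (1 - p) ^ M.card ≤ 1 := pow_le_one₀ hq0 hq1
  have hpow0 : 0 ≤ (1 - p) ^ M.card := pow_nonneg hq0 _
  have hν1 : ν ≤ 1 := hpow.trans hpow1
  have hr0 : 0 ≤ 1 - (1 - p) ^ M.card := by linarith
  have hr1 : 1 - (1 - p) ^ M.card ≤ 1 := by linarith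
  have hR0 : (0 : ℝ) ≤ (R.card : ℝ) := Nat.cast_nonneg _
  -- the number of vertices not reached
  have hcard : ∀ T ⊆ R ×ˢ M, ((Finset.univ \ uu (nw S u v j T) u v (j + 1)).card : ℝ)
      = (R.card : ℝ) - ((R.filter fun w => ∃ z ∈ M, (w, z) ∈ T).card : ℝ) := by
    intro T hT
    rw [nw_out S u v j T hT]
    have h3 : ((rr S u v j).filter fun w => ∀ z ∈ fu S u v j ∪ fv S u v j, (w, z) ∉ T)
        = R.filter fun w => ¬ ∃ z ∈ M, (w, z) ∈ T := by
      refine Finset.filter_congr fun w _ => ?_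
      push Not
      exact Iff.rfl
    rw [h3]
    have h4 := Finset.card_filter_add_card_filter_not (s := R)
      (fun w => ∃ z ∈ M, (w, z) ∈ T)
    have h5 : ((R.filter fun w => ∃ z ∈ M, (w, z) ∈ T).card : ℝ)
        + ((R.filter fun w => ¬ ∃ z ∈ M, (w, z) ∈ T).card : ℝ) = (R.card : ℝ) := by
      exact_mod_cast h4
    linarith
  have hstep : pr p (R ×ˢ M) (fun T =>
      ((Finset.univ \ uu (nw S u v j T) u v (j + 1)).card : ℝ) < ν * n / 4)
      = pr (1 - (1 - p) ^ M.card) R (fun Y => (R.card : ℝ) - (Y.card : ℝ) < ν * n / 4) := by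
    rw [pr_def, pr_def, ← push p R M (fun Y =>
      if (R.card : ℝ) - (Y.card : ℝ) < ν * n / 4 then (1 : ℝ) else 0)]
    refine ex_congr p fun T hT => ?_
    rw [hcard T hT]
    refine if_congr (iff_of_eq (congrArg
      (fun c : ℕ => (R.card : ℝ) - (c : ℝ) < ν * n / 4)
      (congrArg Finset.card (Finset.ext fun w => ?_)))) rfl rfl
    simp only [Finset.mem_filter]
  rw [hstep]
  have hmono : pr (1 - (1 - p) ^ M.card) R
      (fun Y => (R.card : ℝ) - (Y.card : ℝ) < ν * n / 4)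
      ≤ pr (1 - (1 - p) ^ M.card) R
        (fun Y => ν * R.card / 2 ≤ |(Y.card : ℝ) - (1 - (1 - p) ^ M.card) * R.card|) := by
    refine pr_mono hr0 hr1 fun Y _ hY => ?_
    refine le_trans ?_ (le_abs_self _)
    have h3 : ν * R.card ≤ (1 - p) ^ M.card * R.card := mul_le_mul_of_nonneg_right hpow hR0
    have h4 : ν * (n / 2) ≤ ν * R.card := mul_le_mul_of_nonneg_left h1 hν
    nlinarith
  refine hmono.trans ?_
  refine (bin_tail (1 - (1 - p) ^ M.card) hr0 hr1 R (R.card : ℝ) (ν * R.card / 2) ?_ ?_ ?_).trans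
    ?_
  · nlinarith
  · positivity
  · nlinarith
  · have h6 : ν ^ 2 * n / 32 ≤ (ν * R.card / 2) ^ 2 / (4 * (R.card : ℝ)) := by
      rcases hR0.lt_or_eq with h | h
      · have h7 : (ν * (R.card : ℝ) / 2) ^ 2 / (4 * (R.card : ℝ)) = ν ^ 2 * R.card / 16 := by
          field_simp
          ring
        rw [h7]
        have h8 : ν ^ 2 * (n / 2) ≤ ν ^ 2 * R.card := mul_le_mul_of_nonneg_left h1 (sq_nonneg _)
        linarith
      · have hn : (n : ℝ) = 0 := by
          have : (0 : ℝ) ≤ n := Nat.cast_nonneg n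
          linarith
        rw [hn, ← h]
        simp
    have h9 : Real.exp (-((ν * R.card / 2) ^ 2 / (4 * (R.card : ℝ))))
        ≤ Real.exp (-(ν ^ 2 * n / 32)) := Real.exp_le_exp.2 (by linarith)
    linarith

/-- ROM -/
theorem room {p : ℝ} (hp0 : 0 ≤ p) (hp1 : p ≤ 1) (u v : Fin n) (j : ℕ) (ν : ℝ) (hν : 0 ≤ ν) :
    pr p (E n) (fun S => (n : ℝ) / 2 ≤ ((Finset.univ \ uu S u v j).card : ℝ) ∧
      ν ≤ (1 - p) ^ (uu S u v j).card ∧
      ((Finset.univ \ uu S u v (j + 1)).card : ℝ) < ν * n / 4) ≤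
      2 * Real.exp (-(ν ^ 2 * n / 32)) := by
  have hβ : 0 ≤ 2 * Real.exp (-(ν ^ 2 * n / 32)) := by positivity
  have h := cond_step hp0 hp1 u v j
    (fun S => (n : ℝ) / 2 ≤ ((Finset.univ \ uu S u v j).card : ℝ) ∧
      ν ≤ (1 - p) ^ (uu S u v j).card)
    (fun S => ((Finset.univ \ uu S u v (j + 1)).card : ℝ) < ν * n / 4)
    (2 * Real.exp (-(ν ^ 2 * n / 32))) hβ
    (by
      intro S S' hb hS
      have he : uu S' u v j = uu S u v j := by
        unfold uu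
        rw [(hb j le_rfl).1, (hb j le_rfl).2]
      rw [he]
      exact hS)
    (fun S _ hS => ROM_block hp0 hp1 u v j ν hν S hS.1 hS.2)
  have h1 : pr p (E n) (fun S => (n : ℝ) / 2 ≤ ((Finset.univ \ uu S u v j).card : ℝ) ∧
      ν ≤ (1 - p) ^ (uu S u v j).card) ≤ 1 := by
    rw [pr_def]
    refine (ex_mono hp0 hp1 (g := fun _ => (1 : ℝ)) fun S _ => ?_).trans
      (le_of_eq (ex_const p _ 1))
    split_ifs <;> norm_num
  have h2 : pr p (E n) (fun S => (n : ℝ) / 2 ≤ ((Finset.univ \ uu S u v j).card : ℝ) ∧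
      ν ≤ (1 - p) ^ (uu S u v j).card ∧
      ((Finset.univ \ uu S u v (j + 1)).card : ℝ) < ν * n / 4)
      ≤ pr p (E n) (fun S => ((n : ℝ) / 2 ≤ ((Finset.univ \ uu S u v j).card : ℝ) ∧
      ν ≤ (1 - p) ^ (uu S u v j).card) ∧
      ((Finset.univ \ uu S u v (j + 1)).card : ℝ) < ν * n / 4) :=
    pr_mono hp0 hp1 fun S _ hS => ⟨⟨hS.1, hS.2.1⟩, hS.2.2⟩
  refine h2.trans (h.trans ?_)
  calc 2 * Real.exp (-(ν ^ 2 * n / 32)) * _ ≤ 2 * Real.exp (-(ν ^ 2 * n / 32)) * 1 :=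
        mul_le_mul_of_nonneg_left h1 hβ
    _ = _ := mul_one _

end Pool.Agent.MDF
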