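import Pool.Agent.MDF.Defs
import Pool.Agent.MDF.ONE
import Pool.Agent.MDF.LOW
import Pool.Agent.MDF.ROM
import Pool.Agent.MDF.CNC
import Pool.Agent.MDF.DEG

set_option autoImplicit false

open scoped Classical

namespace Pool.Agent.MDF

open Finset Pool.Agent.MD437

variable {n : ℕ}

/-- the deterministic part -/
private theorem gpr_det {i : ℕ} {p d ν : ℝ} {t L V : ℕ → ℝ} {m : ℕ → ℕ}
    (h : Hyp n i p d ν t L V m) (S : Finset (Sym2 (Fin n)))
    (hA : ∀ v, (dg S v : ℝ) ≤ 4 * d)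
    (hB : ∀ u, ∀ j < i, ¬ ((n : ℝ) * (1 - (1 - p) ^ (sp S u j).card) ≤ V j ∧
      t (j + 1) ≤ |((sp S u (j + 1)).card : ℝ) -
        ((n : ℝ) - (bl S u j).card) * (1 - (1 - p) ^ (sp S u j).card)|))
    (hC : ∀ u v, ¬ ((n : ℝ) / 2 ≤ ((Finset.univ \ uu S u v (i - 1)).card : ℝ) ∧
      ν ≤ (1 - p) ^ (uu S u v (i - 1)).card ∧
      ((Finset.univ \ uu S u v (i - 1 + 1)).card : ℝ) < ν * n / 4))
    (hD : ∀ u v, ∀ k < i, ¬ (m k ≤ (sp S u k \ bl S v k).card ∧
      ν * n / 4 ≤ ((Finset.univ \ uu S u v (k + 1)).card : ℝ) ∧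
      ((sp S u (k + 1) \ bl S v (k + 1)).card : ℝ) < (1 - (1 - p) ^ (m k)) * (ν * n / 4) / 2))
    (hE : ∀ u, ¬ (m i ≤ (sp S u i).card ∧ bl S u (i + 1) ≠ Finset.univ)) :
    Gd p (4 * d) (ν * n / 4) t m i S := by
  have hd0 : 0 ≤ 4 * d := by
    have := h.hd1
    linarith
  have hi := h.hi
  have hi1 : i - 1 + 1 = i := by omega
  have h3 : ∀ u v, ν * n / 4 ≤ ((Finset.univ \ uu S u v i).card : ℝ) := by
    intro u v
    by_contra hcc
    push Not at hcc
    have h5 := uu_card_le S (4 * d) hd0 hA u v (i - 1)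
    refine hC u v ⟨?_, h.hpow _ h5, by rw [hi1]; exact hcc⟩
    have h6 : (Finset.univ \ uu S u v (i - 1)).card + (uu S u v (i - 1)).card = n := by
      have := Finset.card_sdiff_add_card_eq_card (Finset.subset_univ (uu S u v (i - 1)))
      rw [Finset.card_univ, Fintype.card_fin] at this
      exact this
    have h7 : ((Finset.univ \ uu S u v (i - 1)).card : ℝ) + ((uu S u v (i - 1)).card : ℝ) = n := by
      exact_mod_cast h6
    have h8 := h.hroom
    linarith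
  have h4 : ∀ u v, u ≠ v → ∀ k ≤ i, m k ≤ (sp S u k \ bl S v k).card := by
    intro u v huv k
    induction k with
    | zero =>
      intro _
      rw [h.hm0]
      refine Finset.card_pos.2 ⟨u, ?_⟩
      show u ∈ ({u} : Finset (Fin n)) \ {v}
      simp [huv]
    | succ k ih =>
      intro hk
      have h5 := ih (by omega)
      have h6 := hD u v k (by omega)
      by_contra hcc
      apply h6
      refine ⟨h5, ?_, ?_⟩
      · refine (h3 u v).trans ?_
        exact_mod_cast Finset.card_le_card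
          (Finset.sdiff_subset_sdiff (Finset.Subset.refl _) (uu_mono hk))
      · have h7 := h.hm k (by omega)
        have h8 : (((sp S u (k + 1) \ bl S v (k + 1)).card : ℕ) : ℝ) < (m (k + 1) : ℝ) := by
          exact_mod_cast not_le.1 hcc
        exact lt_of_lt_of_le h8 h7
  refine ⟨hA, ?_, h3, h4, ?_⟩
  · intro u j hj
    by_contra hcc
    push Not at hcc
    refine hB u j hj ⟨h.hV j hj _ ?_, hcc.le⟩
    refine le_trans ?_ (bl_card_le S (4 * d) hd0 hA u j)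
    exact_mod_cast Finset.card_le_card sp_subset
  · intro u
    by_contra hcc
    refine hE u ⟨?_, hcc⟩
    have hn : 1 < Fintype.card (Fin n) := by
      rw [Fintype.card_fin]
      exact h.hn
    have : Nontrivial (Fin n) := Fintype.one_lt_card_iff_nontrivial.1 hn
    obtain ⟨v, hv⟩ := exists_ne u
    exact (h4 u v hv.symm i le_rfl).trans (Finset.card_le_card Finset.sdiff_subset)

/-- GPR -/
theorem gd_prob {i : ℕ} {p d ν : ℝ} {t L V : ℕ → ℝ} {m : ℕ → ℕ} (h : Hyp n i p d ν t L V m) :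
    pr p (E n) (fun S => ¬ Gd p (4 * d) (ν * n / 4) t m i S) ≤ gb n i p d ν t V m := by
  have hp0 := h.hp0
  have hp1 := h.hp1
  have hn0 : (0 : ℝ) ≤ n := Nat.cast_nonneg _
  have hN0 : 0 ≤ ν * n / 4 := by
    have := h.hν
    positivity
  obtain ⟨QA, hQA⟩ : ∃ QA : Finset (Sym2 (Fin n)) → Prop,
    QA = fun S => ¬ ∀ v, (dg S v : ℝ) ≤ 4 * d := ⟨_, rfl⟩
  obtain ⟨QB, hQB⟩ : ∃ QB : Finset (Sym2 (Fin n)) → Prop,
    QB = fun S => ∃ u ∈ (Finset.univ : Finset (Fin n)), ∃ j ∈ Finset.range i,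
      ((n : ℝ) * (1 - (1 - p) ^ (sp S u j).card) ≤ V j ∧
      t (j + 1) ≤ |((sp S u (j + 1)).card : ℝ) -
        ((n : ℝ) - (bl S u j).card) * (1 - (1 - p) ^ (sp S u j).card)|) := ⟨_, rfl⟩
  obtain ⟨QC, hQC⟩ : ∃ QC : Finset (Sym2 (Fin n)) → Prop,
    QC = fun S => ∃ q ∈ (Finset.univ : Finset (Fin n × Fin n)),
      ((n : ℝ) / 2 ≤ ((Finset.univ \ uu S q.1 q.2 (i - 1)).card : ℝ) ∧
      ν ≤ (1 - p) ^ (uu S q.1 q.2 (i - 1)).card ∧
      ((Finset.univ \ uu S q.1 q.2 (i - 1 + 1)).card : ℝ) < ν * n / 4) := ⟨_, rfl⟩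
  obtain ⟨QD, hQD⟩ : ∃ QD : Finset (Sym2 (Fin n)) → Prop,
    QD = fun S => ∃ q ∈ (Finset.univ : Finset (Fin n × Fin n)), ∃ k ∈ Finset.range i,
      (m k ≤ (sp S q.1 k \ bl S q.2 k).card ∧
      ν * n / 4 ≤ ((Finset.univ \ uu S q.1 q.2 (k + 1)).card : ℝ) ∧
      ((sp S q.1 (k + 1) \ bl S q.2 (k + 1)).card : ℝ) <
        (1 - (1 - p) ^ (m k)) * (ν * n / 4) / 2) := ⟨_, rfl⟩
  obtain ⟨QE, hQE⟩ : ∃ QE : Finset (Sym2 (Fin n)) → Prop,
    QE = fun S => ∃ u ∈ (Finset.univ : Finset (Fin n)),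
      (m i ≤ (sp S u i).card ∧ bl S u (i + 1) ≠ Finset.univ) := ⟨_, rfl⟩
  have kA : pr p (E n) QA ≤ (n : ℝ) * Real.exp (-(2 * d)) := by
    rw [hQA]
    exact dg_all hp0 hp1 h.hd
  have kB : pr p (E n) QB ≤
      (n : ℝ) * ∑ j ∈ Finset.range i, 2 * Real.exp (-(t (j + 1) ^ 2 / (4 * V j))) := by
    rw [hQB]
    refine (pr_union hp0 hp1 _ _ _).trans ?_
    refine (Finset.sum_le_sum (g := fun _ => ∑ j ∈ Finset.range i,
      2 * Real.exp (-(t (j + 1) ^ 2 / (4 * V j)))) fun u _ => ?_).trans ?_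
    · refine (pr_union hp0 hp1 _ _ _).trans (Finset.sum_le_sum fun j hj => ?_)
      have h1 := h.ht j (Finset.mem_range.1 hj)
      exact conc_one hp0 hp1 u j (V j) (t (j + 1)) h1.1.le h1.2
    · rw [Finset.sum_const, Finset.card_univ, Fintype.card_fin, nsmul_eq_mul]
  have kC : pr p (E n) QC ≤ (n : ℝ) ^ 2 * (2 * Real.exp (-(ν ^ 2 * n / 32))) := by
    rw [hQC]
    refine (pr_union hp0 hp1 _ _ _).trans ?_
    refine (Finset.sum_le_sum (g := fun _ => 2 * Real.exp (-(ν ^ 2 * n / 32)))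
      fun q _ => room hp0 hp1 q.1 q.2 (i - 1) ν h.hν.le).trans ?_
    rw [Finset.sum_const, Finset.card_univ, Fintype.card_prod, Fintype.card_fin, nsmul_eq_mul,
      Nat.cast_mul, ← pow_two]
  have kD : pr p (E n) QD ≤ (n : ℝ) ^ 2 * ∑ k ∈ Finset.range i,
      2 * Real.exp (-((1 - (1 - p) ^ (m k)) * (ν * n / 4) / 16)) := by
    rw [hQD]
    refine (pr_union hp0 hp1 _ _ _).trans ?_
    refine (Finset.sum_le_sum (g := fun _ => ∑ k ∈ Finset.range i,
      2 * Real.exp (-((1 - (1 - p) ^ (m k)) * (ν * n / 4) / 16))) fun q _ => ?_).trans ?_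
    · refine (pr_union hp0 hp1 _ _ _).trans (Finset.sum_le_sum fun k _ => ?_)
      exact lower_two hp0 hp1 q.1 q.2 k (m k) (ν * n / 4) hN0
    · rw [Finset.sum_const, Finset.card_univ, Fintype.card_prod, Fintype.card_fin, nsmul_eq_mul,
        Nat.cast_mul, ← pow_two]
  have kE : pr p (E n) QE ≤ (n : ℝ) * (n * (1 - p) ^ (m i)) := by
    rw [hQE]
    refine (pr_union hp0 hp1 _ _ _).trans ?_
    refine (Finset.sum_le_sum (g := fun _ => (n : ℝ) * (1 - p) ^ (m i))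
      fun u _ => conn_one hp0 hp1 u i (m i)).trans ?_
    rw [Finset.sum_const, Finset.card_univ, Fintype.card_fin, nsmul_eq_mul]
  have h1 : pr p (E n) (fun S => ¬ Gd p (4 * d) (ν * n / 4) t m i S) ≤
      pr p (E n) (fun S => QA S ∨ QB S ∨ QC S ∨ QD S ∨ QE S) := by
    refine pr_mono hp0 hp1 fun S _ hS => ?_
    by_contra hcc
    push Not at hcc
    obtain ⟨c1, c2, c3, c4, c5⟩ := hcc
    rw [hQA] at c1
    rw [hQB] at c2
    rw [hQC] at c3
    rw [hQD] at c4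
    rw [hQE] at c5
    apply hS
    refine gpr_det h S (not_not.1 c1) ?_ ?_ ?_ ?_
    · intro u j hj hh
      exact c2 ⟨u, Finset.mem_univ _, j, Finset.mem_range.2 hj, hh⟩
    · intro u v hh
      exact c3 ⟨(u, v), Finset.mem_univ _, hh⟩
    · intro u v k hk hh
      exact c4 ⟨(u, v), Finset.mem_univ _, k, Finset.mem_range.2 hk, hh⟩
    · intro u hh
      exact c5 ⟨u, Finset.mem_univ _, hh⟩
  have o1 := pr_or hp0 hp1 (E n) QA (fun S => QB S ∨ QC S ∨ QD S ∨ QE S)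
  have o2 := pr_or hp0 hp1 (E n) QB (fun S => QC S ∨ QD S ∨ QE S)
  have o3 := pr_or hp0 hp1 (E n) QC (fun S => QD S ∨ QE S)
  have o4 := pr_or hp0 hp1 (E n) QD QE
  unfold gb
  linarith

end Pool.Agent.MDF
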