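import Pool.Agent.MDF.Defs
import Pool.Agent.MDF.DET
import Pool.Agent.MDF.DEG

set_option autoImplicit false

open scoped Classical

namespace Pool.Agent.MDF

open Finset Pool.Agent.MD437

variable {n : ℕ}

/-- HEB -/
theorem he_of_good {i : ℕ} {p d ν : ℝ} {t L V : ℕ → ℝ} {m : ℕ → ℕ} (h : Hyp n i p d ν t L V m)
    {S : Finset (Sym2 (Fin n))} (hG : Gd p (4 * d) (ν * n / 4) t m i S) {u v : Fin n}
    (huv : u ≠ v)
    (hN : ∀ j, 1 ≤ j → j ≤ i → |((sp S u j).card : ℝ) - (sp S v j).card| ≤ t j) :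
    HE L m p (ν * n / 4) S u v (i - 1) := by
  obtain ⟨hnb, hst, hout, hex, hall⟩ := hG
  have hi := h.hi
  have hd0 : (0 : ℝ) ≤ 4 * d := by linarith [h.hd1]
  have hbl : ∀ (w : Fin n) (k : ℕ), ((bl S w k).card : ℝ) ≤ (1 + 4 * d) ^ k := fun w k =>
    bl_card_le S (4 * d) hd0 hnb w k
  have hsb : ∀ (w : Fin n) (k : ℕ), ((sp S w k).card : ℝ) ≤ (bl S w k).card := fun w k => by
    exact_mod_cast Finset.card_le_card (sp_subset (S := S) (u := w) (j := k))
  have hpow : ∀ a b : ℕ, a ≤ b → (1 + 4 * d) ^ a ≤ (1 + 4 * d) ^ b := fun a b hab =>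
    pow_le_pow_right₀ (by linarith) hab
  have hn0 : (0 : ℝ) < n := by
    have := h.hn
    exact_mod_cast (by omega : 0 < n)
  have hp : 0 < p := by
    rcases h.hp0.lt_or_eq with h1 | h1
    · exact h1
    · exfalso
      have h2 := h.hd
      rw [← h1, zero_mul] at h2
      linarith [h.hd1]
  have hsp1 : ∀ w : Fin n, ((sp S w 0).card : ℝ) = 1 := fun w => by simp [sp]
  refine ⟨?_, ?_, ?_⟩
  · intro j hj1 hj2
    have hji : j < i := by omega
    have hj' : j ≤ i - 1 := hj2
    have hpos : (0 : ℝ) < (1 + 4 * d) ^ (i - 1) := pow_pos (by linarith) _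
    have hν : ∀ w : Fin n, ν ≤ (1 - p) ^ (sp S w j).card := fun w => by
      apply h.hpow
      have h1 := (hsb w j).trans ((hbl w j).trans (hpow j (i - 1) hj'))
      linarith
    have hA : ∀ w : Fin n, ((bl S w j).card : ℝ) ≤ (n : ℝ) / 2 := fun w => by
      have h1 := (hbl w j).trans (hpow j (i - 1) hj')
      have h2 := h.hroom
      linarith
    have hK : |((bl S u j).card : ℝ) - (bl S v j).card| ≤ ∑ k ∈ Finset.range j, t (k + 1) := by
      rw [card_bl, card_bl]
      push_cast
      rw [Finset.sum_range_succ', Finset.sum_range_succ', hsp1, hsp1, add_sub_add_right_eq_sub,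
        ← Finset.sum_sub_distrib]
      refine (Finset.abs_sum_le_sum_abs _ _).trans (Finset.sum_le_sum fun k hk => ?_)
      have hk' := Finset.mem_range.1 hk
      exact hN (k + 1) (by omega) (by omega)
    have key := det_step (ν := ν) (t := t (j + 1)) (K := ∑ k ∈ Finset.range j, t (k + 1))
      (A := ((bl S u j).card : ℝ)) (B := ((bl S v j).card : ℝ))
      (a' := ((sp S u (j + 1)).card : ℝ)) (b' := ((sp S v (j + 1)).card : ℝ)) (n := n)
      (a := (sp S u j).card) (b := (sp S v j).card) h.hp0 h.hp1 (hν u) (hν v) (hA u) (hA v)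
      (hst u j hji) (hst v j hji) (hN (j + 1) (by omega) (by omega)) hK
    have h3 := key.trans (h.hL j hj1 hji)
    have h4 : 0 < (n : ℝ) * p * ν := mul_pos (mul_pos hn0 hp) h.hν
    exact le_of_mul_le_mul_left h3 h4
  · intro k hk
    refine ⟨hex u v huv k (by omega), (hout u v).trans ?_⟩
    have h1 : Finset.univ \ uu S u v i ⊆ Finset.univ \ uu S u v k :=
      Finset.sdiff_subset_sdiff (Finset.Subset.refl _) (uu_mono (by omega))
    exact_mod_cast Finset.card_le_card h1
  · intro k hk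
    apply h.hhalf
    exact (hsb u k).trans ((hbl u k).trans (hpow k (i - 2) (by omega)))

end Pool.Agent.MDF
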