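import Pool.Agent.MDF.Defs2
import Pool.Agent.MDF.CEN

set_option autoImplicit false

open scoped Classical

namespace Pool.Agent.MDF

open Finset Pool.Agent.MD437

variable {n : ℕ}

private theorem WPB_pt {α : Type} [DecidableEq α] (F : Finset α) (k : ℕ) :
    ex (1 / 2) F (fun T => if T.card = k then (1 : ℝ) else 0) * √(F.card : ℝ) ≤ 1 := by
  have h : ex (1 / 2) F (fun T => if T.card = k then (1 : ℝ) else 0) =
      (F.card.choose k : ℝ) * (1 / 2) ^ F.card := by
    unfold ex
    have h1 : ∀ S ∈ F.powerset, (1 / 2 : ℝ) ^ S.card * (1 - 1 / 2) ^ (F.card - S.card) *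
        (if S.card = k then (1 : ℝ) else 0) =
        if S.card = k then (1 / 2 : ℝ) ^ F.card else 0 := by
      intro S hS
      have h2 : S.card ≤ F.card := Finset.card_le_card (Finset.mem_powerset.1 hS)
      have h3 : (1 / 2 : ℝ) ^ S.card * (1 - 1 / 2) ^ (F.card - S.card) = (1 / 2) ^ F.card := by
        rw [show (1 - 1 / 2 : ℝ) = 1 / 2 by norm_num, ← pow_add]
        congr 1
        omega
      rw [h3]
      split_ifs <;> simp
    rw [Finset.sum_congr rfl h1, ← Finset.sum_filter, Finset.sum_const, nsmul_eq_mul]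
    congr 1
    rw [← Finset.card_powersetCard, Finset.powersetCard_eq_filter]
  rw [h]
  have h2 := choose_sqrt F.card k
  have h3 : (0 : ℝ) < (1 / 2) ^ F.card := by positivity
  calc (F.card.choose k : ℝ) * (1 / 2) ^ F.card * √(F.card : ℝ)
      = ((F.card.choose k : ℝ) * √(F.card : ℝ)) * (1 / 2) ^ F.card := by ring
    _ ≤ 2 ^ F.card * (1 / 2) ^ F.card := mul_le_mul_of_nonneg_right h2 h3.le
    _ = 1 := by rw [← mul_pow]; norm_num

private theorem WPB_win {α : Type} [DecidableEq α] (F : Finset α) (B : ℕ) (z : ℤ) :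
    ex (1 / 2) F (fun T => if |z + (T.card : ℤ)| ≤ (B : ℤ) then (1 : ℝ) else 0) *
      √(F.card : ℝ) ≤ 2 * B + 1 := by
  have h1 : ex (1 / 2) F (fun T => if |z + (T.card : ℤ)| ≤ (B : ℤ) then (1 : ℝ) else 0) ≤
      ∑ k ∈ Finset.range (2 * B + 1),
        ex (1 / 2) F (fun T => if T.card = (-z - B + k).toNat then (1 : ℝ) else 0) := by
    rw [← ex_sum]
    refine ex_mono (by norm_num) (by norm_num) fun T _ => ?_
    split_ifs with h
    · rw [abs_le] at h
      have hk : ((T.card : ℤ) + z + B).toNat ∈ Finset.range (2 * B + 1) := by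
        rw [Finset.mem_range]
        omega
      refine le_trans ?_ (Finset.single_le_sum
        (f := fun k : ℕ => if T.card = (-z - B + k).toNat then (1 : ℝ) else 0)
        (fun k _ => by split_ifs <;> norm_num) hk)
      rw [if_pos]
      omega
    · exact Finset.sum_nonneg fun k _ => by split_ifs <;> norm_num
  calc _ ≤ (∑ k ∈ Finset.range (2 * B + 1),
        ex (1 / 2) F (fun T => if T.card = (-z - B + k).toNat then (1 : ℝ) else 0)) *
          √(F.card : ℝ) := mul_le_mul_of_nonneg_right h1 (Real.sqrt_nonneg _)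
    _ = ∑ k ∈ Finset.range (2 * B + 1),
        ex (1 / 2) F (fun T => if T.card = (-z - B + k).toNat then (1 : ℝ) else 0) *
          √(F.card : ℝ) := by rw [Finset.sum_mul]
    _ ≤ ∑ _k ∈ Finset.range (2 * B + 1), (1 : ℝ) :=
        Finset.sum_le_sum fun k _ => WPB_pt F _
    _ = 2 * B + 1 := by
        rw [Finset.sum_const, Finset.card_range, nsmul_eq_mul, mul_one]
        push_cast
        ring

/-- WPB -/
theorem w_prod_B {α : Type} [DecidableEq α] (V : Finset α) (A C F : ℕ → Finset α)
    (hV : ∀ j, A j ⊆ V) (h1 : ∀ j, F j ⊆ A j) (h2 : ∀ j k, k < j → Disjoint (F j) (A k))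
    (h3 : ∀ j k, k ≤ j → Disjoint (F j) (C k)) (B J : ℕ) :
    pr (1 / 2) V (fun W => ∀ j, 1 ≤ j → j ≤ J →
      |((W ∩ A j).card : ℤ) - ((W ∩ C j).card : ℤ)| ≤ (B : ℤ)) *
      ∏ j ∈ Finset.range J, √((F (j + 1)).card : ℝ) ≤ (2 * B + 1) ^ J := by
  induction J with
  | zero =>
    rw [Finset.range_zero, Finset.prod_empty, mul_one, pow_zero]
    have h := pr_mono (ι := α) (p := 1 / 2) (by norm_num) (by norm_num) (A := V)
      (Q := fun W => ∀ j, 1 ≤ j → j ≤ 0 →
        |((W ∩ A j).card : ℤ) - ((W ∩ C j).card : ℤ)| ≤ (B : ℤ))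
      (R := fun _ => True) (fun _ _ _ => trivial)
    refine le_trans h ?_
    rw [pr_def]
    simp [ex_const]
  | succ J ih =>
    set G := F (J + 1) with hG
    have hGV : G ⊆ V := (h1 (J + 1)).trans (hV (J + 1))
    have hVu : V = (V \ G) ∪ G := (Finset.sdiff_union_of_subset hGV).symm
    have hdis : Disjoint (V \ G) G := Finset.sdiff_disjoint
    let EJ : Finset α → Prop := fun W => ∀ j, 1 ≤ j → j ≤ J →
      |((W ∩ A j).card : ℤ) - ((W ∩ C j).card : ℤ)| ≤ (B : ℤ)
    let ES : Finset α → Prop := fun W => ∀ j, 1 ≤ j → j ≤ J + 1 →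
      |((W ∩ A j).card : ℤ) - ((W ∩ C j).card : ℤ)| ≤ (B : ℤ)
    have hinter : ∀ (W1 W2 D : Finset α), W2 ⊆ G → Disjoint G D → (W1 ∪ W2) ∩ D = W1 ∩ D := by
      intro W1 W2 D hW2 hB
      rw [Finset.union_inter_distrib_right]
      have h4 : W2 ∩ D = ∅ :=
        Finset.disjoint_iff_inter_eq_empty.1 (Finset.disjoint_of_subset_left hW2 hB)
      rw [h4, Finset.union_empty]
    have hEJ : ∀ W1 W2 : Finset α, W2 ⊆ G → (EJ (W1 ∪ W2) ↔ EJ W1) := by
      intro W1 W2 hW2
      constructor
      · intro h j hj1 hj2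
        have := h j hj1 hj2
        rwa [hinter W1 W2 (A j) hW2 (h2 (J + 1) j (by omega)),
          hinter W1 W2 (C j) hW2 (h3 (J + 1) j (by omega))] at this
      · intro h j hj1 hj2
        rw [hinter W1 W2 (A j) hW2 (h2 (J + 1) j (by omega)),
          hinter W1 W2 (C j) hW2 (h3 (J + 1) j (by omega))]
        exact h j hj1 hj2
    have hprJ : pr (1 / 2) V EJ = ex (1 / 2) (V \ G) (fun W1 => if EJ W1 then (1 : ℝ) else 0) := by
      rw [pr_def]
      conv_lhs => rw [hVu]
      rw [ex_union _ hdis]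
      refine ex_congr _ fun W1 _ => ?_
      rw [← ex_const (1 / 2) G (if EJ W1 then (1 : ℝ) else 0)]
      refine ex_congr _ fun W2 hW2 => ?_
      simp only [hEJ W1 W2 hW2]
    have hstep : pr (1 / 2) V ES * √(G.card : ℝ) ≤ (2 * B + 1) * pr (1 / 2) V EJ := by
      rw [hprJ, pr_def]
      conv_lhs => rw [hVu]
      rw [ex_union _ hdis, mul_comm (ex _ _ _) √(G.card : ℝ), ← ex_mul_left, ← ex_mul_left]
      refine ex_mono (by norm_num) (by norm_num) fun W1 hW1 => ?_
      by_cases hE : EJ W1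
      · rw [if_pos hE]
        have h5 : ex (1 / 2) G (fun T => if ES (W1 ∪ T) then (1 : ℝ) else 0) ≤
            ex (1 / 2) G (fun T => if |(((W1 ∩ A (J + 1)).card : ℤ) -
              ((W1 ∩ C (J + 1)).card : ℤ)) + (T.card : ℤ)| ≤ (B : ℤ) then (1 : ℝ) else 0) := by
          refine ex_mono (by norm_num) (by norm_num) fun T hT => ?_
          by_cases hS : ES (W1 ∪ T)
          · rw [if_pos hS, if_pos]
            have h6 := hS (J + 1) (by omega) le_rfl
            rw [hinter W1 T (C (J + 1)) hT (h3 (J + 1) (J + 1) le_rfl),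
              Finset.union_inter_distrib_right,
              Finset.inter_eq_left.2 (hT.trans (h1 (J + 1)))] at h6
            have h7 : Disjoint (W1 ∩ A (J + 1)) T := by
              refine Finset.disjoint_of_subset_left Finset.inter_subset_left ?_
              refine Finset.disjoint_of_subset_left hW1 ?_
              exact Finset.disjoint_of_subset_right hT hdis
            rw [Finset.card_union_of_disjoint h7] at h6
            push_cast at h6
            have e : (((W1 ∩ A (J + 1)).card : ℤ) - ((W1 ∩ C (J + 1)).card : ℤ)) + (T.card : ℤ) =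
                ((W1 ∩ A (J + 1)).card : ℤ) + (T.card : ℤ) - ((W1 ∩ C (J + 1)).card : ℤ) := by
              ring
            rw [e]
            exact h6
          · rw [if_neg hS]
            split_ifs <;> norm_num
        calc √(G.card : ℝ) * ex (1 / 2) G (fun T => if ES (W1 ∪ T) then (1 : ℝ) else 0)
            ≤ √(G.card : ℝ) * ex (1 / 2) G (fun T => if |(((W1 ∩ A (J + 1)).card : ℤ) -
              ((W1 ∩ C (J + 1)).card : ℤ)) + (T.card : ℤ)| ≤ (B : ℤ) then (1 : ℝ) else 0) :=
              mul_le_mul_of_nonneg_left h5 (Real.sqrt_nonneg _)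
          _ ≤ (2 * B + 1) * 1 := by
              rw [mul_comm, mul_one]
              exact WPB_win G B _
      · rw [if_neg hE]
        have h5 : ex (1 / 2) G (fun T => if ES (W1 ∪ T) then (1 : ℝ) else 0) = 0 := by
          refine (ex_congr _ fun T hT => ?_).trans (ex_const (1 / 2) G 0)
          rw [if_neg]
          intro hS
          exact hE ((hEJ W1 T hT).1 (fun j hj1 hj2 => hS j hj1 (by omega)))
        rw [h5, mul_zero, mul_zero]
    have hB0 : (0 : ℝ) ≤ 2 * B + 1 := by positivity
    rw [Finset.prod_range_succ]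
    calc pr (1 / 2) V ES * ((∏ j ∈ Finset.range J, √((F (j + 1)).card : ℝ)) * √(G.card : ℝ))
        = (pr (1 / 2) V ES * √(G.card : ℝ)) * ∏ j ∈ Finset.range J, √((F (j + 1)).card : ℝ) := by
          ring
      _ ≤ ((2 * B + 1) * pr (1 / 2) V EJ) * ∏ j ∈ Finset.range J, √((F (j + 1)).card : ℝ) :=
          mul_le_mul_of_nonneg_right hstep (Finset.prod_nonneg fun _ _ => Real.sqrt_nonneg _)
      _ = (2 * B + 1) *
          (pr (1 / 2) V EJ * ∏ j ∈ Finset.range J, √((F (j + 1)).card : ℝ)) := by ring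
      _ ≤ (2 * B + 1) * (2 * B + 1) ^ J := mul_le_mul_of_nonneg_left ih hB0
      _ = (2 * B + 1) ^ (J + 1) := by ring

end Pool.Agent.MDF
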