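import Pool.Agent.MDF.Defs2

set_option autoImplicit false

open scoped Classical

namespace Pool.Agent.MDF

open Finset Pool.Agent.MD437

variable {n : ℕ}

private lemma wtb_ex_card {α : Type} [DecidableEq α] (V A : Finset α) (hA : A ⊆ V) :
    ex (1 / 2) V (fun W => ((W ∩ A).card : ℝ)) = (A.card : ℝ) / 2 := by
  have h1 : ex (1 / 2) V (fun W => ((W ∩ A).card : ℝ)) =
      ex (1 / 2) V (fun W => ∑ a ∈ A, if a ∈ W then (1 : ℝ) else 0) := by
    refine ex_congr _ fun W _ => ?_
    rw [Finset.sum_ite_mem, Finset.inter_comm A W, Finset.sum_const, nsmul_eq_mul, mul_one]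
  rw [h1, ex_sum, Finset.sum_congr rfl fun a ha => ex_mem (1 / 2 : ℝ) (hA ha)]
  rw [Finset.sum_const, nsmul_eq_mul]
  ring

private lemma wtb_insert {α : Type} [DecidableEq α] (S A : Finset α) (i : α) :
    (((insert i S) ∩ A).card : ℝ) - ((S ∩ A).card : ℝ) = if i ∈ A ∧ i ∉ S then 1 else 0 := by
  by_cases hA : i ∈ A
  · rw [Finset.insert_inter_of_mem hA]
    by_cases hS : i ∈ S
    · rw [Finset.insert_eq_of_mem (Finset.mem_inter.2 ⟨hS, hA⟩)]
      simp [hS]
    · rw [Finset.card_insert_of_notMem (fun h => hS (Finset.mem_inter.1 h).1)]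
      simp [hS, hA]
  · rw [Finset.insert_inter_of_notMem hA]
    simp [hA]

/-- WTB -/
theorem w_tail_B {α : Type} [DecidableEq α] (V A C : Finset α) (hA : A ⊆ V) (hC : C ⊆ V)
    (N L : ℝ) (B : ℕ) (hL : 0 < L) (hB : 4 * (B : ℝ) ≤ L) (h : L ≤ |(A.card : ℝ) - C.card|)
    (hN : (A.card : ℝ) + C.card ≤ N) :
    pr (1 / 2) V (fun W => |((W ∩ A).card : ℤ) - ((W ∩ C).card : ℤ)| ≤ (B : ℤ)) ≤
      2 * Real.exp (-(L ^ 2 / (32 * N))) := by
  have hA0 : (0 : ℝ) ≤ A.card := Nat.cast_nonneg _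
  have hC0 : (0 : ℝ) ≤ C.card := Nat.cast_nonneg _
  have hLN : L ≤ N := by
    refine h.trans ((abs_le.2 ⟨?_, ?_⟩).trans hN) <;> linarith
  have hN0 : 0 < N := by linarith
  obtain ⟨lam, hlam, hm⟩ : ∃ lam : ℝ, |lam| = L / (4 * N) ∧
      lam * (((A.card : ℝ) - C.card) / 2) ≤ -(L / (4 * N)) * (L / 2) := by
    have hpos : 0 ≤ L / (4 * N) := by positivity
    rcases le_total 0 ((A.card : ℝ) - C.card) with h0 | h0
    · refine ⟨-(L / (4 * N)), by rw [abs_neg, abs_of_nonneg hpos], ?_⟩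
      rw [abs_of_nonneg h0] at h
      have := mul_le_mul_of_nonneg_left h hpos
      nlinarith
    · refine ⟨L / (4 * N), abs_of_nonneg hpos, ?_⟩
      rw [abs_of_nonpos h0] at h
      have := mul_le_mul_of_nonneg_left h hpos
      nlinarith
  set f : Finset α → ℝ := fun W => ((W ∩ A).card : ℝ) - ((W ∩ C).card : ℝ) with hf
  set c : α → ℝ := fun i => if i ∈ A ∪ C then 1 else 0 with hc
  have hEf : ex (1 / 2) V f = ((A.card : ℝ) - C.card) / 2 := by
    rw [hf, ex_sub, wtb_ex_card V A hA, wtb_ex_card V C hC]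
    ring
  have hlam1 : |lam| ≤ 1 := by
    rw [hlam, div_le_one (by positivity)]
    linarith
  have hmgf := mgf (p := 1 / 2) (by norm_num) (by norm_num) V c lam
    (fun i _ => by
      simp only [hc]
      split_ifs
      · linarith
      · linarith [abs_nonneg lam]) f
    (fun i _ S => by
      have e : f (insert i S) - f S =
          (if i ∈ A ∧ i ∉ S then (1 : ℝ) else 0) - (if i ∈ C ∧ i ∉ S then 1 else 0) := by
        rw [← wtb_insert S A i, ← wtb_insert S C i]
        simp only [hf]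
        ring
      rw [e]
      simp only [hc, Finset.mem_union]
      by_cases h1 : i ∈ A <;> by_cases h2 : i ∈ C <;> by_cases h3 : i ∈ S <;>
        simp [h1, h2, h3])
  have hsum : ∑ i ∈ V, c i ^ 2 ≤ N := by
    have e1 : ∑ i ∈ V, c i ^ 2 = (((A ∪ C).card : ℕ) : ℝ) := by
      have e2 : ∀ i, c i ^ 2 = if i ∈ A ∪ C then (1 : ℝ) else 0 := by
        intro i
        simp only [hc]
        split_ifs <;> norm_num
      rw [Finset.sum_congr rfl fun i _ => e2 i, Finset.sum_ite_mem,
        Finset.inter_eq_right.2 (Finset.union_subset hA hC), Finset.sum_const, nsmul_eq_mul,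
        mul_one]
    rw [e1]
    have e3 : (((A ∪ C).card : ℕ) : ℝ) ≤ (A.card : ℝ) + C.card := by
      exact_mod_cast Finset.card_union_le A C
    linarith
  have hkey : pr (1 / 2) V
      (fun W => |((W ∩ A).card : ℤ) - ((W ∩ C).card : ℤ)| ≤ (B : ℤ)) ≤
      Real.exp (|lam| * B) * ex (1 / 2) V (fun W => Real.exp (lam * f W)) := by
    rw [pr_def, ← ex_mul_left]
    refine ex_mono (by norm_num) (by norm_num) fun W _ => ?_
    split_ifs with h1
    · have h2 : |f W| ≤ B := by
        have h3 : ((|((W ∩ A).card : ℤ) - ((W ∩ C).card : ℤ)| : ℤ) : ℝ) ≤ ((B : ℤ) : ℝ) := by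
          exact_mod_cast h1
        simp only [hf]
        push_cast at h3
        exact h3
      rw [← Real.exp_add, ← Real.exp_zero]
      refine Real.exp_le_exp.2 ?_
      have h3 : |lam * f W| ≤ |lam| * B := by
        rw [abs_mul]
        exact mul_le_mul_of_nonneg_left h2 (abs_nonneg _)
      have h4 := (abs_le.1 h3).1
      linarith
    · positivity
  have hexp : |lam| * B + (lam * ex (1 / 2) V f + lam ^ 2 * (1 / 2) * ∑ i ∈ V, c i ^ 2) ≤
      -(L ^ 2 / (32 * N)) := by
    rw [hEf]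
    have h1 : |lam| * B ≤ L / (4 * N) * (L / 4) := by
      rw [hlam]
      exact mul_le_mul_of_nonneg_left (by linarith) (by positivity)
    have h2 : lam ^ 2 * (1 / 2) * ∑ i ∈ V, c i ^ 2 ≤ (L / (4 * N)) ^ 2 * (1 / 2) * N := by
      rw [← sq_abs lam, hlam]
      exact mul_le_mul_of_nonneg_left hsum (by positivity)
    have h3 : L / (4 * N) * (L / 4) + (-(L / (4 * N)) * (L / 2) +
        (L / (4 * N)) ^ 2 * (1 / 2) * N) = -(L ^ 2 / (32 * N)) := by
      field_simp
      ring
    linarith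
  have h4 := Real.exp_le_exp.2 hexp
  rw [Real.exp_add] at h4
  have h6 := mul_le_mul_of_nonneg_left hmgf (Real.exp_pos (|lam| * B)).le
  have h5 := Real.exp_pos (-(L ^ 2 / (32 * N)))
  linarith

end Pool.Agent.MDF
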