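import Pool.Agent.MDF.Defs2
import Pool.Agent.MDF.WPB
import Pool.Agent.MDF.WTB

set_option autoImplicit false

open scoped Classical

namespace Pool.Agent.MDF

open Finset Pool.Agent.MD437

variable {n : ℕ}

private theorem MX2_nonneg (S : Finset (Sym2 (Fin n))) (u v : Fin n) (i B : ℕ) :
    0 ≤ wn S u v i B :=
  pr_nonneg (by norm_num) (by norm_num) _ _

/-- MX2 -/
theorem wn_prod (S : Finset (Sym2 (Fin n))) (u v : Fin n) (i B : ℕ) (m : ℕ → ℕ)
    (hm : ∀ k, 1 ≤ k → k ≤ i → m k ≤ (sp S u k \ bl S v k).card) :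
    wn S u v i B * ∏ k ∈ Finset.range i, √(m (k + 1) : ℝ) ≤ (2 * B + 1) ^ i := by
  have h := w_prod_B (Finset.univ : Finset (Fin n)) (sp S u) (sp S v)
    (fun j => sp S u j \ bl S v j) (fun j => Finset.subset_univ _)
    (fun j => Finset.sdiff_subset)
    (fun j k hkj => (sp_disj (S := S) (u := u) (ne_of_gt hkj)).mono_left Finset.sdiff_subset)
    (fun j k hkj => by
      have h1 : Disjoint (sp S u j \ bl S v j) (bl S v j) := Finset.sdiff_disjoint
      exact h1.mono_right (sp_subset.trans (bl_mono hkj))) B i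
  refine le_trans ?_ h
  refine mul_le_mul_of_nonneg_left ?_ (MX2_nonneg S u v i B)
  refine Finset.prod_le_prod (fun k _ => Real.sqrt_nonneg _) fun k hk => ?_
  refine Real.sqrt_le_sqrt ?_
  exact_mod_cast hm (k + 1) (by omega) (by have := Finset.mem_range.1 hk; omega)

/-- MX2 -/
theorem wn_tail (S : Finset (Sym2 (Fin n))) (u v : Fin n) (i B j : ℕ) (h1 : 1 ≤ j) (h2 : j ≤ i)
    (N L : ℝ) (hL : 0 < L) (hB : 4 * (B : ℝ) ≤ L)
    (h : L ≤ |((sp S u j).card : ℝ) - (sp S v j).card|)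
    (hN : ((sp S u j).card : ℝ) + (sp S v j).card ≤ N) :
    wn S u v i B ≤ 2 * Real.exp (-(L ^ 2 / (32 * N))) := by
  refine le_trans ?_ (w_tail_B (Finset.univ : Finset (Fin n)) (sp S u j) (sp S v j)
    (Finset.subset_univ _) (Finset.subset_univ _) N L B hL hB h hN)
  exact pr_mono (by norm_num) (by norm_num) fun W _ hW => hW j h1 h2

/-- MX2 -/
theorem wn_nonneg (S : Finset (Sym2 (Fin n))) (u v : Fin n) (i B : ℕ) : 0 ≤ wn S u v i B :=
  MX2_nonneg S u v i B

end Pool.Agent.MDF
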