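import Pool.Agent.MDF.Defs2
import Pool.Agent.MDF.HEB
import Pool.Agent.MDF.MX2
import Pool.Agent.MDF.CHN

set_option autoImplicit false

open scoped Classical

namespace Pool.Agent.MDF

open Finset Pool.Agent.MD437

variable {n : ℕ}

lemma PR2_point {i : ℕ} {p d ν : ℝ} {t L V : ℕ → ℝ} {m : ℕ → ℕ} (h : Hyp n i p d ν t L V m)
    (B : ℕ) (hB : ∀ j, 1 ≤ j → j ≤ i → 4 * (B : ℝ) ≤ t j)
    {u v : Fin n} (huv : u ≠ v) (S : Finset (Sym2 (Fin n))) :
    (if Gd p (4 * d) (ν * n / 4) t m i S then wn S u v i B else 0) ≤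
      ∑ j ∈ Finset.range i, 2 * Real.exp (-(t (j + 1) ^ 2 / (64 * (1 + 4 * d) ^ (j + 1)))) +
      ((2 * B + 1) ^ i * ∏ k ∈ Finset.range i, (1 / √(m (k + 1) : ℝ))) *
        (if HE L m p (ν * n / 4) S u v (i - 1) then (1 : ℝ) else 0) := by
  have hs0 : 0 ≤ ∑ j ∈ Finset.range i,
      2 * Real.exp (-(t (j + 1) ^ 2 / (64 * (1 + 4 * d) ^ (j + 1)))) :=
    Finset.sum_nonneg fun j _ => by positivity
  have hp0 : 0 ≤ (2 * (B : ℝ) + 1) ^ i * ∏ k ∈ Finset.range i, (1 / √(m (k + 1) : ℝ)) :=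
    mul_nonneg (by positivity) (Finset.prod_nonneg fun j _ => by positivity)
  have hi0 : (0 : ℝ) ≤ (if HE L m p (ν * n / 4) S u v (i - 1) then (1 : ℝ) else 0) := by
    split_ifs <;> norm_num
  by_cases hG : Gd p (4 * d) (ν * n / 4) t m i S
  · rw [if_pos hG]
    by_cases hN : ∀ j, 1 ≤ j → j ≤ i → |((sp S u j).card : ℝ) - (sp S v j).card| ≤ t j
    · rw [if_pos (he_of_good h hG huv hN), mul_one]
      have hw := wn_prod S u v i B m (fun k _ hk => hG.2.2.2.1 u v huv k hk)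
      have hpos : 0 < ∏ k ∈ Finset.range i, √(m (k + 1) : ℝ) := by
        refine Finset.prod_pos fun k hk => Real.sqrt_pos.2 ?_
        exact_mod_cast h.hmpos (k + 1) (by have := Finset.mem_range.1 hk; omega)
      have hw2 : wn S u v i B ≤
          (2 * (B : ℝ) + 1) ^ i * ∏ k ∈ Finset.range i, (1 / √(m (k + 1) : ℝ)) := by
        rw [Finset.prod_div_distrib, Finset.prod_const_one, mul_one_div, le_div_iff₀ hpos]
        exact hw
      linarith
    · push Not at hN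
      obtain ⟨j, hj1, hji, hj⟩ := hN
      obtain ⟨k, rfl⟩ : ∃ k, j = k + 1 := ⟨j - 1, by omega⟩
      have hd : (0 : ℝ) ≤ 4 * d := by have := h.hd1; linarith
      have hdeg : ∀ w : Fin n, ((sp S w (k + 1)).card : ℝ) ≤ (1 + 4 * d) ^ (k + 1) := by
        intro w
        have h1 : ((sp S w (k + 1)).card : ℝ) ≤ ((bl S w (k + 1)).card : ℝ) := by
          exact_mod_cast Finset.card_le_card sp_subset
        exact h1.trans (bl_card_le S (4 * d) hd hG.1 w (k + 1))
      have hN : ((sp S u (k + 1)).card : ℝ) + (sp S v (k + 1)).card ≤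
          2 * (1 + 4 * d) ^ (k + 1) := by
        have := hdeg u
        have := hdeg v
        linarith
      have hw := wn_tail S u v i B (k + 1) hj1 hji (2 * (1 + 4 * d) ^ (k + 1)) (t (k + 1))
        (h.ht k (by omega)).1 (hB (k + 1) hj1 hji) hj.le hN
      have hs : 2 * Real.exp (-(t (k + 1) ^ 2 / (64 * (1 + 4 * d) ^ (k + 1)))) ≤
          ∑ j ∈ Finset.range i,
            2 * Real.exp (-(t (j + 1) ^ 2 / (64 * (1 + 4 * d) ^ (j + 1)))) :=
        Finset.single_le_sum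
          (f := fun j => 2 * Real.exp (-(t (j + 1) ^ 2 / (64 * (1 + 4 * d) ^ (j + 1)))))
          (fun j _ => by positivity) (Finset.mem_range.2 (by omega))
      have he : (32 * (2 * (1 + 4 * d) ^ (k + 1)) : ℝ) = 64 * (1 + 4 * d) ^ (k + 1) := by ring
      rw [he] at hw
      have := mul_nonneg hp0 hi0
      linarith
  · rw [if_neg hG]
    exact add_nonneg hs0 (mul_nonneg hp0 hi0)

/-- PR2 -/
theorem near_pair {i : ℕ} {p d ν : ℝ} {t L V : ℕ → ℝ} {m : ℕ → ℕ} (h : Hyp n i p d ν t L V m)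
    (B : ℕ) (hB : ∀ j, 1 ≤ j → j ≤ i → 4 * (B : ℝ) ≤ t j) {u v : Fin n} (huv : u ≠ v) :
    ex p (E n) (fun S => if Gd p (4 * d) (ν * n / 4) t m i S then wn S u v i B else 0) ≤
      pb2 n i B p d ν t L m := by
  refine (ex_mono h.hp0 h.hp1 fun S _ => PR2_point h B hB huv S).trans ?_
  rw [ex_add, ex_const, ex_mul_left, ← pr_def]
  unfold pb2
  have hn : (0 : ℝ) ≤ ν * n / 4 := by
    have := h.hν
    positivity
  have hc := chain h.hp0 h.hp1 u v L m (ν * n / 4) hn h.hL0 (i - 1)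
  have hpos : ∀ k, k < i → 0 < √((1 - (1 - p) ^ (m k)) * (ν * n / 4)) := by
    intro k hk
    refine Real.sqrt_pos.2 ?_
    have h1 := h.hm k hk
    have h2 : (0 : ℝ) < (m (k + 1) : ℝ) := by exact_mod_cast h.hmpos (k + 1) (by omega)
    linarith
  have hP : 0 < ∏ k ∈ Finset.range (i - 1), √((1 - (1 - p) ^ (m k)) * (ν * n / 4)) :=
    Finset.prod_pos fun k hk => hpos k (by have := Finset.mem_range.1 hk; omega)
  have hc2 : pr p (E n) (fun S => HE L m p (ν * n / 4) S u v (i - 1)) ≤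
      ∏ k ∈ Finset.range (i - 1), (4 * (2 * L (k + 1) + 1) /
        √((1 - (1 - p) ^ (m k)) * (ν * n / 4))) := by
    rw [Finset.prod_div_distrib, le_div_iff₀ hP]
    exact hc
  have hp0 : 0 ≤ (2 * (B : ℝ) + 1) ^ i * ∏ k ∈ Finset.range i, (1 / √(m (k + 1) : ℝ)) :=
    mul_nonneg (by positivity) (Finset.prod_nonneg fun j _ => by positivity)
  have h3 := mul_le_mul_of_nonneg_right hc2 hp0
  rw [mul_comm ((2 * (B : ℝ) + 1) ^ i * ∏ k ∈ Finset.range i, (1 / √(m (k + 1) : ℝ)))]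
  linarith

end Pool.Agent.MDF
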