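import Pool.Agent.MDF.Defs2
import Pool.Agent.MDF.CEN

set_option autoImplicit false

open scoped Classical

namespace Pool.Agent.MDF

open Finset Pool.Agent.MD437

variable {n : ℕ}

private theorem WPT_pt {α : Type} [DecidableEq α] (F : Finset α) (k : ℕ) :
    ex (1 / 2) F (fun T => if T.card = k then (1 : ℝ) else 0) * √(F.card : ℝ) ≤ 1 := by
  have h : ex (1 / 2) F (fun T => if T.card = k then (1 : ℝ) else 0) =
      (F.card.choose k : ℝ) * (1 / 2) ^ F.card := by
    unfold ex
    have h1 : ∀ S ∈ F.powerset, (1 / 2 : ℝ) ^ S.card * (1 - 1 / 2) ^ (F.card - S.card) *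
        (if S.card = k then (1 : ℝ) else 0) =
        if S.card = k then (1 / 2 : ℝ) ^ F.card else 0 := by
      intro S hS
      have h2 : S.card ≤ F.card := Finset.card_le_card (Finset.mem_powerset.1 hS)
      have h3 : (1 / 2 : ℝ) ^ S.card * (1 - 1 / 2) ^ (F.card - S.card) = (1 / 2) ^ F.card := by
        rw [show (1 - 1 / 2 : ℝ) = 1 / 2 by norm_num, ← pow_add]
        congr 1
        omega
      rw [h3]
      split_ifs <;> simp
    rw [Finset.sum_congr rfl h1, ← Finset.sum_filter, Finset.sum_const, nsmul_eq_mul]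
    congr 1
    rw [← Finset.card_powersetCard, Finset.powersetCard_eq_filter]
  rw [h]
  have h2 := choose_sqrt F.card k
  have h3 : (0 : ℝ) < (1 / 2) ^ F.card := by positivity
  calc (F.card.choose k : ℝ) * (1 / 2) ^ F.card * √(F.card : ℝ)
      = ((F.card.choose k : ℝ) * √(F.card : ℝ)) * (1 / 2) ^ F.card := by ring
    _ ≤ 2 ^ F.card * (1 / 2) ^ F.card := mul_le_mul_of_nonneg_right h2 h3.le
    _ = 1 := by rw [← mul_pow]; norm_num

private theorem WPT_win {α : Type} [DecidableEq α] (F : Finset α) (a : ℤ) (B : ℕ) :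
    √(F.card : ℝ) * ex (1 / 2) F (fun T => if |a + (T.card : ℤ)| ≤ (B : ℤ) then (1 : ℝ) else 0)
      ≤ 2 * B + 1 := by
  have h1 : ex (1 / 2) F (fun T => if |a + (T.card : ℤ)| ≤ (B : ℤ) then (1 : ℝ) else 0) ≤
      ex (1 / 2) F (fun T => ∑ k ∈ Finset.range (2 * B + 1),
        if T.card = (-a - (B : ℤ) + (k : ℤ)).toNat then (1 : ℝ) else 0) := by
    refine ex_mono (by norm_num) (by norm_num) fun T _ => ?_
    have hnn : ∀ k ∈ Finset.range (2 * B + 1),
        (0 : ℝ) ≤ if T.card = (-a - (B : ℤ) + (k : ℤ)).toNat then (1 : ℝ) else 0 := by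
      intro k _
      split_ifs <;> norm_num
    by_cases h : |a + (T.card : ℤ)| ≤ (B : ℤ)
    · rw [if_pos h]
      have h2 := abs_le.1 h
      have h3 : ((T.card : ℤ) + a + B).toNat ∈ Finset.range (2 * B + 1) := by
        rw [Finset.mem_range]
        omega
      refine le_trans ?_ (Finset.single_le_sum hnn h3)
      rw [if_pos]
      omega
    · rw [if_neg h]
      exact Finset.sum_nonneg hnn
  rw [ex_sum] at h1
  calc √(F.card : ℝ) * ex (1 / 2) F (fun T => if |a + (T.card : ℤ)| ≤ (B : ℤ) then (1 : ℝ) else 0)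
      ≤ √(F.card : ℝ) * ∑ k ∈ Finset.range (2 * B + 1), ex (1 / 2) F (fun T =>
        if T.card = (-a - (B : ℤ) + (k : ℤ)).toNat then (1 : ℝ) else 0) :=
        mul_le_mul_of_nonneg_left h1 (Real.sqrt_nonneg _)
    _ = ∑ k ∈ Finset.range (2 * B + 1), ex (1 / 2) F (fun T =>
        if T.card = (-a - (B : ℤ) + (k : ℤ)).toNat then (1 : ℝ) else 0) * √(F.card : ℝ) := by
        rw [Finset.mul_sum]
        exact Finset.sum_congr rfl fun k _ => mul_comm _ _
    _ ≤ ∑ _k ∈ Finset.range (2 * B + 1), (1 : ℝ) :=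
        Finset.sum_le_sum fun k _ => WPT_pt F _
    _ = 2 * B + 1 := by
        rw [Finset.sum_const, Finset.card_range, nsmul_eq_mul, mul_one]
        push_cast
        ring

/-- WPT -/
theorem w_prod_T {α : Type} [DecidableEq α] (V : Finset α) (A A' C F F' : ℕ → Finset α)
    (hV : ∀ j, A j ⊆ V) (hV' : ∀ j, A' j ⊆ V)
    (h1 : ∀ j, F j ⊆ A j) (h1' : ∀ j, F' j ⊆ A' j)
    (h2 : ∀ j k, k < j → Disjoint (F j) (A k)) (h2' : ∀ j k, k < j → Disjoint (F' j) (A' k))
    (h3 : ∀ j k, k ≤ j → Disjoint (F j) (C k)) (h3' : ∀ j k, k ≤ j → Disjoint (F' j) (C k))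
    (h4 : ∀ j k, k ≤ j → Disjoint (F j) (A' k)) (h4' : ∀ j k, k ≤ j → Disjoint (F' j) (A k))
    (B J : ℕ) :
    pr (1 / 2) V (fun W => ∀ j, 1 ≤ j → j ≤ J →
      |((W ∩ A j).card : ℤ) - ((W ∩ C j).card : ℤ)| ≤ (B : ℤ) ∧
      |((W ∩ A' j).card : ℤ) - ((W ∩ C j).card : ℤ)| ≤ (B : ℤ)) *
      ∏ j ∈ Finset.range J, (√((F (j + 1)).card : ℝ) * √((F' (j + 1)).card : ℝ)) ≤
      (2 * B + 1) ^ (2 * J) := by
  induction J with
  | zero =>
    rw [Finset.range_zero, Finset.prod_empty, mul_one, mul_zero, pow_zero]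
    have h := pr_mono (ι := α) (p := 1 / 2) (by norm_num) (by norm_num) (A := V)
      (Q := fun W => ∀ j, 1 ≤ j → j ≤ 0 →
      |((W ∩ A j).card : ℤ) - ((W ∩ C j).card : ℤ)| ≤ (B : ℤ) ∧
      |((W ∩ A' j).card : ℤ) - ((W ∩ C j).card : ℤ)| ≤ (B : ℤ))
      (R := fun _ => True) (fun _ _ _ => trivial)
    refine le_trans h ?_
    rw [pr_def]
    simp [ex_const]
  | succ J ih =>
    set G := F (J + 1) with hG
    set G' := F' (J + 1) with hG'
    have hGV : G ⊆ V := (h1 (J + 1)).trans (hV (J + 1))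
    have hGV' : G' ⊆ V := (h1' (J + 1)).trans (hV' (J + 1))
    have hGG : Disjoint G G' :=
      Finset.disjoint_of_subset_right (h1' (J + 1)) (h4 (J + 1) (J + 1) le_rfl)
    have hVu : V = (V \ (G ∪ G')) ∪ (G ∪ G') :=
      (Finset.sdiff_union_of_subset (Finset.union_subset hGV hGV')).symm
    have hdis : Disjoint (V \ (G ∪ G')) (G ∪ G') := Finset.sdiff_disjoint
    let EJ : Finset α → Prop := fun W => ∀ j, 1 ≤ j → j ≤ J →
      |((W ∩ A j).card : ℤ) - ((W ∩ C j).card : ℤ)| ≤ (B : ℤ) ∧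
      |((W ∩ A' j).card : ℤ) - ((W ∩ C j).card : ℤ)| ≤ (B : ℤ)
    let ES : Finset α → Prop := fun W => ∀ j, 1 ≤ j → j ≤ J + 1 →
      |((W ∩ A j).card : ℤ) - ((W ∩ C j).card : ℤ)| ≤ (B : ℤ) ∧
      |((W ∩ A' j).card : ℤ) - ((W ∩ C j).card : ℤ)| ≤ (B : ℤ)
    have hinter : ∀ (W1 W2 W3 D : Finset α), W2 ⊆ G → W3 ⊆ G' → Disjoint G D → Disjoint G' D →
        (W1 ∪ (W2 ∪ W3)) ∩ D = W1 ∩ D := by
      intro W1 W2 W3 D hW2 hW3 hD hD'
      rw [Finset.union_inter_distrib_right, Finset.union_inter_distrib_right]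
      have e4 : W2 ∩ D = ∅ :=
        Finset.disjoint_iff_inter_eq_empty.1 (Finset.disjoint_of_subset_left hW2 hD)
      have e5 : W3 ∩ D = ∅ :=
        Finset.disjoint_iff_inter_eq_empty.1 (Finset.disjoint_of_subset_left hW3 hD')
      rw [e4, e5, Finset.union_empty, Finset.union_empty]
    have hEJ : ∀ W1 W2 W3 : Finset α, W2 ⊆ G → W3 ⊆ G' → (EJ (W1 ∪ (W2 ∪ W3)) ↔ EJ W1) := by
      intro W1 W2 W3 hW2 hW3
      have key : ∀ j, j ≤ J → (W1 ∪ (W2 ∪ W3)) ∩ A j = W1 ∩ A j ∧
          (W1 ∪ (W2 ∪ W3)) ∩ A' j = W1 ∩ A' j ∧ (W1 ∪ (W2 ∪ W3)) ∩ C j = W1 ∩ C j := by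
        intro j hj
        exact ⟨hinter W1 W2 W3 (A j) hW2 hW3 (h2 (J + 1) j (by omega)) (h4' (J + 1) j (by omega)),
          hinter W1 W2 W3 (A' j) hW2 hW3 (h4 (J + 1) j (by omega)) (h2' (J + 1) j (by omega)),
          hinter W1 W2 W3 (C j) hW2 hW3 (h3 (J + 1) j (by omega)) (h3' (J + 1) j (by omega))⟩
      constructor
      · intro h j hj1 hj2
        have := h j hj1 hj2
        rwa [(key j hj2).1, (key j hj2).2.1, (key j hj2).2.2] at this
      · intro h j hj1 hj2
        rw [(key j hj2).1, (key j hj2).2.1, (key j hj2).2.2]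
        exact h j hj1 hj2
    have hprJ : pr (1 / 2) V EJ =
        ex (1 / 2) (V \ (G ∪ G')) (fun W1 => if EJ W1 then (1 : ℝ) else 0) := by
      rw [pr_def]
      conv_lhs => rw [hVu]
      rw [ex_union _ hdis]
      refine ex_congr _ fun W1 _ => ?_
      rw [← ex_const (1 / 2) (G ∪ G') (if EJ W1 then (1 : ℝ) else 0), ex_union _ hGG,
        ex_union _ hGG]
      refine ex_congr _ fun W2 hW2 => ?_
      refine ex_congr _ fun W3 hW3 => ?_
      simp only [hEJ W1 W2 W3 hW2 hW3]
    have hstep : pr (1 / 2) V ES * (√(G.card : ℝ) * √(G'.card : ℝ)) ≤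
        (2 * B + 1) ^ 2 * pr (1 / 2) V EJ := by
      rw [hprJ, pr_def]
      conv_lhs => rw [hVu]
      rw [ex_union _ hdis, mul_comm, ← ex_mul_left, ← ex_mul_left]
      refine ex_mono (by norm_num) (by norm_num) fun W1 hW1 => ?_
      rw [ex_union _ hGG]
      by_cases hE : EJ W1
      · rw [if_pos hE, mul_one]
        set a : ℤ := ((W1 ∩ A (J + 1)).card : ℤ) - ((W1 ∩ C (J + 1)).card : ℤ) with ha
        set a' : ℤ := ((W1 ∩ A' (J + 1)).card : ℤ) - ((W1 ∩ C (J + 1)).card : ℤ) with ha'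
        have h5 : ex (1 / 2) G (fun S => ex (1 / 2) G' (fun T =>
            if ES (W1 ∪ (S ∪ T)) then (1 : ℝ) else 0)) ≤
            ex (1 / 2) G' (fun T => if |a' + (T.card : ℤ)| ≤ (B : ℤ) then (1 : ℝ) else 0) *
            ex (1 / 2) G (fun T => if |a + (T.card : ℤ)| ≤ (B : ℤ) then (1 : ℝ) else 0) := by
          rw [← ex_mul_left]
          refine ex_mono (by norm_num) (by norm_num) fun S hS => ?_
          rw [mul_comm, ← ex_mul_left]
          refine ex_mono (by norm_num) (by norm_num) fun T hT => ?_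
          by_cases hES : ES (W1 ∪ (S ∪ T))
          · have h6 := hES (J + 1) (by omega) le_rfl
            have e1 : (W1 ∪ (S ∪ T)) ∩ C (J + 1) = W1 ∩ C (J + 1) :=
              hinter W1 S T (C (J + 1)) hS hT (h3 (J + 1) (J + 1) le_rfl)
                (h3' (J + 1) (J + 1) le_rfl)
            have e2 : ((W1 ∪ (S ∪ T)) ∩ A (J + 1)).card = (W1 ∩ A (J + 1)).card + S.card := by
              have f1 : T ∩ A (J + 1) = ∅ := Finset.disjoint_iff_inter_eq_empty.1
                (Finset.disjoint_of_subset_left hT (h4' (J + 1) (J + 1) le_rfl))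
              rw [Finset.union_inter_distrib_right, Finset.union_inter_distrib_right, f1,
                Finset.union_empty, Finset.inter_eq_left.2 (hS.trans (h1 (J + 1)))]
              apply Finset.card_union_of_disjoint
              refine Finset.disjoint_of_subset_left (Finset.inter_subset_left.trans hW1) ?_
              exact Finset.disjoint_of_subset_right (hS.trans Finset.subset_union_left) hdis
            have e3 : ((W1 ∪ (S ∪ T)) ∩ A' (J + 1)).card = (W1 ∩ A' (J + 1)).card + T.card := by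
              have f1 : S ∩ A' (J + 1) = ∅ := Finset.disjoint_iff_inter_eq_empty.1
                (Finset.disjoint_of_subset_left hS (h4 (J + 1) (J + 1) le_rfl))
              rw [Finset.union_inter_distrib_right, Finset.union_inter_distrib_right, f1,
                Finset.empty_union, Finset.inter_eq_left.2 (hT.trans (h1' (J + 1)))]
              apply Finset.card_union_of_disjoint
              refine Finset.disjoint_of_subset_left (Finset.inter_subset_left.trans hW1) ?_
              exact Finset.disjoint_of_subset_right (hT.trans Finset.subset_union_right) hdis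
            rw [e1, e2, e3] at h6
            rw [if_pos hES, if_pos, if_pos]
            · norm_num
            · refine le_trans (le_of_eq ?_) h6.2
              congr 1
              rw [ha']
              push_cast
              ring
            · refine le_trans (le_of_eq ?_) h6.1
              congr 1
              rw [ha]
              push_cast
              ring
          · rw [if_neg hES]
            split_ifs <;> norm_num
        have w1 := WPT_win G a B
        have w2 := WPT_win G' a' B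
        have n1 : 0 ≤ ex (1 / 2) G (fun T => if |a + (T.card : ℤ)| ≤ (B : ℤ) then (1 : ℝ) else 0) :=
          ex_nonneg (by norm_num) (by norm_num) fun T _ => by split_ifs <;> norm_num
        have n2 : 0 ≤ ex (1 / 2) G' (fun T => if |a' + (T.card : ℤ)| ≤ (B : ℤ) then (1 : ℝ)
            else 0) :=
          ex_nonneg (by norm_num) (by norm_num) fun T _ => by split_ifs <;> norm_num
        calc √(G.card : ℝ) * √(G'.card : ℝ) * ex (1 / 2) G (fun S => ex (1 / 2) G' (fun T =>
            if ES (W1 ∪ (S ∪ T)) then (1 : ℝ) else 0))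
            ≤ √(G.card : ℝ) * √(G'.card : ℝ) *
              (ex (1 / 2) G' (fun T => if |a' + (T.card : ℤ)| ≤ (B : ℤ) then (1 : ℝ) else 0) *
              ex (1 / 2) G (fun T => if |a + (T.card : ℤ)| ≤ (B : ℤ) then (1 : ℝ) else 0)) :=
              mul_le_mul_of_nonneg_left h5 (mul_nonneg (Real.sqrt_nonneg _) (Real.sqrt_nonneg _))
          _ = (√(G.card : ℝ) *
              ex (1 / 2) G (fun T => if |a + (T.card : ℤ)| ≤ (B : ℤ) then (1 : ℝ) else 0)) *
              (√(G'.card : ℝ) *
              ex (1 / 2) G' (fun T => if |a' + (T.card : ℤ)| ≤ (B : ℤ) then (1 : ℝ) else 0)) := by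
              ring
          _ ≤ (2 * B + 1) * (2 * B + 1) := by
              apply mul_le_mul w1 w2 (mul_nonneg (Real.sqrt_nonneg _) n2)
              have : (0 : ℝ) ≤ B := Nat.cast_nonneg B
              linarith
          _ = (2 * B + 1) ^ 2 := by ring
      · rw [if_neg hE, mul_zero]
        have h5 : ex (1 / 2) G (fun S => ex (1 / 2) G' (fun T =>
            if ES (W1 ∪ (S ∪ T)) then (1 : ℝ) else 0)) = 0 := by
          refine (ex_congr _ fun S hS => ?_).trans (ex_const (1 / 2) G 0)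
          refine (ex_congr _ fun T hT => ?_).trans (ex_const (1 / 2) G' 0)
          rw [if_neg]
          intro hES
          exact hE ((hEJ W1 S T hS hT).1 (fun j hj1 hj2 => hES j hj1 (by omega)))
        rw [h5, mul_zero]
    rw [Finset.prod_range_succ]
    have hb : (0 : ℝ) ≤ (2 * B + 1) ^ 2 := by positivity
    calc pr (1 / 2) V ES * ((∏ j ∈ Finset.range J,
          (√((F (j + 1)).card : ℝ) * √((F' (j + 1)).card : ℝ))) * (√(G.card : ℝ) * √(G'.card : ℝ)))
        = (pr (1 / 2) V ES * (√(G.card : ℝ) * √(G'.card : ℝ))) *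
          ∏ j ∈ Finset.range J, (√((F (j + 1)).card : ℝ) * √((F' (j + 1)).card : ℝ)) := by
          ring
      _ ≤ ((2 * B + 1) ^ 2 * pr (1 / 2) V EJ) *
          ∏ j ∈ Finset.range J, (√((F (j + 1)).card : ℝ) * √((F' (j + 1)).card : ℝ)) :=
          mul_le_mul_of_nonneg_right hstep (Finset.prod_nonneg fun _ _ =>
            mul_nonneg (Real.sqrt_nonneg _) (Real.sqrt_nonneg _))
      _ = (2 * B + 1) ^ 2 * (pr (1 / 2) V EJ *
          ∏ j ∈ Finset.range J, (√((F (j + 1)).card : ℝ) * √((F' (j + 1)).card : ℝ))) := by ring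
      _ ≤ (2 * B + 1) ^ 2 * (2 * B + 1) ^ (2 * J) := mul_le_mul_of_nonneg_left ih hb
      _ = (2 * B + 1) ^ (2 * (J + 1)) := by ring

end Pool.Agent.MDF
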