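import Pool.Agent.MDF.Defs2
import Pool.Agent.MDF.WPT

set_option autoImplicit false

open scoped Classical

namespace Pool.Agent.MDF

open Finset Pool.Agent.MD437

variable {n : ℕ}

private theorem MX3_nonneg (S : Finset (Sym2 (Fin n))) (u v v' : Fin n) (i B : ℕ) :
    0 ≤ wt S u v v' i B :=
  pr_nonneg (by norm_num) (by norm_num) _ _

private theorem MX3_event (S : Finset (Sym2 (Fin n))) (u v v' : Fin n) (i B : ℕ) :
    wt S u v v' i B ≤ pr (1 / 2) (Finset.univ : Finset (Fin n)) (fun W => ∀ j, 1 ≤ j → j ≤ i →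
      |((W ∩ sp S v j).card : ℤ) - ((W ∩ sp S u j).card : ℤ)| ≤ (B : ℤ) ∧
      |((W ∩ sp S v' j).card : ℤ) - ((W ∩ sp S u j).card : ℤ)| ≤ (B : ℤ)) := by
  refine pr_mono (by norm_num) (by norm_num) fun W _ hW => ?_
  intro j h1 h2
  refine ⟨?_, ?_⟩
  · rw [abs_sub_comm]
    exact hW.1 j h1 h2
  · rw [abs_sub_comm]
    exact hW.2 j h1 h2

private theorem MX3_disj (S : Finset (Sym2 (Fin n))) (a b c : Fin n) (j k : ℕ) (hkj : k ≤ j) :
    Disjoint (sp S a j \ (bl S b j ∪ bl S c j)) (sp S b k) ∧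
      Disjoint (sp S a j \ (bl S b j ∪ bl S c j)) (sp S c k) := by
  have h1 : Disjoint (sp S a j \ (bl S b j ∪ bl S c j)) (bl S b j ∪ bl S c j) :=
    Finset.sdiff_disjoint
  exact ⟨h1.mono_right ((sp_subset.trans (bl_mono hkj)).trans Finset.subset_union_left),
    h1.mono_right ((sp_subset.trans (bl_mono hkj)).trans Finset.subset_union_right)⟩

/-- MX3 -/
theorem wt_prod (S : Finset (Sym2 (Fin n))) (u v v' : Fin n) (i B : ℕ) (m : ℕ → ℕ)
    (hm : ∀ k, 1 ≤ k → k ≤ i → m k ≤ (sp S v k \ (bl S u k ∪ bl S v' k)).card)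
    (hm' : ∀ k, 1 ≤ k → k ≤ i → m k ≤ (sp S v' k \ (bl S u k ∪ bl S v k)).card) :
    wt S u v v' i B * ∏ k ∈ Finset.range i, (m (k + 1) : ℝ) ≤ (2 * B + 1) ^ (2 * i) := by
  have h := w_prod_T (Finset.univ : Finset (Fin n)) (sp S v) (sp S v') (sp S u)
    (fun j => sp S v j \ (bl S u j ∪ bl S v' j)) (fun j => sp S v' j \ (bl S u j ∪ bl S v j))
    (fun j => Finset.subset_univ _) (fun j => Finset.subset_univ _)
    (fun j => Finset.sdiff_subset) (fun j => Finset.sdiff_subset)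
    (fun j k hkj => (sp_disj (S := S) (u := v) (ne_of_gt hkj)).mono_left Finset.sdiff_subset)
    (fun j k hkj => (sp_disj (S := S) (u := v') (ne_of_gt hkj)).mono_left Finset.sdiff_subset)
    (fun j k hkj => (MX3_disj S v u v' j k hkj).1)
    (fun j k hkj => (MX3_disj S v' u v j k hkj).1)
    (fun j k hkj => (MX3_disj S v u v' j k hkj).2)
    (fun j k hkj => (MX3_disj S v' u v j k hkj).2) B i
  refine le_trans ?_ h
  refine mul_le_mul (MX3_event S u v v' i B) ?_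
    (Finset.prod_nonneg fun k _ => by positivity)
    (pr_nonneg (by norm_num) (by norm_num) _ _)
  refine Finset.prod_le_prod (fun k _ => by positivity) fun k hk => ?_
  have hk' := Finset.mem_range.1 hk
  have e1 : √(m (k + 1) : ℝ) ≤ √(((sp S v (k + 1) \ (bl S u (k + 1) ∪ bl S v' (k + 1))).card : ℕ) : ℝ) :=
    Real.sqrt_le_sqrt (by exact_mod_cast hm (k + 1) (by omega) (by omega))
  have e2 : √(m (k + 1) : ℝ) ≤ √(((sp S v' (k + 1) \ (bl S u (k + 1) ∪ bl S v (k + 1))).card : ℕ) : ℝ) :=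
    Real.sqrt_le_sqrt (by exact_mod_cast hm' (k + 1) (by omega) (by omega))
  calc (m (k + 1) : ℝ) = √(m (k + 1) : ℝ) * √(m (k + 1) : ℝ) :=
        (Real.mul_self_sqrt (by positivity)).symm
    _ ≤ _ := mul_le_mul e1 e2 (Real.sqrt_nonneg _) (Real.sqrt_nonneg _)

/-- MX3 -/
theorem wt_le (S : Finset (Sym2 (Fin n))) (u v v' : Fin n) (i B : ℕ) :
    wt S u v v' i B ≤ wn S u v i B :=
  pr_mono (by norm_num) (by norm_num) fun _ _ hW => hW.1

/-- MX3 -/
theorem wt_nonneg (S : Finset (Sym2 (Fin n))) (u v v' : Fin n) (i B : ℕ) :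
    0 ≤ wt S u v v' i B :=
  MX3_nonneg S u v v' i B

end Pool.Agent.MDF
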