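import Pool.Agent.MDF.Defs2
import Pool.Agent.MDF.HEB
import Pool.Agent.MDF.MX2
import Pool.Agent.MDF.MX3
import Pool.Agent.MDF.CHN

set_option autoImplicit false

open scoped Classical

namespace Pool.Agent.MDF

open Finset Pool.Agent.MD437

variable {n : ℕ}

private lemma PR3_card (S : Finset (Sym2 (Fin n))) (u v v' : Fin n) (k : ℕ) (M c M' : ℝ)
    (h1 : M ≤ ((sp S v k \ bl S u k).card : ℝ)) (h2 : ((cm S v v' k).card : ℝ) ≤ c)
    (h3 : M' + c ≤ M) : M' ≤ ((sp S v k \ (bl S u k ∪ bl S v' k)).card : ℝ) := by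
  have e1 : (sp S v k \ bl S u k).card ≤
      (sp S v k \ (bl S u k ∪ bl S v' k)).card + (cm S v v' k).card := by
    refine le_trans (Finset.card_le_card ?_) (Finset.card_union_le _ _)
    intro w hw
    rw [Finset.mem_sdiff] at hw
    rw [Finset.mem_union, Finset.mem_sdiff, Finset.mem_union]
    by_cases hw2 : w ∈ bl S v' k
    · right
      unfold cm
      exact Finset.mem_inter.2 ⟨sp_subset hw.1, hw2⟩
    · left
      refine ⟨hw.1, ?_⟩
      rintro (h | h)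
      · exact hw.2 h
      · exact hw2 h
  have e2 : ((sp S v k \ bl S u k).card : ℝ) ≤
      ((sp S v k \ (bl S u k ∪ bl S v' k)).card : ℝ) + ((cm S v v' k).card : ℝ) := by
    exact_mod_cast e1
  linarith

private lemma PR3_point {i : ℕ} {p d ν : ℝ} {t L V : ℕ → ℝ} {m : ℕ → ℕ}
    (h : Hyp n i p d ν t L V m) (B : ℕ) (hB : ∀ j, 1 ≤ j → j ≤ i → 4 * (B : ℝ) ≤ t j)
    (c : ℕ → ℝ) (m' : ℕ → ℕ) (hm' : ∀ k, 1 ≤ k → k ≤ i → (m' k : ℝ) + c k ≤ m k)
    (hpos : ∀ k, 1 ≤ k → k ≤ i → 0 < m' k) {u v v' : Fin n} (h1 : u ≠ v) (h2 : u ≠ v')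
    (h3 : v ≠ v') (S : Finset (Sym2 (Fin n))) :
    (if Gd p (4 * d) (ν * n / 4) t m i S ∧ Gc c i S then wt S u v v' i B else 0) ≤
      ∑ j ∈ Finset.range i, 2 * Real.exp (-(t (j + 1) ^ 2 / (64 * (1 + 4 * d) ^ (j + 1)))) +
      ((2 * B + 1) ^ (2 * i) * ∏ k ∈ Finset.range i, (1 / (m' (k + 1) : ℝ))) *
        (if HE L m p (ν * n / 4) S u v (i - 1) then (1 : ℝ) else 0) := by
  have hs0 : 0 ≤ ∑ j ∈ Finset.range i,
      2 * Real.exp (-(t (j + 1) ^ 2 / (64 * (1 + 4 * d) ^ (j + 1)))) :=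
    Finset.sum_nonneg fun j _ => by positivity
  have hp0 : (0 : ℝ) ≤ (2 * B + 1) ^ (2 * i) * ∏ k ∈ Finset.range i, (1 / (m' (k + 1) : ℝ)) :=
    mul_nonneg (by positivity) (Finset.prod_nonneg fun j _ => by positivity)
  have hi0 : (0 : ℝ) ≤ (if HE L m p (ν * n / 4) S u v (i - 1) then (1 : ℝ) else 0) := by
    split_ifs <;> norm_num
  by_cases hG' : Gd p (4 * d) (ν * n / 4) t m i S ∧ Gc c i S
  · rw [if_pos hG']
    obtain ⟨hG, hGc⟩ := hG'
    by_cases hN : ∀ j, 1 ≤ j → j ≤ i → |((sp S u j).card : ℝ) - (sp S v j).card| ≤ t j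
    · rw [if_pos (he_of_good h hG h1 hN), mul_one]
      have ha : ∀ k, 1 ≤ k → k ≤ i → m' k ≤ (sp S v k \ (bl S u k ∪ bl S v' k)).card := by
        intro k hk1 hk
        have e1 : (m k : ℝ) ≤ ((sp S v k \ bl S u k).card : ℝ) := by
          exact_mod_cast hG.2.2.2.1 v u h1.symm k hk
        have e2 := PR3_card S u v v' k (m k) (c k) (m' k) e1 (hGc v v' h3 k hk) (hm' k hk1 hk)
        exact_mod_cast e2
      have hb : ∀ k, 1 ≤ k → k ≤ i → m' k ≤ (sp S v' k \ (bl S u k ∪ bl S v k)).card := by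
        intro k hk1 hk
        have e1 : (m k : ℝ) ≤ ((sp S v' k \ bl S u k).card : ℝ) := by
          exact_mod_cast hG.2.2.2.1 v' u h2.symm k hk
        have e2 := PR3_card S u v' v k (m k) (c k) (m' k) e1 (hGc v' v h3.symm k hk)
          (hm' k hk1 hk)
        exact_mod_cast e2
      have hw := wt_prod S u v v' i B m' ha hb
      have hpos : 0 < ∏ k ∈ Finset.range i, (m' (k + 1) : ℝ) := by
        refine Finset.prod_pos fun k hk => ?_
        exact_mod_cast hpos (k + 1) (by omega) (by have := Finset.mem_range.1 hk; omega)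
      have hw2 : wt S u v v' i B ≤
          (2 * B + 1) ^ (2 * i) * ∏ k ∈ Finset.range i, (1 / (m' (k + 1) : ℝ)) := by
        rw [Finset.prod_div_distrib, Finset.prod_const_one, mul_one_div, le_div_iff₀ hpos]
        exact hw
      linarith
    · push Not at hN
      obtain ⟨j, hj1, hji, hj⟩ := hN
      obtain ⟨k, rfl⟩ : ∃ k, j = k + 1 := ⟨j - 1, by omega⟩
      have hd : (0 : ℝ) ≤ 4 * d := by have := h.hd1; linarith
      have hdeg : ∀ w : Fin n, ((sp S w (k + 1)).card : ℝ) ≤ (1 + 4 * d) ^ (k + 1) := by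
        intro w
        have h1 : ((sp S w (k + 1)).card : ℝ) ≤ ((bl S w (k + 1)).card : ℝ) := by
          exact_mod_cast Finset.card_le_card sp_subset
        exact h1.trans (bl_card_le S (4 * d) hd hG.1 w (k + 1))
      have hN : ((sp S u (k + 1)).card : ℝ) + (sp S v (k + 1)).card ≤
          2 * (1 + 4 * d) ^ (k + 1) := by
        have := hdeg u
        have := hdeg v
        linarith
      have hw := wn_tail S u v i B (k + 1) hj1 hji (2 * (1 + 4 * d) ^ (k + 1)) (t (k + 1))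
        (h.ht k (by omega)).1 (hB (k + 1) hj1 hji) hj.le hN
      have hw3 := wt_le S u v v' i B
      have hs : 2 * Real.exp (-(t (k + 1) ^ 2 / (64 * (1 + 4 * d) ^ (k + 1)))) ≤
          ∑ j ∈ Finset.range i,
            2 * Real.exp (-(t (j + 1) ^ 2 / (64 * (1 + 4 * d) ^ (j + 1)))) :=
        Finset.single_le_sum
          (f := fun j => 2 * Real.exp (-(t (j + 1) ^ 2 / (64 * (1 + 4 * d) ^ (j + 1)))))
          (fun j _ => by positivity) (Finset.mem_range.2 (by omega))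
      have he : (32 * (2 * (1 + 4 * d) ^ (k + 1)) : ℝ) = 64 * (1 + 4 * d) ^ (k + 1) := by ring
      rw [he] at hw
      have := mul_nonneg hp0 hi0
      linarith
  · rw [if_neg hG']
    exact add_nonneg hs0 (mul_nonneg hp0 hi0)

/-- PR3 -/
theorem near_triple {i : ℕ} {p d ν : ℝ} {t L V : ℕ → ℝ} {m : ℕ → ℕ}
    (h : Hyp n i p d ν t L V m) (B : ℕ) (hB : ∀ j, 1 ≤ j → j ≤ i → 4 * (B : ℝ) ≤ t j)
    (c : ℕ → ℝ) (m' : ℕ → ℕ) (hm' : ∀ k, 1 ≤ k → k ≤ i → (m' k : ℝ) + c k ≤ m k)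
    (hpos : ∀ k, 1 ≤ k → k ≤ i → 0 < m' k) {u v v' : Fin n} (h1 : u ≠ v) (h2 : u ≠ v')
    (h3 : v ≠ v') :
    ex p (E n) (fun S => if Gd p (4 * d) (ν * n / 4) t m i S ∧ Gc c i S then
      wt S u v v' i B else 0) ≤ pb3 n i B p d ν t L m m' := by
  refine (ex_mono h.hp0 h.hp1 fun S _ =>
    PR3_point h B hB c m' hm' hpos h1 h2 h3 S).trans ?_
  rw [ex_add, ex_const, ex_mul_left, ← pr_def]
  unfold pb3
  have hn : (0 : ℝ) ≤ ν * n / 4 := by
    have := h.hν
    positivity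
  have hc := chain h.hp0 h.hp1 u v L m (ν * n / 4) hn h.hL0 (i - 1)
  have hpos' : ∀ k, k < i → 0 < √((1 - (1 - p) ^ (m k)) * (ν * n / 4)) := by
    intro k hk
    refine Real.sqrt_pos.2 ?_
    have h1 := h.hm k hk
    have h2 : (0 : ℝ) < (m (k + 1) : ℝ) := by exact_mod_cast h.hmpos (k + 1) (by omega)
    linarith
  have hP : 0 < ∏ k ∈ Finset.range (i - 1), √((1 - (1 - p) ^ (m k)) * (ν * n / 4)) :=
    Finset.prod_pos fun k hk => hpos' k (by have := Finset.mem_range.1 hk; omega)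
  have hc2 : pr p (E n) (fun S => HE L m p (ν * n / 4) S u v (i - 1)) ≤
      ∏ k ∈ Finset.range (i - 1), (4 * (2 * L (k + 1) + 1) /
        √((1 - (1 - p) ^ (m k)) * (ν * n / 4))) := by
    rw [Finset.prod_div_distrib, le_div_iff₀ hP]
    exact hc
  have hp0 : (0 : ℝ) ≤ (2 * B + 1) ^ (2 * i) * ∏ k ∈ Finset.range i, (1 / (m' (k + 1) : ℝ)) :=
    mul_nonneg (by positivity) (Finset.prod_nonneg fun j _ => by positivity)
  have h3 := mul_le_mul_of_nonneg_right hc2 hp0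
  rw [mul_comm ((2 * (B : ℝ) + 1) ^ (2 * i) * ∏ k ∈ Finset.range i, (1 / (m' (k + 1) : ℝ)))]
  linarith

end Pool.Agent.MDF
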