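import Pool.Agent.MDF.Defs2
import Pool.Agent.MDF.PR2
import Pool.Agent.MDF.PR3
import Pool.Agent.MDF.EXW
import Pool.Agent.MDF.ALS
import Pool.Agent.MDF.CMP
import Pool.Agent.MDF.GPR

set_option autoImplicit false

open scoped Classical

namespace Pool.Agent.MDF

open Finset Pool.Agent.MD437

variable {n : ℕ}

private lemma TO2_pb2_nonneg {i : ℕ} {p d ν : ℝ} {t L V : ℕ → ℝ} {m : ℕ → ℕ}
    (h : Hyp n i p d ν t L V m) (B : ℕ) : 0 ≤ pb2 n i B p d ν t L m := by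
  unfold pb2
  refine add_nonneg (Finset.sum_nonneg fun j _ => by positivity) (mul_nonneg ?_ ?_)
  · refine Finset.prod_nonneg fun k _ => div_nonneg ?_ (Real.sqrt_nonneg _)
    have := h.hL0 (k + 1)
    linarith
  · refine mul_nonneg (by positivity) ?_
    exact Finset.prod_nonneg fun k _ => div_nonneg zero_le_one (Real.sqrt_nonneg _)

private lemma TO2_pb3_nonneg {i : ℕ} {p d ν : ℝ} {t L V : ℕ → ℝ} {m : ℕ → ℕ}
    (h : Hyp n i p d ν t L V m) (B : ℕ) (m' : ℕ → ℕ) : 0 ≤ pb3 n i B p d ν t L m m' := by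
  unfold pb3
  refine add_nonneg (Finset.sum_nonneg fun j _ => by positivity) (mul_nonneg ?_ ?_)
  · refine Finset.prod_nonneg fun k _ => div_nonneg ?_ (Real.sqrt_nonneg _)
    have := h.hL0 (k + 1)
    linarith
  · refine mul_nonneg (by positivity) ?_
    exact Finset.prod_nonneg fun k _ => div_nonneg zero_le_one (Nat.cast_nonneg _)

private lemma TO2_cc_nonneg {D : ℝ} {κ : ℕ → ℝ} (hD : 0 ≤ D) (hκ : ∀ j, 0 ≤ κ j) (j : ℕ) :
    0 ≤ cc D κ j := by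
  induction j with
  | zero => exact le_refl _
  | succ j ih =>
    have h1 := hκ j
    show 0 ≤ (1 + D) * cc D κ j + 3 * κ j
    positivity

private lemma TO2_d {i : ℕ} {p d ν : ℝ} {t L V : ℕ → ℝ} {m : ℕ → ℕ}
    (h : Hyp n i p d ν t L V m) : 0 ≤ 4 * d := by
  have := h.hd1
  linarith

/-- Markov for the near pairs -/
private lemma TO2_C {i : ℕ} {p d ν : ℝ} {t L V : ℕ → ℝ} {m : ℕ → ℕ}
    (h : Hyp n i p d ν t L V m) (B : ℕ) (hB : ∀ j, 1 ≤ j → j ≤ i → 4 * (B : ℝ) ≤ t j)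
    (T0 : ℝ) (hT0 : 0 < T0) :
    pr p (E n) (fun S => Gd p (4 * d) (ν * n / 4) t m i S ∧
      T0 / 3 < ∑ u : Fin n, ∑ v : Fin n, (if u ≠ v then wn S u v i B else 0)) ≤
      3 / T0 * ((n : ℝ) ^ 2 * pb2 n i B p d ν t L m) := by
  have hp0 := h.hp0
  have hp1 := h.hp1
  have hwn : ∀ S (u v : Fin n), 0 ≤ wn S u v i B := fun S u v =>
    pr_nonneg (by norm_num) (by norm_num) _ _
  have hpb := TO2_pb2_nonneg h B
  have h2 : pr p (E n) (fun S => Gd p (4 * d) (ν * n / 4) t m i S ∧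
      T0 / 3 < ∑ u : Fin n, ∑ v : Fin n, (if u ≠ v then wn S u v i B else 0)) ≤
      ex p (E n) (fun S => 3 / T0 * ∑ u : Fin n, ∑ v : Fin n,
        (if Gd p (4 * d) (ν * n / 4) t m i S then (if u ≠ v then wn S u v i B else 0) else 0)) := by
    rw [pr_def]
    refine ex_mono hp0 hp1 fun S _ => ?_
    by_cases hS : Gd p (4 * d) (ν * n / 4) t m i S ∧
      T0 / 3 < ∑ u : Fin n, ∑ v : Fin n, (if u ≠ v then wn S u v i B else 0)
    · rw [if_pos hS]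
      have e1 : ∑ u : Fin n, ∑ v : Fin n,
          (if Gd p (4 * d) (ν * n / 4) t m i S then (if u ≠ v then wn S u v i B else 0) else 0) =
          ∑ u : Fin n, ∑ v : Fin n, (if u ≠ v then wn S u v i B else 0) :=
        Finset.sum_congr rfl fun u _ => Finset.sum_congr rfl fun v _ => by rw [if_pos hS.1]
      rw [e1]
      have e2 : (1 : ℝ) = 3 / T0 * (T0 / 3) := by
        field_simp
      rw [e2]
      exact mul_le_mul_of_nonneg_left hS.2.le (by positivity)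
    · rw [if_neg hS]
      refine mul_nonneg (by positivity) (Finset.sum_nonneg fun u _ => Finset.sum_nonneg fun v _ => ?_)
      split_ifs
      · exact hwn S u v
      · exact le_refl _
      · exact le_refl _
  refine h2.trans ?_
  rw [ex_mul_left, ex_sum]
  refine mul_le_mul_of_nonneg_left ?_ (by positivity)
  refine (Finset.sum_le_sum (g := fun _ : Fin n => (n : ℝ) * pb2 n i B p d ν t L m)
    fun u _ => ?_).trans ?_
  · rw [ex_sum]
    refine (Finset.sum_le_sum (g := fun _ : Fin n => pb2 n i B p d ν t L m)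
      fun v _ => ?_).trans ?_
    · by_cases huv : u ≠ v
      · refine le_trans (le_of_eq (ex_congr p fun S _ => ?_)) (near_pair h B hB huv)
        rw [if_pos huv]
      · refine le_trans (le_of_eq ?_) hpb
        refine (ex_congr p (g := fun _ => (0 : ℝ)) fun S _ => ?_).trans (ex_const p _ 0)
        rw [if_neg huv]
        split_ifs <;> rfl
    · rw [Finset.sum_const, nsmul_eq_mul, Finset.card_univ, Fintype.card_fin]
  · rw [Finset.sum_const, nsmul_eq_mul, Finset.card_univ, Fintype.card_fin]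
    exact le_of_eq (by ring)

/-- Markov for the near triples -/
private lemma TO2_D {i : ℕ} {p d ν : ℝ} {t L V : ℕ → ℝ} {m : ℕ → ℕ}
    (h : Hyp n i p d ν t L V m) (B : ℕ) (hB : ∀ j, 1 ≤ j → j ≤ i → 4 * (B : ℝ) ≤ t j)
    (c : ℕ → ℝ) (m' : ℕ → ℕ) (hm' : ∀ k, 1 ≤ k → k ≤ i → (m' k : ℝ) + c k ≤ m k)
    (hpos : ∀ k, 1 ≤ k → k ≤ i → 0 < m' k) :
    pr p (E n) (fun S => (Gd p (4 * d) (ν * n / 4) t m i S ∧ Gc c i S) ∧
      1 / 3 < ∑ u : Fin n, ∑ v : Fin n, ∑ v' : Fin n,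
        (if u ≠ v ∧ u ≠ v' ∧ v ≠ v' then wt S u v v' i B else 0)) ≤
      3 * ((n : ℝ) ^ 3 * pb3 n i B p d ν t L m m') := by
  have hp0 := h.hp0
  have hp1 := h.hp1
  have hwt : ∀ S (u v v' : Fin n), 0 ≤ wt S u v v' i B := fun S u v v' =>
    pr_nonneg (by norm_num) (by norm_num) _ _
  have hpb := TO2_pb3_nonneg h B m'
  have h2 : pr p (E n) (fun S => (Gd p (4 * d) (ν * n / 4) t m i S ∧ Gc c i S) ∧
      1 / 3 < ∑ u : Fin n, ∑ v : Fin n, ∑ v' : Fin n,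
        (if u ≠ v ∧ u ≠ v' ∧ v ≠ v' then wt S u v v' i B else 0)) ≤
      ex p (E n) (fun S => 3 * ∑ u : Fin n, ∑ v : Fin n, ∑ v' : Fin n,
        (if Gd p (4 * d) (ν * n / 4) t m i S ∧ Gc c i S then
          (if u ≠ v ∧ u ≠ v' ∧ v ≠ v' then wt S u v v' i B else 0) else 0)) := by
    rw [pr_def]
    refine ex_mono hp0 hp1 fun S _ => ?_
    by_cases hS : (Gd p (4 * d) (ν * n / 4) t m i S ∧ Gc c i S) ∧
      1 / 3 < ∑ u : Fin n, ∑ v : Fin n, ∑ v' : Fin n,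
        (if u ≠ v ∧ u ≠ v' ∧ v ≠ v' then wt S u v v' i B else 0)
    · rw [if_pos hS]
      have e1 : ∑ u : Fin n, ∑ v : Fin n, ∑ v' : Fin n,
          (if Gd p (4 * d) (ν * n / 4) t m i S ∧ Gc c i S then
            (if u ≠ v ∧ u ≠ v' ∧ v ≠ v' then wt S u v v' i B else 0) else 0) =
          ∑ u : Fin n, ∑ v : Fin n, ∑ v' : Fin n,
            (if u ≠ v ∧ u ≠ v' ∧ v ≠ v' then wt S u v v' i B else 0) :=
        Finset.sum_congr rfl fun u _ => Finset.sum_congr rfl fun v _ =>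
          Finset.sum_congr rfl fun v' _ => by rw [if_pos hS.1]
      rw [e1]
      linarith [hS.2]
    · rw [if_neg hS]
      refine mul_nonneg (by norm_num) (Finset.sum_nonneg fun u _ => Finset.sum_nonneg fun v _ =>
        Finset.sum_nonneg fun v' _ => ?_)
      split_ifs
      · exact hwt S u v v'
      · exact le_refl _
      · exact le_refl _
  refine h2.trans ?_
  rw [ex_mul_left, ex_sum]
  refine mul_le_mul_of_nonneg_left ?_ (by norm_num)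
  refine (Finset.sum_le_sum (g := fun _ : Fin n => (n : ℝ) * ((n : ℝ) * pb3 n i B p d ν t L m m'))
    fun u _ => ?_).trans ?_
  · rw [ex_sum]
    refine (Finset.sum_le_sum (g := fun _ : Fin n => (n : ℝ) * pb3 n i B p d ν t L m m')
      fun v _ => ?_).trans ?_
    · rw [ex_sum]
      refine (Finset.sum_le_sum (g := fun _ : Fin n => pb3 n i B p d ν t L m m')
        fun v' _ => ?_).trans ?_
      · by_cases huv : u ≠ v ∧ u ≠ v' ∧ v ≠ v'
        · refine le_trans (le_of_eq (ex_congr p fun S _ => ?_))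
            (near_triple h B hB c m' hm' hpos huv.1 huv.2.1 huv.2.2)
          rw [if_pos huv]
        · refine le_trans (le_of_eq ?_) hpb
          refine (ex_congr p (g := fun _ => (0 : ℝ)) fun S _ => ?_).trans (ex_const p _ 0)
          rw [if_neg huv]
          split_ifs <;> rfl
      · rw [Finset.sum_const, nsmul_eq_mul, Finset.card_univ, Fintype.card_fin]
    · rw [Finset.sum_const, nsmul_eq_mul, Finset.card_univ, Fintype.card_fin]
  · rw [Finset.sum_const, nsmul_eq_mul, Finset.card_univ, Fintype.card_fin]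
    exact le_of_eq (by ring)

/-- TO2 -/
theorem total2 {i : ℕ} {p d ν : ℝ} {t L V : ℕ → ℝ} {m : ℕ → ℕ} (h : Hyp n i p d ν t L V m)
    (K : ℕ) (hB : ∀ j, 1 ≤ j → j ≤ i → 4 * ((2 * K + 1 : ℕ) : ℝ) ≤ t j) (μ κ : ℕ → ℝ)
    (hμ1 : ∀ j < i, p * ((1 + 4 * d) ^ j * (1 + 4 * d) ^ j) ≤ μ j)
    (hμ2 : ∀ j < i, (n : ℝ) * (p ^ 2 * ((1 + 4 * d) ^ j * (1 + 4 * d) ^ j)) ≤ μ j)
    (hκ : ∀ j, 0 ≤ κ j) (m' : ℕ → ℕ)
    (hm' : ∀ k, 1 ≤ k → k ≤ i → (m' k : ℝ) + cc (4 * d) κ k ≤ m k)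
    (hpos : ∀ k, 1 ≤ k → k ≤ i → 0 < m' k) (T0 : ℝ) (hT0 : 0 < T0)
    (h1 : T0 * cc (4 * d) κ i ≤ m i / 2)
    (h2 : (n : ℝ) * (T0 * (2 * cc (4 * d) κ i / m i)) ^ K < 1) :
    pr p (E n) (fun S => ¬ ((∀ u, bl S u (i + 1) = Finset.univ) ∧ ∃ W : Finset (Fin n),
      ∀ u v, u ≠ v → ∃ j, (W ∩ sp S u j).card ≠ (W ∩ sp S v j).card)) ≤
      gb n i p d ν t V m + (n : ℝ) ^ 2 * ∑ j ∈ Finset.range i, 2 * Real.exp (2 * μ j - κ j) +
      3 / T0 * ((n : ℝ) ^ 2 * pb2 n i (2 * K + 1) p d ν t L m) +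
      3 * ((n : ℝ) ^ 3 * pb3 n i (2 * K + 1) p d ν t L m m') := by
  have hp0 := h.hp0
  have hp1 := h.hp1
  have hd := TO2_d h
  obtain ⟨QA, hQA⟩ : ∃ QA : Finset (Sym2 (Fin n)) → Prop,
    QA = fun S => ¬ Gd p (4 * d) (ν * n / 4) t m i S := ⟨_, rfl⟩
  obtain ⟨QB, hQB⟩ : ∃ QB : Finset (Sym2 (Fin n)) → Prop,
    QB = fun S => (∀ u, ((nb S u).card : ℝ) ≤ 4 * d) ∧ ¬ Gc (cc (4 * d) κ) i S := ⟨_, rfl⟩
  obtain ⟨QC, hQC⟩ : ∃ QC : Finset (Sym2 (Fin n)) → Prop,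
    QC = fun S => Gd p (4 * d) (ν * n / 4) t m i S ∧
      T0 / 3 < ∑ u : Fin n, ∑ v : Fin n, (if u ≠ v then wn S u v i (2 * K + 1) else 0) :=
    ⟨_, rfl⟩
  obtain ⟨QD, hQD⟩ : ∃ QD : Finset (Sym2 (Fin n)) → Prop,
    QD = fun S => (Gd p (4 * d) (ν * n / 4) t m i S ∧ Gc (cc (4 * d) κ) i S) ∧
      1 / 3 < ∑ u : Fin n, ∑ v : Fin n, ∑ v' : Fin n,
        (if u ≠ v ∧ u ≠ v' ∧ v ≠ v' then wt S u v v' i (2 * K + 1) else 0) := ⟨_, rfl⟩
  have hA : pr p (E n) QA ≤ gb n i p d ν t V m := by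
    rw [hQA]
    exact gd_prob h
  have hBB : pr p (E n) QB ≤
      (n : ℝ) ^ 2 * ∑ j ∈ Finset.range i, 2 * Real.exp (2 * μ j - κ j) := by
    rw [hQB]
    exact cm_prob hp0 hp1 hd μ κ i hμ1 hμ2
  have hC : pr p (E n) QC ≤ 3 / T0 * ((n : ℝ) ^ 2 * pb2 n i (2 * K + 1) p d ν t L m) := by
    rw [hQC]
    exact TO2_C h (2 * K + 1) hB T0 hT0
  have hD : pr p (E n) QD ≤ 3 * ((n : ℝ) ^ 3 * pb3 n i (2 * K + 1) p d ν t L m m') := by
    rw [hQD]
    exact TO2_D h (2 * K + 1) hB (cc (4 * d) κ) m' hm' hpos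
  have hAB := pr_or hp0 hp1 (E n) QA QB
  have hABC := pr_or hp0 hp1 (E n) (fun S => QA S ∨ QB S) QC
  have hABCD := pr_or hp0 hp1 (E n) (fun S => (QA S ∨ QB S) ∨ QC S) QD
  have hmain : pr p (E n) (fun S => ¬ ((∀ u, bl S u (i + 1) = Finset.univ) ∧
      ∃ W : Finset (Fin n), ∀ u v, u ≠ v → ∃ j, (W ∩ sp S u j).card ≠ (W ∩ sp S v j).card)) ≤
      pr p (E n) (fun S => ((QA S ∨ QB S) ∨ QC S) ∨ QD S) := by
    refine pr_mono hp0 hp1 fun S _ hS => ?_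
    by_contra hcon
    apply hS
    rw [not_or, not_or, not_or] at hcon
    obtain ⟨⟨⟨nA, nB⟩, nC⟩, nD⟩ := hcon
    rw [hQA] at nA
    rw [hQB] at nB
    rw [hQC] at nC
    rw [hQD] at nD
    have hG : Gd p (4 * d) (ν * n / 4) t m i S := not_not.1 nA
    have hGc : Gc (cc (4 * d) κ) i S := by
      by_contra hg
      exact nB ⟨hG.1, hg⟩
    have s1 : ∑ u : Fin n, ∑ v : Fin n, (if u ≠ v then wn S u v i (2 * K + 1) else 0) ≤ T0 / 3 := by
      by_contra hs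
      exact nC ⟨hG, not_le.1 hs⟩
    have s2 : ∑ u : Fin n, ∑ v : Fin n, ∑ v' : Fin n,
        (if u ≠ v ∧ u ≠ v' ∧ v ≠ v' then wt S u v v' i (2 * K + 1) else 0) ≤ 1 / 3 := by
      by_contra hs
      exact nD ⟨⟨hG, hGc⟩, not_le.1 hs⟩
    obtain ⟨W, hW1, hW2⟩ := exists_W S i (2 * K + 1) T0 hT0 s1 s2
    refine ⟨hG.2.2.2.2, ?_⟩
    refine alter_exists S W i K (m i) (by have := h.hi; omega) (cc (4 * d) κ i) T0
      (h.hmpos i le_rfl) (TO2_cc_nonneg hd hκ i) hT0.le ?_ (fun u v huv => hGc u v huv i le_rfl)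
      hW1 h1 h2 hW2
    intro u
    obtain ⟨v, hv⟩ : ∃ v : Fin n, u ≠ v := by
      have hn := h.hn
      by_cases hu : u = ⟨0, by omega⟩
      · refine ⟨⟨1, by omega⟩, ?_⟩
        rw [hu]
        intro hh
        exact absurd (congrArg Fin.val hh) (by norm_num)
      · exact ⟨⟨0, by omega⟩, hu⟩
    exact (hG.2.2.2.1 u v hv i le_rfl).trans (Finset.card_le_card Finset.sdiff_subset)
  linarith

end Pool.Agent.MDF
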