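import Pool.Agent.MDF.Defs2
import Pool.Agent.MDF.TO2
import Pool.Agent.MDF.ASB
import Pool.Agent.MDF.AC1
import Pool.Agent.MDF.AC2
import Pool.Agent.MDF.AC3
import Pool.Agent.MDF.AC4
import Pool.Agent.MDF.AC5

set_option autoImplicit false

open scoped Classical

namespace Pool.Agent.MDF

open Finset Pool.Agent.MD437

variable {n : ℕ}

lemma FI2_kaN_nonneg (x δ : ℝ) (n j : ℕ) : 0 ≤ kaN x δ n j := by
  unfold kaN muN dN
  positivity

/-- FI2 -/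
theorem main_tendsto2 (i : ℕ) (x : ℝ) (hi : 2 ≤ i) (hx0 : 0 < x) (hx1 : i * x < 1)
    (hx2 : 1 < (i + 1) * x) (hs1 : 1 + i * x < x * (i * (i + 1) / 4 + (i - 1) / 2))
    (hs2 : x * (i * (i + 1) / 4 + (i - 1) / 2) ≤ 2)
    (hs3 : 3 < x * (i * (i + 1) / 2 + (i - 1) / 2)) :
    Filter.Tendsto (fun n : ℕ => pr (pN x n) (E n) (fun S =>
      ¬ ((∀ u, bl S u (i + 1) = Finset.univ) ∧ ∃ W : Finset (Fin n),
      ∀ u v, u ≠ v → ∃ j, (W ∩ sp S u j).card ≠ (W ∩ sp S v j).card))) Filter.atTop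
      (nhds 0) := by
  have hi' : (2 : ℝ) ≤ i := by exact_mod_cast hi
  obtain ⟨s, hsdef⟩ : ∃ s : ℝ, s = x * (i * (i + 1) / 4 + (i - 1) / 2) := ⟨_, rfl⟩
  obtain ⟨r, hrdef⟩ : ∃ r : ℝ, r = x * (i * (i + 1) / 2 + (i - 1) / 2) := ⟨_, rfl⟩
  rw [← hsdef] at hs1 hs2
  rw [← hrdef] at hs3
  obtain ⟨τ, hτdef⟩ : ∃ τ : ℝ, τ = ((2 - s) + (1 - i * x)) / 2 := ⟨_, rfl⟩
  have hτ : 0 < τ := by rw [hτdef]; linarith
  have hτx : τ < 1 - i * x := by rw [hτdef]; linarith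
  have hτs : 0 < τ + s - 2 := by rw [hτdef]; linarith
  obtain ⟨δ, hδdef⟩ : ∃ δ : ℝ, δ = min x ((i + 1) * x - 1) / 2 := ⟨_, rfl⟩
  have hmin : 0 < min x ((i + 1) * x - 1) := lt_min hx0 (by linarith)
  have hδ : 0 < δ := by rw [hδdef]; linarith
  have hδx : δ < x := by
    have := min_le_left x ((i + 1) * x - 1)
    rw [hδdef]; linarith
  have hδx2 : δ < (i + 1) * x - 1 := by
    have := min_le_right x ((i + 1) * x - 1)
    rw [hδdef]; linarith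
  obtain ⟨ε, hεdef⟩ : ∃ ε : ℝ, ε = min (x / 2) (min ((τ + s - 2) / (2 * i)) ((r - 3) / (2 * i))) :=
    ⟨_, rfl⟩
  have h2i : (0 : ℝ) < 2 * i := by linarith
  have hε : 0 < ε := by
    rw [hεdef]
    exact lt_min (by linarith) (lt_min (div_pos hτs h2i) (div_pos (by linarith) h2i))
  have hεx : ε ≤ x / 2 := by rw [hεdef]; exact min_le_left _ _
  have hε1 : ε * (2 * i) ≤ τ + s - 2 := by
    have h : ε ≤ (τ + s - 2) / (2 * i) := by
      rw [hεdef]; exact (min_le_right _ _).trans (min_le_left _ _)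
    rwa [le_div_iff₀ h2i] at h
  have hε2 : ε * (2 * i) ≤ r - 3 := by
    have h : ε ≤ (r - 3) / (2 * i) := by
      rw [hεdef]; exact (min_le_right _ _).trans (min_le_right _ _)
    rwa [le_div_iff₀ h2i] at h
  have hS2 : 2 + (i - 1) * ε < τ + x * (i * (i + 1) / 4 + (i - 1) / 2) := by
    rw [← hsdef]; nlinarith
  have hS3 : 3 + (i - 1) * ε < x * (i * (i + 1) / 2 + (i - 1) / 2) := by
    rw [← hrdef]; nlinarith
  obtain ⟨K, hK⟩ := exists_nat_gt (1 / (1 - i * x - τ))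
  have hK1 : 1 < K * (1 - i * x - τ) := by
    rwa [div_lt_iff₀ (by linarith)] at hK
  have hg := gb_tendsto i x ε hi hx0 hx1.le hx2 hε hεx
  have hk := ka_tendsto i x δ hδ
  have hp2 := pb2_tendsto i (2 * K + 1) x ε τ hi hx0 hx1.le hε hεx hτ hS2
  have hp3 := pb3_tendsto i (2 * K + 1) x ε δ hi hx0 hx1 hε hεx hδ hδx hS3
  have hsum := ((hg.add hk).add hp2).add hp3
  simp only [add_zero] at hsum
  refine tendsto_of_tendsto_of_tendsto_of_le_of_le' tendsto_const_nhds hsum ?_ ?_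
  · filter_upwards [hyp_eventually i x ε hi hx0 hx1.le hε hεx] with n hn
    exact pr_nonneg hn.hp0 hn.hp1 _ _
  · filter_upwards [hyp_eventually i x ε hi hx0 hx1.le hε hεx,
      tN_ge i (2 * K + 1) x ε hx0 hε, mu_ok i x hi hx0 hx1.le,
      cc_small i x δ hi hx0 hx1 hδ hδx,
      top_ok i K x δ τ hi hx0 hx1 hδ hδx2 hτ hτx hK1,
      Filter.eventually_gt_atTop 0] with n hn hB hμ hcc htop hn0
    have hn0' : (0 : ℝ) < (n : ℝ) := by exact_mod_cast hn0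
    exact total2 hn K (fun j h1 h2 => hB j h1 h2) (muN x n) (kaN x δ n)
      (fun j hj => (hμ j hj).1) (fun j hj => (hμ j hj).2) (FI2_kaN_nonneg x δ n)
      (mhN x i n) (fun k h1 h2 => (hcc k h1 h2).1) (fun k h1 h2 => (hcc k h1 h2).2.1)
      ((n : ℝ) ^ τ) (Real.rpow_pos_of_pos hn0' τ) htop.1 htop.2

end Pool.Agent.MDF
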