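import Pool.Agent.MDF.Defs

set_option autoImplicit false

open scoped Classical

namespace Pool.Agent.MDF

open Finset Pool.Agent.MD437

variable {n : ℕ}

lemma MKV_one (S : Finset (Sym2 (Fin n))) (i : ℕ)
    (h : ¬ ∃ W : Finset (Fin n), ∀ u v, u ≠ v →
      ∃ j, 1 ≤ j ∧ j ≤ i ∧ (W ∩ sp S u j).card ≠ (W ∩ sp S v j).card) :
    (1 : ℝ) ≤ ∑ q ∈ (Finset.univ : Finset (Fin n × Fin n)).filter (fun q => q.1 ≠ q.2),
      wf S q.1 q.2 i := by
  have h0 : (0 : ℝ) ≤ 1 / 2 := by norm_num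
  have h1 : (1 / 2 : ℝ) ≤ 1 := by norm_num
  have h2 := pr_union h0 h1 (Finset.univ : Finset (Fin n))
    ((Finset.univ : Finset (Fin n × Fin n)).filter (fun q => q.1 ≠ q.2))
    (fun q W => ∀ j, 1 ≤ j → j ≤ i → (W ∩ sp S q.1 j).card = (W ∩ sp S q.2 j).card)
  refine le_trans ?_ h2
  rw [pr_def]
  have h3 : ex (1 / 2 : ℝ) (Finset.univ : Finset (Fin n)) (fun _ => (1 : ℝ)) = 1 := ex_const _ _ _
  refine (le_of_eq h3.symm).trans (ex_mono h0 h1 fun W _ => ?_)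
  have h4 : ∃ q ∈ (Finset.univ : Finset (Fin n × Fin n)).filter (fun q => q.1 ≠ q.2),
      ∀ j, 1 ≤ j → j ≤ i → (W ∩ sp S q.1 j).card = (W ∩ sp S q.2 j).card := by
    by_contra hcon
    apply h
    refine ⟨W, fun u v huv => ?_⟩
    by_contra hc
    apply hcon
    refine ⟨(u, v), Finset.mem_filter.2 ⟨Finset.mem_univ _, huv⟩, fun j hj1 hj2 => ?_⟩
    by_contra hne
    exact hc ⟨j, hj1, hj2, hne⟩
  rw [if_pos h4]

/-- MKV -/
theorem markov {i : ℕ} {p D N0 β : ℝ} {t : ℕ → ℝ} {m : ℕ → ℕ} (hp0 : 0 ≤ p) (hp1 : p ≤ 1)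
    (hβ : 0 ≤ β)
    (h : ∀ u v : Fin n, u ≠ v →
      ex p (E n) (fun S => if Gd p D N0 t m i S then wf S u v i else 0) ≤ β) :
    pr p (E n) (fun S => Gd p D N0 t m i S ∧ ¬ ∃ W : Finset (Fin n), ∀ u v, u ≠ v →
      ∃ j, 1 ≤ j ∧ j ≤ i ∧ (W ∩ sp S u j).card ≠ (W ∩ sp S v j).card) ≤ (n : ℝ) ^ 2 * β := by
  have h2 : pr p (E n) (fun S => Gd p D N0 t m i S ∧ ¬ ∃ W : Finset (Fin n), ∀ u v, u ≠ v →
      ∃ j, 1 ≤ j ∧ j ≤ i ∧ (W ∩ sp S u j).card ≠ (W ∩ sp S v j).card) ≤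
      ex p (E n) (fun S => ∑ q ∈ (Finset.univ : Finset (Fin n × Fin n)).filter
        (fun q => q.1 ≠ q.2), if Gd p D N0 t m i S then wf S q.1 q.2 i else 0) := by
    rw [pr_def]
    refine ex_mono hp0 hp1 fun S _ => ?_
    by_cases hS : Gd p D N0 t m i S ∧ ¬ ∃ W : Finset (Fin n), ∀ u v, u ≠ v →
      ∃ j, 1 ≤ j ∧ j ≤ i ∧ (W ∩ sp S u j).card ≠ (W ∩ sp S v j).card
    · rw [if_pos hS]
      have h3 := MKV_one S i hS.2
      refine h3.trans (le_of_eq ?_)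
      exact Finset.sum_congr rfl fun q _ => by rw [if_pos hS.1]
    · rw [if_neg hS]
      refine Finset.sum_nonneg fun q _ => ?_
      split_ifs
      · exact pr_nonneg (by norm_num) (by norm_num) _ _
      · exact le_refl _
  refine h2.trans ?_
  rw [ex_sum]
  refine (Finset.sum_le_sum (g := fun _ => β) fun q hq => h q.1 q.2
    (Finset.mem_filter.1 hq).2).trans ?_
  rw [Finset.sum_const, nsmul_eq_mul]
  refine mul_le_mul_of_nonneg_right ?_ hβ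
  have h4 : ((Finset.univ : Finset (Fin n × Fin n)).filter (fun q => q.1 ≠ q.2)).card ≤ n ^ 2 := by
    refine (Finset.card_filter_le _ _).trans (le_of_eq ?_)
    rw [Finset.card_univ, Fintype.card_prod, Fintype.card_fin, sq]
  exact_mod_cast h4

end Pool.Agent.MDF
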