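import Pool.Agent.MDF.Defs
import Pool.Agent.MDF.CEN

set_option autoImplicit false

open scoped Classical

namespace Pool.Agent.MDF

open Finset Pool.Agent.MD437

variable {n : ℕ}

private theorem WPR_pt {α : Type} [DecidableEq α] (F : Finset α) (k : ℕ) :
    ex (1 / 2) F (fun T => if T.card = k then (1 : ℝ) else 0) * √(F.card : ℝ) ≤ 1 := by
  have h : ex (1 / 2) F (fun T => if T.card = k then (1 : ℝ) else 0) =
      (F.card.choose k : ℝ) * (1 / 2) ^ F.card := by
    unfold ex
    have h1 : ∀ S ∈ F.powerset, (1 / 2 : ℝ) ^ S.card * (1 - 1 / 2) ^ (F.card - S.card) *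
        (if S.card = k then (1 : ℝ) else 0) =
        if S.card = k then (1 / 2 : ℝ) ^ F.card else 0 := by
      intro S hS
      have h2 : S.card ≤ F.card := Finset.card_le_card (Finset.mem_powerset.1 hS)
      have h3 : (1 / 2 : ℝ) ^ S.card * (1 - 1 / 2) ^ (F.card - S.card) = (1 / 2) ^ F.card := by
        rw [show (1 - 1 / 2 : ℝ) = 1 / 2 by norm_num, ← pow_add]
        congr 1
        omega
      rw [h3]
      split_ifs <;> simp
    rw [Finset.sum_congr rfl h1, ← Finset.sum_filter, Finset.sum_const, nsmul_eq_mul]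
    congr 1
    rw [← Finset.card_powersetCard, Finset.powersetCard_eq_filter]
  rw [h]
  have h2 := choose_sqrt F.card k
  have h3 : (0 : ℝ) < (1 / 2) ^ F.card := by positivity
  calc (F.card.choose k : ℝ) * (1 / 2) ^ F.card * √(F.card : ℝ)
      = ((F.card.choose k : ℝ) * √(F.card : ℝ)) * (1 / 2) ^ F.card := by ring
    _ ≤ 2 ^ F.card * (1 / 2) ^ F.card := mul_le_mul_of_nonneg_right h2 h3.le
    _ = 1 := by rw [← mul_pow]; norm_num

/-- WPR -/
theorem w_prod {α : Type} [DecidableEq α] (V : Finset α) (A C F : ℕ → Finset α)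
    (hV : ∀ j, A j ⊆ V) (h1 : ∀ j, F j ⊆ A j) (h2 : ∀ j k, k < j → Disjoint (F j) (A k))
    (h3 : ∀ j k, k ≤ j → Disjoint (F j) (C k)) (J : ℕ) :
    pr (1 / 2) V (fun W => ∀ j, 1 ≤ j → j ≤ J → (W ∩ A j).card = (W ∩ C j).card) *
      ∏ j ∈ Finset.range J, √((F (j + 1)).card : ℝ) ≤ 1 := by
  induction J with
  | zero =>
    rw [Finset.range_zero, Finset.prod_empty, mul_one]
    have h := pr_mono (ι := α) (p := 1 / 2) (by norm_num) (by norm_num) (A := V)
      (Q := fun W => ∀ j, 1 ≤ j → j ≤ 0 → (W ∩ A j).card = (W ∩ C j).card)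
      (R := fun _ => True) (fun _ _ _ => trivial)
    refine le_trans h ?_
    rw [pr_def]
    simp [ex_const]
  | succ J ih =>
    set G := F (J + 1) with hG
    have hGV : G ⊆ V := (h1 (J + 1)).trans (hV (J + 1))
    have hVu : V = (V \ G) ∪ G := (Finset.sdiff_union_of_subset hGV).symm
    have hdis : Disjoint (V \ G) G := Finset.sdiff_disjoint
    let EJ : Finset α → Prop := fun W => ∀ j, 1 ≤ j → j ≤ J → (W ∩ A j).card = (W ∩ C j).card
    let ES : Finset α → Prop := fun W => ∀ j, 1 ≤ j → j ≤ J + 1 → (W ∩ A j).card = (W ∩ C j).card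
    have hinter : ∀ (W1 W2 B : Finset α), W2 ⊆ G → Disjoint G B → (W1 ∪ W2) ∩ B = W1 ∩ B := by
      intro W1 W2 B hW2 hB
      rw [Finset.union_inter_distrib_right]
      have h4 : W2 ∩ B = ∅ :=
        Finset.disjoint_iff_inter_eq_empty.1 (Finset.disjoint_of_subset_left hW2 hB)
      rw [h4, Finset.union_empty]
    have hEJ : ∀ W1 W2 : Finset α, W2 ⊆ G → (EJ (W1 ∪ W2) ↔ EJ W1) := by
      intro W1 W2 hW2
      constructor
      · intro h j hj1 hj2
        have := h j hj1 hj2
        rwa [hinter W1 W2 (A j) hW2 (h2 (J + 1) j (by omega)),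
          hinter W1 W2 (C j) hW2 (h3 (J + 1) j (by omega))] at this
      · intro h j hj1 hj2
        rw [hinter W1 W2 (A j) hW2 (h2 (J + 1) j (by omega)),
          hinter W1 W2 (C j) hW2 (h3 (J + 1) j (by omega))]
        exact h j hj1 hj2
    have hprJ : pr (1 / 2) V EJ = ex (1 / 2) (V \ G) (fun W1 => if EJ W1 then (1 : ℝ) else 0) := by
      rw [pr_def]
      conv_lhs => rw [hVu]
      rw [ex_union _ hdis]
      refine ex_congr _ fun W1 _ => ?_
      rw [← ex_const (1 / 2) G (if EJ W1 then (1 : ℝ) else 0)]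
      refine ex_congr _ fun W2 hW2 => ?_
      simp only [hEJ W1 W2 hW2]
    have hstep : pr (1 / 2) V ES * √(G.card : ℝ) ≤ pr (1 / 2) V EJ := by
      rw [hprJ, pr_def]
      conv_lhs => rw [hVu]
      rw [ex_union _ hdis, mul_comm, ← ex_mul_left]
      refine ex_mono (by norm_num) (by norm_num) fun W1 hW1 => ?_
      by_cases hE : EJ W1
      · rw [if_pos hE]
        have h5 : ex (1 / 2) G (fun T => if ES (W1 ∪ T) then (1 : ℝ) else 0) ≤
            ex (1 / 2) G (fun T => if T.card = (W1 ∩ C (J + 1)).card - (W1 ∩ A (J + 1)).card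
              then (1 : ℝ) else 0) := by
          refine ex_mono (by norm_num) (by norm_num) fun T hT => ?_
          by_cases hS : ES (W1 ∪ T)
          · rw [if_pos hS, if_pos]
            have h6 := hS (J + 1) (by omega) le_rfl
            rw [hinter W1 T (C (J + 1)) hT (h3 (J + 1) (J + 1) le_rfl),
              Finset.union_inter_distrib_right,
              Finset.inter_eq_left.2 (hT.trans (h1 (J + 1)))] at h6
            have h7 : Disjoint (W1 ∩ A (J + 1)) T := by
              refine Finset.disjoint_of_subset_left Finset.inter_subset_left ?_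
              refine Finset.disjoint_of_subset_left hW1 ?_
              exact Finset.disjoint_of_subset_right hT hdis
            rw [Finset.card_union_of_disjoint h7] at h6
            omega
          · rw [if_neg hS]
            split_ifs <;> norm_num
        calc √(G.card : ℝ) * ex (1 / 2) G (fun T => if ES (W1 ∪ T) then (1 : ℝ) else 0)
            ≤ √(G.card : ℝ) * ex (1 / 2) G (fun T => if T.card =
              (W1 ∩ C (J + 1)).card - (W1 ∩ A (J + 1)).card then (1 : ℝ) else 0) :=
              mul_le_mul_of_nonneg_left h5 (Real.sqrt_nonneg _)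
          _ ≤ 1 := by
              rw [mul_comm]
              exact WPR_pt G _
      · rw [if_neg hE]
        have h5 : ex (1 / 2) G (fun T => if ES (W1 ∪ T) then (1 : ℝ) else 0) = 0 := by
          refine (ex_congr _ fun T hT => ?_).trans (ex_const (1 / 2) G 0)
          rw [if_neg]
          intro hS
          exact hE ((hEJ W1 T hT).1 (fun j hj1 hj2 => hS j hj1 (by omega)))
        rw [h5, mul_zero]
    rw [Finset.prod_range_succ]
    calc pr (1 / 2) V ES * ((∏ j ∈ Finset.range J, √((F (j + 1)).card : ℝ)) * √(G.card : ℝ))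
        = (pr (1 / 2) V ES * √(G.card : ℝ)) * ∏ j ∈ Finset.range J, √((F (j + 1)).card : ℝ) := by
          ring
      _ ≤ pr (1 / 2) V EJ * ∏ j ∈ Finset.range J, √((F (j + 1)).card : ℝ) :=
          mul_le_mul_of_nonneg_right hstep (Finset.prod_nonneg fun _ _ => Real.sqrt_nonneg _)
      _ ≤ 1 := ih

end Pool.Agent.MDF
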