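import Pool.Agent.MDF.Defs

set_option autoImplicit false

open scoped Classical

namespace Pool.Agent.MDF

open Finset Pool.Agent.MD437

variable {n : ℕ}

private lemma wtl_ex_card {α : Type} [DecidableEq α] (V A : Finset α) (hA : A ⊆ V) :
    ex (1 / 2) V (fun W => ((W ∩ A).card : ℝ)) = (A.card : ℝ) / 2 := by
  have h1 : ex (1 / 2) V (fun W => ((W ∩ A).card : ℝ)) =
      ex (1 / 2) V (fun W => ∑ a ∈ A, if a ∈ W then (1 : ℝ) else 0) := by
    refine ex_congr _ fun W _ => ?_
    rw [Finset.sum_ite_mem, Finset.inter_comm A W, Finset.sum_const, nsmul_eq_mul, mul_one]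
  rw [h1, ex_sum, Finset.sum_congr rfl fun a ha => ex_mem (1 / 2 : ℝ) (hA ha)]
  rw [Finset.sum_const, nsmul_eq_mul]
  ring

private lemma wtl_insert {α : Type} [DecidableEq α] (S A : Finset α) (i : α) :
    (((insert i S) ∩ A).card : ℝ) - ((S ∩ A).card : ℝ) = if i ∈ A ∧ i ∉ S then 1 else 0 := by
  by_cases hA : i ∈ A
  · rw [Finset.insert_inter_of_mem hA]
    by_cases hS : i ∈ S
    · rw [Finset.insert_eq_of_mem (Finset.mem_inter.2 ⟨hS, hA⟩)]
      simp [hS]
    · rw [Finset.card_insert_of_notMem (fun h => hS (Finset.mem_inter.1 h).1)]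
      simp [hS, hA]
  · rw [Finset.insert_inter_of_notMem hA]
    simp [hA]

/-- WTL -/
theorem w_tail {α : Type} [DecidableEq α] (V A C : Finset α) (hA : A ⊆ V) (hC : C ⊆ V)
    (N L : ℝ) (hL : 0 < L) (h : L ≤ |(A.card : ℝ) - C.card|)
    (hN : (A.card : ℝ) + C.card ≤ N) :
    pr (1 / 2) V (fun W => (W ∩ A).card = (W ∩ C).card) ≤
      2 * Real.exp (-(L ^ 2 / (8 * N))) := by
  have hA0 : (0 : ℝ) ≤ A.card := Nat.cast_nonneg _
  have hC0 : (0 : ℝ) ≤ C.card := Nat.cast_nonneg _
  have hLN : L ≤ N := by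
    refine h.trans ((abs_le.2 ⟨?_, ?_⟩).trans hN) <;> linarith
  have hN0 : 0 < N := by linarith
  obtain ⟨lam, hlam, hm⟩ : ∃ lam : ℝ, |lam| = L / (2 * N) ∧
      lam * (((A.card : ℝ) - C.card) / 2) ≤ -(L / (2 * N)) * (L / 2) := by
    have hpos : 0 ≤ L / (2 * N) := by positivity
    rcases le_total 0 ((A.card : ℝ) - C.card) with h0 | h0
    · refine ⟨-(L / (2 * N)), by rw [abs_neg, abs_of_nonneg hpos], ?_⟩
      rw [abs_of_nonneg h0] at h
      have := mul_le_mul_of_nonneg_left h hpos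
      nlinarith
    · refine ⟨L / (2 * N), abs_of_nonneg hpos, ?_⟩
      rw [abs_of_nonpos h0] at h
      have := mul_le_mul_of_nonneg_left h hpos
      nlinarith
  set f : Finset α → ℝ := fun W => ((W ∩ A).card : ℝ) - ((W ∩ C).card : ℝ) with hf
  set c : α → ℝ := fun i => if i ∈ A ∪ C then 1 else 0 with hc
  have hEf : ex (1 / 2) V f = ((A.card : ℝ) - C.card) / 2 := by
    rw [hf, ex_sub, wtl_ex_card V A hA, wtl_ex_card V C hC]
    ring
  have hlam1 : |lam| ≤ 1 := by
    rw [hlam, div_le_one (by positivity)]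
    linarith
  have hmgf := mgf (p := 1 / 2) (by norm_num) (by norm_num) V c lam
    (fun i _ => by
      simp only [hc]
      split_ifs
      · linarith
      · linarith [abs_nonneg lam]) f
    (fun i _ S => by
      have e : f (insert i S) - f S =
          (if i ∈ A ∧ i ∉ S then (1 : ℝ) else 0) - (if i ∈ C ∧ i ∉ S then 1 else 0) := by
        rw [← wtl_insert S A i, ← wtl_insert S C i]
        simp only [hf]
        ring
      rw [e]
      simp only [hc, Finset.mem_union]
      by_cases h1 : i ∈ A <;> by_cases h2 : i ∈ C <;> by_cases h3 : i ∈ S <;>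
        simp [h1, h2, h3])
  have hsum : ∑ i ∈ V, c i ^ 2 ≤ N := by
    have e1 : ∑ i ∈ V, c i ^ 2 = (((A ∪ C).card : ℕ) : ℝ) := by
      have e2 : ∀ i, c i ^ 2 = if i ∈ A ∪ C then (1 : ℝ) else 0 := by
        intro i
        simp only [hc]
        split_ifs <;> norm_num
      rw [Finset.sum_congr rfl fun i _ => e2 i, Finset.sum_ite_mem,
        Finset.inter_eq_right.2 (Finset.union_subset hA hC), Finset.sum_const, nsmul_eq_mul,
        mul_one]
    rw [e1]
    have e3 : (((A ∪ C).card : ℕ) : ℝ) ≤ (A.card : ℝ) + C.card := by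
      exact_mod_cast Finset.card_union_le A C
    linarith
  have hkey : pr (1 / 2) V (fun W => (W ∩ A).card = (W ∩ C).card) ≤
      ex (1 / 2) V (fun W => Real.exp (lam * f W)) := by
    rw [pr_def]
    refine ex_mono (by norm_num) (by norm_num) fun W _ => ?_
    split_ifs with h1
    · have : f W = 0 := by
        simp only [hf, h1, sub_self]
      rw [this, mul_zero, Real.exp_zero]
    · exact (Real.exp_pos _).le
  refine (hkey.trans hmgf).trans ?_
  have hexp : lam * ex (1 / 2) V f + lam ^ 2 * (1 / 2) * ∑ i ∈ V, c i ^ 2 ≤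
      -(L ^ 2 / (8 * N)) := by
    rw [hEf]
    have h2 : lam ^ 2 * (1 / 2) * ∑ i ∈ V, c i ^ 2 ≤ (L / (2 * N)) ^ 2 * (1 / 2) * N := by
      rw [← sq_abs lam, hlam]
      exact mul_le_mul_of_nonneg_left hsum (by positivity)
    have h3 : -(L / (2 * N)) * (L / 2) + (L / (2 * N)) ^ 2 * (1 / 2) * N =
        -(L ^ 2 / (8 * N)) := by
      field_simp
      ring
    linarith
  have h4 := Real.exp_le_exp.2 hexp
  have h5 := Real.exp_pos (-(L ^ 2 / (8 * N)))
  linarith

end Pool.Agent.MDF
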