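import Pool.Agent.MDF.Defs
import Pool.Agent.MDF.WPR
import Pool.Agent.MDF.WTL

set_option autoImplicit false

open scoped Classical

namespace Pool.Agent.MDF

open Finset Pool.Agent.MD437

variable {n : ℕ}

/-- MIX -/
theorem wf_nonneg (S : Finset (Sym2 (Fin n))) (u v : Fin n) (i : ℕ) : 0 ≤ wf S u v i :=
  pr_nonneg (by norm_num) (by norm_num) _ _

/-- MIX -/
theorem wf_prod (S : Finset (Sym2 (Fin n))) (u v : Fin n) (i : ℕ) (m : ℕ → ℕ)
    (hm : ∀ k, 1 ≤ k → k ≤ i → m k ≤ (sp S u k \ bl S v k).card) :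
    wf S u v i * ∏ k ∈ Finset.range i, √(m (k + 1) : ℝ) ≤ 1 := by
  have h := w_prod (Finset.univ : Finset (Fin n)) (sp S u) (sp S v)
    (fun j => sp S u j \ bl S v j) (fun j => Finset.subset_univ _)
    (fun j => Finset.sdiff_subset)
    (fun j k hkj => (sp_disj (S := S) (u := u) (ne_of_gt hkj)).mono_left Finset.sdiff_subset)
    (fun j k hkj => by
      have h1 : Disjoint (sp S u j \ bl S v j) (bl S v j) := Finset.sdiff_disjoint
      exact h1.mono_right (sp_subset.trans (bl_mono hkj))) i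
  refine le_trans ?_ h
  refine mul_le_mul_of_nonneg_left ?_ (wf_nonneg S u v i)
  refine Finset.prod_le_prod (fun k _ => Real.sqrt_nonneg _) fun k hk => ?_
  refine Real.sqrt_le_sqrt ?_
  exact_mod_cast hm (k + 1) (by omega) (by have := Finset.mem_range.1 hk; omega)

/-- MIX -/
theorem wf_tail (S : Finset (Sym2 (Fin n))) (u v : Fin n) (i j : ℕ) (h1 : 1 ≤ j) (h2 : j ≤ i)
    (N L : ℝ) (hL : 0 < L) (h : L ≤ |((sp S u j).card : ℝ) - (sp S v j).card|)
    (hN : ((sp S u j).card : ℝ) + (sp S v j).card ≤ N) :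
    wf S u v i ≤ 2 * Real.exp (-(L ^ 2 / (8 * N))) := by
  refine le_trans ?_ (w_tail (Finset.univ : Finset (Fin n)) (sp S u j) (sp S v j)
    (Finset.subset_univ _) (Finset.subset_univ _) N L hL h hN)
  exact pr_mono (by norm_num) (by norm_num) fun W _ hW => hW j h1 h2

end Pool.Agent.MDF
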