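import Pool.Agent.MDF.Defs
import Pool.Agent.MDF.PRB
import Pool.Agent.MDF.GPR
import Pool.Agent.MDF.MKV

set_option autoImplicit false

open scoped Classical

namespace Pool.Agent.MDF

open Finset Pool.Agent.MD437

variable {n : ℕ}

private lemma TOT_pb_nonneg {i : ℕ} {p d ν : ℝ} {t L V : ℕ → ℝ} {m : ℕ → ℕ}
    (h : Hyp n i p d ν t L V m) : 0 ≤ pb n i p d ν t L m := by
  unfold pb
  refine add_nonneg (Finset.sum_nonneg fun j _ => by positivity) (mul_nonneg ?_ ?_)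
  · refine Finset.prod_nonneg fun k _ => div_nonneg ?_ (Real.sqrt_nonneg _)
    have := h.hL0 (k + 1)
    linarith
  · exact Finset.prod_nonneg fun k _ => div_nonneg zero_le_one (Real.sqrt_nonneg _)

/-- TOT -/
theorem total {i : ℕ} {p d ν : ℝ} {t L V : ℕ → ℝ} {m : ℕ → ℕ} (h : Hyp n i p d ν t L V m) :
    pr p (E n) (fun S => ¬ ((∀ u, bl S u (i + 1) = Finset.univ) ∧ ∃ W : Finset (Fin n),
      ∀ u v, u ≠ v → ∃ j, (W ∩ sp S u j).card ≠ (W ∩ sp S v j).card)) ≤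
      gb n i p d ν t V m + (n : ℝ) ^ 2 * pb n i p d ν t L m := by
  have h1 := gd_prob h
  have h2 := markov (n := n) (i := i) (p := p) (D := 4 * d) (N0 := ν * n / 4)
    (β := pb n i p d ν t L m) (t := t) (m := m) h.hp0 h.hp1 (TOT_pb_nonneg h)
    (fun u v huv => pair_bound h huv)
  refine le_trans (le_trans ?_ (pr_or h.hp0 h.hp1 (E n)
    (fun S => ¬ Gd p (4 * d) (ν * n / 4) t m i S)
    (fun S => Gd p (4 * d) (ν * n / 4) t m i S ∧ ¬ ∃ W : Finset (Fin n), ∀ u v, u ≠ v →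
      ∃ j, 1 ≤ j ∧ j ≤ i ∧ (W ∩ sp S u j).card ≠ (W ∩ sp S v j).card))) (add_le_add h1 h2)
  refine pr_mono h.hp0 h.hp1 fun S _ hS => ?_
  by_cases hG : Gd p (4 * d) (ν * n / 4) t m i S
  · refine Or.inr ⟨hG, fun hW => hS ⟨hG.2.2.2.2, ?_⟩⟩
    obtain ⟨W, hW⟩ := hW
    refine ⟨W, fun u v huv => ?_⟩
    obtain ⟨j, -, -, hj⟩ := hW u v huv
    exact ⟨j, hj⟩
  · exact Or.inl hG

end Pool.Agent.MDF
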