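import Pool.Agent.MDF.Defs
import Pool.Agent.MDF.TOT
import Pool.Agent.MDF.ASB
import Pool.Agent.MDF.ASC

set_option autoImplicit false

open scoped Classical

namespace Pool.Agent.MDF

open Finset Pool.Agent.MD437

variable {n : ℕ}

/-- FIN -/
theorem main_tendsto (i : ℕ) (x : ℝ) (hi : 2 ≤ i) (hx0 : 0 < x) (hx1 : i * x ≤ 1)
    (hx2 : 1 < (i + 1) * x) (hs : 2 < x * (i * (i + 1) / 4 + (i - 1) / 2)) :
    Filter.Tendsto (fun n : ℕ => pr (pN x n) (E n) (fun S =>
      ¬ ((∀ u, bl S u (i + 1) = Finset.univ) ∧ ∃ W : Finset (Fin n),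
      ∀ u v, u ≠ v → ∃ j, (W ∩ sp S u j).card ≠ (W ∩ sp S v j).card))) Filter.atTop
      (nhds 0) := by
  have hi' : (2 : ℝ) ≤ i := by exact_mod_cast hi
  set s : ℝ := x * (i * (i + 1) / 4 + (i - 1) / 2) with hsdef
  set ε : ℝ := min (x / 2) ((s - 2) / (2 * i)) with hεdef
  have hε2 : 0 < (s - 2) / (2 * i) := div_pos (by linarith) (by linarith)
  have hε : 0 < ε := lt_min (by linarith) hε2
  have hεx : ε ≤ x / 2 := min_le_left _ _
  have hεs : ε ≤ (s - 2) / (2 * i) := min_le_right _ _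
  have h1 : ε * (2 * i) ≤ s - 2 := by
    rw [le_div_iff₀ (by linarith)] at hεs
    exact hεs
  have hs' : 2 + (i - 1) * ε < s := by nlinarith
  have hg := gb_tendsto i x ε hi hx0 hx1 hx2 hε hεx
  have hp := pb_tendsto i x ε hi hx0 hx1 hε hεx hs'
  have hsum := hg.add hp
  rw [add_zero] at hsum
  refine tendsto_of_tendsto_of_tendsto_of_le_of_le' tendsto_const_nhds hsum ?_ ?_
  · filter_upwards [hyp_eventually i x ε hi hx0 hx1 hε hεx] with n hn
    exact pr_nonneg hn.hp0 hn.hp1 _ _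
  · filter_upwards [hyp_eventually i x ε hi hx0 hx1 hε hεx] with n hn
    exact total hn

end Pool.Agent.MDF
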